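import Mathlib
import Pool.Agent.Lib.MP_44a246_ntL.LFF
import Pool.Agent.Lib.MP_44a246_ntR.GR4

/-!
# The theorem of McQuillan and Yamanoi for the projective line with moving targets: definitions

See paper 705.  `η u = 1 / (b u - x)`.
-/

namespace Pool.Agent.Lib.MP_44a246_ntMY

open Pool.Agent.Lib.MP_44a246_nt
open Pool.Agent.Lib.MP_44a246_ntL
open Pool.Agent.Lib.MP_44a246_ntR
open WithZero Module Polynomial Filter Topology Asymptotics
open scoped ComplexConjugate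

/-! ## Algebra -/

/-- the Wronskian of the triangle `S` -/
def WW {R : Type*} [CommRing R] {q : ℕ} (η η' : Fin q → R) (S : Fin 3 ↪ Fin q) : R :=
  (η' (S 0) - η' (S 1)) * (η (S 1) - η (S 2)) - (η (S 0) - η (S 1)) * (η' (S 1) - η' (S 2))

/-- the cross ratio -/
def chi {R : Type*} [Field R] {q : ℕ} (η : Fin q → R) (f : Fin 4 ↪ Fin q) : R :=
  (η (f 1) - η (f 2)) * (η (f 3) - η (f 0)) / ((η (f 2) - η (f 0)) * (η (f 1) - η (f 3)))

/-! ## Real functions of `η : Fin q → ℂ` and of the derivative `η'` -/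

/-- `∑ c_a |h_a|²`, the sum over the ordered pairs `a = (u, v)`, `h_a = η u - η v` -/
noncomputable def QQ {q : ℕ} (c : Fin q → Fin q → ℝ) (η : Fin q → ℂ) : ℝ :=
  ∑ u, ∑ v, c u v * Complex.normSq (η u - η v)

/-- `1/4` of the Laplacian of `log (QQ c η)` -/
noncomputable def VV {q : ℕ} (c : Fin q → Fin q → ℝ) (η η' : Fin q → ℂ) : ℝ :=
  QQ c η' / QQ c η -
    Complex.normSq (∑ u, ∑ v, (c u v : ℂ) * (conj (η u - η v) * (η' u - η' v))) / QQ c η ^ 2

/-- the weight `1` -/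
def c1 (q : ℕ) : Fin q → Fin q → ℝ := fun _ _ => 1

open Classical in
/-- the weight of the edges of the triangle `S` -/
noncomputable def cT {q : ℕ} (S : Fin 3 ↪ Fin q) : Fin q → Fin q → ℝ :=
  fun u v => if u ∈ Set.range S ∧ v ∈ Set.range S then 1 else 0

/-- the weight `δ + cT S` -/
noncomputable def cD {q : ℕ} (δ : ℝ) (S : Fin 3 ↪ Fin q) : Fin q → Fin q → ℝ :=
  fun u v => δ + cT S u v

/-- the product of the squares of the edges of the triangle -/
noncomputable def JJ {q : ℕ} (η : Fin q → ℂ) (S : Fin 3 ↪ Fin q) : ℝ :=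
  Complex.normSq (η (S 0) - η (S 1)) * Complex.normSq (η (S 1) - η (S 2)) *
    Complex.normSq (η (S 2) - η (S 0))

/-- the exponent -/
noncomputable def RR {q : ℕ} (k ε δ : ℝ) (η : Fin q → ℂ) (S : Fin 3 ↪ Fin q) : ℝ :=
  - (1 - k) * Real.log (JJ η S) + (1 - k - ε) * Real.log (QQ (c1 q) η) +
    (1 - 2 * k) * Real.log (QQ (cT S) η) - (1 - ε) * Real.log (QQ (cD δ S) η)

/-- `exp F_S` -/
noncomputable def EE {q : ℕ} (k ε δ : ℝ) (η η' : Fin q → ℂ) (S : Fin 3 ↪ Fin q) : ℝ :=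
  Complex.normSq (WW η η' S) * Real.exp (RR k ε δ η S)

/-- `1/4` of the Laplacian of `RR` -/
noncomputable def LR {q : ℕ} (k ε δ : ℝ) (η η' : Fin q → ℂ) (S : Fin 3 ↪ Fin q) : ℝ :=
  (1 - k - ε) * VV (c1 q) η η' + (1 - 2 * k) * VV (cT S) η η' - (1 - ε) * VV (cD δ S) η η'

/-- `u = log (1 + y) + log (1 + 1 / y)` -/
noncomputable def uu (y : ℝ) : ℝ := Real.log (1 + y) + Real.log (1 + y⁻¹)

/-- the logarithmic derivative of the cross ratio -/
noncomputable def dchi {q : ℕ} (η η' : Fin q → ℂ) (f : Fin 4 ↪ Fin q) : ℂ :=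
  (η' (f 1) - η' (f 2)) / (η (f 1) - η (f 2)) + (η' (f 3) - η' (f 0)) / (η (f 3) - η (f 0)) -
    (η' (f 2) - η' (f 0)) / (η (f 2) - η (f 0)) - (η' (f 1) - η' (f 3)) / (η (f 1) - η (f 3))

/-- the density of the cross ratio -/
noncomputable def Al {q : ℕ} (η η' : Fin q → ℂ) (f : Fin 4 ↪ Fin q) : ℝ :=
  Complex.normSq (dchi η η' f) / (1 + uu (Complex.normSq (chi η f))) ^ 2

/-- the potential of the cross ratio, as a function of `y = |χ|²` -/
noncomputable def Pot (y : ℝ) : ℝ := - Real.log (1 + uu y) + 6 * Real.log (1 + y)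

/-- the total exponent: `a0`, `a1` the ends of the reference edge, `τ` the value of `t` -/
noncomputable def RT {q : ℕ} (k ε δ C : ℝ) (a0 a1 : Fin q) (η : Fin q → ℂ) (τ : ℂ)
    (S : Fin 3 ↪ Fin q) : ℝ :=
  RR k ε δ η S + C * ∑ f : Fin 4 ↪ Fin q, Pot (Complex.normSq (chi η f)) +
    Real.log (1 + Complex.normSq τ) -
    (1 - 4 * ε) * (Real.log (QQ (c1 q) η) - Real.log (Complex.normSq (η a0 - η a1)))

/-! ## Second order jets -/

/-- the function `φ` of the small complex number `s ≠ 0` has the expansion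
`φ₀ + 2 Re (A s) + Re (B s²) + c |s|² + O (|s|³)` -/
def HasJ (φ : ℂ → ℝ) (φ₀ : ℝ) (A B : ℂ) (c : ℝ) : Prop :=
  (fun s => φ s - (φ₀ + 2 * (A * s).re + (B * s ^ 2).re + c * Complex.normSq s))
    =O[𝓝[≠] (0 : ℂ)] fun s => ‖s‖ ^ 3

/-- the complex function `f` has the expansion `f₀ + f₁ s + f₂ s² + O (|s|³)` -/
def HasH (f : ℂ → ℂ) (f₀ f₁ f₂ : ℂ) : Prop :=
  (fun s => f s - (f₀ + f₁ * s + f₂ * s ^ 2)) =O[𝓝[≠] (0 : ℂ)] fun s => ‖s‖ ^ 3

/-! ## Places -/

section Places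

variable {L : Type*} [Field L] [Algebra ℂ L]

open Classical in
/-- the value of `f` at the place `p` (`0` at a pole) -/
noncomputable def val (p : Place ℂ L) (f : L) : ℂ :=
  if h : ∃ c : ℂ, p.1 (f - algebraMap ℂ L c) < 1 then h.choose else 0

/-- the filter `𝒰` of places converges to the place `w` -/
def TendsP (𝒰 : Filter (Place ℂ L)) (w : Place ℂ L) : Prop :=
  ∀ f : L, w.1 f ≤ 1 → (∀ᶠ p in 𝒰, p.1 f ≤ 1) ∧ Tendsto (fun p => val p f) 𝒰 (𝓝 (val w f))

/-- `x` meets `b` at the place `w` -/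
def Meets {κ L : Type*} [Field κ] [Field L] [Algebra κ L] (w : Place κ L) (x b : L) : Prop :=
  w.1 (x - b) < max 1 (w.1 x) * max 1 (w.1 b)

/-- `1 / (b - x)` -/
def eta {L : Type*} [Field L] {q : ℕ} (x : L) (b : Fin q → L) : Fin q → L := fun u => (b u - x)⁻¹

/-- the edges `h_a = η u - η v` -/
def edges {L : Type*} [Field L] {q : ℕ} (η : Fin q → L) : Fin q × Fin q → L :=
  fun a => η a.1 - η a.2

/-- the edges of the triangle `S` -/
def edgesT {L : Type*} [Field L] {q : ℕ} (η : Fin q → L) (S : Fin 3 ↪ Fin q) : Fin 3 → L :=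
  ![η (S 0) - η (S 1), η (S 1) - η (S 2), η (S 2) - η (S 0)]

/-- the order of the pole of `exp RR` at the place `w` -/
noncomputable def rhoR {L : Type*} [Field L] [Algebra ℂ L] {q : ℕ} (k : ℝ) (w : Place ℂ L)
    (η : Fin q → L) (S : Fin 3 ↪ Fin q) : ℝ :=
  - (1 - k) * ((log (w.1 (edgesT η S 0)) + log (w.1 (edgesT η S 1)) + log (w.1 (edgesT η S 2)) : ℤ) : ℝ) -
    k * ((log (vmax w.1 (edges η)) : ℤ) : ℝ) + (1 - 2 * k) * ((log (vmax w.1 (edgesT η S)) : ℤ) : ℝ)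

/-- the order of the pole of the rest of `exp RT` at the place `w` -/
noncomputable def rhoC {L : Type*} [Field L] [Algebra ℂ L] {q : ℕ} (ε C : ℝ) (a0 a1 : Fin q)
    (w : Place ℂ L) (η : Fin q → L) (t : L) : ℝ :=
  6 * C * ∑ f : Fin 4 ↪ Fin q, max 0 ((log (w.1 (chi η f)) : ℤ) : ℝ) + max 0 ((log (w.1 t) : ℤ) : ℝ) -
    (1 - 4 * ε) * (((log (vmax w.1 (edges η)) : ℤ) : ℝ) - ((log (w.1 (η a0 - η a1)) : ℤ) : ℝ))

end Places

/-- **The theorem of McQuillan and Yamanoi** for the projective line with moving targets. -/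
def MYP.{u, w} (κ : Type u) [Field κ] : Prop :=
  ∀ (q : ℕ) (ε : ℝ), 0 < ε → ∃ C : ℕ, ∀ (L : Type w) [Field L] [Algebra κ L] [Algebra (RatFunc κ) L]
    [IsScalarTower κ (RatFunc κ) L] [FiniteDimensional (RatFunc κ) L] (x : L) (b : Fin q → L),
    Function.Injective b →
    ((q : ℝ) - 2 - ε) * height κ ![1, x] ≤ Set.ncard {w : Place κ L | ∃ v, Meets w x (b v)} +
      ramDeg κ L (RatFunc κ) +
      C * ((finrank (RatFunc κ) L : ℝ) + ∑ v, (height κ ![1, b v] : ℝ))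

end Pool.Agent.Lib.MP_44a246_ntMY
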