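import Mathlib
import Pool.Agent.Lib.MP_44a246_ntR.GR4
import Pool.Agent.Lib.MP_44a246_ntYT.YT06

/-!
# Part (C) of paper 705: functions on the limit curve
-/

namespace Pool.Agent.Lib.MP_44a246_ntMY

open Pool.Agent.Lib.MP_e52354_nt
open Pool.Agent.Lib.MP_44a246_nt
open Pool.Agent.Lib.MP_44a246_ntL
open Pool.Agent.Lib.MP_44a246_ntR
open WithZero Module Polynomial

variable {F M : Type*} [Field F] [IsAlgClosed F] [CharZero F] [Field M] [Algebra F M]

/-- comparison of two vectors -/
theorem exists_scale (hM : IsFF F M) {k l : ℕ} {α : Fin k → M} {β : Fin l → M} (hα : α ≠ 0)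
    (hβ : β ≠ 0) (h : height F α + genus F M ≤ height F β) :
    ∃ c : M, c ≠ 0 ∧ ∀ v : Place F M, v.1 c * vmax v.1 α ≤ vmax v.1 β := by
  classical
  have hsα := hM.vmax_support hα
  have hsβ := hM.vmax_support hβ
  obtain ⟨A, hA⟩ : ∃ A : Place F M →₀ ℤ, ∀ v, A v = log (vmax v.1 α) :=
    ⟨Finsupp.ofSupportFinite _ hsα, fun _ => rfl⟩
  obtain ⟨D, hD⟩ : ∃ D : Place F M →₀ ℤ, ∀ v, D v = log (vmax v.1 β) :=
    ⟨Finsupp.ofSupportFinite _ hsβ, fun _ => rfl⟩
  obtain ⟨E, hE⟩ : ∃ E : Place F M →₀ ℤ, E + A = D := ⟨D - A, sub_add_cancel D A⟩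
  have hdA : divDeg A = height F α := by
    rw [divDeg_eq_finsum_gr2]
    exact finsum_congr hA
  have hdD : divDeg D = height F β := by
    rw [divDeg_eq_finsum_gr2]
    exact finsum_congr hD
  have hdE : divDeg E + divDeg A = divDeg D := by
    rw [← divDeg_add, hE]
  have h1 := genus_spec hM E
  have h2 : (0 : ℤ) < finrank F (rr E) := by omega
  have h3 : 0 < finrank F (rr E) := by exact_mod_cast h2
  have : FiniteDimensional F (rr E) := Module.finite_of_finrank_pos h3
  obtain ⟨s, hs⟩ := (finrank_pos_iff_exists_ne_zero).1 h3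
  refine ⟨(s : M), fun h0 => hs (Subtype.ext h0), fun v => ?_⟩
  have h4 : v.1 (s : M) ≤ exp (E v) := s.2 v
  have h5 : E v + A v = D v := by
    rw [← Finsupp.add_apply, hE]
  have hα0 : vmax v.1 α ≠ 0 := by rw [Ne, vmax_eq_zero_iff]; exact hα
  have hβ0 : vmax v.1 β ≠ 0 := by rw [Ne, vmax_eq_zero_iff]; exact hβ
  calc v.1 (s : M) * vmax v.1 α ≤ exp (E v) * vmax v.1 α := mul_le_mul_left h4 _
    _ = exp (E v) * exp (A v) := by rw [hA, exp_log hα0]
    _ = vmax v.1 β := by rw [← exp_add, h5, hD, exp_log hβ0]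

/-- two functions with poles only at `b`, of consecutive orders -/
theorem exists_nearC (hM : IsFF F M) (b : Place F M) :
    ∃ (n : ℕ) (u u' : M), 0 < n ∧ b.1 u = exp (n : ℤ) ∧ b.1 u' = exp (n + 1 : ℤ) ∧
      (∀ v : Place F M, v ≠ b → v.1 u ≤ 1) ∧ (∀ v : Place F M, v ≠ b → v.1 u' ≤ 1) ∧
      height F ![1, u] = n := by
  classical
  -- the dimensions
  obtain ⟨l, hl⟩ : ∃ l : ℕ → ℕ, ∀ m, l m = finrank F (rr (Finsupp.single b (m : ℤ))) :=
    ⟨_, fun _ => rfl⟩
  have h1 : ∀ m : ℕ, (m : ℤ) + 1 - genus F M ≤ l m := by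
    intro m
    have := genus_spec hM (Finsupp.single b (m : ℤ))
    rwa [divDeg_single, ← hl] at this
  have h2 : ∀ m : ℕ, l (m + 1) ≤ l m + 1 := by
    intro m
    have h3 := finrank_rr_le hM (D := Finsupp.single b (m : ℤ))
      (D' := Finsupp.single b ((m + 1 : ℕ) : ℤ)) (by
        intro v
        by_cases hv : v = b
        · subst hv
          rw [Finsupp.single_eq_same, Finsupp.single_eq_same]
          push_cast
          omega
        · rw [Finsupp.single_eq_of_ne hv, Finsupp.single_eq_of_ne hv])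
    rw [divDeg_single, divDeg_single, ← hl, ← hl] at h3
    push_cast at h3
    omega
  obtain ⟨m₀, hm₀⟩ : ∃ m₀ : ℕ, ∀ m, ((l m₀ : ℤ) + genus F M - m₀ - 1).toNat ≤
      ((l m : ℤ) + genus F M - m - 1).toNat :=
    ⟨Function.argmin (fun m : ℕ => ((l m : ℤ) + genus F M - m - 1).toNat), fun m =>
      Function.argmin_le (fun m : ℕ => ((l m : ℤ) + genus F M - m - 1).toNat) m⟩
  have h3 : ∀ m : ℕ, (l m₀ : ℤ) - m₀ ≤ (l m : ℤ) - m := by
    intro m
    have e1 := hm₀ m
    have e2 := h1 m
    have e3 := h1 m₀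
    omega
  have h4 : ∀ k, l (m₀ + k) = l m₀ + k := by
    intro k
    have e1 : l (m₀ + k) ≤ l m₀ + k := by
      induction k with
      | zero => rfl
      | succ k ih =>
        have := h2 (m₀ + k)
        rw [← add_assoc]
        omega
    have e2 := h3 (m₀ + k)
    push_cast at e2
    omega
  -- functions with exact order of the pole
  have h5 : ∀ m : ℕ, l m < l (m + 1) → ∃ u : M, b.1 u = exp ((m : ℤ) + 1) ∧
      ∀ v : Place F M, v ≠ b → v.1 u ≤ 1 := by
    intro m hm
    by_contra hcon
    push Not at hcon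
    have h6 : rr (Finsupp.single b ((m + 1 : ℕ) : ℤ)) ≤ rr (Finsupp.single b (m : ℤ)) := by
      intro u hu v
      have hother : ∀ v : Place F M, v ≠ b → v.1 u ≤ 1 := by
        intro v hv
        have h7 := hu v
        rwa [Finsupp.single_eq_of_ne hv, exp_zero] at h7
      by_cases hv : v = b
      · subst hv
        rw [Finsupp.single_eq_same]
        have h7 := hu v
        rw [Finsupp.single_eq_same] at h7
        push_cast at h7
        by_cases hu0 : u = 0
        · rw [hu0, map_zero]
          exact zero_le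
        have hne : v.1 u ≠ exp ((m : ℤ) + 1) := by
          intro h8
          obtain ⟨v', hv', hlt⟩ := hcon u h8
          exact absurd (hother v' hv') (not_le.2 hlt)
        have h8 : v.1 u ≠ 0 := (v.1.ne_zero_iff).2 hu0
        rw [← log_le_iff_le_exp h8] at h7 ⊢
        have h9 : log (v.1 u) ≠ (m : ℤ) + 1 := by
          intro h10
          exact hne (by rw [← h10, exp_log h8])
        omega
      · rw [Finsupp.single_eq_of_ne hv, exp_zero]
        exact hother v hv
    have hfin : FiniteDimensional F (rr (Finsupp.single b (m : ℤ))) := finite_rr hM _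
    have h7 := Submodule.finrank_mono h6
    rw [← hl, ← hl] at h7
    omega
  obtain ⟨u, hu1, hu2⟩ := h5 m₀ (by
    have := h4 1
    omega)
  obtain ⟨u', hu1', hu2'⟩ := h5 (m₀ + 1) (by
    have e1 := h4 1
    have e2 := h4 2
    have e3 : m₀ + 1 + 1 = m₀ + 2 := rfl
    rw [e3]
    omega)
  refine ⟨m₀ + 1, u, u', Nat.succ_pos _, ?_, ?_, hu2, hu2', ?_⟩
  · rw [hu1]
    push_cast
    rfl
  · rw [hu1']
  · have h6 : height F ![1, u] = ∑ᶠ v : Place F M, log (vmax v.1 ![1, u]) := rfl
    rw [h6, finsum_eq_single _ b]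
    · rw [Pool.Agent.Lib.MP_44a246_ntL.vmax_pair, hu1, max_eq_right, log_exp]
      · push_cast
        rfl
      · rw [← exp_zero, exp_le_exp]
        omega
    · intro v hv
      rw [Pool.Agent.Lib.MP_44a246_ntL.vmax_pair, max_eq_left (hu2 v hv), log_one]

/-- a sum of nonnegative integers with value one has exactly one nonzero term -/
private theorem mc01_one {ι : Type*} {f : ι → ℤ} (hf : (Function.support f).Finite)
    (h0 : ∀ i, 0 ≤ f i) (h1 : ∑ᶠ i, f i = 1) : ∃ i, ∀ j, 0 < f j ↔ j = i := by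
  classical
  rw [finsum_eq_sum_of_support_subset f (s := hf.toFinset) (by simp)] at h1
  have h2 : ∃ i ∈ hf.toFinset, f i ≠ 0 := by
    apply Finset.exists_ne_zero_of_sum_ne_zero
    rw [h1]
    exact one_ne_zero
  obtain ⟨i, hi, hi0⟩ := h2
  have h3 := Finset.add_sum_erase hf.toFinset f hi
  have h4 : 0 ≤ ∑ j ∈ hf.toFinset.erase i, f j := Finset.sum_nonneg fun j _ => h0 j
  have h5 := h0 i
  have h6 : f i = 1 := by omega
  refine ⟨i, fun j => ⟨fun hj => ?_, ?_⟩⟩
  · by_contra hne
    have h7 : ∑ j ∈ hf.toFinset.erase i, f j = 0 := by omega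
    have h8 : j ∈ hf.toFinset.erase i := by
      rw [Finset.mem_erase, Set.Finite.mem_toFinset]
      exact ⟨hne, hj.ne'⟩
    exact hj.ne' ((Finset.sum_eq_zero_iff_of_nonneg fun j _ => h0 j).1 h7 j h8)
  · rintro rfl
    omega

omit [IsAlgClosed F] [CharZero F] in
theorem height_zero_fun : height F ![1, (0 : M)] = 0 := by
  have h1 : height F ![1, (0 : M)] = ∑ᶠ v : Place F M, log (vmax v.1 ![1, (0 : M)]) := rfl
  have h2 : ∀ v : Place F M, log (vmax v.1 ![1, (0 : M)]) = 0 := by
    intro v
    rw [Pool.Agent.Lib.MP_44a246_ntL.vmax_pair, map_zero, max_eq_left zero_le_one, log_one]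
  rw [h1, finsum_congr h2, finsum_zero]

/-- the height of `f - c` -/
theorem height_sub_const (f : M) (c : F) :
    height F ![1, f - algebraMap F M c] = height F ![1, f] := by
  have hcon : ∀ (v : Place F M) (c : F), v.1 (algebraMap F M c) ≤ 1 := by
    intro v c
    by_cases h0 : c = 0
    · rw [h0, map_zero, map_zero]
      exact zero_le_one
    · exact (v.2.2 c h0).le
  unfold height
  refine finsum_congr fun v => ?_
  rw [Pool.Agent.Lib.MP_44a246_ntL.vmax_pair, Pool.Agent.Lib.MP_44a246_ntL.vmax_pair]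
  congr 1
  apply le_antisymm
  · refine max_le (le_max_left _ _) ((v.1.map_sub _ _).trans (max_le (le_max_right _ _) ?_))
    exact (hcon v c).trans (le_max_left _ _)
  · refine max_le (le_max_left _ _) ?_
    have h1 : f = (f - algebraMap F M c) + algebraMap F M c := by ring
    calc v.1 f = v.1 ((f - algebraMap F M c) + algebraMap F M c) := by rw [← h1]
      _ ≤ max (v.1 (f - algebraMap F M c)) (v.1 (algebraMap F M c)) := v.1.map_add _ _
      _ ≤ max 1 (v.1 (f - algebraMap F M c)) :=
        max_le (le_max_right _ _) ((hcon v c).trans (le_max_left _ _))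

/-- the height of `1 / f` -/
theorem height_inv_fun (hM : IsFF F M) {f : M} (hf : f ≠ 0) :
    height F ![1, f⁻¹] = height F ![1, f] := by
  have h1 := hM.height_smul (x := ![1, f⁻¹]) hf
  rw [← h1]
  unfold height
  refine finsum_congr fun v => ?_
  congr 1
  apply le_antisymm
  · refine vmax_le _ fun i => ?_
    fin_cases i
    · exact le_of_eq_of_le (by simp) (le_vmax v.1 ![1, f] 1)
    · exact le_of_eq_of_le (by simp [mul_inv_cancel₀ hf]) (le_vmax v.1 ![1, f] 0)
  · refine vmax_le _ fun i => ?_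
    fin_cases i
    · exact le_of_eq_of_le (by simp [mul_inv_cancel₀ hf])
        (le_vmax v.1 (fun i => f * ![1, f⁻¹] i) 1)
    · exact le_of_eq_of_le (by simp) (le_vmax v.1 (fun i => f * ![1, f⁻¹] i) 0)

/-- a function of height one takes every value at exactly one place -/
theorem exists_place_value (hM : IsFF F M) {f : M} (hf : height F ![1, f] = 1) (c : F) :
    ∃ P : Place F M, ∀ v : Place F M, v.1 (f - algebraMap F M c) < 1 ↔ v = P := by
  have hfc : f - algebraMap F M c ≠ 0 := by
    intro h0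
    have h1 := height_sub_const f c
    rw [h0, hf] at h1
    have h2 := height_zero_fun (F := F) (M := M)
    omega
  have h1 : height F ![1, (f - algebraMap F M c)⁻¹] = 1 := by
    rw [height_inv_fun hM hfc, height_sub_const, hf]
  have hx : (![1, (f - algebraMap F M c)⁻¹]) ≠ 0 := by
    intro h
    have := congrFun h 0
    simp at this
  have h2 : ∀ v : Place F M, log (vmax v.1 ![1, (f - algebraMap F M c)⁻¹]) =
      max 0 (-log (v.1 (f - algebraMap F M c))) := by
    intro v
    have hv0 : v.1 (f - algebraMap F M c) ≠ 0 := (v.1.ne_zero_iff).2 hfc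
    rw [Pool.Agent.Lib.MP_44a246_ntL.vmax_pair, map_inv₀]
    rcases le_total (v.1 (f - algebraMap F M c))⁻¹ 1 with h | h
    · have h3 : log (v.1 (f - algebraMap F M c))⁻¹ ≤ 0 := by
        rw [log_le_iff_le_exp (inv_ne_zero hv0), exp_zero]
        exact h
      rw [log_inv] at h3
      rw [max_eq_left h, max_eq_left h3, log_one]
    · have h3 : 0 ≤ log (v.1 (f - algebraMap F M c))⁻¹ := by
        rw [le_log_iff_exp_le (inv_ne_zero hv0), exp_zero]
        exact h
      rw [log_inv] at h3
      rw [max_eq_right h, max_eq_right h3, log_inv]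
  obtain ⟨P, hP⟩ := mc01_one (hM.vmax_support hx)
    (fun v => by rw [h2]; exact le_max_left _ _) h1
  refine ⟨P, fun v => ?_⟩
  rw [← hP v, h2]
  have hv0 : v.1 (f - algebraMap F M c) ≠ 0 := (v.1.ne_zero_iff).2 hfc
  have h3 : v.1 (f - algebraMap F M c) < 1 ↔ log (v.1 (f - algebraMap F M c)) < 0 := by
    rw [log_lt_iff_lt_exp hv0, exp_zero]
  rw [h3]
  omega

/-- a function `X` and finitely many finite values `β` of `X`, which contain all the branch values
and the values at `B`: `Bt` is the set of all the places over the `β i` -/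
theorem exists_targets [Algebra (RatFunc F) M] [IsScalarTower F (RatFunc F) M]
    [FiniteDimensional (RatFunc F) M] (B : Finset (Place F M)) :
    ∃ (X : M) (q : ℕ) (β : Fin q → F) (Bt : Finset (Place F M)), Function.Injective β ∧ B ⊆ Bt ∧
      (∀ v : Place F M, v ∈ Bt ↔ ∃ i, v.1 (X - algebraMap F M (β i)) < 1) ∧
      0 < height F ![1, X] ∧
      (ramDeg F M (RatFunc F) : ℤ) - 2 * finrank (RatFunc F) M + Bt.card =
        (q - 2) * height F ![1, X] := by
  classical
  have hM : IsFF F M := isFF_of_ratFunc F M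
  have hR : IsFF F (RatFunc F) := isFF_ratFunc F
  have hfin : {v : Place F M | ramIdx (RatFunc F) v.1 ≠ 1}.Finite := hM.ramIdx_finite
  obtain ⟨S, hS⟩ : ∃ S : Finset (Place F M), S = B ∪ hfin.toFinset := ⟨_, rfl⟩
  obtain ⟨X0, hX0⟩ : ∃ X0 : M, X0 = algebraMap (RatFunc F) M RatFunc.X := ⟨_, rfl⟩
  -- the pole
  have hcon : ∀ (v : Place F M) (c c' : F), v.1 (X0 - algebraMap F M c) < 1 →
      v.1 (X0 - algebraMap F M c') < 1 → c = c' := by
    intro v c c' h1 h2
    by_contra hne
    have h3 : v.1 (algebraMap F M (c' - c)) = 1 := v.2.2 _ (sub_ne_zero.2 (Ne.symm hne))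
    have h4 : algebraMap F M (c' - c) = (X0 - algebraMap F M c) - (X0 - algebraMap F M c') := by
      rw [map_sub]
      ring
    rw [h4] at h3
    exact absurd h3 (((v.1.map_sub _ _).trans_lt (max_lt h1 h2)).ne)
  obtain ⟨c, hc⟩ : ∃ c : F, ∀ v ∈ S, 1 ≤ v.1 (X0 - algebraMap F M c) := by
    have hbad : (⋃ v ∈ S, {c : F | v.1 (X0 - algebraMap F M c) < 1}).Finite := by
      refine Set.Finite.biUnion S.finite_toSet fun v _ => ?_
      refine Set.Subsingleton.finite fun c h1 c' h2 => ?_
      exact hcon v c c' h1 h2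
    obtain ⟨c, hc⟩ := hbad.exists_notMem
    refine ⟨c, fun v hv => ?_⟩
    by_contra h1
    push Not at h1
    apply hc
    rw [Set.mem_iUnion₂]
    exact ⟨v, hv, h1⟩
  obtain ⟨Y, hY⟩ : ∃ Y : RatFunc F, Y = (RatFunc.X - algebraMap F (RatFunc F) c)⁻¹ := ⟨_, rfl⟩
  obtain ⟨X, hX⟩ : ∃ X : M, X = algebraMap (RatFunc F) M Y := ⟨_, rfl⟩
  have hY0 : (RatFunc.X - algebraMap F (RatFunc F) c) ≠ 0 := by
    intro h0
    have h1 := height_sub_const (F := F) (M := RatFunc F) RatFunc.X c
    rw [h0, height_ratFunc_X] at h1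
    have h2 := height_zero_fun (F := F) (M := RatFunc F)
    omega
  have hXv : X = (X0 - algebraMap F M c)⁻¹ := by
    rw [hX, hY, hX0, map_inv₀, map_sub, ← IsScalarTower.algebraMap_apply]
  have hhY : height F ![1, Y] = 1 := by
    rw [hY, height_inv_fun hR hY0, height_sub_const, height_ratFunc_X]
  have hhX : height F ![1, X] = finrank (RatFunc F) M := by
    have hx : (![1, Y]) ≠ 0 := by
      intro h
      have := congrFun h 0
      simp at this
    have h1 := IsFF.height_ext (K := RatFunc F) hM hx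
    rw [hhY, mul_one] at h1
    rw [← h1]
    congr 1
    funext i
    fin_cases i
    · simp
    · simp [hX]
  have hfpos : 0 < finrank (RatFunc F) M := finrank_pos
  -- the values
  have hval : ∀ v ∈ S, ∃ β : F, v.1 (X - algebraMap F M β) < 1 := by
    intro v hv
    refine hM.place_residue v ?_
    rw [hXv, map_inv₀]
    exact inv_le_one_of_one_le₀ (hc v hv)
  choose! bv hbv using hval
  obtain ⟨V, hV⟩ : ∃ V : Finset F, V = S.image bv := ⟨_, rfl⟩
  -- the places of the field of rational functions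
  choose P hP using fun β : F => exists_place_value hR hhY β
  have hover : ∀ v : Place F M, ∀ β : F, v.1 (X - algebraMap F M β) < 1 ↔
      below (RatFunc F) v = P β := by
    intro v β
    rw [← hP β]
    have h1 : X - algebraMap F M β = algebraMap (RatFunc F) M (Y - algebraMap F (RatFunc F) β) := by
      rw [map_sub, hX, ← IsScalarTower.algebraMap_apply]
    have he := one_le_ramIdx (K := RatFunc F) v.1 v.2.1
    rw [h1, below_pow]
    constructor
    · intro h2
      by_contra h3
      push Not at h3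
      exact absurd h2 (not_lt.2 (one_le_pow₀ h3))
    · intro h2
      exact pow_lt_one₀ zero_le h2 (by omega)
  choose T _ hT hsum using fun v : Place F (RatFunc F) => hM.exists_over (K := RatFunc F) v
  have hPinj : ∀ β β' : F, P β = P β' → β = β' := by
    intro β β' h
    by_contra hne
    have h1 := (hP β (P β)).2 rfl
    have h2 := (hP β' (P β)).2 h
    have h3 : (P β).1 (algebraMap F (RatFunc F) (β' - β)) = 1 :=
      (P β).2.2 _ (sub_ne_zero.2 (Ne.symm hne))
    have h4 : algebraMap F (RatFunc F) (β' - β) =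
        (Y - algebraMap F (RatFunc F) β) - (Y - algebraMap F (RatFunc F) β') := by
      rw [map_sub]
      ring
    rw [h4] at h3
    exact absurd h3 ((((P β).1.map_sub _ _).trans_lt (max_lt h1 h2)).ne)
  obtain ⟨Bt, hBt⟩ : ∃ Bt : Finset (Place F M), Bt = V.biUnion fun β => T (P β) := ⟨_, rfl⟩
  have hmem : ∀ v : Place F M, v ∈ Bt ↔ ∃ β ∈ V, v.1 (X - algebraMap F M β) < 1 := by
    intro v
    rw [hBt, Finset.mem_biUnion]
    refine exists_congr fun β => and_congr_right fun _ => ?_
    rw [hT, hover]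
  have hSBt : S ⊆ Bt := by
    intro v hv
    rw [hmem]
    exact ⟨bv v, by rw [hV]; exact Finset.mem_image_of_mem bv hv, hbv v hv⟩
  have hdisj : ∀ β ∈ V, ∀ β' ∈ V, β ≠ β' → Disjoint (T (P β)) (T (P β')) := by
    intro β _ β' _ hne
    rw [Finset.disjoint_left]
    intro v hv hv'
    rw [hT] at hv hv'
    exact hne (hPinj β β' (hv.symm.trans hv'))
  have hcard : Bt.card = ∑ β ∈ V, (T (P β)).card := by
    rw [hBt]
    exact Finset.card_biUnion hdisj
  have hram : (ramDeg F M (RatFunc F) : ℤ) = ∑ v ∈ Bt, ((ramIdx (RatFunc F) v.1 : ℤ) - 1) := by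
    rw [ramDeg_eq hM, finsum_eq_sum_of_support_subset (s := Bt)]
    · refine Finset.sum_congr rfl fun v _ => ?_
      have he := one_le_ramIdx (K := RatFunc F) v.1 v.2.1
      omega
    · intro v hv
      rw [Finset.mem_coe]
      apply hSBt
      rw [hS, Finset.mem_union, Set.Finite.mem_toFinset]
      right
      intro h1
      apply hv
      simp only
      rw [h1]
      simp
  have hram2 : (ramDeg F M (RatFunc F) : ℤ) + Bt.card = V.card * finrank (RatFunc F) M := by
    have h1 : ∑ v ∈ Bt, ((ramIdx (RatFunc F) v.1 : ℤ) - 1) + Bt.card =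
        ∑ v ∈ Bt, (ramIdx (RatFunc F) v.1 : ℤ) := by
      rw [Finset.sum_sub_distrib, Finset.sum_const, nsmul_eq_mul, mul_one]
      ring
    rw [hram, h1, hBt, Finset.sum_biUnion hdisj]
    rw [Finset.sum_congr rfl fun β _ => hsum (P β), Finset.sum_const, nsmul_eq_mul]
  refine ⟨X, V.card, fun i => (V.equivFin.symm i : F), Bt, ?_, ?_, ?_, ?_, ?_⟩
  · intro i j hij
    exact V.equivFin.symm.injective (Subtype.ext hij)
  · refine Finset.Subset.trans ?_ hSBt
    rw [hS]
    exact Finset.subset_union_left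
  · intro v
    rw [hmem]
    constructor
    · rintro ⟨β, hβ, h1⟩
      exact ⟨V.equivFin ⟨β, hβ⟩, by simpa using h1⟩
    · rintro ⟨i, hi⟩
      exact ⟨_, (V.equivFin.symm i).2, hi⟩
  · rw [hhX]
    exact_mod_cast hfpos
  · rw [hhX]
    linarith

end Pool.Agent.Lib.MP_44a246_ntMY
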