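import Mathlib
import Pool.Agent.Lib.MP_44a246_ntTM.TM01

/-!
# Part (C) of paper 705: the places of a larger field over a finite set of places
-/

namespace Pool.Agent.Lib.MP_44a246_ntMY

open Pool.Agent.Lib.MP_e52354_nt
open Pool.Agent.Lib.MP_44a246_nt
open Pool.Agent.Lib.MP_44a246_ntL
open Pool.Agent.Lib.MP_44a246_ntY
open Pool.Agent.Lib.MP_44a246_ntS
open Pool.Agent.Lib.MP_44a246_ntSH
open Pool.Agent.Lib.MP_44a246_ntTM
open WithZero Module Polynomial

/-- the places of a larger field over a finite set of places -/
theorem exists_above_incl {κ L Ω : Type*} [Field κ] [IsAlgClosed κ] [CharZero κ] [Field L]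
    [Algebra κ L] [Field Ω] [Algebra L Ω] [Algebra κ Ω] [IsScalarTower κ L Ω] (hL : IsFF κ L)
    {A B : IntermediateField L Ω} (h : A ≤ B) [FiniteDimensional L B] (Z : Finset (Place κ A)) :
    ∃ Z' : Finset (Place κ B), finrank L A * Z'.card ≤ finrank L B * Z.card ∧
      ∀ w : Place κ B, w ∉ Z' → ∃ v : Place κ A, v ∉ Z ∧
        ∀ y : A, v.1 y ≤ 1 ↔ w.1 (IntermediateField.inclusion h y) ≤ 1 := by
  let iA : Algebra A B := (IntermediateField.inclusion h).toRingHom.toAlgebra
  have hA : FiniteDimensional L A := by
    exact FiniteDimensional.of_injective (IntermediateField.inclusion h).toLinearMap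
      (IntermediateField.inclusion h).injective
  have t1 : IsScalarTower L A B := IsScalarTower.of_algebraMap_eq fun u => rfl
  have t2 : IsScalarTower κ A B := IsScalarTower.of_algebraMap_eq fun u => rfl
  have hB : IsFF κ B := hL.of_finite
  have f1 : FiniteDimensional A B := FiniteDimensional.right L A B
  obtain ⟨Z', h1, h2⟩ := exists_above (L := A) hB Z
  have h3 := finrank_mul_finrank L A B
  refine ⟨Z', ?_, fun w hw => ⟨below A w, fun hv => hw ((h1 w).2 hv), fun y => ?_⟩⟩
  · rw [← h3, mul_assoc]
    exact Nat.mul_le_mul_left _ h2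
  · have h4 : IntermediateField.inclusion h y = algebraMap A B y := rfl
    have he := one_le_ramIdx (K := A) w.1 w.2.1
    rw [h4, below_pow]
    constructor
    · intro h5
      exact pow_le_one₀ zero_le h5
    · intro h5
      by_contra h6
      push Not at h6
      exact absurd h5 (not_le.2 (one_lt_pow₀ h6 (by omega)))

end Pool.Agent.Lib.MP_44a246_ntMY
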