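import Mathlib
import Pool.Agent.Lib.MP_44a246_ntTM.TM01

/-!
# Part (C) of paper 705: one field
-/

namespace Pool.Agent.Lib.MP_44a246_ntMY

open Pool.Agent.Lib.MP_e52354_nt
open Pool.Agent.Lib.MP_44a246_nt
open Pool.Agent.Lib.MP_44a246_ntL
open Pool.Agent.Lib.MP_44a246_ntY
open Pool.Agent.Lib.MP_44a246_ntS
open Pool.Agent.Lib.MP_44a246_ntSH
open Pool.Agent.Lib.MP_44a246_ntTM
open WithZero Module Polynomial

/-- the field generated over `E` by finitely many roots of polynomials of bounded degree and height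
over `L` -/
theorem field_aux2 {κ K Ω : Type*} [Field κ] [IsAlgClosed κ] [CharZero κ] [Field K]
    [Algebra κ K] [Field Ω] [Algebra K Ω] [Algebra κ Ω] [IsScalarTower κ K Ω]
    [Algebra.IsAlgebraic K Ω] (hK : IsFF κ K) (L : IntermediateField K Ω)
    [FiniteDimensional K L] (E : IntermediateField L Ω) [FiniteDimensional L E] {c₀ : ℕ}
    (hE : finrank L E ≤ c₀) {ι : Type*} [Fintype ι] (z : ι → Ω) (p : ι → L[X]) (D t : ℕ)
    (h0 : ∀ i, p i ≠ 0) (h1 : ∀ i, (p i).natDegree ≤ D) (h2 : ∀ i, aeval (z i) (p i) = 0)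
    (h3 : ∀ i j, height κ ![1, (p i).coeff j] ≤ D * (t : ℤ)) :
    ∃ (F : IntermediateField L Ω) (r : ι → F), FiniteDimensional L F ∧ E ≤ F ∧
      finrank L F ≤ c₀ * (D + 1) ^ Fintype.card ι ∧ (∀ i, (r i : Ω) = z i) ∧
      (∀ i, height κ ![1, r i] ≤
        (2 * (c₀ * (D + 1) ^ Fintype.card ι) * (D + 1) * D : ℕ) * (t : ℤ)) ∧
      finrank L E * ramDeg κ F K ≤ finrank L F * ramDeg κ E K +
        c₀ * (2 * (c₀ * (D + 1) ^ Fintype.card ι) * (Fintype.card ι *
          (2 * (c₀ * (D + 1) ^ Fintype.card ι) * (D + 1) * D))) * t := by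
  classical
  obtain ⟨B, hB⟩ : ∃ B : ℕ, B = c₀ * (D + 1) ^ Fintype.card ι := ⟨_, rfl⟩
  obtain ⟨H, hH⟩ : ∃ H : ℕ, H = 2 * B * (D + 1) * D := ⟨_, rfl⟩
  rw [← hB, ← hH]
  have halg : Algebra.IsAlgebraic L Ω := Algebra.IsAlgebraic.tower_top (K := K) L
  have hL : IsFF κ L := hK.of_finite
  obtain ⟨T₀, hT₀⟩ : ∃ T₀ : Finset Ω, T₀ = Finset.univ.image z := ⟨_, rfl⟩
  have hdeg : ∀ x ∈ T₀, (minpoly L x).natDegree ≤ D + 1 := by
    intro x hx
    rw [hT₀] at hx
    obtain ⟨i, -, rfl⟩ := Finset.mem_image.1 hx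
    exact (natDegree_le_of_dvd (minpoly.dvd _ _ (h2 i)) (h0 i)).trans ((h1 i).trans (Nat.le_succ _))
  obtain ⟨hfin, hrank⟩ := finrank_adjoin_finset_le hdeg
  have hc : T₀.card ≤ Fintype.card ι := by
    rw [hT₀]
    refine Finset.card_image_le.trans ?_
    rw [Finset.card_univ]
  obtain ⟨F, hF⟩ : ∃ F : IntermediateField L Ω,
      F = E ⊔ IntermediateField.adjoin L (T₀ : Set Ω) := ⟨_, rfl⟩
  have hEF : E ≤ F := by
    rw [hF]
    exact le_sup_left
  have hTF : IntermediateField.adjoin L (T₀ : Set Ω) ≤ F := by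
    rw [hF]
    exact le_sup_right
  have hfF : FiniteDimensional L F := by
    rw [hF]
    infer_instance
  have hrank' : finrank L F ≤ B := by
    rw [hF, hB]
    refine (IntermediateField.finrank_sup_le _ _).trans (Nat.mul_le_mul hE ?_)
    exact hrank.trans (Nat.pow_le_pow_right (Nat.succ_pos _) hc)
  have hmem : ∀ i, z i ∈ F := fun i => hTF
    (IntermediateField.subset_adjoin L (T₀ : Set Ω) (Finset.mem_coe.2 (by
      rw [hT₀]
      exact Finset.mem_image_of_mem _ (Finset.mem_univ i))))
  obtain ⟨r, hr⟩ : ∃ r : ι → F, ∀ i, (r i : Ω) = z i := ⟨fun i => ⟨z i, hmem i⟩, fun _ => rfl⟩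
  have hroot : ∀ i, aeval (r i) (p i) = 0 := by
    intro i
    apply Subtype.ext
    have h5 : ((aeval (r i) (p i) : F) : Ω) = aeval (z i) (p i) := by
      rw [← hr i, ← IntermediateField.algebraMap_apply, ← aeval_algebraMap_apply]
      rfl
    rw [h5, h2 i]
    rfl
  have hFF : IsFF κ F := hL.of_finite
  have hheight : ∀ i, height κ ![1, r i] ≤ (H : ℕ) * (t : ℤ) := by
    intro i
    refine (height_root_le hL (h0 i) (hroot i) (h1 i)).trans ?_
    have h5 : ∑ j ∈ Finset.range (D + 1), height κ ![1, (p i).coeff j] ≤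
        (D + 1 : ℕ) * (D * (t : ℤ)) := by
      refine (Finset.sum_le_card_nsmul _ _ _ fun j _ => h3 i j).trans ?_
      rw [Finset.card_range, nsmul_eq_mul]
    have h6 : (0 : ℤ) ≤ ∑ j ∈ Finset.range (D + 1), height κ ![1, (p i).coeff j] :=
      Finset.sum_nonneg fun j _ => height_one_nonneg hL _
    have h7 : (finrank L F : ℤ) ≤ B := by exact_mod_cast hrank'
    calc 2 * (finrank L F : ℤ) * ∑ j ∈ Finset.range (D + 1), height κ ![1, (p i).coeff j]
        ≤ 2 * (B : ℤ) * ((D + 1 : ℕ) * (D * (t : ℤ))) := by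
          refine mul_le_mul ?_ h5 h6 ?_
          · linarith
          · positivity
      _ = (H : ℕ) * (t : ℤ) := by
          rw [hH]
          push_cast
          ring
  -- the extension `F` of `E`
  let iA : Algebra E F := (IntermediateField.inclusion hEF).toRingHom.toAlgebra
  have t1 : IsScalarTower L E F := IsScalarTower.of_algebraMap_eq fun u => rfl
  have t2 : IsScalarTower κ E F := IsScalarTower.of_algebraMap_eq fun u => rfl
  have t3 : IsScalarTower K E F := IsScalarTower.of_algebraMap_eq fun u => rfl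
  have f1 : FiniteDimensional E F := FiniteDimensional.right L E F
  have f2 : FiniteDimensional K E := FiniteDimensional.trans K L E
  have hEE : IsFF κ E := hL.of_finite
  have hmul := finrank_mul_finrank L E F
  have hgen : IntermediateField.adjoin E ((Finset.univ.image r : Finset F) : Set F) = ⊤ := by
    obtain ⟨G, hG⟩ : ∃ G : IntermediateField E F,
        G = IntermediateField.adjoin E ((Finset.univ.image r : Finset F) : Set F) := ⟨_, rfl⟩
    rw [← hG]
    have h5 : IntermediateField.lift (G.restrictScalars L) = F := by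
      apply le_antisymm (IntermediateField.lift_le _)
      have h6 : E ⊔ IntermediateField.adjoin L (T₀ : Set Ω) ≤
          IntermediateField.lift (G.restrictScalars L) := by
        refine sup_le ?_ ?_
        · intro e he
          refine (IntermediateField.mem_lift (F := F) ⟨e, hEF he⟩).2 ?_
          rw [IntermediateField.mem_restrictScalars]
          exact G.algebraMap_mem ⟨e, he⟩
        · rw [IntermediateField.adjoin_le_iff]
          intro y hy
          rw [Finset.mem_coe, hT₀] at hy
          obtain ⟨i, -, rfl⟩ := Finset.mem_image.1 hy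
          have h7 : z i = (r i : Ω) := (hr i).symm
          rw [h7]
          refine (IntermediateField.mem_lift (F := F) (r i)).2 ?_
          rw [IntermediateField.mem_restrictScalars, hG]
          exact IntermediateField.subset_adjoin _ _
            (Finset.mem_coe.2 (Finset.mem_image_of_mem _ (Finset.mem_univ i)))
      exact (le_of_eq hF).trans h6
    rw [eq_top_iff]
    intro f _
    have h6 : (f : Ω) ∈ IntermediateField.lift (G.restrictScalars L) := by
      rw [h5]
      exact f.2
    exact (IntermediateField.mem_restrictScalars L).1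
      ((IntermediateField.mem_lift (F := F) f).1 h6)
  have h5 := ram_gens hEE hgen
  have h6 : ∑ x ∈ (Finset.univ.image r), height κ ![1, x] ≤
      (Fintype.card ι : ℤ) * ((H : ℕ) * (t : ℤ)) := by
    refine (Finset.sum_le_card_nsmul _ _ ((H : ℕ) * (t : ℤ)) fun x hx => ?_).trans ?_
    · obtain ⟨i, -, rfl⟩ := Finset.mem_image.1 hx
      exact hheight i
    · rw [nsmul_eq_mul]
      refine mul_le_mul_of_nonneg_right ?_ (by positivity)
      have h7 : (Finset.univ.image r).card ≤ Fintype.card ι := by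
        refine Finset.card_image_le.trans ?_
        rw [Finset.card_univ]
      exact_mod_cast h7
  have h7 : (0 : ℤ) ≤ ∑ x ∈ (Finset.univ.image r), height κ ![1, x] :=
    Finset.sum_nonneg fun x _ => height_one_nonneg hFF _
  have hEpos : 0 < finrank L E := finrank_pos
  have h8 : (ramDeg κ F E : ℤ) ≤ ((2 * B * (Fintype.card ι * H) * t : ℕ) : ℤ) := by
    refine h5.trans ?_
    have h9 : (finrank E F : ℤ) ≤ B := by
      have h10 : finrank E F ≤ finrank L F := by
        rw [← hmul]
        exact Nat.le_mul_of_pos_left _ hEpos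
      exact_mod_cast h10.trans hrank'
    calc 2 * (finrank E F : ℤ) * ∑ x ∈ (Finset.univ.image r), height κ ![1, x]
        ≤ 2 * (B : ℤ) * ((Fintype.card ι : ℤ) * ((H : ℕ) * (t : ℤ))) := by
          refine mul_le_mul ?_ h6 h7 ?_
          · linarith
          · positivity
      _ = ((2 * B * (Fintype.card ι * H) * t : ℕ) : ℤ) := by
          push_cast
          ring
  have h9 : ramDeg κ F E ≤ 2 * B * (Fintype.card ι * H) * t := by exact_mod_cast h8
  have h10 := ramDeg_tower_le (κ := κ) (K := K) (L := E) (E := F) hK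
  refine ⟨F, r, hfF, hEF, hrank', hr, hheight, ?_⟩
  calc finrank L E * ramDeg κ F K
      ≤ finrank L E * (finrank E F * ramDeg κ E K + ramDeg κ F E) := Nat.mul_le_mul_left _ h10
    _ = finrank L F * ramDeg κ E K + finrank L E * ramDeg κ F E := by rw [← hmul]; ring
    _ ≤ finrank L F * ramDeg κ E K + c₀ * (2 * B * (Fintype.card ι * H) * t) :=
        Nat.add_le_add_left (Nat.mul_le_mul hE h9) _
    _ = finrank L F * ramDeg κ E K + c₀ * (2 * B * (Fintype.card ι * H)) * t := by ring

end Pool.Agent.Lib.MP_44a246_ntMY
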