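import Mathlib
import Pool.Agent.Lib.MP_44a246_ntTM.TM01
import Pool.Agent.Lib.MP_44a246_ntMY.MC02a
import Pool.Agent.Lib.MP_44a246_ntMY.MC02b

/-!
# Part (C) of paper 705: extensions of bounded degree of the fields of a sequence
-/

namespace Pool.Agent.Lib.MP_44a246_ntMY

open Pool.Agent.Lib.MP_e52354_nt
open Pool.Agent.Lib.MP_44a246_nt
open Pool.Agent.Lib.MP_44a246_ntL
open Pool.Agent.Lib.MP_44a246_ntY
open Pool.Agent.Lib.MP_44a246_ntS
open Pool.Agent.Lib.MP_44a246_ntSH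
open Pool.Agent.Lib.MP_44a246_ntTM
open WithZero Module Polynomial

variable {κ K Ω : Type*} [Field κ] [IsAlgClosed κ] [CharZero κ] [Field K] [Algebra κ K]
  [Field Ω] [Algebra K Ω] [Algebra κ Ω] [IsScalarTower κ K Ω] (W : Tow κ K Ω)

/-- A sequence of extensions `F N` of the fields `E N`, of bounded degree, and with ramification
`O (T N)`. -/
structure FX (E : ∀ N, IntermediateField (W.L N) Ω) where
  F : ∀ N, IntermediateField (W.L N) Ω
  c : ℕ
  fin : ∀ N, FiniteDimensional (W.L N) (F N)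
  le : ∀ N, E N ≤ F N
  deg : ∀ N, finrank (W.L N) (F N) ≤ c
  ram : ∀ N, finrank (W.L N) (E N) * ramDeg κ (F N) K ≤
    finrank (W.L N) (F N) * ramDeg κ (E N) K + c * W.T N

variable {W}

/-- **A finite set of elements of `F0`** has representatives of small height in extensions of bounded
degree of the fields `E N`, with small relative ramification. -/
theorem exists_FX [IsAlgClosed Ω] [Algebra.IsAlgebraic K Ω] (E : ∀ N, IntermediateField (W.L N) Ω)
    [∀ N, FiniteDimensional (W.L N) (E N)] {c₀ : ℕ} (hE : ∀ N, finrank (W.L N) (E N) ≤ c₀)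
    (S : Finset (UP Ω)) (hS : ∀ s ∈ S, s ∈ W.F0) :
    ∃ (X : FX W E) (r : UP Ω → ∀ N, X.F N), (∀ s ∈ S, germHom (fun N => (r s N : Ω)) = s) ∧
      ∀ s ∈ S, ∀ N, height κ ![1, r s N] ≤ X.c * (W.T N : ℤ) := by
  classical
  choose z p d hz hp using fun s : {x // x ∈ S} => W.exists_roots (hS s.1 s.2)
  obtain ⟨D, hD⟩ : ∃ D : ℕ, D = ∑ s : {x // x ∈ S}, d s := ⟨_, rfl⟩
  have hdD : ∀ s, d s ≤ D := fun s => by
    rw [hD]
    exact Finset.single_le_sum (f := d) (fun _ _ => Nat.zero_le _) (Finset.mem_univ s)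
  obtain ⟨B, hB⟩ : ∃ B : ℕ, B = c₀ * (D + 1) ^ Fintype.card {x // x ∈ S} := ⟨_, rfl⟩
  obtain ⟨n, hn⟩ : ∃ n : ℕ, n = Fintype.card {x // x ∈ S} := ⟨_, rfl⟩
  obtain ⟨H, hH⟩ : ∃ H : ℕ, H = 2 * B * (D + 1) * D := ⟨_, rfl⟩
  have key : ∀ N, ∃ (F : IntermediateField (W.L N) Ω) (r : {x // x ∈ S} → F),
      FiniteDimensional (W.L N) F ∧ E N ≤ F ∧ finrank (W.L N) F ≤ B ∧
      (∀ i, (r i : Ω) = z i N) ∧ (∀ i, height κ ![1, r i] ≤ H * (W.T N : ℤ)) ∧
      finrank (W.L N) (E N) * ramDeg κ F K ≤ finrank (W.L N) F * ramDeg κ (E N) K +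
        c₀ * (2 * B * (n * H)) * W.T N := by
    intro N
    have := W.fin N
    obtain ⟨F, r, h1, h2, h3, h4, h5, h6⟩ := field_aux2 W.ff (W.L N) (E N) (hE N)
      (fun s => z s N) (fun s => p s N) D (W.T N)
      (fun s => (hp s N).1) (fun s => (hp s N).2.1.trans (hdD s)) (fun s => (hp s N).2.2.1)
      (fun s j => ((hp s N).2.2.2 j).trans (by
        refine mul_le_mul_of_nonneg_right ?_ (by positivity)
        exact_mod_cast hdD s))
    rw [← hB] at h3 h5 h6
    rw [← hH] at h5 h6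
    rw [← hn] at h6
    exact ⟨F, r, h1, h2, h3, h4, h5, h6⟩
  choose F r hF1 hF2 hF3 hF4 hF5 hF6 using key
  refine ⟨⟨F, B + H + c₀ * (2 * B * (n * H)), hF1, hF2, fun N => (hF3 N).trans ?_,
    fun N => (hF6 N).trans (Nat.add_le_add_left (Nat.mul_le_mul_right _ ?_) _)⟩,
    fun s N => if h : s ∈ S then r N ⟨s, h⟩ else 0, ?_, ?_⟩
  · rw [add_assoc]
    exact Nat.le_add_right _ _
  · exact Nat.le_add_left _ _
  · intro s hs
    refine Eq.trans (congrArg germHom (funext fun N => ?_)) (hz ⟨s, hs⟩)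
    beta_reduce
    rw [dif_pos hs]
    exact hF4 N _
  · intro s hs N
    beta_reduce
    rw [dif_pos hs]
    refine (hF5 N ⟨s, hs⟩).trans (mul_le_mul_of_nonneg_right ?_ (by positivity))
    have h5 : H ≤ B + H + c₀ * (2 * B * (n * H)) := by
      rw [add_comm B, add_assoc]
      exact Nat.le_add_right _ _
    exact_mod_cast h5

end Pool.Agent.Lib.MP_44a246_ntMY
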