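import Mathlib
import Pool.Agent.Lib.MP_44a246_ntMY.MY00
import Pool.Agent.Lib.MP_44a246_ntSH.PJ03b

/-!
# Part (C) of paper 705: the theorem of McQuillan and Yamanoi over a base field
-/

namespace Pool.Agent.Lib.MP_44a246_ntMY

open Pool.Agent.Lib.MP_e52354_nt
open Pool.Agent.Lib.MP_44a246_nt
open Pool.Agent.Lib.MP_44a246_ntL
open Pool.Agent.Lib.MP_44a246_ntSH
open WithZero Module Polynomial

universe u v w

/-- the theorem of McQuillan and Yamanoi for the finite extensions of a function field `K` -/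
theorem myk_of_myp {κ : Type u} [Field κ] [IsAlgClosed κ] [CharZero κ] (h : MYP.{u, w} κ)
    {K : Type v} [Field K] [Algebra κ K] (hK : IsFF κ K) (q : ℕ) {ε : ℝ} (hε : 0 < ε) :
    ∃ C : ℕ, ∀ (L : Type w) [Field L] [Algebra κ L] [Algebra K L] [IsScalarTower κ K L]
      [FiniteDimensional K L] (x : L) (b : Fin q → L), Function.Injective b →
      ((q : ℝ) - 2 - ε) * height κ ![1, x] ≤ Set.ncard {w : Place κ L | ∃ v, Meets w x (b v)} +
        ramDeg κ L K + C * ((finrank K L : ℝ) + ∑ v, (height κ ![1, b v] : ℝ)) := by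
  -- `hK.ind`, `RatFunc κ → K → L`, `ramDeg_tower_le` (PJ03b)
  refine hK.ind ?_
  intro iX t1 iR t2 iI t3 hfd htr halg
  obtain ⟨C, hC⟩ := h q ε hε
  refine ⟨C * finrank (RatFunc κ) K + ramDeg κ K (RatFunc κ) + C, ?_⟩
  intro L _ _ _ _ _ x b hb
  have t4 : IsScalarTower κ (RatFunc κ) K := IsScalarTower.of_algebraMap_eq fun u => by
    rw [IsScalarTower.algebraMap_apply κ κ[X] K, IsScalarTower.algebraMap_apply κ[X] (RatFunc κ) K,
      ← IsScalarTower.algebraMap_apply κ κ[X] (RatFunc κ)]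
  let iL : Algebra (RatFunc κ) L :=
    ((algebraMap K L).comp (algebraMap (RatFunc κ) K)).toAlgebra
  have t5 : IsScalarTower (RatFunc κ) K L := IsScalarTower.of_algebraMap_eq' rfl
  have t6 : IsScalarTower κ (RatFunc κ) L := IsScalarTower.of_algebraMap_eq fun u => by
    rw [IsScalarTower.algebraMap_apply κ K L, IsScalarTower.algebraMap_apply (RatFunc κ) K L,
      ← IsScalarTower.algebraMap_apply κ (RatFunc κ) K]
  have hfd2 : FiniteDimensional (RatFunc κ) L := FiniteDimensional.trans (RatFunc κ) K L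
  have h1 := hC L x b hb
  have hFF : IsFF κ (RatFunc κ) := Pool.Agent.Lib.MP_44a246_ntR.isFF_ratFunc κ
  have h2 : ramDeg κ L (RatFunc κ) ≤
      finrank K L * ramDeg κ K (RatFunc κ) + ramDeg κ L K := ramDeg_tower_le hFF
  have h3 : finrank (RatFunc κ) K * finrank K L = finrank (RatFunc κ) L :=
    Module.finrank_mul_finrank (RatFunc κ) K L
  have h2' : (ramDeg κ L (RatFunc κ) : ℝ) ≤
      finrank K L * ramDeg κ K (RatFunc κ) + ramDeg κ L K := by exact_mod_cast h2
  have h3' : (finrank (RatFunc κ) L : ℝ) = finrank (RatFunc κ) K * finrank K L := by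
    exact_mod_cast h3.symm
  have hsum : 0 ≤ ∑ v, (height κ ![1, b v] : ℝ) := by
    refine Finset.sum_nonneg fun v _ => ?_
    have h4 : (![1, b v] : Fin 2 → L) ≠ 0 := by
      intro h
      have := congrFun h 0
      simp at this
    exact_mod_cast (hK.of_finite (L := L)).height_nonneg h4
  rw [h3'] at h1
  have hf0 : (0 : ℝ) ≤ finrank K L := Nat.cast_nonneg _
  have hr0 : (0 : ℝ) ≤ ramDeg κ K (RatFunc κ) := Nat.cast_nonneg _
  have hC0 : (0 : ℝ) ≤ C := Nat.cast_nonneg _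
  have hk0 : (0 : ℝ) ≤ finrank (RatFunc κ) K := Nat.cast_nonneg _
  have e1 : 0 ≤ (C : ℝ) * finrank (RatFunc κ) K * ∑ v, (height κ ![1, b v] : ℝ) :=
    mul_nonneg (mul_nonneg hC0 hk0) hsum
  have e2 : 0 ≤ (ramDeg κ K (RatFunc κ) : ℝ) * ∑ v, (height κ ![1, b v] : ℝ) :=
    mul_nonneg hr0 hsum
  have e3 : 0 ≤ (C : ℝ) * finrank K L := mul_nonneg hC0 hf0
  push_cast
  nlinarith [h1, h2', e1, e2, e3]

end Pool.Agent.Lib.MP_44a246_ntMY
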