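import Mathlib
import Pool.Agent.Lib.MP_44a246_ntMY.MY00

/-!
# Part (C) of paper 705: counting of the meeting places
-/

namespace Pool.Agent.Lib.MP_44a246_ntMY

open Pool.Agent.Lib.MP_e52354_nt
open Pool.Agent.Lib.MP_44a246_nt
open Pool.Agent.Lib.MP_44a246_ntL
open WithZero Module

/-- the number of poles of large order -/
theorem card_pole_le {κ L : Type*} [Field κ] [IsAlgClosed κ] [CharZero κ] [Field L] [Algebra κ L]
    (hL : IsFF κ L) {u : L} {n : ℕ} (T : Finset (Place κ L))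
    (hT : ∀ w ∈ T, exp (n : ℤ) ≤ w.1 u) : (n : ℤ) * T.card ≤ height κ ![1, u] := by
  classical
  have hx : (![1, u] : Fin 2 → L) ≠ 0 := by
    intro h
    have := congrFun h 0
    simp at this
  have h1 : ∀ w : Place κ L, (1 : ℤᵐ⁰) ≤ vmax w.1 ![1, u] := by
    intro w
    have h2 := le_vmax w.1 ![1, u] 0
    simpa using h2
  have h0 : ∀ w : Place κ L, vmax w.1 ![1, u] ≠ 0 := fun w =>
    (lt_of_lt_of_le zero_lt_one (h1 w)).ne'
  have hs := hL.vmax_support hx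
  have hnn : ∀ w : Place κ L, 0 ≤ log (vmax w.1 ![1, u]) := by
    intro w
    rw [le_log_iff_exp_le (h0 w), exp_zero]
    exact h1 w
  have hT' : ∀ w ∈ T, (n : ℤ) ≤ log (vmax w.1 ![1, u]) := by
    intro w hw
    rw [le_log_iff_exp_le (h0 w)]
    refine (hT w hw).trans ?_
    have h2 := le_vmax w.1 ![1, u] 1
    simpa using h2
  unfold height
  rw [finsum_eq_sum_of_support_subset (s := hs.toFinset ∪ T) _ (fun w hw => by
    rw [Finset.coe_union, Set.Finite.coe_toFinset]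
    exact Or.inl hw)]
  calc (n : ℤ) * T.card = ∑ _w ∈ T, (n : ℤ) := by
        rw [Finset.sum_const, nsmul_eq_mul, mul_comm]
    _ ≤ ∑ w ∈ T, log (vmax w.1 ![1, u]) := Finset.sum_le_sum hT'
    _ ≤ _ := Finset.sum_le_sum_of_subset_of_nonneg Finset.subset_union_right fun w _ _ => hnn w

/-- counting of the meeting places -/
theorem card_meets_le {κ L : Type*} [Field κ] [IsAlgClosed κ] [CharZero κ] [Field L] [Algebra κ L]
    (hL : IsFF κ L) {q : ℕ} {X : L} {β : Fin q → L} {ι : Type*} [Fintype ι] [DecidableEq ι]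
    {u : ι → L} {n : ι → ℕ} (hn : ∀ b, 0 < n b) (B : Finset ι) {δ : Place κ L → ℕ}
    (hδ : (Function.support δ).Finite) (Z : Finset (Place κ L))
    (h1 : ∀ w : Place κ L, δ w = 0 → ∀ v, Meets w X (β v) → ∃ b, 1 < w.1 (u b))
    (h2 : ∀ w : Place κ L, δ w = 0 → ∀ b, 1 < w.1 (u b) → exp (n b : ℤ) ≤ w.1 (u b))
    (h3 : ∀ w : Place κ L, δ w = 0 → ∀ b ∈ B, 1 < w.1 (u b) → w ∈ Z) :
    (Set.ncard {w : Place κ L | ∃ v, Meets w X (β v)} : ℝ) ≤
      Z.card + (∑ᶠ w, δ w : ℕ) + ∑ b ∈ Bᶜ, (height κ ![1, u b] : ℝ) / n b := by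
  classical
  have hx : ∀ b, (![1, u b] : Fin 2 → L) ≠ 0 := by
    intro b h
    have := congrFun h 0
    simp at this
  -- the places near a point
  have hfin : ∀ b, ({w : Place κ L | δ w = 0 ∧ 1 < w.1 (u b)}).Finite := by
    intro b
    refine (hL.vmax_finite (hx b)).subset ?_
    rintro w ⟨-, hw⟩
    have h4 : w.1 (u b) ≤ vmax w.1 ![1, u b] := by
      have h2 := le_vmax w.1 ![1, u b] 1
      simpa using h2
    exact (lt_of_lt_of_le hw h4).ne'
  obtain ⟨Pb, hPb⟩ : ∃ Pb : ι → Finset (Place κ L), ∀ b w, w ∈ Pb b ↔ δ w = 0 ∧ 1 < w.1 (u b) :=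
    ⟨fun b => (hfin b).toFinset, fun b w => by
      rw [Set.Finite.mem_toFinset]
      rfl⟩
  have hsub : {w : Place κ L | ∃ v, Meets w X (β v)} ⊆
      ((Z ∪ hδ.toFinset ∪ (Bᶜ : Finset ι).biUnion Pb : Finset (Place κ L)) :
        Set (Place κ L)) := by
    rintro w ⟨v, hw⟩
    rw [Finset.mem_coe, Finset.mem_union, Finset.mem_union, Set.Finite.mem_toFinset,
      Finset.mem_biUnion]
    by_cases hw0 : δ w = 0
    · obtain ⟨b, hb⟩ := h1 w hw0 v hw
      by_cases hbB : b ∈ B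
      · exact Or.inl (Or.inl (h3 w hw0 b hbB hb))
      · exact Or.inr ⟨b, Finset.mem_compl.2 hbB, (hPb b w).2 ⟨hw0, hb⟩⟩
    · exact Or.inl (Or.inr hw0)
  have hc1 : Set.ncard {w : Place κ L | ∃ v, Meets w X (β v)} ≤
      Z.card + hδ.toFinset.card + ∑ b ∈ Bᶜ, (Pb b).card := by
    refine (Set.ncard_le_ncard hsub (Finset.finite_toSet _)).trans ?_
    rw [Set.ncard_coe_finset]
    refine (Finset.card_union_le _ _).trans (add_le_add (Finset.card_union_le _ _) ?_)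
    exact Finset.card_biUnion_le
  have hc2 : hδ.toFinset.card ≤ ∑ᶠ w, δ w := by
    rw [finsum_eq_sum_of_support_subset (s := hδ.toFinset) _ (fun w hw => by
      rw [Set.Finite.coe_toFinset]
      exact hw), Finset.card_eq_sum_ones]
    refine Finset.sum_le_sum fun w hw => ?_
    have h4 : δ w ≠ 0 := (Set.Finite.mem_toFinset _).1 hw
    omega
  have hc3 : ∀ b, ((Pb b).card : ℝ) ≤ (height κ ![1, u b] : ℝ) / n b := by
    intro b
    have hnb : (0 : ℝ) < n b := by exact_mod_cast hn b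
    rw [le_div_iff₀ hnb]
    have h4 := card_pole_le hL (u := u b) (n := n b) (Pb b) fun w hw =>
      h2 w ((hPb b w).1 hw).1 b ((hPb b w).1 hw).2
    have h5 : ((n b : ℝ)) * (Pb b).card ≤ height κ ![1, u b] := by exact_mod_cast h4
    rwa [mul_comm]
  have hc1' : (Set.ncard {w : Place κ L | ∃ v, Meets w X (β v)} : ℝ) ≤
      Z.card + hδ.toFinset.card + ∑ b ∈ Bᶜ, ((Pb b).card : ℝ) := by exact_mod_cast hc1
  have hc2' : (hδ.toFinset.card : ℝ) ≤ ((∑ᶠ w, δ w : ℕ) : ℝ) := by exact_mod_cast hc2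
  have hc3' : ∑ b ∈ Bᶜ, ((Pb b).card : ℝ) ≤ ∑ b ∈ Bᶜ, (height κ ![1, u b] : ℝ) / n b :=
    Finset.sum_le_sum fun b _ => hc3 b
  linarith

end Pool.Agent.Lib.MP_44a246_ntMY
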