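import Mathlib
import Pool.Agent.Lib.MP_44a246_ntMY.MC03a
import Pool.Agent.Lib.MP_44a246_ntMY.MC03b
import Pool.Agent.Lib.MP_44a246_ntSH.PJ03

/-!
# Part (C) of paper 705: the theorem of McQuillan and Yamanoi over a base field (`MC03a`); counting
of the meeting places (`MC03b`)
-/
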