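import Mathlib
import Pool.Agent.Lib.MP_44a246_ntSF.SFA04
import Pool.Agent.Lib.MP_44a246_ntSM.SM04

/-!
# Part (C) of paper 705: compactness for the valuation rings of the ultrapower
-/

namespace Pool.Agent.Lib.MP_44a246_ntMY

open Pool.Agent.Lib.MP_e52354_nt
open Pool.Agent.Lib.MP_44a246_nt
open Pool.Agent.Lib.MP_44a246_ntL
open Pool.Agent.Lib.MP_44a246_ntSF
open Pool.Agent.Lib.MP_44a246_ntSM
open WithZero Module Polynomial

/-- a discrete valuation ring of `L` is the trace of a valuation ring of `Ω` -/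
theorem exists_vsub {L Ω : Type*} [Field L] [Field Ω] (f : L →+* Ω) (v : Valuation L ℤᵐ⁰) :
    ∃ O : ValuationSubring Ω, ∀ u : L, f u ∈ O ↔ v u ≤ 1 := by
  obtain ⟨A, h, hloc⟩ := IsLocalRing.exists_factor_valuationRing
    (f.comp (algebraMap v.valuationSubring L))
  refine ⟨A, fun u => ⟨fun hu => ?_, fun hu => h ⟨u, hu⟩⟩⟩
  by_contra hcon
  push Not at hcon
  have hu0 : u ≠ 0 := by
    rintro rfl
    rw [map_zero] at hcon
    exact absurd hcon (not_lt.2 zero_le)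
  have h1 : v u⁻¹ < 1 := by
    rw [map_inv₀]
    exact inv_lt_one_of_one_lt₀ hcon
  obtain ⟨y, hy⟩ : ∃ y : v.valuationSubring, y = ⟨u⁻¹, h1.le⟩ := ⟨_, rfl⟩
  have hyu : (y : L) = u⁻¹ := by rw [hy]
  have h2 : IsUnit ((f.comp (algebraMap v.valuationSubring L)).codRestrict A.toSubring h y) := by
    refine IsUnit.of_mul_eq_one (⟨f u, hu⟩ : A.toSubring) ?_
    apply Subtype.ext
    change f (y : L) * f u = 1
    rw [hyu, ← map_mul, inv_mul_cancel₀ hu0, map_one]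
  have h3 : IsUnit y := IsUnit.of_map _ y h2
  obtain ⟨z, hz⟩ := h3.exists_right_inv
  have h4 : (y : L) * (z : L) = 1 := congrArg Subtype.val hz
  have h5 : v (y : L) * v (z : L) = 1 := by rw [← map_mul, h4, map_one]
  have h6 : v (z : L) ≤ 1 := z.2
  rw [hyu] at h5
  have h7 : v u⁻¹ * v (z : L) < 1 := lt_of_le_of_lt (mul_le_of_le_one_right' h6) h1
  exact absurd h5 h7.ne

section Clause

variable {Ω : Type*} [Field Ω]

/-- **Compactness.** If every valuation ring of the ultrapower which contains the field `F` and the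
`g i` contains one of the `h j` then there are finitely many nonzero elements `φ` of `F` such that for
almost all `N` every valuation ring of `Ω` which contains the members of the `g i` contains a
member of one of the `h j / φ`. -/
theorem clause_UP (F : Subfield (UP Ω)) {I J : Type*} [Finite I] [Finite J] {g : I → UP Ω}
    {h : J → UP Ω}
    (H : ∀ O : ValuationSubring (UP Ω), (∀ z ∈ F, z ∈ O) → (∀ i, g i ∈ O) → ∃ j, h j ∈ O)
    {ρ : UP Ω → ℕ → Ω} (hρ : ∀ z, germHom (ρ z) = z) :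
    ∃ Φ : Finset (UP Ω), (∀ φ ∈ Φ, φ ∈ F ∧ φ ≠ 0) ∧
      ∀ᶠ N in (Filter.hyperfilter ℕ : Filter ℕ), ∀ O : ValuationSubring Ω,
        (∀ i, ρ (g i) N ∈ O) → ∃ j, ∃ φ ∈ Φ, ρ (h j) N / ρ φ N ∈ O := by
  classical
  by_contra hcon
  push Not at hcon
  -- the bad valuation rings
  have key : ∀ j : Finset {φ : UP Ω // φ ∈ F ∧ φ ≠ 0} × ℕ, ∃ O : ValuationSubring Ω,
      (∃ O' : ValuationSubring Ω, (∀ i, ρ (g i) j.2 ∈ O') ∧
        ∀ k, ∀ φ ∈ j.1, ρ (h k) j.2 / ρ φ j.2 ∉ O') →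
      (∀ i, ρ (g i) j.2 ∈ O) ∧ ∀ k, ∀ φ ∈ j.1, ρ (h k) j.2 / ρ φ j.2 ∉ O := by
    intro j
    by_cases hj : ∃ O' : ValuationSubring Ω, (∀ i, ρ (g i) j.2 ∈ O') ∧
        ∀ k, ∀ φ ∈ j.1, ρ (h k) j.2 / ρ φ j.2 ∉ O'
    · obtain ⟨O', hO'⟩ := hj
      exact ⟨O', fun _ => hO'⟩
    · exact ⟨⊤, fun hc => absurd hc hj⟩
  choose OO hOO using key
  obtain ⟨𝒲, h𝒲⟩ := exists_ultra (Finset {φ : UP Ω // φ ∈ F ∧ φ ≠ 0})
  have hO1 : ∀ᶠ j in (𝒲 : Filter (Finset {φ : UP Ω // φ ∈ F ∧ φ ≠ 0} × ℕ)),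
      (∀ i, ρ (g i) j.2 ∈ OO j) ∧ ∀ k, ∀ φ ∈ j.1, ρ (h k) j.2 / ρ φ j.2 ∉ OO j := by
    refine h𝒲 _ (Filter.Eventually.of_forall fun Φ => ?_)
    have h1 := hcon (Φ.image Subtype.val) (by
      intro φ hφ
      obtain ⟨φ', -, rfl⟩ := Finset.mem_image.1 hφ
      exact φ'.2)
    filter_upwards [h1] with N hN
    obtain ⟨O, hO, hO'⟩ := hN
    exact hOO (Φ, N) ⟨O, hO, fun k φ hφ => hO' k φ (Finset.mem_image_of_mem _ hφ)⟩
  -- sequences which agree almost everywhere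
  have hev : ∀ p : ℕ → Prop, (∀ᶠ N in (Filter.hyperfilter ℕ : Filter ℕ), p N) →
      ∀ᶠ j in (𝒲 : Filter (Finset {φ : UP Ω // φ ∈ F ∧ φ ≠ 0} × ℕ)), p j.2 := fun p hp =>
    h𝒲 (fun j => p j.2) (Filter.Eventually.of_forall fun _ => hp)
  have hadd : ∀ z z', ∀ᶠ j in (𝒲 : Filter (Finset {φ : UP Ω // φ ∈ F ∧ φ ≠ 0} × ℕ)),
      ρ (z + z') j.2 = ρ z j.2 + ρ z' j.2 := by
    intro z z'
    refine hev (fun N => ρ (z + z') N = ρ z N + ρ z' N) ?_
    have h1 : germHom (ρ (z + z')) = germHom (ρ z + ρ z') := by rw [map_add, hρ, hρ, hρ]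
    exact (germHom_eq_iff _ _).1 h1
  have hmul : ∀ z z', ∀ᶠ j in (𝒲 : Filter (Finset {φ : UP Ω // φ ∈ F ∧ φ ≠ 0} × ℕ)),
      ρ (z * z') j.2 = ρ z j.2 * ρ z' j.2 := by
    intro z z'
    refine hev (fun N => ρ (z * z') N = ρ z N * ρ z' N) ?_
    have h1 : germHom (ρ (z * z')) = germHom (ρ z * ρ z') := by rw [map_mul, hρ, hρ, hρ]
    exact (germHom_eq_iff _ _).1 h1
  have hone : ∀ᶠ j in (𝒲 : Filter (Finset {φ : UP Ω // φ ∈ F ∧ φ ≠ 0} × ℕ)), ρ 1 j.2 = 1 := by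
    refine hev (fun N => ρ 1 N = 1) ?_
    have h1 : germHom (ρ 1) = germHom 1 := by rw [map_one, hρ]
    exact (germHom_eq_iff _ _).1 h1
  have hzero : ∀ᶠ j in (𝒲 : Filter (Finset {φ : UP Ω // φ ∈ F ∧ φ ≠ 0} × ℕ)), ρ 0 j.2 = 0 := by
    refine hev (fun N => ρ 0 N = 0) ?_
    have h1 : germHom (ρ 0) = germHom 0 := by rw [map_zero, hρ]
    exact (germHom_eq_iff _ _).1 h1
  have hneg : ∀ z, ∀ᶠ j in (𝒲 : Filter (Finset {φ : UP Ω // φ ∈ F ∧ φ ≠ 0} × ℕ)),
      ρ (-z) j.2 = -ρ z j.2 := by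
    intro z
    refine hev (fun N => ρ (-z) N = -ρ z N) ?_
    have h1 : germHom (ρ (-z)) = germHom (-ρ z) := by rw [map_neg, hρ, hρ]
    exact (germHom_eq_iff _ _).1 h1
  have hdiv : ∀ z z' : UP Ω, z' ≠ 0 →
      ∀ᶠ j in (𝒲 : Filter (Finset {φ : UP Ω // φ ∈ F ∧ φ ≠ 0} × ℕ)),
      ρ (z / z') j.2 = ρ z j.2 / ρ z' j.2 := by
    intro z z' hz'
    filter_upwards [hmul (z / z') z', hmul z' z'⁻¹, hone] with j h1 h3 h4
    rw [mul_inv_cancel₀ hz', h4] at h3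
    have h5 : ρ z' j.2 ≠ 0 := by
      intro h0
      rw [h0, zero_mul] at h3
      exact one_ne_zero h3
    rw [div_mul_cancel₀ _ hz'] at h1
    rw [h1, mul_div_cancel_right₀ _ h5]
  -- the limit
  let 𝒪 : ValuationSubring (UP Ω) :=
    { carrier := {z | ∀ᶠ j in (𝒲 : Filter (Finset {φ : UP Ω // φ ∈ F ∧ φ ≠ 0} × ℕ)),
        ρ z j.2 ∈ OO j}
      mul_mem' := by
        intro z z' hz hz'
        filter_upwards [hz, hz', hmul z z'] with j h1 h2 h3
        rw [h3]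
        exact mul_mem h1 h2
      one_mem' := by
        filter_upwards [hone] with j hj
        rw [hj]
        exact one_mem _
      add_mem' := by
        intro z z' hz hz'
        filter_upwards [hz, hz', hadd z z'] with j h1 h2 h3
        rw [h3]
        exact add_mem h1 h2
      zero_mem' := by
        filter_upwards [hzero] with j hj
        rw [hj]
        exact zero_mem _
      neg_mem' := by
        intro z hz
        filter_upwards [hz, hneg z] with j h1 h2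
        rw [h2]
        exact neg_mem h1
      mem_or_inv_mem' := by
        intro z
        by_cases hz : z = 0
        · left
          rw [hz]
          filter_upwards [hzero] with j hj
          rw [hj]
          exact zero_mem _
        by_cases h1 : ∀ᶠ j in (𝒲 : Filter (Finset {φ : UP Ω // φ ∈ F ∧ φ ≠ 0} × ℕ)),
            ρ z j.2 ∈ OO j
        · exact Or.inl h1
        · right
          have h2 := Ultrafilter.eventually_not.2 h1
          filter_upwards [h2, hdiv 1 z hz, hone] with j h3 h4 h5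
          rw [one_div, h5, one_div] at h4
          rw [h4]
          exact ((OO j).mem_or_inv_mem _).resolve_left h3 }
  have hmem𝒪 : ∀ z, z ∈ 𝒪 ↔ ∀ᶠ j in (𝒲 : Filter (Finset {φ : UP Ω // φ ∈ F ∧ φ ≠ 0} × ℕ)),
      ρ z j.2 ∈ OO j := fun z => Iff.rfl
  -- the ring generated by the limit and by `F`
  let 𝒪' : ValuationSubring (UP Ω) :=
    { carrier := {z | ∃ φ : UP Ω, φ ∈ F ∧ φ ≠ 0 ∧ z / φ ∈ 𝒪}
      mul_mem' := by
        rintro z z' ⟨φ, h1, h2, h3⟩ ⟨φ', h1', h2', h3'⟩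
        refine ⟨φ * φ', mul_mem h1 h1', mul_ne_zero h2 h2', ?_⟩
        rw [mul_div_mul_comm]
        exact mul_mem h3 h3'
      one_mem' := ⟨1, one_mem _, one_ne_zero, by rw [div_one]; exact one_mem _⟩
      add_mem' := by
        rintro z z' ⟨φ, h1, h2, h3⟩ ⟨φ', h1', h2', h3'⟩
        rcases 𝒪.mem_or_inv_mem (φ' / φ) with h4 | h4
        · refine ⟨φ, h1, h2, ?_⟩
          have h5 : (z + z') / φ = z / φ + z' / φ' * (φ' / φ) := by
            field_simp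
          rw [h5]
          exact add_mem h3 (mul_mem h3' h4)
        · refine ⟨φ', h1', h2', ?_⟩
          have h5 : (z + z') / φ' = z / φ * (φ' / φ)⁻¹ + z' / φ' := by
            field_simp
          rw [h5]
          exact add_mem (mul_mem h3 h4) h3'
      zero_mem' := ⟨1, one_mem _, one_ne_zero, by rw [div_one]; exact zero_mem _⟩
      neg_mem' := by
        rintro z ⟨φ, h1, h2, h3⟩
        refine ⟨φ, h1, h2, ?_⟩
        rw [neg_div]
        exact neg_mem h3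
      mem_or_inv_mem' := by
        intro z
        rcases 𝒪.mem_or_inv_mem z with h4 | h4
        · exact Or.inl ⟨1, one_mem _, one_ne_zero, by rw [div_one]; exact h4⟩
        · exact Or.inr ⟨1, one_mem _, one_ne_zero, by rw [div_one]; exact h4⟩ }
  have hmem𝒪' : ∀ z, z ∈ 𝒪' ↔ ∃ φ : UP Ω, φ ∈ F ∧ φ ≠ 0 ∧ z / φ ∈ 𝒪 := fun z => Iff.rfl
  obtain ⟨k, hk⟩ := H 𝒪' (fun z hz => by
    rw [hmem𝒪']
    by_cases hz0 : z = 0
    · exact ⟨1, one_mem _, one_ne_zero, by rw [hz0, zero_div]; exact zero_mem _⟩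
    · exact ⟨z, hz, hz0, by rw [div_self hz0]; exact one_mem _⟩) (fun i => by
    rw [hmem𝒪']
    refine ⟨1, one_mem _, one_ne_zero, ?_⟩
    rw [div_one, hmem𝒪]
    filter_upwards [hO1] with j hj
    exact hj.1 i)
  rw [hmem𝒪'] at hk
  obtain ⟨φ, hφF, hφ0, hφ⟩ := hk
  rw [hmem𝒪] at hφ
  have h1 : ∀ᶠ j in (𝒲 : Filter (Finset {φ : UP Ω // φ ∈ F ∧ φ ≠ 0} × ℕ)),
      (⟨φ, hφF, hφ0⟩ : {φ : UP Ω // φ ∈ F ∧ φ ≠ 0}) ∈ j.1 := by
    refine h𝒲 _ ?_
    filter_upwards [Filter.eventually_ge_atTop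
      ({(⟨φ, hφF, hφ0⟩ : {φ : UP Ω // φ ∈ F ∧ φ ≠ 0})} : Finset _)] with Φ hΦ
    refine Filter.Eventually.of_forall fun N => ?_
    exact hΦ (Finset.mem_singleton_self _)
  obtain ⟨j, hj1, hj2, hj3, hj4⟩ := (hφ.and (h1.and (hO1.and (hdiv (h k) φ hφ0)))).exists
  rw [hj4] at hj1
  exact hj3.2 k _ hj2 hj1

end Clause

end Pool.Agent.Lib.MP_44a246_ntMY
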