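import Mathlib
import Pool.Agent.Lib.MP_44a246_ntMY.MC02
import Pool.Agent.Lib.MP_44a246_ntMY.MC04

/-!
# Part (C) of paper 705: clauses at the places of the members
-/

namespace Pool.Agent.Lib.MP_44a246_ntMY

open Pool.Agent.Lib.MP_e52354_nt
open Pool.Agent.Lib.MP_44a246_nt
open Pool.Agent.Lib.MP_44a246_ntL
open Pool.Agent.Lib.MP_44a246_ntY
open Pool.Agent.Lib.MP_44a246_ntS
open Pool.Agent.Lib.MP_44a246_ntSH
open Pool.Agent.Lib.MP_44a246_ntSM
open Pool.Agent.Lib.MP_44a246_ntTM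
open WithZero Module Polynomial

/-- a clause which holds at the places of a function field holds at the valuation rings which contain
the constants -/
theorem clause_M {F U M : Type*} [Field F] [IsAlgClosed F] [CharZero F] [Field U] [Algebra F U]
    [Field M] [Algebra F M] [Algebra M U] [IsScalarTower F M U] (hM : IsFF F M) {I J : Type*}
    [Nonempty J] {g : I → M} {h : J → M}
    (H : ∀ v : Place F M, (∀ i, v.1 (g i) ≤ 1) → ∃ j, v.1 (h j) ≤ 1) (O : ValuationSubring U)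
    (hO : ∀ c : F, algebraMap F U c ∈ O) (hg : ∀ i, algebraMap M U (g i) ∈ O) :
    ∃ j, algebraMap M U (h j) ∈ O := by
  by_cases hne : ∃ u : M, u ∉ O.comap (algebraMap M U)
  · obtain ⟨v, hv⟩ := exists_place_of_subring hM (O.comap (algebraMap M U)) (fun c => by
      rw [ValuationSubring.mem_comap, ← IsScalarTower.algebraMap_apply]
      exact hO c) hne
    obtain ⟨j, hj⟩ := H v fun i => (hv _).1 (ValuationSubring.mem_comap.2 (hg i))
    exact ⟨j, ValuationSubring.mem_comap.1 ((hv _).2 hj)⟩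
  · push Not at hne
    obtain ⟨j⟩ := (inferInstance : Nonempty J)
    exact ⟨j, ValuationSubring.mem_comap.1 (hne _)⟩

variable {κ K Ω : Type*} [Field κ] [IsAlgClosed κ] [CharZero κ] [Field K] [Algebra κ K]
  [Field Ω] [Algebra K Ω] [Algebra κ Ω] [IsScalarTower κ K Ω] {W : Tow κ K Ω}
  {E : ∀ N, IntermediateField (W.L N) Ω}

theorem FX.ff (X : FX W E) (N : ℕ) : IsFF κ (X.F N) := by
  have := X.fin N
  exact (W.ffL N).of_finite

/-- functions on the places of total size `O (T N)` -/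
structure SmallE (X : FX W E) (δ : ∀ N, Place κ (X.F N) → ℕ) : Prop where
  fin : ∀ N, (Function.support (δ N)).Finite
  sum : ∃ C : ℕ, ∀ N, ∑ᶠ w, δ N w ≤ C * W.T N

theorem SmallE.zero (X : FX W E) : SmallE X fun _ _ => 0 := by
  refine ⟨fun N => ?_, 0, fun N => ?_⟩
  · have h : (Function.support fun _ : Place κ (X.F N) => (0 : ℕ)) = ∅ := by
      ext w
      simp
    rw [h]
    exact Set.finite_empty
  · rw [finsum_zero]
    exact Nat.zero_le _

theorem SmallE.add {X : FX W E} {δ δ' : ∀ N, Place κ (X.F N) → ℕ} (h : SmallE X δ)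
    (h' : SmallE X δ') : SmallE X fun N w => δ N w + δ' N w := by
  obtain ⟨C, hC⟩ := h.sum
  obtain ⟨C', hC'⟩ := h'.sum
  refine ⟨fun N => ((h.fin N).union (h'.fin N)).subset (Function.support_add _ _), C + C',
    fun N => ?_⟩
  rw [finsum_add_distrib (h.fin N) (h'.fin N), add_mul]
  exact add_le_add (hC N) (hC' N)

theorem SmallE.finset_sum {X : FX W E} {ι : Type*} (s : Finset ι)
    {δ : ι → ∀ N, Place κ (X.F N) → ℕ} (h : ∀ i ∈ s, SmallE X (δ i)) :
    SmallE X fun N w => ∑ i ∈ s, δ i N w := by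
  classical
  induction s using Finset.induction_on with
  | empty =>
    simp only [Finset.sum_empty]
    exact SmallE.zero X
  | insert i s hi ih =>
    simp only [Finset.sum_insert hi]
    exact (h i (Finset.mem_insert_self _ _)).add
      (ih fun j hj => h j (Finset.mem_insert_of_mem hj))

theorem le_exp_toNat {L : Type*} [Field L] (v : Valuation L ℤᵐ⁰) (a : L) :
    v a ≤ exp (((log (max 1 (v a))).toNat : ℕ) : ℤ) := by
  have h1 : max 1 (v a) ≠ 0 := (lt_of_lt_of_le zero_lt_one (le_max_left _ _)).ne'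
  have h2 : 0 ≤ log (max 1 (v a)) := by
    rw [← log_one (M := ℤ), log_le_log one_ne_zero h1]
    exact le_max_left _ _
  rw [Int.toNat_of_nonneg h2, exp_log h1]
  exact le_max_right _ _

theorem sum_toNat {κ L : Type*} [Field κ] [IsAlgClosed κ] [CharZero κ] [Field L] [Algebra κ L]
    (hL : IsFF κ L) (a : L) : (Function.support fun w : Place κ L =>
      (log (max 1 (w.1 a))).toNat).Finite ∧
      ((∑ᶠ w : Place κ L, (log (max 1 (w.1 a))).toNat : ℕ) : ℤ) = height κ ![1, a] := by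
  have h0 : ∀ w : Place κ L, 0 ≤ log (max 1 (w.1 a)) := by
    intro w
    have h1 : max 1 (w.1 a) ≠ 0 := (lt_of_lt_of_le zero_lt_one (le_max_left _ _)).ne'
    rw [← log_one (M := ℤ), log_le_log one_ne_zero h1]
    exact le_max_left _ _
  have h1 : (Function.support fun w : Place κ L => (log (max 1 (w.1 a))).toNat).Finite := by
    refine (log_max_support hL a).subset fun w hw => ?_
    rw [Function.mem_support] at hw ⊢
    intro h2
    apply hw
    rw [h2]
    rfl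
  refine ⟨h1, ?_⟩
  rw [height_one]
  have h2 := AddMonoidHom.map_finsum (Nat.castAddMonoidHom ℤ) h1
  have h3 : ((∑ᶠ w : Place κ L, (log (max 1 (w.1 a))).toNat : ℕ) : ℤ) =
      ∑ᶠ w : Place κ L, (((log (max 1 (w.1 a))).toNat : ℕ) : ℤ) := h2
  rw [h3]
  exact finsum_congr fun w => Int.toNat_of_nonneg (h0 w)

theorem SmallE.of_height {X : FX W E} {r : ∀ N, X.F N}
    (h : ∃ C : ℕ, ∀ N, height κ ![1, r N] ≤ C * (W.T N : ℤ)) :
    SmallE X fun N w => (log (max 1 (w.1 (r N)))).toNat := by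
  obtain ⟨C, hC⟩ := h
  refine ⟨fun N => (sum_toNat (X.ff N) _).1, C, fun N => ?_⟩
  have h1 := (sum_toNat (X.ff N) (r N)).2
  have h2 := hC N
  rw [← h1] at h2
  exact_mod_cast h2

/-- `r` gives representatives of small height of the elements of `S` -/
def Reps (X : FX W E) (r : UP Ω → ∀ N, X.F N) (S : Finset (UP Ω)) : Prop :=
  ∀ s ∈ S, germHom (fun N => (r s N : Ω)) = s ∧
    ∃ C : ℕ, ∀ N, height κ ![1, r s N] ≤ C * (W.T N : ℤ)

theorem Reps.mono {X : FX W E} {r : UP Ω → ∀ N, X.F N} {S S' : Finset (UP Ω)}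
    (h : Reps X r S') (hS : S ⊆ S') : Reps X r S := fun s hs => h s (hS hs)

/-- **Clauses at the places of the members.** -/
theorem clause_level [IsAlgClosed Ω] {M : IntermediateField W.F0 (UP Ω)} (hM : IsFF W.F0 M)
    {I J : Type*} [Finite I] [Finite J] [Nonempty J] {g : I → M} {h : J → M}
    (H : ∀ v : Place W.F0 M, (∀ i, v.1 (g i) ≤ 1) → ∃ j, v.1 (h j) ≤ 1) :
    ∃ S : Finset (UP Ω), (∀ s ∈ S, s ∈ W.F0) ∧
      ∀ (X : FX W E) (r : UP Ω → ∀ N, X.F N), Reps X r S →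
        ∃ δ : ∀ N, Place κ (X.F N) → ℕ, SmallE X δ ∧
          ∀ (gr : I → ∀ N, X.F N) (hr : J → ∀ N, X.F N),
            (∀ i, germHom (fun N => (gr i N : Ω)) = g i) →
            (∀ j, germHom (fun N => (hr j N : Ω)) = h j) →
            ∀ᶠ N in (Filter.hyperfilter ℕ : Filter ℕ), ∀ w : Place κ (X.F N),
              (∀ i, w.1 (gr i N) ≤ 1) → ∃ j, w.1 (hr j N) ≤ exp (δ N w : ℤ) := by
  classical
  have hcΩ : CharZero Ω := charZero_of_injective_algebraMap (algebraMap κ Ω).injective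
  choose ρ hρ using germHom_surjective (L := Ω)
  obtain ⟨Φ, hΦ, hev⟩ := clause_UP W.F0.toSubfield (g := fun i => (g i : UP Ω))
    (h := fun j => (h j : UP Ω)) (fun O hO hg => by
      obtain ⟨j, hj⟩ := clause_M (U := UP Ω) hM H O (fun c => hO _ c.2) hg
      exact ⟨j, hj⟩) hρ
  refine ⟨Φ, fun s hs => (hΦ s hs).1, fun X r hr => ⟨fun N w => ∑ φ ∈ Φ,
    (log (max 1 (w.1 (r φ N)))).toNat, SmallE.finset_sum Φ fun φ hφ =>
      SmallE.of_height (hr φ hφ).2, fun gr hr' hgr hhr => ?_⟩⟩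
  have h1 : ∀ i, ∀ᶠ N in (Filter.hyperfilter ℕ : Filter ℕ), ρ (g i) N = (gr i N : Ω) := fun i =>
    (germHom_eq_iff (ρ (g i)) (fun N => (gr i N : Ω))).1 (by rw [hρ, hgr])
  have h2 : ∀ j, ∀ᶠ N in (Filter.hyperfilter ℕ : Filter ℕ), ρ (h j) N = (hr' j N : Ω) := fun j =>
    (germHom_eq_iff (ρ (h j)) (fun N => (hr' j N : Ω))).1 (by rw [hρ, hhr])
  have h3 : ∀ φ ∈ Φ, ∀ᶠ N in (Filter.hyperfilter ℕ : Filter ℕ), ρ φ N = (r φ N : Ω) ∧
      r φ N ≠ 0 := by
    intro φ hφ
    have h4 : ∀ᶠ N in (Filter.hyperfilter ℕ : Filter ℕ), ρ φ N = (r φ N : Ω) :=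
      (germHom_eq_iff (ρ φ) (fun N => (r φ N : Ω))).1 (by rw [hρ, (hr φ hφ).1])
    have h5 : ¬ ∀ᶠ N in (Filter.hyperfilter ℕ : Filter ℕ), (r φ N : Ω) = 0 := by
      rw [← germHom_eq_zero_iff, (hr φ hφ).1]
      exact (hΦ φ hφ).2
    filter_upwards [h4, Ultrafilter.eventually_not.2 h5] with N h6 h7
    exact ⟨h6, fun h0 => h7 (by rw [h0]; rfl)⟩
  have h3' := (Filter.eventually_all_finset Φ).2 h3
  filter_upwards [hev, Filter.eventually_all.2 h1, Filter.eventually_all.2 h2, h3'] with N e1 e2 e3 e4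
  intro w hw
  obtain ⟨O, hO⟩ := exists_vsub (algebraMap (X.F N) Ω) w.1
  obtain ⟨j, φ, hφ, hj⟩ := e1 O (fun i => by
    rw [e2 i]
    exact (hO _).2 (hw i))
  refine ⟨j, ?_⟩
  rw [e3 j, (e4 φ hφ).1] at hj
  have h5 : algebraMap (X.F N) Ω (hr' j N / r φ N) ∈ O := by
    rw [map_div₀]
    exact hj
  have h6 := (hO _).1 h5
  rw [map_div₀] at h6
  have h7 : w.1 (r φ N) ≠ 0 := (Valuation.ne_zero_iff _).2 (e4 φ hφ).2
  have h8 : w.1 (hr' j N) ≤ w.1 (r φ N) := by
    rwa [div_le_one₀ (zero_lt_iff.2 h7)] at h6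
  refine h8.trans ((le_exp_toNat w.1 (r φ N)).trans ?_)
  rw [exp_le_exp]
  exact_mod_cast Finset.single_le_sum (f := fun φ => (log (max 1 (w.1 (r φ N)))).toNat)
    (fun _ _ => Nat.zero_le _) hφ

end Pool.Agent.Lib.MP_44a246_ntMY
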