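import Mathlib
import Pool.Agent.Lib.MP_44a246_ntMY.MC01
import Pool.Agent.Lib.MP_44a246_ntMY.MC05
import Pool.Agent.Lib.MP_44a246_ntB.Base8

/-!
# Part (C) of paper 705: comparison of heights
-/

namespace Pool.Agent.Lib.MP_44a246_ntMY

open Pool.Agent.Lib.MP_e52354_nt
open Pool.Agent.Lib.MP_44a246_nt
open Pool.Agent.Lib.MP_44a246_ntL
open Pool.Agent.Lib.MP_44a246_ntR
open Pool.Agent.Lib.MP_44a246_ntY
open Pool.Agent.Lib.MP_44a246_ntS
open Pool.Agent.Lib.MP_44a246_ntSH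
open Pool.Agent.Lib.MP_44a246_ntSM
open Pool.Agent.Lib.MP_44a246_ntTM
open Pool.Agent.Lib.MP_44a246_ntB
open WithZero Module Polynomial

variable {κ K Ω : Type*} [Field κ] [IsAlgClosed κ] [CharZero κ] [Field K] [Algebra κ K]
  [Field Ω] [Algebra K Ω] [Algebra κ Ω] [IsScalarTower κ K Ω] {W : Tow κ K Ω}
  {E : ∀ N, IntermediateField (W.L N) Ω}

/-- a quotient of germs -/
theorem germ_div {Ω : Type*} [Field Ω] (f g : ℕ → Ω) :
    germHom (fun N => f N / g N) = germHom f / germHom g := by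
  by_cases h0 : germHom g = 0
  · rw [h0, div_zero, germHom_eq_zero_iff]
    rw [germHom_eq_zero_iff] at h0
    filter_upwards [h0] with N hN
    rw [hN, div_zero]
  · refine (eq_div_iff h0).2 ?_
    rw [← map_mul, germHom_eq_iff]
    rw [germHom_eq_zero_iff] at h0
    filter_upwards [Ultrafilter.eventually_not.2 h0] with N hN
    exact div_mul_cancel₀ _ hN

/-- the transfer of an inequality of divisors -/
theorem height_level [IsAlgClosed Ω] {M : IntermediateField W.F0 (UP Ω)} (hM : IsFF W.F0 M)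
    (hMt : ∀ u ∈ M, u ∈ tmE W E) {k l : ℕ} {α : Fin k → M} {β : Fin l → M} (hα : α ≠ 0)
    (hβ : β ≠ 0) {c : M} (hc : c ≠ 0)
    (H : ∀ v : Place W.F0 M, v.1 c * vmax v.1 α ≤ vmax v.1 β) :
    ∃ S : Finset (UP Ω), (∀ s ∈ S, s ∈ W.F0) ∧
      ∀ (X : FX W E) (r : UP Ω → ∀ N, X.F N), Reps X r S →
        ∀ (αr : Fin k → ∀ N, X.F N) (βr : Fin l → ∀ N, X.F N),
          (∀ i, germHom (fun N => (αr i N : Ω)) = α i) →
          (∀ i, germHom (fun N => (βr i N : Ω)) = β i) →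
          ∃ C : ℕ, ∀ᶠ N in (Filter.hyperfilter ℕ : Filter ℕ),
            height κ (fun i => αr i N) ≤ height κ (fun i => βr i N) + C * (W.T N : ℤ) := by
  classical
  have hcΩ : CharZero Ω := charZero_of_injective_algebraMap (algebraMap κ Ω).injective
  -- the clauses
  have hcl := fun p : Fin k × {m : Fin l // β m ≠ 0} =>
    clause_level (E := E) hM (I := Fin l) (J := Unit) (g := fun l' => β l' / β p.2.1)
      (h := fun _ => c * α p.1 / β p.2.1) (fun v hv => by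
        refine ⟨(), ?_⟩
        have h0 : 0 < v.1 (β p.2.1) := zero_lt_iff.2 ((v.1.ne_zero_iff).2 p.2.2)
        have h1 : vmax v.1 β ≤ v.1 (β p.2.1) := vmax_le _ fun l' => by
          have h2 := hv l'
          rwa [map_div₀, div_le_one₀ h0] at h2
        rw [map_div₀, div_le_one₀ h0, map_mul]
        exact ((mul_le_mul_right (le_vmax v.1 α p.1) _).trans (H v)).trans h1)
  choose S hS hS' using hcl
  obtain ⟨Sc, hSc, hSc'⟩ := tmE_gf (hMt c c.2)
  refine ⟨Sc ∪ Finset.univ.biUnion S, fun s hs => ?_, fun X r hr αr βr hαr hβr => ?_⟩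
  · rcases Finset.mem_union.1 hs with h | h
    · exact hSc s h
    · obtain ⟨p, -, hp⟩ := Finset.mem_biUnion.1 h
      exact hS p s hp
  -- the representative of `c`
  obtain ⟨cr, hcr⟩ := (W.mem_gf).1 (hSc' X.F X.le fun s hs =>
    (W.mem_gf).2 ⟨r s, (hr s (Finset.mem_union_left _ hs)).1⟩)
  have hδ := fun p => hS' p X r (hr.mono fun s hs => Finset.mem_union_right _
    (Finset.mem_biUnion.2 ⟨p, Finset.mem_univ p, hs⟩))
  choose δ hδs hδe using hδ
  have e1 := fun p => hδe p (fun l' N => βr l' N / βr p.2.1 N)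
    (fun _ N => cr N * αr p.1 N / βr p.2.1 N) (fun l' => by
      have h1 := germ_div (fun N => (βr l' N : Ω)) (fun N => (βr p.2.1 N : Ω))
      rw [hβr, hβr] at h1
      refine Eq.trans ?_ h1
      rfl) (fun _ => by
      have h1 := germ_div (fun N => (cr N : Ω) * (αr p.1 N : Ω)) (fun N => (βr p.2.1 N : Ω))
      have h2 : germHom (fun N => (cr N : Ω) * (αr p.1 N : Ω)) = c * α p.1 := by
        have h3 : (fun N => (cr N : Ω) * (αr p.1 N : Ω)) =
          (fun N => (cr N : Ω)) * (fun N => (αr p.1 N : Ω)) := rfl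
        rw [h3, map_mul, hcr, hαr]
      rw [h2, hβr] at h1
      refine Eq.trans ?_ h1
      rfl)
  have hne : ∀ (f : ∀ N, X.F N) (u : M), germHom (fun N => (f N : Ω)) = u → u ≠ 0 →
      ∀ᶠ N in (Filter.hyperfilter ℕ : Filter ℕ), f N ≠ 0 := by
    intro f u hf hu
    have h1 : ¬ ∀ᶠ N in (Filter.hyperfilter ℕ : Filter ℕ), (f N : Ω) = 0 := by
      rw [← germHom_eq_zero_iff, hf]
      exact fun h => hu (Subtype.ext h)
    filter_upwards [Ultrafilter.eventually_not.2 h1] with N hN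
    exact fun h0 => hN (by rw [h0]; rfl)
  have e2 : ∀ m, ∀ᶠ N in (Filter.hyperfilter ℕ : Filter ℕ), β m = 0 → βr m N = 0 := by
    intro m
    by_cases hm : β m = 0
    · have h1 : germHom (fun N => (βr m N : Ω)) = 0 := by
        rw [hβr, hm]
        rfl
      rw [germHom_eq_zero_iff] at h1
      filter_upwards [h1] with N hN _
      exact Subtype.ext hN
    · exact Filter.Eventually.of_forall fun N h => absurd h hm
  obtain ⟨m₀, hm₀⟩ : ∃ m, β m ≠ 0 := Function.ne_iff.1 hβ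
  obtain ⟨i₀, hi₀⟩ : ∃ i, α i ≠ 0 := Function.ne_iff.1 hα
  have e3 := hne (βr m₀) (β m₀) (hβr m₀) hm₀
  have e4 := hne cr c hcr hc
  have e5 := hne (αr i₀) (α i₀) (hαr i₀) hi₀
  have hΔ : SmallE X fun N w => ∑ p, δ p N w := SmallE.finset_sum _ fun p _ => hδs p
  obtain ⟨C, hC⟩ := hΔ.sum
  refine ⟨C, ?_⟩
  filter_upwards [Filter.eventually_all.2 e1, Filter.eventually_all.2 e2, e3, e4, e5] with
    N h1 h2 h3 h4 h5
  have hF : IsFF κ (X.F N) := X.ff N
  obtain ⟨a, ha⟩ : ∃ a : Fin k → X.F N, a = fun i => αr i N := ⟨_, rfl⟩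
  obtain ⟨b, hb⟩ : ∃ b : Fin l → X.F N, b = fun i => βr i N := ⟨_, rfl⟩
  have ha0 : a ≠ 0 := fun h => h5 (by
    have h6 := congrFun h i₀
    rwa [ha] at h6)
  have hb0 : b ≠ 0 := fun h => h3 (by
    have h6 := congrFun h m₀
    rwa [hb] at h6)
  obtain ⟨Δ, hΔ'⟩ : ∃ Δ : Place κ (X.F N) → ℕ, Δ = fun w => ∑ p, δ p N w := ⟨_, rfl⟩
  have hloc : ∀ w : Place κ (X.F N), log (w.1 (cr N)) + log (vmax w.1 a) ≤
      log (vmax w.1 b) + (Δ w : ℤ) := by
    intro w
    obtain ⟨m, hm0, hmax, hle⟩ := exists_vmax w.1 hb0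
    obtain ⟨i, hi0, himax, -⟩ := exists_vmax w.1 ha0
    have hm : β m ≠ 0 := fun h => hm0 (by rw [hb]; exact h2 m h)
    have hpos : 0 < w.1 (b m) := zero_lt_iff.2 ((w.1.ne_zero_iff).2 hm0)
    obtain ⟨-, h6⟩ := h1 (i, ⟨m, hm⟩) w (fun l' => by
      have h7 := hle l'
      rw [hb] at h7
      rw [hb] at hpos
      rw [map_div₀, div_le_one₀ hpos]
      exact h7)
    have h7 : w.1 (cr N) * w.1 (a i) ≤ w.1 (b m) * exp (Δ w : ℤ) := by
      have h8 : w.1 (cr N) * w.1 (a i) / w.1 (b m) ≤ exp (Δ w : ℤ) := by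
        rw [← map_mul, ← map_div₀]
        rw [ha, hb]
        refine h6.trans ?_
        rw [exp_le_exp, hΔ']
        exact_mod_cast Finset.single_le_sum (f := fun p => δ p N w) (fun _ _ => Nat.zero_le _)
          (Finset.mem_univ ((i, ⟨m, hm⟩) : Fin k × {m : Fin l // β m ≠ 0}))
      rwa [div_le_iff₀' hpos] at h8
    have hc0 : w.1 (cr N) ≠ 0 := (w.1.ne_zero_iff).2 h4
    have hi0' : w.1 (a i) ≠ 0 := (w.1.ne_zero_iff).2 hi0
    have hm0' : w.1 (b m) ≠ 0 := (w.1.ne_zero_iff).2 hm0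
    rw [himax, hmax, ← log_mul hc0 hi0']
    have h8 : log (w.1 (b m) * exp (Δ w : ℤ)) = log (w.1 (b m)) + (Δ w : ℤ) := by
      rw [log_mul hm0' exp_ne_zero, log_exp]
    rw [← h8]
    exact (log_le_log (mul_ne_zero hc0 hi0') (mul_ne_zero hm0' exp_ne_zero)).2 h7
  have hΔfin : (Function.support Δ).Finite := by
    rw [hΔ']
    exact hΔ.fin N
  have hΔfin' : (Function.support fun w => (Δ w : ℤ)).Finite := by
    refine hΔfin.subset fun w hw => ?_
    rw [Function.mem_support] at hw ⊢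
    intro h0
    exact hw (by rw [h0]; rfl)
  have hsum : ∑ᶠ w : Place κ (X.F N), (log (w.1 (cr N)) + log (vmax w.1 a)) ≤
      ∑ᶠ w : Place κ (X.F N), (log (vmax w.1 b) + (Δ w : ℤ)) :=
    finsum_mono (((hF.place_support h4).union (hF.vmax_support ha0)).subset
      (Function.support_add _ _)) (((hF.vmax_support hb0).union hΔfin').subset
      (Function.support_add _ _)) hloc
  rw [finsum_add_distrib (hF.place_support h4) (hF.vmax_support ha0), hF.product_formula h4,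
    zero_add, finsum_add_distrib (hF.vmax_support hb0) hΔfin'] at hsum
  have h9 := AddMonoidHom.map_finsum (Nat.castAddMonoidHom ℤ) hΔfin
  have h10 : ((∑ᶠ w : Place κ (X.F N), Δ w : ℕ) : ℤ) = ∑ᶠ w : Place κ (X.F N), (Δ w : ℤ) := h9
  have h11 : ∑ᶠ w : Place κ (X.F N), Δ w ≤ C * W.T N := by
    rw [hΔ']
    exact hC N
  have h12 : ((∑ᶠ w : Place κ (X.F N), Δ w : ℕ) : ℤ) ≤ C * (W.T N : ℤ) := by exact_mod_cast h11
  rw [h10] at h12
  rw [← ha, ← hb]
  unfold height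
  linarith

/-- **Comparison of heights.** -/
theorem height_compare [IsAlgClosed Ω] {M : IntermediateField W.F0 (UP Ω)} (hM : IsFF W.F0 M)
    (hMt : ∀ u ∈ M, u ∈ tmE W E) {k l : ℕ} {α : Fin k → M} {β : Fin l → M} (hα : α ≠ 0)
    (hβ : β ≠ 0) (hb : 0 < height W.F0 β) {ε : ℝ} (hε : 0 < ε) :
    ∃ S : Finset (UP Ω), (∀ s ∈ S, s ∈ W.F0) ∧
      ∀ (X : FX W E) (r : UP Ω → ∀ N, X.F N), Reps X r S →
        ∀ (αr : Fin k → ∀ N, X.F N) (βr : Fin l → ∀ N, X.F N),
          (∀ i, germHom (fun N => (αr i N : Ω)) = α i) →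
          (∀ i, germHom (fun N => (βr i N : Ω)) = β i) →
          ∃ C : ℕ, ∀ᶠ N in (Filter.hyperfilter ℕ : Filter ℕ),
            (height W.F0 β : ℝ) * height κ (fun i => αr i N) ≤
              (height W.F0 α + ε) * height κ (fun i => βr i N) + C * (W.T N : ℝ) := by
  classical
  have hcΩ : CharZero Ω := charZero_of_injective_algebraMap (algebraMap κ Ω).injective
  obtain ⟨m₀, hm₀⟩ : ∃ m, β m ≠ 0 := Function.ne_iff.1 hβ
  obtain ⟨i₀, hi₀⟩ : ∃ i, α i ≠ 0 := Function.ne_iff.1 hα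
  have ha0 : 0 ≤ height W.F0 α := hM.height_nonneg hα
  obtain ⟨g, hg⟩ : ∃ g : ℤ, g = genus W.F0 M := ⟨_, rfl⟩
  obtain ⟨s, hs1, hs⟩ : ∃ s : ℕ, 0 < s ∧ (|g| : ℝ) + height W.F0 β ≤ s * ε := by
    obtain ⟨s, hs⟩ := exists_nat_gt (((|g| : ℝ) + height W.F0 β) / ε)
    have hb' : (0 : ℝ) < height W.F0 β := by exact_mod_cast hb
    refine ⟨s, ?_, ((div_lt_iff₀ hε).1 hs).le⟩
    by_contra h0
    have h1 : s = 0 := by omega
    rw [h1, Nat.cast_zero] at hs
    have h2 : (0 : ℝ) ≤ ((|g| : ℝ) + height W.F0 β) / ε := by positivity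
    linarith
  obtain ⟨t, ht1, ht2⟩ : ∃ t : ℕ, (s : ℤ) * height W.F0 α + |g| ≤ t * height W.F0 β ∧
      (t : ℤ) * height W.F0 β ≤ s * height W.F0 α + |g| + height W.F0 β := by
    obtain ⟨y, hy⟩ : ∃ y : ℤ, y = s * height W.F0 α + |g| := ⟨_, rfl⟩
    have hy0 : 0 ≤ y := by
      rw [hy]
      positivity
    rw [← hy]
    refine ⟨(y / height W.F0 β + 1).toNat, ?_, ?_⟩
    · rw [Int.toNat_of_nonneg (by have := Int.ediv_nonneg hy0 hb.le; omega)]
      have h1 := Int.lt_ediv_add_one_mul_self y hb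
      exact h1.le
    · rw [Int.toNat_of_nonneg (by have := Int.ediv_nonneg hy0 hb.le; omega), add_mul, one_mul]
      have h1 := Int.ediv_mul_le y hb.ne'
      linarith
  have hα' : (fun i => α i ^ s) ≠ 0 := fun h => by
    have h1 := congrFun h i₀
    exact pow_ne_zero s hi₀ h1
  have hβ' : (fun i => β i ^ t) ≠ 0 := fun h => by
    have h1 := congrFun h m₀
    exact pow_ne_zero t hm₀ h1
  obtain ⟨c, hc0, hc⟩ := exists_scale hM hα' hβ' (by
    rw [height_pow hα, height_pow hβ, ← hg]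
    have := le_abs_self g
    linarith)
  obtain ⟨S, hS, hS'⟩ := height_level (E := E) hM hMt hα' hβ' hc0 hc
  refine ⟨S, hS, fun X r hr αr βr hαr hβr => ?_⟩
  obtain ⟨C, hC⟩ := hS' X r hr (fun i N => αr i N ^ s) (fun i N => βr i N ^ t) (fun i => by
    have h1 : (fun N => ((αr i N ^ s : X.F N) : Ω)) = (fun N => (αr i N : Ω)) ^ s := rfl
    rw [h1, map_pow, hαr]
    rfl) (fun i => by
    have h1 : (fun N => ((βr i N ^ t : X.F N) : Ω)) = (fun N => (βr i N : Ω)) ^ t := rfl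
    rw [h1, map_pow, hβr]
    rfl)
  have hne : ∀ (f : ∀ N, X.F N) (u : M), germHom (fun N => (f N : Ω)) = u → u ≠ 0 →
      ∀ᶠ N in (Filter.hyperfilter ℕ : Filter ℕ), f N ≠ 0 := by
    intro f u hf hu
    have h1 : ¬ ∀ᶠ N in (Filter.hyperfilter ℕ : Filter ℕ), (f N : Ω) = 0 := by
      rw [← germHom_eq_zero_iff, hf]
      exact fun h => hu (Subtype.ext h)
    filter_upwards [Ultrafilter.eventually_not.2 h1] with N hN
    exact fun h0 => hN (by rw [h0]; rfl)
  refine ⟨C * (height W.F0 β).toNat, ?_⟩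
  filter_upwards [hC, hne _ _ (hαr i₀) hi₀, hne _ _ (hβr m₀) hm₀] with N h1 h2 h3
  have hF : IsFF κ (X.F N) := X.ff N
  have ha0' : (fun i => αr i N) ≠ 0 := fun h => h2 (congrFun h i₀)
  have hb0' : (fun i => βr i N) ≠ 0 := fun h => h3 (congrFun h m₀)
  have h4 : (s : ℤ) * height κ (fun i => αr i N) ≤
      t * height κ (fun i => βr i N) + C * (W.T N : ℤ) := by
    have h5 := height_pow (κ := κ) ha0' s
    have h6 := height_pow (κ := κ) hb0' t
    rw [← h5, ← h6]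
    exact h1
  obtain ⟨x, hx⟩ : ∃ x : ℝ, x = height κ (fun i => αr i N) := ⟨_, rfl⟩
  obtain ⟨y, hy⟩ : ∃ y : ℝ, y = height κ (fun i => βr i N) := ⟨_, rfl⟩
  have hy0 : 0 ≤ y := by
    rw [hy]
    exact_mod_cast hF.height_nonneg hb0'
  obtain ⟨a, ha⟩ : ∃ a : ℝ, a = height W.F0 α := ⟨_, rfl⟩
  obtain ⟨b, hb''⟩ : ∃ b : ℝ, b = height W.F0 β := ⟨_, rfl⟩
  have hb1 : 1 ≤ b := by
    rw [hb'']
    exact_mod_cast hb
  have h4' : (s : ℝ) * x ≤ t * y + C * (W.T N : ℝ) := by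
    rw [hx, hy]
    exact_mod_cast h4
  have ht2' : (t : ℝ) * b ≤ s * a + |(g : ℝ)| + b := by
    rw [ha, hb'']
    exact_mod_cast ht2
  rw [← hx, ← hy, ← ha, ← hb'']
  rw [← hb''] at hs
  have hs1' : (1 : ℝ) ≤ s := by exact_mod_cast hs1
  have hT : (0 : ℝ) ≤ C * (W.T N : ℝ) := by positivity
  have hcast : (((C * (height W.F0 β).toNat : ℕ) : ℝ)) = C * b := by
    rw [hb'']
    push_cast
    congr 1
    have h7 : (((height W.F0 β).toNat : ℕ) : ℤ) = height W.F0 β := Int.toNat_of_nonneg hb.le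
    exact_mod_cast h7
  rw [hcast]
  -- `s b x ≤ t b y + b C T ≤ (s a + |g| + b) y + b C T ≤ s (a + ε) y + b C T`
  have h8 : (s : ℝ) * (b * x) ≤ s * ((a + ε) * y + C * b * (W.T N : ℝ)) := by
    have h9 : b * (s * x) ≤ b * (t * y + C * (W.T N : ℝ)) :=
      mul_le_mul_of_nonneg_left h4' (by linarith)
    have h10 : (t : ℝ) * b * y ≤ (s * a + |(g : ℝ)| + b) * y := mul_le_mul_of_nonneg_right ht2' hy0
    have h11 : (|(g : ℝ)| + b) * y ≤ s * ε * y := mul_le_mul_of_nonneg_right hs hy0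
    have h12 : C * (W.T N : ℝ) * b ≤ s * (C * (W.T N : ℝ) * b) :=
      le_mul_of_one_le_left (mul_nonneg hT (by linarith)) hs1'
    calc (s : ℝ) * (b * x) = b * (s * x) := by ring
      _ ≤ b * (t * y + C * (W.T N : ℝ)) := h9
      _ = t * b * y + C * (W.T N : ℝ) * b := by ring
      _ ≤ (s * a + |(g : ℝ)| + b) * y + s * (C * (W.T N : ℝ) * b) := add_le_add h10 h12
      _ = s * a * y + (|(g : ℝ)| + b) * y + s * (C * (W.T N : ℝ) * b) := by ring
      _ ≤ s * a * y + s * ε * y + s * (C * (W.T N : ℝ) * b) := by linarith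
      _ = s * ((a + ε) * y + C * b * (W.T N : ℝ)) := by ring
  exact le_of_mul_le_mul_left h8 (by linarith)

end Pool.Agent.Lib.MP_44a246_ntMY
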