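import Mathlib
import Pool.Agent.Lib.MP_44a246_ntMY.MY00
import Pool.Agent.Lib.MP_44a246_ntMY.MC05

/-!
# Part (C) of paper 705: the members near a place of the limit curve
-/

namespace Pool.Agent.Lib.MP_44a246_ntMY

open Pool.Agent.Lib.MP_e52354_nt
open Pool.Agent.Lib.MP_44a246_nt
open Pool.Agent.Lib.MP_44a246_ntL
open Pool.Agent.Lib.MP_44a246_ntR
open Pool.Agent.Lib.MP_44a246_ntY
open Pool.Agent.Lib.MP_44a246_ntS
open Pool.Agent.Lib.MP_44a246_ntSH
open Pool.Agent.Lib.MP_44a246_ntSM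
open Pool.Agent.Lib.MP_44a246_ntTM
open WithZero Module Polynomial

variable {κ K Ω : Type*} [Field κ] [IsAlgClosed κ] [CharZero κ] [Field K] [Algebra κ K]
  [Field Ω] [Algebra K Ω] [Algebra κ Ω] [IsScalarTower κ K Ω] {W : Tow κ K Ω}
  {E : ∀ N, IntermediateField (W.L N) Ω}

omit [IsAlgClosed κ] [CharZero κ] in
private theorem germ_inv' (f : ℕ → Ω) : germHom (fun N => (f N)⁻¹) = (germHom f)⁻¹ := rfl

private theorem germ_eq {X : FX W E} {f g : ∀ N, X.F N} {y z : UP Ω}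
    (hf : germHom (fun N => (f N : Ω)) = y) (hg : germHom (fun N => (g N : Ω)) = z)
    (h : y = z) : ∀ᶠ N in (Filter.hyperfilter ℕ : Filter ℕ), f N = g N := by
  have h1 := (germHom_eq_iff (fun N => (f N : Ω)) (fun N => (g N : Ω))).1 (by rw [hf, hg, h])
  filter_upwards [h1] with N h2
  exact Subtype.ext h2

private theorem germ_ne {X : FX W E} {f g : ∀ N, X.F N} {y z : UP Ω}
    (hf : germHom (fun N => (f N : Ω)) = y) (hg : germHom (fun N => (g N : Ω)) = z)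
    (h : y ≠ z) : ∀ᶠ N in (Filter.hyperfilter ℕ : Filter ℕ), f N ≠ g N := by
  have h1 : ¬ ∀ᶠ N in (Filter.hyperfilter ℕ : Filter ℕ), (f N : Ω) = g N := by
    intro h2
    apply h
    rw [← hf, ← hg]
    exact (germHom_eq_iff (fun N => (f N : Ω)) (fun N => (g N : Ω))).2 h2
  filter_upwards [Ultrafilter.eventually_not.2 h1] with N h2 h3
  exact h2 (by rw [h3])

private theorem one_le_of_inv {L : Type*} [Field L] (v : Valuation L ℤᵐ⁰) {a : L} (ha : a ≠ 0)
    (h : v a⁻¹ ≤ 1) : 1 ≤ v a := by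
  rw [map_inv₀] at h
  exact (inv_le_one₀ (zero_lt_iff.2 ((v.ne_zero_iff).2 ha))).1 h

/-- a member of a function with a pole of order `n` at `b` and no other pole has poles of order at
least `n` outside few places -/
theorem near_level [IsAlgClosed Ω] {M : IntermediateField W.F0 (UP Ω)} (hM : IsFF W.F0 M)
    {b : Place W.F0 M} {n : ℕ} {u u' : M} (hn : 0 < n) (hu : b.1 u = exp (n : ℤ))
    (hu' : b.1 u' = exp (n + 1 : ℤ)) (h : ∀ v : Place W.F0 M, v ≠ b → v.1 u ≤ 1) :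
    ∃ S : Finset (UP Ω), (∀ s ∈ S, s ∈ W.F0) ∧
      ∀ (X : FX W E) (r : UP Ω → ∀ N, X.F N), Reps X r S →
        ∃ δ : ∀ N, Place κ (X.F N) → ℕ, SmallE X δ ∧
          ∀ (ur ur' : ∀ N, X.F N), germHom (fun N => (ur N : Ω)) = u →
            germHom (fun N => (ur' N : Ω)) = u' →
            ∀ᶠ N in (Filter.hyperfilter ℕ : Filter ℕ), ∀ w : Place κ (X.F N), δ N w = 0 →
              1 < w.1 (ur N) → exp (n : ℤ) ≤ w.1 (ur N) := by
  -- `y = u' ^ n / u ^ (n + 1)` is a unit at `b`; two clauses (`clause_level`), without `g`: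
  -- `v y ≤ 1 ∨ v u ≤ 1` and `v y⁻¹ ≤ 1 ∨ v u ≤ 1`; so `w y = 1` if `1 < w u` and `δ N w = 0`, and
  -- `n * log (w u') = (n + 1) * log (w u)`
  classical
  have hu0 : u ≠ 0 := by
    rintro rfl
    rw [map_zero] at hu
    exact exp_ne_zero hu.symm
  have hu'0 : u' ≠ 0 := by
    rintro rfl
    rw [map_zero] at hu'
    exact exp_ne_zero hu'.symm
  set y : M := u' ^ n * (u ^ (n + 1))⁻¹ with hy
  have hby : b.1 y = 1 := by
    rw [hy, map_mul, map_inv₀, map_pow, map_pow, hu, hu', ← exp_nsmul, ← exp_nsmul, nsmul_eq_mul,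
      nsmul_eq_mul, ← exp_neg, ← exp_add, ← exp_zero]
    congr 1
    push_cast
    ring
  have H1 : ∀ v : Place W.F0 M, (∀ i : Empty, v.1 ((fun i => i.elim) i : M) ≤ 1) →
      ∃ j : Bool, v.1 (cond j y u) ≤ 1 := by
    intro v _
    by_cases hv : v = b
    · exact ⟨true, by rw [hv]; exact hby.le⟩
    · exact ⟨false, h v hv⟩
  have H2 : ∀ v : Place W.F0 M, (∀ i : Empty, v.1 ((fun i => i.elim) i : M) ≤ 1) →
      ∃ j : Bool, v.1 (cond j y⁻¹ u) ≤ 1 := by
    intro v _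
    by_cases hv : v = b
    · refine ⟨true, ?_⟩
      rw [hv]
      show b.1 y⁻¹ ≤ 1
      rw [map_inv₀, hby, inv_one]
    · exact ⟨false, h v hv⟩
  obtain ⟨S₁, hS₁, hc₁⟩ := clause_level (E := E) hM H1
  obtain ⟨S₂, hS₂, hc₂⟩ := clause_level (E := E) hM H2
  refine ⟨S₁ ∪ S₂, fun s hs => ?_, fun X r hr => ?_⟩
  · rcases Finset.mem_union.1 hs with h | h
    · exact hS₁ s h
    · exact hS₂ s h
  obtain ⟨δ₁, hδ₁, hd₁⟩ := hc₁ X r (hr.mono Finset.subset_union_left)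
  obtain ⟨δ₂, hδ₂, hd₂⟩ := hc₂ X r (hr.mono Finset.subset_union_right)
  refine ⟨fun N w => δ₁ N w + δ₂ N w, hδ₁.add hδ₂, fun ur ur' hur hur' => ?_⟩
  have hyr : germHom (fun N => ((ur' N ^ n * (ur N ^ (n + 1))⁻¹ : X.F N) : Ω)) = (y : UP Ω) := by
    have e1 : (fun N => ((ur' N ^ n * (ur N ^ (n + 1))⁻¹ : X.F N) : Ω)) =
        (fun N => (ur' N : Ω)) ^ n * fun N => (((fun N => (ur N : Ω)) ^ (n + 1)) N)⁻¹ := by
      funext N
      simp
    rw [e1, map_mul, map_pow, germ_inv', map_pow, hur, hur', hy]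
    simp
  have hyr' : germHom (fun N => (((ur' N ^ n * (ur N ^ (n + 1))⁻¹ : X.F N)⁻¹ : X.F N) : Ω)) =
      ((y⁻¹ : M) : UP Ω) := by
    have e1 : (fun N => (((ur' N ^ n * (ur N ^ (n + 1))⁻¹ : X.F N)⁻¹ : X.F N) : Ω)) =
        fun N => ((fun N => ((ur' N ^ n * (ur N ^ (n + 1))⁻¹ : X.F N) : Ω)) N)⁻¹ := by
      funext N
      simp
    rw [e1, germ_inv', hyr]
    simp
  have h1 := hd₁ (fun i => i.elim) (fun j N => cond j (ur' N ^ n * (ur N ^ (n + 1))⁻¹) (ur N))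
    (fun i => i.elim) (fun j => by
      cases j
      · exact hur
      · exact hyr)
  have h2 := hd₂ (fun i => i.elim) (fun j N => cond j (ur' N ^ n * (ur N ^ (n + 1))⁻¹)⁻¹ (ur N))
    (fun i => i.elim) (fun j => by
      cases j
      · exact hur
      · exact hyr')
  have h3 : ∀ᶠ N in (Filter.hyperfilter ℕ : Filter ℕ), ur' N ≠ 0 := by
    have h4 : ¬ ∀ᶠ N in (Filter.hyperfilter ℕ : Filter ℕ), (ur' N : Ω) = 0 := by
      rw [← germHom_eq_zero_iff, hur']
      intro h5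
      exact hu'0 (Subtype.ext h5)
    filter_upwards [Ultrafilter.eventually_not.2 h4] with N h5 h6
    exact h5 (by rw [h6]; rfl)
  filter_upwards [h1, h2, h3] with N e1 e2 e3 w hw hlt
  have hw1 : δ₁ N w = 0 := by omega
  have hw2 : δ₂ N w = 0 := by omega
  have hun : ur N ≠ 0 := by
    intro h0
    rw [h0, map_zero] at hlt
    exact not_lt_zero hlt
  set z : X.F N := ur' N ^ n * (ur N ^ (n + 1))⁻¹ with hz
  have hz0 : z ≠ 0 := mul_ne_zero (pow_ne_zero _ e3) (inv_ne_zero (pow_ne_zero _ hun))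
  have hz1 : w.1 z ≤ 1 := by
    obtain ⟨j, hj⟩ := e1 w (fun i => i.elim)
    rw [hw1, Nat.cast_zero, exp_zero] at hj
    cases j
    · exact absurd hj (not_le.2 hlt)
    · exact hj
  have hz2 : w.1 z⁻¹ ≤ 1 := by
    obtain ⟨j, hj⟩ := e2 w (fun i => i.elim)
    rw [hw2, Nat.cast_zero, exp_zero] at hj
    cases j
    · exact absurd hj (not_le.2 hlt)
    · exact hj
  have hz3 : w.1 z = 1 := le_antisymm hz1 (one_le_of_inv w.1 hz0 hz2)
  have hvu : w.1 (ur N) ≠ 0 := (w.1.ne_zero_iff).2 hun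
  have hvu' : w.1 (ur' N) ≠ 0 := (w.1.ne_zero_iff).2 e3
  rw [hz, map_mul, map_inv₀, map_pow, map_pow] at hz3
  have h5 : w.1 (ur' N) ^ n = w.1 (ur N) ^ (n + 1) := by
    rwa [mul_inv_eq_one₀ (pow_ne_zero _ hvu)] at hz3
  have h6 := congrArg log h5
  rw [log_pow, log_pow, nsmul_eq_mul, nsmul_eq_mul] at h6
  have h7 : log 1 < log (w.1 (ur N)) := (log_lt_log one_ne_zero hvu).2 hlt
  rw [log_one] at h7
  have h8 : (n : ℤ) ∣ log (w.1 (ur N)) := by
    refine ⟨log (w.1 (ur' N)) - log (w.1 (ur N)), ?_⟩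
    push_cast at h6
    linarith
  have h9 := Int.le_of_dvd h7 h8
  rw [← exp_log hvu, exp_le_exp]
  exact h9

/-- the places at which a member of `x` meets a small element `β` are near the places over `β` -/
theorem meets_level [IsAlgClosed Ω] {M : IntermediateField W.F0 (UP Ω)} (hM : IsFF W.F0 M)
    {ι : Type*} [Finite ι] {u : ι → M} {x : M} {β : W.F0} (hx : x ≠ algebraMap W.F0 M β)
    (h : ∀ v : Place W.F0 M, v.1 (x - algebraMap W.F0 M β) < 1 → ∃ b, 1 < v.1 (u b)) :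
    ∃ S : Finset (UP Ω), (∀ s ∈ S, s ∈ W.F0) ∧
      ∀ (X : FX W E) (r : UP Ω → ∀ N, X.F N), Reps X r S →
        ∃ δ : ∀ N, Place κ (X.F N) → ℕ, SmallE X δ ∧
          ∀ (ur : ι → ∀ N, X.F N) (xr βr : ∀ N, X.F N),
            (∀ b, germHom (fun N => (ur b N : Ω)) = u b) →
            germHom (fun N => (xr N : Ω)) = x → germHom (fun N => (βr N : Ω)) = β →
            ∀ᶠ N in (Filter.hyperfilter ℕ : Filter ℕ), ∀ w : Place κ (X.F N), δ N w = 0 →
              Meets w (xr N) (βr N) → ∃ b, 1 < w.1 (ur b N) := by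
  -- put `β` into `S` (`δ` includes `log (max 1 (w β_N))`), the clause `g = u`, `h = 1 / (x - β)`
  classical
  have hd0 : x - algebraMap W.F0 M β ≠ 0 := sub_ne_zero.2 hx
  have H : ∀ v : Place W.F0 M, (∀ i, v.1 (u i) ≤ 1) →
      ∃ _j : Unit, v.1 (x - algebraMap W.F0 M β)⁻¹ ≤ 1 := by
    intro v hv
    refine ⟨(), ?_⟩
    have h1 : 1 ≤ v.1 (x - algebraMap W.F0 M β) := by
      by_contra h2
      obtain ⟨b, hb⟩ := h v (not_le.1 h2)
      exact absurd (hv b) (not_le.2 hb)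
    rw [map_inv₀]
    exact inv_le_one_of_one_le₀ h1
  obtain ⟨S, hS, hc⟩ := clause_level (E := E) hM H
  refine ⟨insert (β : UP Ω) S, fun s hs => ?_, fun X r hr => ?_⟩
  · rcases Finset.mem_insert.1 hs with h | h
    · rw [h]; exact β.2
    · exact hS s h
  obtain ⟨δ, hδ, hd⟩ := hc X r (hr.mono (Finset.subset_insert _ _))
  obtain ⟨hβ1, hβ2⟩ := hr (β : UP Ω) (Finset.mem_insert_self _ _)
  refine ⟨fun N w => δ N w + (log (max 1 (w.1 (r (β : UP Ω) N)))).toNat,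
    hδ.add (SmallE.of_height hβ2), fun ur xr βr hur hxr hβr => ?_⟩
  have hdiff : germHom (fun N => (((xr N - βr N : X.F N)⁻¹ : X.F N) : Ω)) =
      (((x - algebraMap W.F0 M β)⁻¹ : M) : UP Ω) := by
    have e1 : (fun N => (((xr N - βr N : X.F N)⁻¹ : X.F N) : Ω)) =
        fun N => (((fun N => (xr N : Ω)) - fun N => (βr N : Ω)) N)⁻¹ := by
      funext N
      simp
    rw [e1, germ_inv', map_sub, hxr, hβr]
    simp
  have h1 := hd ur (fun _ N => (xr N - βr N)⁻¹) hur (fun _ => hdiff)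
  have h2 := germ_eq (X := X) hβr hβ1 rfl
  have h3 := germ_ne (X := X) hxr hβr (fun h => hx (Subtype.ext h))
  filter_upwards [h1, h2, h3] with N e1 e2 e3 w hw hmeet
  have hw1 : δ N w = 0 := by omega
  have hw2 : (log (max 1 (w.1 (r (β : UP Ω) N)))).toNat = 0 := by omega
  have hβle : w.1 (βr N) ≤ 1 := by
    rw [e2]
    have h4 := le_exp_toNat w.1 (r (β : UP Ω) N)
    rwa [hw2, Nat.cast_zero, exp_zero] at h4
  by_contra hcon
  push Not at hcon
  obtain ⟨-, h5⟩ := e1 w hcon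
  rw [hw1, Nat.cast_zero, exp_zero] at h5
  have h6 : 1 ≤ w.1 (xr N - βr N) := one_le_of_inv w.1 (sub_ne_zero.2 e3) h5
  unfold Meets at hmeet
  rw [max_eq_left hβle, mul_one] at hmeet
  have h7 : w.1 (xr N) ≤ w.1 (xr N - βr N) := by
    have e : xr N = (xr N - βr N) + βr N := by ring
    calc w.1 (xr N) = w.1 ((xr N - βr N) + βr N) := by rw [← e]
      _ ≤ max (w.1 (xr N - βr N)) (w.1 (βr N)) := w.1.map_add _ _
      _ ≤ w.1 (xr N - βr N) := max_le le_rfl (hβle.trans h6)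
  exact absurd hmeet (not_lt.2 (max_le h6 h7))

/-- near a place of the boundary the form `y` of degree `d` is small -/
theorem bdry_level [IsAlgClosed Ω] {M : IntermediateField W.F0 (UP Ω)} (hM : IsFF W.F0 M)
    {u y : M} {k d : ℕ} {γ : Fin k → M} {l : Fin k} (hγ : γ l = 1) (hy : y ≠ 0)
    (h : ∀ v : Place W.F0 M, 1 < v.1 u → v.1 y < vmax v.1 γ ^ d) :
    ∃ S : Finset (UP Ω), (∀ s ∈ S, s ∈ W.F0) ∧
      ∀ (X : FX W E) (r : UP Ω → ∀ N, X.F N), Reps X r S →
        ∃ δ : ∀ N, Place κ (X.F N) → ℕ, SmallE X δ ∧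
          ∀ (ur yr : ∀ N, X.F N) (γr : Fin k → ∀ N, X.F N), germHom (fun N => (ur N : Ω)) = u →
            germHom (fun N => (yr N : Ω)) = y → (∀ i, germHom (fun N => (γr i N : Ω)) = γ i) →
            ∀ᶠ N in (Filter.hyperfilter ℕ : Filter ℕ), ∀ w : Place κ (X.F N), δ N w = 0 →
              w.1 (yr N) = vmax w.1 (fun i => γr i N) ^ d → w.1 (ur N) ≤ 1 := by
  -- for every `i` with `γ i ≠ 0` the clause with `g = (γ j / γ i, j; γ i ^ d / y)` and `h = u`;
  -- at `w` take the `i` with `w (γr i N) = vmax`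
  classical
  have key : ∀ i : Fin k, ∃ S : Finset (UP Ω), (∀ s ∈ S, s ∈ W.F0) ∧
      ∀ (X : FX W E) (r : UP Ω → ∀ N, X.F N), Reps X r S →
        ∃ δ : ∀ N, Place κ (X.F N) → ℕ, SmallE X δ ∧ (γ i ≠ 0 →
          ∀ (ur yr : ∀ N, X.F N) (γr : Fin k → ∀ N, X.F N), germHom (fun N => (ur N : Ω)) = u →
            germHom (fun N => (yr N : Ω)) = y → (∀ i, germHom (fun N => (γr i N : Ω)) = γ i) →
            ∀ᶠ N in (Filter.hyperfilter ℕ : Filter ℕ), ∀ w : Place κ (X.F N), δ N w = 0 →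
              (∀ j, w.1 (γr j N * (γr i N)⁻¹) ≤ 1) → w.1 (γr i N ^ d * (yr N)⁻¹) ≤ 1 →
              w.1 (ur N) ≤ 1) := by
    intro i
    by_cases hi : γ i = 0
    · exact ⟨∅, by simp, fun X r _ => ⟨fun _ _ => 0, SmallE.zero X, fun h => absurd hi h⟩⟩
    have H : ∀ v : Place W.F0 M, (∀ j : Option (Fin k), v.1 (j.elim (γ i ^ d * y⁻¹)
        fun j => γ j * (γ i)⁻¹) ≤ 1) → ∃ _j : Unit, v.1 u ≤ 1 := by
      intro v hv
      refine ⟨(), ?_⟩
      by_contra hlt
      have h1 := h v (not_le.1 hlt)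
      have hvi : v.1 (γ i) ≠ 0 := (v.1.ne_zero_iff).2 hi
      have h2 : vmax v.1 γ ≤ v.1 (γ i) := by
        apply vmax_le
        intro j
        have h3 : v.1 (γ j * (γ i)⁻¹) ≤ 1 := hv (some j)
        rw [map_mul, map_inv₀] at h3
        calc v.1 (γ j) = v.1 (γ j) * (v.1 (γ i))⁻¹ * v.1 (γ i) := by
              rw [mul_assoc, inv_mul_cancel₀ hvi, mul_one]
          _ ≤ 1 * v.1 (γ i) := mul_le_mul' h3 le_rfl
          _ = _ := one_mul _
      have hvy : v.1 y ≠ 0 := (v.1.ne_zero_iff).2 hy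
      have h4 : v.1 (γ i ^ d * y⁻¹) ≤ 1 := hv none
      rw [map_mul, map_inv₀, map_pow] at h4
      have h5 : v.1 (γ i) ^ d ≤ v.1 y := by
        calc v.1 (γ i) ^ d = v.1 (γ i) ^ d * (v.1 y)⁻¹ * v.1 y := by
              rw [mul_assoc, inv_mul_cancel₀ hvy, mul_one]
          _ ≤ 1 * v.1 y := mul_le_mul' h4 le_rfl
          _ = _ := one_mul _
      have h6 : vmax v.1 γ ^ d ≤ v.1 (γ i) ^ d := pow_le_pow_left' h2 d
      exact absurd h1 (not_lt.2 (h6.trans h5))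
    obtain ⟨S, hS, hc⟩ := clause_level (E := E) hM H
    refine ⟨S, hS, fun X r hr => ?_⟩
    obtain ⟨δ, hδ, hd⟩ := hc X r hr
    refine ⟨δ, hδ, fun _ ur yr γr hur hyr hγr => ?_⟩
    have hg1 : germHom (fun N => ((γr i N ^ d * (yr N)⁻¹ : X.F N) : Ω)) =
        ((γ i ^ d * y⁻¹ : M) : UP Ω) := by
      have e1 : (fun N => ((γr i N ^ d * (yr N)⁻¹ : X.F N) : Ω)) =
          (fun N => (γr i N : Ω)) ^ d * fun N => ((fun N => (yr N : Ω)) N)⁻¹ := by
        funext N
        simp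
      rw [e1, map_mul, map_pow, germ_inv', hyr, hγr]
      simp
    have hg2 : ∀ j, germHom (fun N => ((γr j N * (γr i N)⁻¹ : X.F N) : Ω)) =
        ((γ j * (γ i)⁻¹ : M) : UP Ω) := by
      intro j
      have e1 : (fun N => ((γr j N * (γr i N)⁻¹ : X.F N) : Ω)) =
          (fun N => (γr j N : Ω)) * fun N => ((fun N => (γr i N : Ω)) N)⁻¹ := by
        funext N
        simp
      rw [e1, map_mul, germ_inv', hγr, hγr]
      simp
    have h1 := hd (fun j N => j.elim (γr i N ^ d * (yr N)⁻¹) fun j => γr j N * (γr i N)⁻¹)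
      (fun _ N => ur N) (fun j => by
        cases j
        · exact hg1
        · exact hg2 _) (fun _ => hur)
    filter_upwards [h1] with N e1 w hw ha hb
    obtain ⟨-, h2⟩ := e1 w (fun j => by
      cases j
      · exact hb
      · exact ha _)
    rwa [hw, Nat.cast_zero, exp_zero] at h2
  choose S hS hkey using key
  refine ⟨Finset.univ.biUnion S, fun s hs => ?_, fun X r hr => ?_⟩
  · obtain ⟨i, -, hi⟩ := Finset.mem_biUnion.1 hs
    exact hS i s hi
  have hr' : ∀ i, Reps X r (S i) := fun i =>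
    hr.mono (Finset.subset_biUnion_of_mem S (Finset.mem_univ i))
  choose δ hδ hd using fun i => hkey i X r (hr' i)
  refine ⟨fun N w => ∑ i, δ i N w, SmallE.finset_sum _ fun i _ => hδ i,
    fun ur yr γr hur hyr hγr => ?_⟩
  have h1 : ∀ᶠ N in (Filter.hyperfilter ℕ : Filter ℕ), ∀ i, γ i ≠ 0 →
      ∀ w : Place κ (X.F N), δ i N w = 0 → (∀ j, w.1 (γr j N * (γr i N)⁻¹) ≤ 1) →
      w.1 (γr i N ^ d * (yr N)⁻¹) ≤ 1 → w.1 (ur N) ≤ 1 := by
    refine Filter.eventually_all.2 fun i => ?_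
    by_cases hi : γ i = 0
    · exact Filter.Eventually.of_forall fun N h => absurd hi h
    · filter_upwards [hd i hi ur yr γr hur hyr hγr] with N e1 _
      exact e1
  have h2 : ∀ᶠ N in (Filter.hyperfilter ℕ : Filter ℕ), ∀ i, γ i = 0 → γr i N = 0 := by
    refine Filter.eventually_all.2 fun i => ?_
    by_cases hi : γ i = 0
    · have h3 := (germHom_eq_zero_iff (fun N => (γr i N : Ω))).1 (by
        rw [hγr, hi]; rfl)
      filter_upwards [h3] with N e1 _
      exact Subtype.ext e1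
    · exact Filter.Eventually.of_forall fun N h => absurd h hi
  have h3 : ∀ᶠ N in (Filter.hyperfilter ℕ : Filter ℕ), γr l N = 1 := by
    have h4 := (germHom_eq_iff (fun N => (γr l N : Ω)) (fun _ => (1 : Ω))).1 (by
      rw [hγr, hγ]
      exact (map_one (germHom (L := Ω))).symm)
    filter_upwards [h4] with N e1
    exact Subtype.ext e1
  filter_upwards [h1, h2, h3] with N e1 e2 e3 w hw hyw
  have hne : (Finset.univ : Finset (Fin k)).Nonempty := ⟨l, Finset.mem_univ _⟩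
  obtain ⟨i, -, hi⟩ := Finset.exists_mem_eq_sup Finset.univ hne (fun j => w.1 (γr j N))
  have hi' : vmax w.1 (fun i => γr i N) = w.1 (γr i N) := hi
  have h1le : 1 ≤ w.1 (γr i N) := by
    rw [← hi']
    have h4 := le_vmax w.1 (fun i => γr i N) l
    rwa [e3, map_one] at h4
  have hγi0 : w.1 (γr i N) ≠ 0 := (lt_of_lt_of_le zero_lt_one h1le).ne'
  have hγi : γ i ≠ 0 := by
    intro h0
    rw [e2 i h0, map_zero] at hγi0
    exact hγi0 rfl
  have hwi : δ i N w = 0 := by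
    have h4 : δ i N w ≤ ∑ i, δ i N w :=
      Finset.single_le_sum (f := fun i => δ i N w) (fun _ _ => Nat.zero_le _) (Finset.mem_univ i)
    omega
  refine e1 i hγi w hwi (fun j => ?_) ?_
  · rw [map_mul, map_inv₀]
    have h4 : w.1 (γr j N) ≤ w.1 (γr i N) := by
      rw [← hi']
      exact le_vmax w.1 (fun i => γr i N) j
    calc w.1 (γr j N) * (w.1 (γr i N))⁻¹ ≤ w.1 (γr i N) * (w.1 (γr i N))⁻¹ :=
          mul_le_mul' h4 le_rfl
      _ = 1 := mul_inv_cancel₀ hγi0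
  · rw [map_mul, map_inv₀, map_pow, hyw, hi', mul_inv_cancel₀ (pow_ne_zero _ hγi0)]

end Pool.Agent.Lib.MP_44a246_ntMY
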