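import Mathlib
import Pool.Agent.Lib.MP_44a246_ntL.LFF

/-!
# Part (C) of paper 705: the numbers, and the transfer of the contact condition
-/

namespace Pool.Agent.Lib.MP_44a246_ntMY

open Pool.Agent.Lib.MP_44a246_nt
open Pool.Agent.Lib.MP_44a246_ntL
open WithZero

/-- the final inequality -/
theorem final_num {Q m a bt η ε T e₀ e H H' h Z Z' R R' mt U C₁ C₂ C₃ C₄ c : ℝ} (hQ : 1 ≤ Q)
    (hm : 0 ≤ m) (ha : 1 ≤ a) (hbt : 0 ≤ bt) (hη0 : 0 < η) (hη1 : η ≤ 1)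
    (hη : η * (m + Q * m + bt) ≤ ε) (hT : 0 ≤ T) (he : 1 ≤ e) (he₀ : 0 < e₀) (hee : e₀ ≤ e)
    (hH' : 0 ≤ H') (hC₁ : 0 ≤ C₁) (hC₂ : 0 ≤ C₂) (hC₃ : 0 ≤ C₃) (hC₄ : 0 ≤ C₄) (hc : 0 ≤ c)
    (hHH : e₀ * H' = e * H) (hZ : e₀ * Z' ≤ e * Z) (hR : e₀ * R' ≤ e * R + c * T)
    (h1 : m * H' ≤ (a + η) * h + C₁ * T) (h2 : (Q - η) * h ≤ mt + R' + C₂ * T)
    (h3 : mt ≤ Z' + C₃ * T + U) (h4 : a * U ≤ bt * (1 + η) * H' + C₄ * T) :
    (Q * m - bt - ε) * H ≤
      a * (Z + R) + (a * c + (a * C₃ + C₄ + a * C₂ + Q * C₁)) * T := by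
  have ha0 : 0 < a := by linarith
  have hmH : 0 ≤ m * H' := mul_nonneg hm hH'
  have hCT : 0 ≤ C₁ * T := mul_nonneg hC₁ hT
  -- a lower bound for `a * h`
  have k1 : (1 - η) * (m * H') - C₁ * T ≤ a * h := by
    have e1 : (a + η) * ((1 - η) * (m * H') - C₁ * T) ≤ (a + η) * (a * h) := by
      have e2 : (a + η) * (1 - η) ≤ a := by nlinarith
      have e3 : (a + η) * (1 - η) * (m * H') ≤ a * (m * H') :=
        mul_le_mul_of_nonneg_right e2 hmH
      have e4 : a * (m * H') ≤ a * ((a + η) * h + C₁ * T) := mul_le_mul_of_nonneg_left h1 ha0.le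
      have e5 : 0 ≤ η * (C₁ * T) := mul_nonneg hη0.le hCT
      linarith
    exact le_of_mul_le_mul_left e1 (by linarith)
  have k2 : (Q - η - Q * η) * (m * H') - Q * (C₁ * T) ≤ (Q - η) * (a * h) := by
    have e1 : (Q - η) * ((1 - η) * (m * H') - C₁ * T) ≤ (Q - η) * (a * h) :=
      mul_le_mul_of_nonneg_left k1 (by linarith)
    have e2 : 0 ≤ η * η * (m * H') := mul_nonneg (mul_nonneg hη0.le hη0.le) hmH
    have e3 : 0 ≤ η * (C₁ * T) := mul_nonneg hη0.le hCT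
    linarith
  have k3 : (Q - η) * (a * h) ≤ a * (Z' + R') + bt * (1 + η) * H' +
      (a * C₃ + C₄ + a * C₂) * T := by
    have e1 : a * ((Q - η) * h) ≤ a * (mt + R' + C₂ * T) := mul_le_mul_of_nonneg_left h2 ha0.le
    have e2 : a * mt ≤ a * (Z' + C₃ * T + U) := mul_le_mul_of_nonneg_left h3 ha0.le
    linarith
  have k4 : (Q * m - bt - ε) * H' ≤ a * (Z' + R') + (a * C₃ + C₄ + a * C₂ + Q * C₁) * T := by
    have e1 : η * (m + Q * m + bt) * H' ≤ ε * H' := mul_le_mul_of_nonneg_right hη hH'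
    linarith
  -- back to the field `E N`
  obtain ⟨D, hD⟩ : ∃ D, D = a * C₃ + C₄ + a * C₂ + Q * C₁ := ⟨_, rfl⟩
  rw [← hD] at k4 ⊢
  have hD0 : 0 ≤ D := by
    rw [hD]
    have e1 := mul_nonneg ha0.le hC₃
    have e2 := mul_nonneg ha0.le hC₂
    have e3 := mul_nonneg (by linarith : (0 : ℝ) ≤ Q) hC₁
    linarith
  have k5 : e * ((Q * m - bt - ε) * H) ≤ e * (a * (Z + R) + (a * c + D) * T) := by
    have e1 : e₀ * ((Q * m - bt - ε) * H') ≤ e₀ * (a * (Z' + R') + D * T) :=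
      mul_le_mul_of_nonneg_left k4 he₀.le
    have e2 : e₀ * ((Q * m - bt - ε) * H') = e * ((Q * m - bt - ε) * H) := by
      calc e₀ * ((Q * m - bt - ε) * H') = (Q * m - bt - ε) * (e₀ * H') := by ring
        _ = (Q * m - bt - ε) * (e * H) := by rw [hHH]
        _ = _ := by ring
    have e3 : a * (e₀ * Z') ≤ a * (e * Z) := mul_le_mul_of_nonneg_left hZ ha0.le
    have e4 : a * (e₀ * R') ≤ a * (e * R + c * T) := mul_le_mul_of_nonneg_left hR ha0.le
    have e5 : e₀ * (D * T) ≤ e * (D * T) := mul_le_mul_of_nonneg_right hee (mul_nonneg hD0 hT)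
    have e6 : 1 * (a * c * T) ≤ e * (a * c * T) :=
      mul_le_mul_of_nonneg_right he (mul_nonneg (mul_nonneg ha0.le hc) hT)
    linarith
  exact le_of_mul_le_mul_left k5 (by linarith)

/-- the contact condition only depends on the valuation ring -/
theorem transfer_max {A B : Type*} [Field A] [Field B] (f : A →+* B) {v : Valuation A ℤᵐ⁰}
    {w : Valuation B ℤᵐ⁰} (h : ∀ y : A, v y ≤ 1 ↔ w (f y) ≤ 1) {k d : ℕ} {x : Fin k → A} {y : A}
    (hx : x ≠ 0) (hy : v y = vmax v x ^ d) : w (f y) = vmax w (fun i => f (x i)) ^ d := by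
  classical
  obtain ⟨i₀, hi₀⟩ : ∃ i, x i ≠ 0 := by
    by_contra hcon
    push Not at hcon
    exact hx (funext hcon)
  obtain ⟨i, -, hi⟩ := Finset.exists_max_image (Finset.univ : Finset (Fin k)) (fun i => v (x i))
    ⟨i₀, Finset.mem_univ _⟩
  have hvi : vmax v x = v (x i) :=
    le_antisymm (vmax_le _ fun j => hi j (Finset.mem_univ j)) (le_vmax _ _ _)
  have hxi : x i ≠ 0 := by
    intro h0
    have h1 := hi i₀ (Finset.mem_univ _)
    rw [h0, map_zero, le_zero_iff] at h1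
    exact hi₀ ((Valuation.zero_iff _).1 h1)
  have hvx : v (x i) ≠ 0 := (Valuation.ne_zero_iff _).2 hxi
  have hfx : f (x i) ≠ 0 := (map_ne_zero f).2 hxi
  have hwx : w (f (x i)) ≠ 0 := (Valuation.ne_zero_iff _).2 hfx
  have hwi : vmax w (fun i => f (x i)) = w (f (x i)) := by
    refine le_antisymm (vmax_le _ fun j => ?_) (le_vmax _ (fun i => f (x i)) i)
    have h1 : v (x j / x i) ≤ 1 := by
      rw [map_div₀, div_le_one₀ (zero_lt_iff.2 hvx)]
      exact hi j (Finset.mem_univ j)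
    have h2 := (h _).1 h1
    rw [map_div₀, map_div₀, div_le_one₀ (zero_lt_iff.2 hwx)] at h2
    exact h2
  rw [hvi] at hy
  have hy0 : v y ≠ 0 := by
    rw [hy]
    exact pow_ne_zero _ hvx
  have hyne : y ≠ 0 := (Valuation.ne_zero_iff _).1 hy0
  have hwy : w (f y) ≠ 0 := (Valuation.ne_zero_iff _).2 ((map_ne_zero f).2 hyne)
  rw [hwi]
  apply le_antisymm
  · have h1 : v (y / x i ^ d) ≤ 1 := by
      rw [map_div₀, map_pow, hy, div_self (pow_ne_zero _ hvx)]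
    have h2 := (h _).1 h1
    rw [map_div₀, map_pow, map_div₀, map_pow, div_le_one₀ (zero_lt_iff.2 (pow_ne_zero _ hwx))] at h2
    exact h2
  · have h1 : v (x i ^ d / y) ≤ 1 := by
      rw [map_div₀, map_pow, hy, div_self (pow_ne_zero _ hvx)]
    have h2 := (h _).1 h1
    rw [map_div₀, map_pow, map_div₀, map_pow, div_le_one₀ (zero_lt_iff.2 hwy)] at h2
    exact h2

end Pool.Agent.Lib.MP_44a246_ntMY
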