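import Mathlib
import Pool.Agent.Lib.MP_44a246_ntPC.G2
import Pool.Agent.Lib.MP_44a246_ntUV.UV05a

/-!
# Arbitrary varieties with the theorem of McQuillan and Yamanoi: certificates and isomorphisms
-/

namespace Pool.Agent.Lib.MP_44a246_ntMY

open Pool.Agent.Lib.MP_e52354_nt
open Pool.Agent.Lib.MP_44a246_nt
open Pool.Agent.Lib.MP_44a246_ntL
open Pool.Agent.Lib.MP_44a246_ntS
open Pool.Agent.Lib.MP_44a246_ntSP
open Pool.Agent.Lib.MP_44a246_ntPC
open Pool.Agent.Lib.MP_44a246_ntUV
open WithZero Module Polynomial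

private theorem m2_symm {R S : Type*} [CommRing R] [CommRing S] (e : R ≃+* S) (A : R[X][X]) :
    m2 (e.symm : S →+* R) (m2 (e : R →+* S) A) = A := by
  refine Polynomial.ext fun i => Polynomial.ext fun k => ?_
  rw [m2_coeff, m2_coeff]
  exact e.symm_apply_apply _

private theorem m2_symm' {R S : Type*} [CommRing R] [CommRing S] (e : R ≃+* S) (A : S[X][X]) :
    m2 (e : R →+* S) (m2 (e.symm : S →+* R) A) = A := by
  refine Polynomial.ext fun i => Polynomial.ext fun k => ?_
  rw [m2_coeff, m2_coeff]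
  exact e.apply_symm_apply _

private theorem m2_irred {R S : Type*} [CommRing R] [CommRing S] (e : R ≃+* S) {A : R[X][X]}
    (h : Irreducible A) : Irreducible (m2 (e : R →+* S) A) := by
  let E : R[X][X] ≃+* S[X][X] := RingEquiv.ofRingHom (m2 (e : R →+* S)) (m2 (e.symm : S →+* R))
    (RingHom.ext fun A => m2_symm' e A) (RingHom.ext fun A => m2_symm e A)
  exact (MulEquiv.irreducible_iff E.toMulEquiv).2 h

/-- the certificate under an isomorphism which preserves the heights -/
theorem CertV.map_equiv {κ L L' : Type*} [Field κ] [Field L] [Algebra κ L] [Field L']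
    [Algebra κ L'] {n b N : ℕ} {T : ℤ} (e : L ≃+* L')
    (heκ : ∀ c : κ, e (algebraMap κ L c) = algebraMap κ L' c)
    (hh : ∀ y : L, height κ ![1, e y] = height κ ![1, y]) {x : Fin (n + 1) → L}
    (h : CertV κ b N T x) : CertV κ b N T (fun j => e (x j)) := by
  obtain ⟨A, B, ξ₀, ξ₁, ξ₂, c', y₁, y, h0, h1, h2, h3, h4, h5, h6, h7, h8, h9, h10, h11, h12, h13,
    h14, ⟨J, h15⟩, ⟨m₀, h16⟩, ⟨m₁, h17⟩, ⟨z, h18⟩, ⟨i₀, k₀, h19⟩, h20, h21⟩ := h
  have hφ : ∀ a : L, (e : L →+* L') a = e a := fun _ => rfl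
  refine ⟨m2 (e : L →+* L') A, fun j => m2 (e : L →+* L') (B j), fun j => e (ξ₀ j),
    fun j => e (ξ₁ j), fun j => e (ξ₂ j), e c', e y₁, e y, m2_irred e h0, h1.m2 _,
    fun j => (h2 j).m2 _, ?_, ?_, ?_, ?_, ?_, ?_, ?_, ?_, ?_, ?_, ?_, ?_, ?_, ?_, ?_, ?_, ?_, ?_,
    ?_⟩
  · exact (map_ne_zero e).2 h3
  · rw [← map_one e, ← h4, map_sum]
    simp only [map_mul]
  · rw [← h5, map_sum]
    simp only [map_mul]
  · rw [← h6, map_sum]
    simp only [map_mul]
  · rw [← hφ, ← hφ y, m2_evalEval, h7, map_zero]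
  · rw [← m2_derivative, ← hφ, ← hφ y, m2_evalEval]
    exact (map_ne_zero (e : L →+* L')).2 h8
  · intro j
    rw [← m2_derivative, ← hφ y₁, ← hφ y, m2_evalEval, m2_evalEval, ← map_mul, hφ, ← map_mul]
    exact congrArg e (h9 j)
  · exact fun i => i.elim0
  · have := map_dvd (m2 (e : L →+* L')) h11
    rw [map_sub, map_sum, m2_derivative] at this
    simpa only [map_mul, m2_CC, hφ] using this
  · have := map_dvd (m2 (e : L →+* L')) h12
    rw [map_sub, map_sum, map_mul, m2_derivative, m2_CX] at this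
    simpa only [map_mul, m2_CC, hφ] using this
  · have := map_dvd (m2 (e : L →+* L')) h13
    rw [map_sub, map_sum, map_mul, m2_derivative, m2_X] at this
    simpa only [map_mul, m2_CC, hφ] using this
  · intro u
    obtain ⟨P, hP0, hPh, hPd⟩ := h14 u
    refine ⟨MvPolynomial.map (e : L →+* L') P, ?_, hPh.map _, ?_⟩
    · intro h0
      apply hP0
      exact MvPolynomial.map_injective (e : L →+* L') e.injective (h0.trans (map_zero _).symm)
    · have := map_dvd (m2 (e : L →+* L')) hPd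
      rw [m2_aeval] at this
      refine this.trans (dvd_of_eq ?_)
      congr 2
      funext i
      rw [map_sum]
      refine Finset.sum_congr rfl fun j _ => ?_
      rw [map_mul, m2_CC, map_natCast]
  · refine ⟨J, fun v hv hd => ?_⟩
    refine h15 (fun i => e.symm (v i)) ?_ ?_
    · intro h0
      apply hv
      funext i
      have h1 : e.symm (v i) = 0 := congrFun h0 i
      exact (map_eq_zero e.symm).1 h1
    · have := map_dvd (m2 (e.symm : L' →+* L)) hd
      rw [m2_symm, map_sum] at this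
      refine this.trans (dvd_of_eq ?_)
      refine Finset.sum_congr rfl fun i _ => ?_
      rw [map_mul, m2_CC, m2_symm]
      rfl
  · refine ⟨m₀, fun j => ?_⟩
    show e (ξ₀ j) = _
    rw [h16, map_natCast]
  · refine ⟨m₁, fun j => ?_⟩
    show e (ξ₁ j) = _
    rw [h17, map_natCast]
  · refine ⟨z, fun j => ?_⟩
    show e (ξ₂ j) = _
    rw [h18, heκ]
  · exact ⟨i₀, k₀, by rw [m2_coeff, h19, map_one]⟩
  · intro i k
    rw [m2_coeff, hφ, hh]
    exact h20 i k
  · intro j i k
    show height κ ![1, ((m2 (e : L →+* L') (B j)).coeff i).coeff k] ≤ T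
    rw [m2_coeff, hφ, hh]
    exact h21 j i k

end Pool.Agent.Lib.MP_44a246_ntMY
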