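import Mathlib

/-!
# (A7) Arithmetic for the final assembly
-/

namespace Pool.Agent.Lib.MP_44a246_ntMY

theorem my_arith0 {q ε H sb A R d m c : ℝ} (hq : 0 ≤ q) (hε : 0 ≤ ε) (hH : 0 ≤ H) (hs : 0 ≤ sb)
    (hA : 0 ≤ A) (hR : 0 ≤ R) (hd : 0 ≤ d) (h : H ≤ m * sb) (hc : q * m ≤ c) (hc0 : 0 ≤ c) :
    (q - 2 - ε) * H ≤ A + R + c * (d + sb) := by
  have h1 : (q - 2 - ε) * H ≤ q * H := mul_le_mul_of_nonneg_right (by linarith) hH
  have h2 : q * H ≤ q * (m * sb) := mul_le_mul_of_nonneg_left h hq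
  have h3 : q * m * sb ≤ c * sb := mul_le_mul_of_nonneg_right hc hs
  have h4 : 0 ≤ c * d := mul_nonneg hc0 hd
  have h5 : q * (m * sb) = q * m * sb := by ring
  have h6 : c * (d + sb) = c * d + c * sb := by ring
  linarith

theorem my_arith {q ε ε' H E sb A B R X d C1 C3 C5 c : ℝ} (hε'1 : ε' ≤ 1 / 8)
    (hε'0 : 0 ≤ ε') (hε'2 : 4 * ε' * q ≤ ε) (hH : 0 ≤ H) (hs : 0 ≤ sb)
    (hd : 0 ≤ d) (hC1 : 0 ≤ C1) (hB : B ≤ C3 * sb) (hmain : (1 - 4 * ε') * E ≤ A + B + R + X + d)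
    (hX : X ≤ C5 * sb) (hed : (q - 2) * H ≤ E + C1 * sb) (hc : C1 + C3 + C5 ≤ c) (hc1 : 1 ≤ c) :
    (q - 2 - ε) * H ≤ A + R + c * (d + sb) := by
  have h4 : 0 ≤ 1 - 4 * ε' := by linarith
  have h1 : (1 - 4 * ε') * ((q - 2) * H) ≤ (1 - 4 * ε') * (E + C1 * sb) :=
    mul_le_mul_of_nonneg_left hed h4
  have h2 : 0 ≤ C1 * sb := mul_nonneg hC1 hs
  have h3 : 0 ≤ ε' * (C1 * sb) := mul_nonneg hε'0 h2
  have h5 : q - 2 - ε ≤ (1 - 4 * ε') * (q - 2) := by nlinarith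
  have h6 : (q - 2 - ε) * H ≤ (1 - 4 * ε') * (q - 2) * H := mul_le_mul_of_nonneg_right h5 hH
  have h7 : (C1 + C3 + C5) * sb ≤ c * sb := mul_le_mul_of_nonneg_right hc hs
  have h8 : d ≤ c * d := le_mul_of_one_le_left hd hc1
  have h9 : c * (d + sb) = c * d + c * sb := by ring
  have h10 : (C1 + C3 + C5) * sb = C1 * sb + C3 * sb + C5 * sb := by ring
  have h11 : (1 - 4 * ε') * (E + C1 * sb) = (1 - 4 * ε') * E + C1 * sb - 4 * (ε' * (C1 * sb)) := by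
    ring
  have h12 : (1 - 4 * ε') * (q - 2) * H = (1 - 4 * ε') * ((q - 2) * H) := by ring
  linarith

end Pool.Agent.Lib.MP_44a246_ntMY
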