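import Pool.Agent.Lib.MP_44a246_ntMY.MY76
import Pool.Agent.Lib.MP_44a246_ntMY.MY77

/-!
# (A7) The theorem of McQuillan and Yamanoi for the projective line with moving targets

The maximum principle (`max_principle`) is in `MY75`, the inequality for the height of the edges
(`edges_le`) in `MY76`.
-/

namespace Pool.Agent.Lib.MP_44a246_ntMY

open Pool.Agent.Lib.MP_44a246_nt
open Pool.Agent.Lib.MP_44a246_ntL
open Pool.Agent.Lib.MP_44a246_ntR
open WithZero Module Polynomial Filter Topology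

universe w

/-- **The theorem of McQuillan and Yamanoi** for the projective line over `ℂ` with moving
targets. -/
theorem myp_complex : MYP.{0, w} ℂ := by
  classical
  intro q ε hε
  rcases Nat.lt_or_ge q 3 with hq | hq
  · -- fewer than three targets: the left side is not positive
    refine ⟨0, fun L _ _ _ _ _ x b _ => ?_⟩
    have hL : IsFF ℂ L := isFF_of_ratFunc ℂ L
    have h1 : (0 : ℝ) ≤ height ℂ ![1, x] := by exact_mod_cast height_one_nonneg hL x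
    have h2 : (q : ℝ) ≤ 2 := by exact_mod_cast Nat.lt_succ_iff.1 hq
    have h3 : ((q : ℝ) - 2 - ε) * height ℂ ![1, x] ≤ 0 :=
      mul_nonpos_of_nonpos_of_nonneg (by linarith) h1
    refine h3.trans ?_
    rw [Nat.cast_zero, zero_mul, add_zero]
    exact add_nonneg (Nat.cast_nonneg _) (Nat.cast_nonneg _)
  have hq0 : (0 : ℝ) < q := by exact_mod_cast (show 0 < q by omega)
  obtain ⟨ε', hε'⟩ : ∃ r : ℝ, r = min (1 / 8) (ε / (4 * q)) := ⟨_, rfl⟩
  have hε'0 : 0 < ε' := by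
    rw [hε']
    exact lt_min (by norm_num) (by positivity)
  have hε'1 : ε' ≤ 1 / 8 := by
    rw [hε']
    exact min_le_left _ _
  have hε'2 : 4 * ε' * q ≤ ε := by
    have h1 : ε' ≤ ε / (4 * q) := by
      rw [hε']
      exact min_le_right _ _
    rw [le_div_iff₀ (by positivity)] at h1
    linarith
  obtain ⟨k, δ, C, hk0, hk1, hδ0, -, hC, hpw⟩ := pointwise q hε'0 hε'1
  obtain ⟨C1, hC1⟩ := height_edges.{0, w} ℂ q hq
  obtain ⟨C2, hC2⟩ := height_chi.{0, w} ℂ q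
  obtain ⟨C3, hC3⟩ := card_meet.{0, w} ℂ q
  obtain ⟨C4, hC4⟩ := height_of_WW.{0, w} ℂ q
  obtain ⟨C5, hC5⟩ := exists_nat_ge (6 * C * ((Fintype.card (Fin 4 ↪ Fin q) : ℝ) * C2))
  obtain ⟨c, hc⟩ : ∃ c : ℕ, c = q + q * C4 + C1 + C3 + C5 + 1 := ⟨_, rfl⟩
  have hc1 : (1 : ℝ) ≤ c := by exact_mod_cast (show 1 ≤ c by omega)
  have hcq : (q : ℝ) * 1 ≤ c := by
    rw [mul_one]
    exact_mod_cast (show q ≤ c by rw [hc]; generalize q * C4 = m; omega)
  have hcC4 : (q : ℝ) * C4 ≤ c := by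
    exact_mod_cast (show q * C4 ≤ c by rw [hc]; generalize q * C4 = m; omega)
  have hcC : (C1 : ℝ) + C3 + C5 ≤ c := by
    exact_mod_cast (show C1 + C3 + C5 ≤ c by rw [hc]; generalize q * C4 = m; omega)
  refine ⟨c, fun L _ _ _ _ _ x b hb => ?_⟩
  have hL : IsFF ℂ L := isFF_of_ratFunc ℂ L
  have hx0 : (0 : ℝ) ≤ height ℂ ![1, x] := by exact_mod_cast height_one_nonneg hL x
  obtain ⟨sb, hsb⟩ : ∃ r : ℝ, r = ∑ v, (height ℂ ![1, b v] : ℝ) := ⟨_, rfl⟩
  have hs0 : 0 ≤ sb := by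
    rw [hsb]
    exact Finset.sum_nonneg fun v _ => by exact_mod_cast height_one_nonneg hL (b v)
  have hsZ : ((∑ v, height ℂ ![1, b v] : ℤ) : ℝ) = sb := by
    rw [hsb]
    push_cast
    rfl
  rw [← hsb]
  have hd0 : (0 : ℝ) ≤ (finrank (RatFunc ℂ) L : ℝ) := Nat.cast_nonneg _
  have hA0 : (0 : ℝ) ≤ (Set.ncard {w : Place ℂ L | ∃ v, Meets w x (b v)} : ℝ) := Nat.cast_nonneg _
  have hR0 : (0 : ℝ) ≤ (ramDeg ℂ L (RatFunc ℂ) : ℝ) := Nat.cast_nonneg _
  by_cases hx : ∀ v, b v ≠ x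
  swap
  · push Not at hx
    obtain ⟨v, hv⟩ := hx
    have h1 : (height ℂ ![1, x] : ℝ) ≤ 1 * sb := by
      rw [one_mul, ← hsZ, ← hv]
      exact_mod_cast height_le_sum ℂ hL b v
    exact my_arith0 hq0.le hε.le hx0 hs0 hA0 hR0 hd0 h1 hcq (zero_le_one.trans hc1)
  obtain ⟨D, hD, hDc⟩ := exists_der (L := L)
  by_cases hW : ∀ S : Fin 3 ↪ Fin q, WW (eta x b) (fun u => D (eta x b u)) S ≠ 0
  swap
  · push Not at hW
    obtain ⟨S, hS⟩ := hW
    have h1 : (height ℂ ![1, x] : ℝ) ≤ C4 * sb := by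
      rw [← hsZ]
      exact_mod_cast hC4 L hL D hDc x b hb hx S hS
    exact my_arith0 hq0.le hε.le hx0 hs0 hA0 hR0 hd0 h1 hcC4 (zero_le_one.trans hc1)
  obtain ⟨hBfin, hB⟩ := hC3 L hL b hb
  have hB' : (Set.ncard {w : Place ℂ L | ∃ u v, u ≠ v ∧ Meets w (b u) (b v)} : ℝ) ≤
      C3 * sb := by
    rw [← hsZ]
    exact_mod_cast hB
  have hmain := edges_le hk0 (by linarith) hε'0 hε'1 hδ0 hC hpw hq D hD hb hx hW hBfin
  have hchi : 6 * C * ∑ f : Fin 4 ↪ Fin q, (height ℂ ![1, chi (eta x b) f] : ℝ) ≤ C5 * sb := by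
    have h1 : ∑ f : Fin 4 ↪ Fin q, (height ℂ ![1, chi (eta x b) f] : ℝ) ≤
        (Fintype.card (Fin 4 ↪ Fin q) : ℝ) * (C2 * sb) := by
      calc ∑ f : Fin 4 ↪ Fin q, (height ℂ ![1, chi (eta x b) f] : ℝ) ≤
            ∑ _f : Fin 4 ↪ Fin q, C2 * sb := Finset.sum_le_sum fun f _ => by
              rw [← hsZ]
              exact_mod_cast hC2 L hL x b hb hx f
        _ = (Fintype.card (Fin 4 ↪ Fin q) : ℝ) * (C2 * sb) := by
              rw [Finset.sum_const, Finset.card_univ, nsmul_eq_mul]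
    calc 6 * C * ∑ f : Fin 4 ↪ Fin q, (height ℂ ![1, chi (eta x b) f] : ℝ) ≤
          6 * C * ((Fintype.card (Fin 4 ↪ Fin q) : ℝ) * (C2 * sb)) :=
          mul_le_mul_of_nonneg_left h1 (mul_nonneg (by norm_num) hC)
      _ = 6 * C * ((Fintype.card (Fin 4 ↪ Fin q) : ℝ) * C2) * sb := by ring
      _ ≤ C5 * sb := mul_le_mul_of_nonneg_right hC5 hs0
  have hed : ((q : ℝ) - 2) * height ℂ ![1, x] ≤ height ℂ (edges (eta x b)) + C1 * sb := by
    rw [← hsZ]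
    exact_mod_cast hC1 L hL x b hb hx
  exact my_arith hε'1 hε'0.le hε'2 hx0 hs0 hd0 (Nat.cast_nonneg _) hB' hmain hchi hed hcC hc1

end Pool.Agent.Lib.MP_44a246_ntMY
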