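import Mathlib
import Pool.Agent.Lib.MP_44a246_ntMY.MC07
import Pool.Agent.Lib.MP_44a246_ntMY.MV01
import Pool.Agent.Lib.MP_44a246_ntTM.TM05

/-!
# Arbitrary varieties with the theorem of McQuillan and Yamanoi: no generic sequence
-/

namespace Pool.Agent.Lib.MP_44a246_ntMY

open Pool.Agent.Lib.MP_e52354_nt
open Pool.Agent.Lib.MP_44a246_nt
open Pool.Agent.Lib.MP_44a246_ntL
open Pool.Agent.Lib.MP_44a246_ntR
open Pool.Agent.Lib.MP_44a246_ntY
open Pool.Agent.Lib.MP_44a246_ntS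
open Pool.Agent.Lib.MP_44a246_ntSH
open Pool.Agent.Lib.MP_44a246_ntSP
open Pool.Agent.Lib.MP_44a246_ntUV
open Pool.Agent.Lib.MP_44a246_ntTM
open WithZero MvPolynomial Module

universe u v

section Bot

variable {κ L Ω : Type*} [Field κ] [IsAlgClosed κ] [CharZero κ] [Field L] [Algebra κ L] [Field Ω]
  [Algebra L Ω] [Algebra κ Ω] [IsScalarTower κ L Ω]

/-- the height over the trivial extension -/
theorem height_bot (hL : IsFF κ L) {σ : Type*} [Fintype σ] {x : σ → L} (hx : x ≠ 0) :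
    height κ (fun i => algebraMap L (⊥ : IntermediateField L Ω) (x i)) = height κ x := by
  have hB : IsFF κ (⊥ : IntermediateField L Ω) := hL.of_finite
  have h1 := hB.height_ext (K := L) hx
  rw [IntermediateField.finrank_bot, Nat.cast_one, one_mul] at h1
  exact h1

/-- the places of the trivial extension -/
theorem ramIdx_bot (hL : IsFF κ L) (w : Place κ (⊥ : IntermediateField L Ω)) :
    ramIdx L w.1 = 1 := by
  have hB : IsFF κ (⊥ : IntermediateField L Ω) := hL.of_finite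
  obtain ⟨T, hT0, hT1, hT2⟩ := hB.exists_over (K := L) (below L w)
  rw [IntermediateField.finrank_bot, Nat.cast_one] at hT2
  have h1 : (ramIdx L w.1 : ℤ) ≤ ∑ w ∈ T, (ramIdx L w.1 : ℤ) :=
    Finset.single_le_sum (f := fun w : Place κ (⊥ : IntermediateField L Ω) => (ramIdx L w.1 : ℤ))
      (fun _ _ => Int.natCast_nonneg _) ((hT1 w).2 rfl)
  have h2 := one_le_ramIdx (K := L) w.1 w.2.1
  omega

/-- the ramification of the trivial extension -/
theorem ramDeg_bot (hL : IsFF κ L) : ramDeg κ (⊥ : IntermediateField L Ω) L = 0 := by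
  have h1 : ∀ w : Place κ (⊥ : IntermediateField L Ω), ramIdx L w.1 - 1 = 0 := fun w => by
    rw [ramIdx_bot hL w]
  unfold ramDeg
  rw [finsum_congr h1, finsum_zero]

end Bot

/-- **There is no generic sequence** of points of the locus with curves of small height through the
projected points and a small truncated counting function. -/
theorem no_seqMY {κ : Type u} {K : Type v} {Ω : Type v} [Field κ] [IsAlgClosed κ]
    [CharZero κ] [Field K] [Algebra κ K] [Field Ω] [Algebra K Ω] [Algebra κ Ω]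
    [IsScalarTower κ K Ω] [IsAlgClosed Ω] [Algebra.IsAlgebraic K Ω] (hMY : MYP.{u, v} κ)
    (W : Tow κ K Ω)
    {n r p m₀ b N₁ C : ℕ} (hr : r ≤ n) {d : Fin p → ℕ} (hd1 : ∀ j, 1 ≤ d j)
    {k : Type*} [Field k] [CharZero k] [Algebra k K] {ι : Type*} {e : ι → ℕ}
    {f : ι → MvPolynomial (Fin p ⊕ Fin (n + 1)) k}
    (hf : ∀ i, (f i).IsWeightedHomogeneous (Sum.elim d fun _ => 1) (e i)) {A : Finset (Fin p)}
    (hfA : ∀ i, ∀ j ∉ A, Sum.inl j ∉ (f i).vars) {η : Fin (r + 1) → Fin (n + 1) → ℤ}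
    (hη : ProjV hr ((Ideal.span (Set.range f)).comap
      (rename (Sum.inr : Fin (n + 1) → Fin p ⊕ Fin (n + 1)))) η)
    {H : Fin p → MvPolynomial (Fin (n + 1)) K} (hH : ∀ j, (H j).IsHomogeneous (d j))
    (ha : AlgebraicIndependent k
      (fun I : {I : Fin p × (Fin (n + 1) →₀ ℕ) // I.2.degree = d I.1} => (H I.1.1).coeff I.1.2))
    {k₂ : Type*} [Field k₂] [CharZero k₂] [Algebra k₂ K] [Algebra k₂ Ω] [IsScalarTower k₂ K Ω]
    (hkk₂ : ∀ u : k, ∃ u' : k₂, algebraMap k₂ K u' = algebraMap k K u)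
    (hcoef : ∀ j I, ∃ u : k₂, algebraMap k₂ K u = (H j).coeff I)
    {x : ∀ N, Fin (n + 1) → W.L N} {l : Fin (n + 1)} (hxl : ∀ N, x N l = 1)
    (hfx : ∀ N i, evK H (x N) (map (algebraMap k K) (f i)) = 0)
    (hrk : ∀ N, ∃ i : A → ι, (Matrix.of fun a b : A =>
      evK H (x N) (pderiv (Sum.inl (b : Fin p)) (map (algebraMap k K) (f (i a))))).det ≠ 0)
    (hA : ∀ N, ∀ j ∉ A, aeval (x N) (H j) ≠ 0)
    {j : Fin m₀ → Fin (n + 1)}
    (hgen : ∀ G : MvPolynomial (Fin m₀) k₂, G ≠ 0 →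
      ∃ N₀, ∀ N ≥ N₀, aeval (fun i => (x N (j i) : Ω)) G ≠ 0)
    {Z : ∀ N, Finset (Place κ (W.L N))} {ν : ℝ}
    (hZ : ∃ C : ℕ, ∀ᶠ N in (Filter.hyperfilter ℕ : Filter ℕ),
      ((Z N).card : ℝ) ≤ ν * height κ (x N) + C * (W.T N : ℝ))
    (hc : ∀ N, ∀ w : Place κ (W.L N), w ∉ Z N → ∀ j, j ∉ A →
      w.1 (aeval (x N) (H j)) = vmax w.1 (x N) ^ d j)
    (hbig : ∀ C : ℕ, ¬ ∀ᶠ N in (Filter.hyperfilter ℕ : Filter ℕ),
      height κ (x N) ≤ C * (W.T N : ℤ))
    (hcert : ∀ N, CertV κ b N₁ (C * (W.T N : ℤ)) (prj η (x N)))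
    (hnum : ν < (A.card : ℝ) + ∑ j, (d j : ℝ) + max m₀ 1 - (2 * r + 1)) :
    False := by
  classical
  obtain ⟨E, hE⟩ : ∃ E : ∀ N, IntermediateField (W.L N) Ω, ∀ N, E N = ⊥ := ⟨_, fun _ => rfl⟩
  have hEfin : ∀ N, FiniteDimensional (W.L N) (E N) := by
    intro N
    rw [hE]
    infer_instance
  have hE1 : ∀ N, finrank (W.L N) (E N) = 1 := by
    intro N
    rw [hE]
    exact IntermediateField.finrank_bot
  have hEram : ∀ N, ∀ w : Place κ (E N), ramIdx (W.L N) w.1 = 1 := by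
    intro N
    have := W.fin N
    have hL : IsFF κ (W.L N) := W.ff.of_finite
    rw [hE]
    exact ramIdx_bot hL
  have hLff : ∀ N, IsFF κ (W.L N) := by
    intro N
    have := W.fin N
    exact W.ff.of_finite
  have hEff : ∀ N, IsFF κ (E N) := by
    intro N
    exact (hLff N).of_finite
  -- the isomorphism
  have hbij : ∀ N, Function.Bijective (algebraMap (W.L N) (E N)) := by
    intro N
    rw [hE]
    exact (IntermediateField.botEquiv (W.L N) Ω).symm.bijective
  obtain ⟨φ, hφ⟩ : ∃ φ : ∀ N, W.L N ≃+* E N, ∀ N y, φ N y = algebraMap (W.L N) (E N) y :=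
    ⟨fun N => RingEquiv.ofBijective _ (hbij N), fun _ _ => rfl⟩
  obtain ⟨x', hx'⟩ : ∃ x' : ∀ N, Fin (n + 1) → E N, ∀ N i, x' N i =
      algebraMap (W.L N) (E N) (x N i) := ⟨_, fun _ _ => rfl⟩
  have hx'f : ∀ N, x' N = fun i => algebraMap (W.L N) (E N) (x N i) := fun N => funext (hx' N)
  have hx0 : ∀ N, x N ≠ 0 := by
    intro N h0
    have h1 := congrFun h0 l
    rw [hxl] at h1
    exact one_ne_zero h1
  have hhE : ∀ N {σ : Type} [Fintype σ] {y : σ → W.L N}, y ≠ 0 →
      height κ (fun i => algebraMap (W.L N) (E N) (y i)) = height κ y := by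
    intro N σ _ y hy
    have h1 := (hEff N).height_ext (K := W.L N) hy
    rw [hE1, Nat.cast_one, one_mul] at h1
    exact h1
  have hhx : ∀ N, height κ (x' N) = height κ (x N) := by
    intro N
    rw [hx'f]
    exact hhE N (hx0 N)
  have hae : ∀ N (G : MvPolynomial (Fin (n + 1)) K),
      aeval (x' N) G = algebraMap (W.L N) (E N) (aeval (x N) G) := by
    intro N G
    rw [hx'f]
    exact aeval_algebraMap_apply (E N) (x N) G
  have hev : ∀ N (G : MvPolynomial (Fin p ⊕ Fin (n + 1)) K),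
      evK H (x' N) G = algebraMap (W.L N) (E N) (evK H (x N) G) := by
    intro N G
    unfold evK
    rw [← aeval_algebraMap_apply]
    congr 2
    funext c
    rcases c with c | c
    · exact hae N (H c)
    · exact hx' N c
  have hxl' : ∀ N, x' N l = 1 := fun N => by rw [hx', hxl, map_one]
  have hfx' : ∀ N i, evK H (x' N) (map (algebraMap k K) (f i)) = 0 := fun N i => by
    rw [hev, hfx, map_zero]
  have hrk' : ∀ N, ∃ i : A → ι, (Matrix.of fun a b : A =>
      evK H (x' N) (pderiv (Sum.inl (b : Fin p)) (map (algebraMap k K) (f (i a))))).det ≠ 0 := by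
    intro N
    obtain ⟨i, hi⟩ := hrk N
    refine ⟨i, ?_⟩
    have h1 : (Matrix.of fun a b : A =>
        evK H (x' N) (pderiv (Sum.inl (b : Fin p)) (map (algebraMap k K) (f (i a))))) =
        (algebraMap (W.L N) (E N)).mapMatrix (Matrix.of fun a b : A =>
          evK H (x N) (pderiv (Sum.inl (b : Fin p)) (map (algebraMap k K) (f (i a))))) := by
      refine Matrix.ext fun a b => ?_
      rw [RingHom.mapMatrix_apply, Matrix.map_apply, Matrix.of_apply, Matrix.of_apply]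
      exact hev N _
    rw [h1, ← RingHom.map_det]
    intro h2
    apply hi
    exact (map_eq_zero (algebraMap (W.L N) (E N))).1 h2
  have hA' : ∀ N, ∀ j ∉ A, aeval (x' N) (H j) ≠ 0 := by
    intro N j hj h0
    rw [hae, map_eq_zero] at h0
    exact hA N j hj h0
  have hgen' : ∀ G : MvPolynomial (Fin m₀) k₂, G ≠ 0 →
      ∃ N₀, ∀ N ≥ N₀, aeval (fun i => (x' N (j i) : Ω)) G ≠ 0 := by
    intro G hG
    obtain ⟨N₀, hN₀⟩ := hgen G hG
    refine ⟨N₀, fun N hN => ?_⟩
    have h1 := hN₀ N hN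
    have h2 : (fun i => (x' N (j i) : Ω)) = fun i => (x N (j i) : Ω) := by
      funext i
      rw [hx']
      rfl
    rw [h2]
    exact h1
  have hbig' : ∀ C : ℕ, ¬ ∀ᶠ N in (Filter.hyperfilter ℕ : Filter ℕ),
      height κ (x' N) ≤ C * (W.T N : ℤ) := by
    intro C h1
    refine hbig C ?_
    filter_upwards [h1] with N h2
    rwa [hhx] at h2
  have hcert' : ∀ N, CertV κ b N₁ (C * (W.T N : ℤ)) (prj η (x' N)) := by
    intro N
    have h1 := CertV.map_equiv (φ N) (fun c => by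
        rw [hφ, ← IsScalarTower.algebraMap_apply]) (fun y => by
        have h2 : (![1, y] : Fin 2 → W.L N) ≠ 0 := fun h0 => one_ne_zero (congrFun h0 0)
        rw [← hhE N h2]
        congr 1
        funext i
        fin_cases i
        · exact (map_one _).symm
        · exact hφ N y) (hcert N)
    have h2 : (fun j => φ N (prj η (x N) j)) = prj η (x' N) := by
      funext i
      unfold prj
      rw [hφ, map_sum]
      refine Finset.sum_congr rfl fun l _ => ?_
      rw [map_mul, map_intCast, hx']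
    rwa [h2] at h1
  -- the limit curve
  obtain ⟨M, γ, i1, i2, i3, B, hM, hγ, hB, hγ0, h1, -⟩ := limit_pairE W (fun N => (hE1 N).le) hr
    hd1 hf hfA hη hH ha hkk₂ hcoef hxl' hfx' hrk' hA' hgen' hbig' hcert'
  -- the contact places
  choose Z' hZ'1 hZ'2 using fun N => exists_above (L := W.L N) (hEff N) (Z N)
  obtain ⟨ε, hε⟩ : ∃ ε : ℝ, ε = ((A.card : ℝ) + ∑ j, (d j : ℝ) + max m₀ 1 - (2 * r + 1) - ν) / 2 :=
    ⟨_, rfl⟩
  have hε0 : 0 < ε := by
    rw [hε]
    linarith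
  obtain ⟨C₁, hC₁⟩ := limit_MY hMY W (fun N => (hE1 N).le) hM hxl' hγ hγ0 hA' B
    (fun v hv => (hB v).1 hv) Z' (Filter.Eventually.of_forall fun N w hw j hj => by
      have h2 : ∀ y, w.1 (algebraMap (W.L N) (E N) y) = (below (W.L N) w).1 y := by
        intro y
        rw [below_pow, hEram, pow_one]
      have h3 : vmax w.1 (x' N) = vmax (below (W.L N) w).1 (x N) := by
        unfold vmax
        refine Finset.sup_congr rfl fun i _ => ?_
        rw [hx', h2]
      rw [hae, h2, h3]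
      exact hc N _ (fun h4 => hw ((hZ'1 N w).2 h4)) j hj) hε0
  obtain ⟨C₂, hC₂⟩ := hZ
  obtain ⟨a, ha'⟩ : ∃ a : ℝ, a = height W.F0 γ := ⟨_, rfl⟩
  have ha1 : 1 ≤ a := by
    rw [ha']
    exact_mod_cast hγ0
  obtain ⟨kk, hkk⟩ : ∃ kk : ℝ, kk = (A.card : ℝ) + ∑ j, (d j : ℝ) + max m₀ 1 - (2 * r + 1) :=
    ⟨_, rfl⟩
  rw [← hkk] at hnum hε
  have h1R : kk * a ≤ (ramDeg W.F0 M (RatFunc W.F0) : ℝ) - 2 * finrank (RatFunc W.F0) M +
      B.card := by
    rw [hkk, ha']
    have h2 := (Rat.cast_le (K := ℝ)).2 h1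
    push_cast at h2 ⊢
    exact h2
  rw [← ha'] at hC₁
  obtain ⟨M₀, hM₀⟩ := exists_nat_gt ((a * (C₂ + 1) + C₁) / ε)
  refine hbig M₀ ?_
  filter_upwards [hC₁, hC₂] with N g1 g2
  have hh0 : (0 : ℝ) ≤ height κ (x N) := by exact_mod_cast (hLff N).height_nonneg (hx0 N)
  have hT0 : (0 : ℝ) ≤ W.T N := Nat.cast_nonneg _
  have g3 : ((Z' N).card : ℝ) ≤ (Z N).card := by
    have h2 := hZ'2 N
    rw [hE1, one_mul] at h2
    exact_mod_cast h2
  have g4 : (ramDeg κ (E N) K : ℝ) ≤ W.T N := by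
    have := W.fin N
    have h2 : ramDeg κ (E N) K ≤ finrank (W.L N) (E N) * ramDeg κ (W.L N) K +
      ramDeg κ (E N) (W.L N) := ramDeg_tower_le W.ff
    have h3 : ramDeg κ (E N) (W.L N) = 0 := by
      have h4 : ∀ w : Place κ (E N), ramIdx (W.L N) w.1 - 1 = 0 := fun w => by
        rw [hEram]
      unfold ramDeg
      rw [finsum_congr h4, finsum_zero]
    rw [h3, hE1, one_mul, add_zero] at h2
    exact_mod_cast h2.trans (W.ram N)
  rw [hhx] at g1
  have g5 : (kk * a - ε) * height κ (x N) ≤ a * ((ν * height κ (x N) + C₂ * W.T N) + W.T N) +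
      C₁ * W.T N := by
    have h2 : (kk * a - ε) * height κ (x N) ≤
        ((ramDeg W.F0 M (RatFunc W.F0) : ℝ) - 2 * finrank (RatFunc W.F0) M + B.card - ε) *
          height κ (x N) := mul_le_mul_of_nonneg_right (by linarith) hh0
    have h3 : a * (((Z' N).card : ℝ) + ramDeg κ (E N) K) ≤
        a * ((ν * height κ (x N) + C₂ * W.T N) + W.T N) :=
      mul_le_mul_of_nonneg_left (by linarith) (by linarith)
    linarith
  have g6 : ε * height κ (x N) ≤ (a * (C₂ + 1) + C₁) * W.T N := by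
    have h2 : ε * height κ (x N) ≤ (2 * a - 1) * ε * height κ (x N) := by
      have h3 : ε ≤ (2 * a - 1) * ε := by nlinarith
      exact mul_le_mul_of_nonneg_right h3 hh0
    have h3 : (2 * a - 1) * ε * height κ (x N) =
        (kk * a - ε) * height κ (x N) - a * (ν * height κ (x N)) := by
      rw [hε]
      ring
    rw [h3] at h2
    have h4 : a * ((ν * height κ (x N) + C₂ * W.T N) + W.T N) + C₁ * W.T N =
        a * (ν * height κ (x N)) + (a * (C₂ + 1) + C₁) * W.T N := by ring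
    rw [h4] at g5
    linarith
  have g7 : (height κ (x N) : ℝ) ≤ ((a * (C₂ + 1) + C₁) / ε) * W.T N := by
    rw [div_mul_eq_mul_div, le_div_iff₀ hε0]
    linarith
  have g8 : (height κ (x N) : ℝ) ≤ (M₀ : ℝ) * W.T N :=
    g7.trans (mul_le_mul_of_nonneg_right hM₀.le hT0)
  exact_mod_cast g8

end Pool.Agent.Lib.MP_44a246_ntMY
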