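import Mathlib
import Pool.Agent.Lib.MP_44a246_ntD.D10
import Pool.Agent.Lib.MP_44a246_ntSF.SFC05
import Pool.Agent.Lib.MP_44a246_ntUV.UV05a
import Pool.Agent.Lib.MP_44a246_ntUV.UV09
import Pool.Agent.Lib.MP_44a246_ntUV.UV10
import Pool.Agent.Lib.MP_44a246_ntUV.UV11s
import Pool.Agent.Lib.MP_44a246_ntMY.MV02

/-!
# Arbitrary varieties with the theorem of McQuillan and Yamanoi: the exceptional forms
-/

namespace Pool.Agent.Lib.MP_44a246_ntMY

open Pool.Agent.Lib.MP_e52354_nt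
open Pool.Agent.Lib.MP_44a246_nt
open Pool.Agent.Lib.MP_44a246_ntL
open Pool.Agent.Lib.MP_44a246_ntS
open Pool.Agent.Lib.MP_44a246_ntSH
open Pool.Agent.Lib.MP_44a246_ntSP
open Pool.Agent.Lib.MP_44a246_ntUV
open Pool.Agent.Lib.MP_44a246_ntD (countable_adjoin)
open WithZero MvPolynomial Module

universe u v

/-- no generic sequence of counterexamples -/
private theorem seq_falseMY {κ : Type u} {K : Type v} {Ω : Type v} [Field κ] [IsAlgClosed κ]
    [CharZero κ] [Field K] [Algebra κ K] [Field Ω] [Algebra K Ω] [Algebra κ Ω]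
    [IsScalarTower κ K Ω] [IsAlgClosed Ω] [Algebra.IsAlgebraic K Ω] (hMY : MYP.{u, v} κ)
    (hK : IsFF κ K) {n r p m₀ b N₁ C : ℕ} (hr : r ≤ n) {d : Fin p → ℕ} (hd1 : ∀ j, 1 ≤ d j)
    {k : Type*} [Field k] [CharZero k] [Algebra k K] {ι : Type*} {e : ι → ℕ}
    {f : ι → MvPolynomial (Fin p ⊕ Fin (n + 1)) k}
    (hf : ∀ i, (f i).IsWeightedHomogeneous (Sum.elim d fun _ => 1) (e i)) {A : Finset (Fin p)}
    (hfA : ∀ i, ∀ j ∉ A, Sum.inl j ∉ (f i).vars) {η : Fin (r + 1) → Fin (n + 1) → ℤ}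
    (hη : ProjV hr ((Ideal.span (Set.range f)).comap
      (rename (Sum.inr : Fin (n + 1) → Fin p ⊕ Fin (n + 1)))) η)
    {H : Fin p → MvPolynomial (Fin (n + 1)) K} (hH : ∀ j, (H j).IsHomogeneous (d j))
    (ha : AlgebraicIndependent k
      (fun I : {I : Fin p × (Fin (n + 1) →₀ ℕ) // I.2.degree = d I.1} => (H I.1.1).coeff I.1.2))
    {k₂ : Type*} [Field k₂] [CharZero k₂] [Algebra k₂ K] [Algebra k₂ Ω] [IsScalarTower k₂ K Ω]
    (hkk₂ : ∀ u : k, ∃ u' : k₂, algebraMap k₂ K u' = algebraMap k K u)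
    (hcoef : ∀ j I, ∃ u : k₂, algebraMap k₂ K u = (H j).coeff I)
    {L : ℕ → IntermediateField K Ω} (hL : ∀ N, FiniteDimensional K (L N))
    {x : ∀ N, Fin (n + 1) → L N} {l : Fin (n + 1)} (hxl : ∀ N, x N l = 1)
    (hfx : ∀ N i, evK H (x N) (map (algebraMap k K) (f i)) = 0)
    (hrk : ∀ N, ∃ i : A → ι, (Matrix.of fun a b : A =>
      evK H (x N) (pderiv (Sum.inl (b : Fin p)) (map (algebraMap k K) (f (i a))))).det ≠ 0)
    (hA : ∀ N, ∀ j ∉ A, aeval (x N) (H j) ≠ 0)
    {j : Fin m₀ → Fin (n + 1)}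
    (hgen : ∀ G : MvPolynomial (Fin m₀) k₂, G ≠ 0 →
      ∃ N₀, ∀ N ≥ N₀, aeval (fun i => (x N (j i) : Ω)) G ≠ 0)
    {S : ∀ N, Finset (Place κ (L N))}
    (hc : ∀ N, ∀ w : Place κ (L N), w ∉ S N → ∀ j, j ∉ A →
      w.1 (aeval (x N) (H j)) = vmax w.1 (x N) ^ d j)
    {θ : ℚ} (hθ0 : 0 ≤ θ)
    (hlarge : ∀ N : ℕ, ((N : ℚ) * ((finrank K (L N) : ℚ) + ramDeg κ (L N) K)) + (S N).card <
      θ * height κ (x N))
    (hcert : ∀ N, CertV κ b N₁ (C * ((finrank K (L N) : ℤ) + ramDeg κ (L N) K))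
      (prj η (x N)))
    (hnum : θ < ((A.card + ∑ j, d j + max m₀ 1 : ℕ) : ℚ) - (2 * r + 1)) :
    False := by
  have hpos : ∀ N, 1 ≤ finrank K (L N) := fun N => Module.finrank_pos
  let W : Tow κ K Ω := {
    L := L
    T := fun N => finrank K (L N) + ramDeg κ (L N) K
    ff := hK
    fin := hL
    one_le := fun N => (hpos N).trans (Nat.le_add_right _ _)
    deg := fun N => Nat.le_add_right _ _
    ram := fun N => Nat.le_add_left _ _ }
  have hT : ∀ N, (W.T N : ℤ) = (finrank K (L N) : ℤ) + ramDeg κ (L N) K := by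
    intro N
    show ((finrank K (L N) + ramDeg κ (L N) K : ℕ) : ℤ) = _
    push_cast
    rfl
  have hTq : ∀ N, (W.T N : ℚ) = (finrank K (L N) : ℚ) + ramDeg κ (L N) K := by
    intro N
    show ((finrank K (L N) + ramDeg κ (L N) K : ℕ) : ℚ) = _
    push_cast
    rfl
  have hT1 : ∀ N, (1 : ℚ) ≤ W.T N := by
    intro N
    have h1 : 1 ≤ W.T N := (hpos N).trans (Nat.le_add_right _ _)
    exact_mod_cast h1
  refine no_seqMY hMY W (b := b) (N₁ := N₁) (C := C) hr hd1 hf hfA hη hH ha hkk₂ hcoef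
    (x := x) hxl hfx hrk hA hgen (Z := S) (ν := (θ : ℝ))
    ⟨0, Filter.Eventually.of_forall fun N => ?_⟩
    (fun N w hw => hc N w hw) (fun C' hC' => ?_) (fun N => ?_) ?_
  · have h1 := hlarge N
    rw [← hTq] at h1
    have h2 : (0 : ℚ) ≤ (N : ℚ) * W.T N := by positivity
    have h3 : ((S N).card : ℚ) ≤ θ * height κ (x N) := by linarith
    rw [Nat.cast_zero, zero_mul, add_zero]
    exact_mod_cast (Rat.cast_le (K := ℝ)).2 h3
  · obtain ⟨M, hM⟩ := exists_nat_gt (θ * C')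
    obtain ⟨N, hN1, hN2⟩ := (hC'.and (Filter.Eventually.filter_mono
      Nat.hyperfilter_le_atTop (Filter.eventually_ge_atTop M))).exists
    have h1 := hlarge N
    rw [← hTq] at h1
    have h3 : (height κ (x N) : ℚ) ≤ C' * W.T N := by exact_mod_cast hN1
    have h4 : θ * height κ (x N) ≤ θ * (C' * W.T N) := mul_le_mul_of_nonneg_left h3 hθ0
    have h5 : (M : ℚ) ≤ N := by exact_mod_cast hN2
    have h6 : θ * C' * W.T N < N * W.T N :=
      mul_lt_mul_of_pos_right (by linarith) (by linarith [hT1 N])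
    have h7 : (0 : ℚ) ≤ (S N).card := Nat.cast_nonneg _
    linarith
  · rw [hT]
    exact hcert N
  · have h1 := (Rat.cast_lt (K := ℝ)).2 hnum
    push_cast at h1 ⊢
    exact h1

/-- `x` (a point over `Ω`) is a counterexample with the constant `N`, up to scaling: the points of
the locus over a finite extension `L` with a curve of small height, and of large height. -/
def CexMY (κ : Type*) {k K Ω : Type*} [Field κ] [Field K] [Algebra κ K] [Field Ω] [Algebra K Ω]
    [Algebra κ Ω] [IsScalarTower κ K Ω] [Field k] [Algebra k K] {n r p : ℕ} {ι : Type*}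
    (f : ι → MvPolynomial (Fin p ⊕ Fin (n + 1)) k) (d : Fin p → ℕ)
    (H : Fin p → MvPolynomial (Fin (n + 1)) K) (A : Finset (Fin p))
    (η : Fin (r + 1) → Fin (n + 1) → ℤ) (b N₁ C₂ : ℕ) (θ : ℚ) (N : ℕ) :
    Set (Fin (n + 1) → Ω) :=
  {x | ∃ (L : IntermediateField K Ω) (_ : FiniteDimensional K L) (y : Fin (n + 1) → L)
    (S : Finset (Place κ L)) (s : Ω), s ≠ 0 ∧ (∀ i, x i = s * (y i : Ω)) ∧
    (∀ i, evK H y (map (algebraMap k K) (f i)) = 0) ∧
    (∃ i : A → ι, (Matrix.of fun a b : A =>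
      evK H y (pderiv (Sum.inl (b : Fin p)) (map (algebraMap k K) (f (i a))))).det ≠ 0) ∧
    (∀ j ∉ A, aeval y (H j) ≠ 0) ∧
    (∀ w ∉ S, ∀ j ∉ A, w.1 (aeval y (H j)) = vmax w.1 y ^ d j) ∧
    CertV κ b N₁ (C₂ * ((finrank K L : ℤ) + ramDeg κ L K)) (prj η y) ∧
    ((N : ℚ) * ((finrank K L : ℚ) + ramDeg κ L K)) + S.card < θ * height κ y}

/-- **The exceptional forms** for the points of the locus with a curve of small height through the
projected point. -/
theorem exc_VMY {κ : Type u} {K : Type v} [Field κ] [IsAlgClosed κ] [CharZero κ] [Field K]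
    [CharZero K] [Algebra κ K] (hMY : MYP.{u, v} κ) (hK : IsFF κ K) {n r p m₀ b N₁ : ℕ} (hr : r ≤ n) {d : Fin p → ℕ}
    (hd1 : ∀ j, 1 ≤ d j) {k : Type*} [Field k] [CharZero k] [Algebra k K] [Countable k]
    {ι : Type*} {e : ι → ℕ}
    {f : ι → MvPolynomial (Fin p ⊕ Fin (n + 1)) k}
    (hf : ∀ i, (f i).IsWeightedHomogeneous (Sum.elim d fun _ => 1) (e i)) {A : Finset (Fin p)}
    (hfA : ∀ i, ∀ j ∉ A, Sum.inl j ∉ (f i).vars) {η : Fin (r + 1) → Fin (n + 1) → ℤ}
    (hη : ProjV hr ((Ideal.span (Set.range f)).comap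
      (rename (Sum.inr : Fin (n + 1) → Fin p ⊕ Fin (n + 1)))) η)
    {H : Fin p → MvPolynomial (Fin (n + 1)) K} (hH : ∀ j, (H j).IsHomogeneous (d j))
    (ha : AlgebraicIndependent k
      (fun I : {I : Fin p × (Fin (n + 1) →₀ ℕ) // I.2.degree = d I.1} => (H I.1.1).coeff I.1.2))
    {θ : ℚ} (hθ0 : 0 ≤ θ)
    (hnum : θ < ((A.card + ∑ j, d j + max m₀ 1 : ℕ) : ℚ) - (2 * r + 1)) (C₂ : ℕ) :
    ∃ (C s : ℕ) (G : Fin s → MvPolynomial (Fin (n + 1)) K), (∀ i, ∃ E, (G i).IsHomogeneous E) ∧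
      ringKrullDim (MvPolynomial (Fin (n + 1)) K ⧸ Ideal.span (Set.range G)) ≤
        (m₀ : WithBot ℕ∞) ∧
      ∀ (L : IntermediateField K (AlgebraicClosure K)) [FiniteDimensional K L]
        (x : Fin (n + 1) → L) (S : Finset (Place κ L)),
        (∀ i, evK H x (map (algebraMap k K) (f i)) = 0) →
        (∃ i : A → ι, (Matrix.of fun a b : A =>
          evK H x (pderiv (Sum.inl (b : Fin p)) (map (algebraMap k K) (f (i a))))).det ≠ 0) →
        (∀ j ∉ A, aeval x (H j) ≠ 0) →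
        (∀ w ∉ S, ∀ j ∉ A, w.1 (aeval x (H j)) = vmax w.1 x ^ d j) →
        CertV κ b N₁ (C₂ * ((finrank K L : ℤ) + ramDeg κ L K)) (prj η x) →
        θ * height κ x ≤ (C : ℚ) * ((finrank K L : ℚ) + ramDeg κ L K) + S.card ∨
          ∀ i, aeval x (G i) = 0 := by
  classical
  -- the field of the coefficients
  obtain ⟨k₂, hk₂⟩ : ∃ k₂ : IntermediateField ℚ K, k₂ = IntermediateField.adjoin ℚ
      (Set.range (algebraMap k K) ∪ ⋃ j, Set.range (fun I => (H j).coeff I)) := ⟨_, rfl⟩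
  have hk₂c : Countable k₂ := by
    rw [hk₂]
    have h1 : Countable ↑(Set.range (algebraMap k K) ∪ ⋃ j, Set.range (fun I => (H j).coeff I)) :=
      ((Set.countable_range _).union (Set.countable_iUnion fun j => Set.countable_range _)).to_subtype
    exact countable_adjoin _
  have hkk₂ : ∀ u : k, ∃ u' : k₂, algebraMap k₂ K u' = algebraMap k K u := by
    intro u
    have h1 : algebraMap k K u ∈ k₂ := by
      rw [hk₂]
      exact IntermediateField.subset_adjoin _ _ (Or.inl ⟨u, rfl⟩)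
    exact ⟨⟨_, h1⟩, rfl⟩
  have hcoef : ∀ j I, ∃ u : k₂, algebraMap k₂ K u = (H j).coeff I := by
    intro j I
    have h1 : (H j).coeff I ∈ k₂ := by
      rw [hk₂]
      exact IntermediateField.subset_adjoin _ _ (Or.inr (Set.mem_iUnion.2 ⟨j, I, rfl⟩))
    exact ⟨⟨_, h1⟩, rfl⟩
  have hfK : ∀ i, (map (algebraMap k K) (f i)).IsWeightedHomogeneous (Sum.elim d fun _ => 1)
      (e i) := by
    intro i I hI
    refine hf i ?_
    intro h0
    rw [coeff_map, h0, map_zero] at hI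
    exact hI rfl
  have hmain := exists_formsV (k := k₂) (K := K) (Ω := AlgebraicClosure K) (m := m₀)
    (P := CexMY κ (Ω := AlgebraicClosure K) f d H A η b N₁ C₂ θ) ?_ ?_ ?_
  · obtain ⟨C, s, G, hG1, hG2, hG3⟩ := hmain
    refine ⟨C, s, G, hG1, hG2, ?_⟩
    intro L _ x S h1 h2 h3 h4 h5
    by_contra hcon
    rw [not_or, not_le] at hcon
    apply hcon.2
    intro i
    have h6 := hG3 (fun i => (x i : AlgebraicClosure K)) ⟨L, inferInstance, x, S, 1,
      one_ne_zero, fun i => (one_mul _).symm, h1, h2, h3, h4, h5, hcon.1⟩ i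
    have h7 : aeval (fun i => (x i : AlgebraicClosure K)) (G i) =
        ((aeval x (G i) : L) : AlgebraicClosure K) := by
      have h8 : (aeval (fun i => (x i : AlgebraicClosure K)) :
          MvPolynomial (Fin (n + 1)) K →ₐ[K] AlgebraicClosure K) = L.val.comp (aeval x) := by
        refine MvPolynomial.algHom_ext fun i => ?_
        rw [AlgHom.comp_apply, aeval_X, aeval_X]
        rfl
      rw [h8]
      rfl
    rw [h7] at h6
    exact Subtype.ext h6
  · rintro N N' hN x ⟨L, hL, y, S, s, h1, h2, h3, h4, h5, h6, h7, h8⟩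
    refine ⟨L, hL, y, S, s, h1, h2, h3, h4, h5, h6, h7, lt_of_le_of_lt ?_ h8⟩
    refine add_le_add (mul_le_mul_of_nonneg_right (by exact_mod_cast hN) ?_) le_rfl
    positivity
  · rintro N x ⟨L, hL, y, S, s, hs, hxs, h⟩ t ht
    refine ⟨L, hL, y, S, t * s, mul_ne_zero ht hs, fun i => ?_, h⟩
    show t * x i = _
    rw [hxs i, mul_assoc]
  · intro l j x hx hxl hgen
    choose L hLfin y S s hs hxs hfx hrk hA hS hcert hlarge using hx
    -- the normalised points
    have hy0 : ∀ N, y N l ≠ 0 := by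
      intro N h0
      have h1 := hxs N l
      rw [hxl, h0] at h1
      simp at h1
    have hyx : ∀ N i, ((((y N l)⁻¹ * y N i : L N)) : AlgebraicClosure K) = x N i := by
      intro N i
      have h1 := hxs N l
      rw [hxl] at h1
      have h2 : s N = ((y N l : L N) : AlgebraicClosure K)⁻¹ :=
        eq_inv_of_mul_eq_one_left h1.symm
      rw [hxs N i, h2]
      rfl
    have hx1 : ∀ N, (y N l)⁻¹ * y N l = 1 := fun N => inv_mul_cancel₀ (hy0 N)
    have hfx' : ∀ N i, evK H (fun i => (y N l)⁻¹ * y N i) (map (algebraMap k K) (f i)) = 0 := by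
      intro N i
      rw [evK_smul hH (hfK i), hfx, mul_zero]
    have hrk' : ∀ N, ∃ i : A → ι, (Matrix.of fun a b : A =>
        evK H (fun i => (y N l)⁻¹ * y N i) (pderiv (Sum.inl (b : Fin p))
          (map (algebraMap k K) (f (i a))))).det ≠ 0 := fun N =>
      rk_smul hH hfK (inv_ne_zero (hy0 N)) (hrk N)
    have hA' : ∀ N, ∀ j ∉ A, aeval (fun i => (y N l)⁻¹ * y N i) (H j) ≠ 0 := by
      intro N j hj
      rw [aeval_smul_hom (hH j)]
      exact mul_ne_zero (pow_ne_zero _ (inv_ne_zero (hy0 N))) (hA N j hj)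
    have hSx : ∀ N, ∀ w : Place κ (L N), w ∉ S N → ∀ j, j ∉ A →
        w.1 (aeval (fun i => (y N l)⁻¹ * y N i) (H j)) =
          vmax w.1 (fun i => (y N l)⁻¹ * y N i) ^ d j := by
      intro N w hw j hj
      rw [aeval_smul_hom (hH j), map_mul, map_pow, hS N w hw j hj, vmax_smul, mul_pow]
    have hlx : ∀ N : ℕ, ((N : ℚ) * ((finrank K (L N) : ℚ) + ramDeg κ (L N) K)) + (S N).card <
        θ * height κ (fun i => (y N l)⁻¹ * y N i) := by
      intro N
      have := hLfin N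
      have hff : IsFF κ (L N) := hK.of_finite
      rw [hff.height_smul (inv_ne_zero (hy0 N))]
      exact hlarge N
    have hcx : ∀ N, CertV κ b N₁ (C₂ * ((finrank K (L N) : ℤ) + ramDeg κ (L N) K))
        (prj η fun i => (y N l)⁻¹ * y N i) := by
      intro N
      refine CertV.of_smul (r := y N l) (hy0 N) ?_
      have h3 : (fun i => y N l * prj η (fun i => (y N l)⁻¹ * y N i) i) = prj η (y N) := by
        have h4 : prj η (fun i => (y N l)⁻¹ * y N i) = fun i => (y N l)⁻¹ * prj η (y N) i :=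
          prj_smul η (y N) _
        rw [h4]
        funext i
        rw [mul_inv_cancel_left₀ (hy0 N)]
      rw [h3]
      exact hcert N
    refine seq_falseMY hMY hK (C := C₂) (b := b) (N₁ := N₁) hr hd1 hf hfA hη hH ha (k₂ := k₂)
      hkk₂ hcoef (L := L) hLfin (x := fun N i => (y N l)⁻¹ * y N i) hx1 hfx' hrk' hA' (j := j)
      (fun G hG => ?_) (S := S) hSx hθ0 hlx hcx hnum
    obtain ⟨N₀, hN₀⟩ := hgen G hG
    refine ⟨N₀, fun N hN => ?_⟩
    have h3 := hN₀ N hN
    have h4 : (fun i => (((y N l)⁻¹ * y N (j i) : L N) : AlgebraicClosure K)) =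
        fun i => x N (j i) := funext fun i => hyx N (j i)
    rw [h4]
    exact h3

end Pool.Agent.Lib.MP_44a246_ntMY
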