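import Mathlib
import Pool.Agent.Lib.MP_44a246_ntY.Y09

/-!
A6a: the contact of two elements of the field at a place, and the height of the vector of the
differences `h_uv = 1 / (b_u - x) - 1 / (b_v - x)`.
-/

namespace Pool.Agent.Lib.MP_44a246_ntMY

open Pool.Agent.Lib.MP_44a246_nt
open Pool.Agent.Lib.MP_44a246_ntL
open Pool.Agent.Lib.MP_44a246_ntY
open WithZero

section Local

variable {L : Type*} [Field L] (v : Valuation L ℤᵐ⁰)

/-- the (logarithmic) contact of two elements: minus the logarithm of their chordal distance -/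
noncomputable def ct (x y : L) : ℤ :=
  log (max 1 (v x)) + log (max 1 (v y)) - log (v (x - y))

theorem val_sub_ne_zero {x y : L} (h : x ≠ y) : v (x - y) ≠ 0 :=
  (v.ne_zero_iff).2 (sub_ne_zero.2 h)

theorem val_sub_comm (x y : L) : v (x - y) = v (y - x) := by
  rw [← Valuation.map_neg v (x - y), neg_sub]

theorem ct_comm (x y : L) : ct v x y = ct v y x := by
  unfold ct
  rw [val_sub_comm v x y]
  ring

theorem val_sub_le (x y : L) : v (x - y) ≤ max 1 (v x) * max 1 (v y) := by
  refine (v.map_sub _ _).trans (max_le ?_ ?_)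
  · calc v x ≤ max 1 (v x) := le_max_right _ _
      _ = max 1 (v x) * 1 := (mul_one _).symm
      _ ≤ _ := mul_le_mul_right (le_max_left _ _) _
  · calc v y ≤ max 1 (v y) := le_max_right _ _
      _ = 1 * max 1 (v y) := (one_mul _).symm
      _ ≤ _ := mul_le_mul_left (le_max_left _ _) _

theorem ct_nonneg {x y : L} (h : x ≠ y) : 0 ≤ ct v x y := by
  have h1 := (log_le_log (val_sub_ne_zero v h)
    (mul_ne_zero (max_one_ne_zero' v x) (max_one_ne_zero' v y))).2 (val_sub_le v x y)
  rw [log_mul (max_one_ne_zero' v x) (max_one_ne_zero' v y)] at h1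
  unfold ct
  linarith

/-- positive contact means that the two elements meet -/
theorem ct_pos_iff {x y : L} (h : x ≠ y) :
    0 < ct v x y ↔ v (x - y) < max 1 (v x) * max 1 (v y) := by
  rw [← log_lt_log (val_sub_ne_zero v h)
    (mul_ne_zero (max_one_ne_zero' v x) (max_one_ne_zero' v y)),
    log_mul (max_one_ne_zero' v x) (max_one_ne_zero' v y)]
  unfold ct
  constructor <;> intro h1 <;> linarith

/-- the ultrametric inequality of the chordal distance -/
theorem ct_ultra {x y z : L} (hxy : x ≠ y) (hxz : x ≠ z) (hyz : y ≠ z) :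
    min (ct v x y) (ct v x z) ≤ ct v y z := by
  have hx := max_one_ne_zero' v x
  have hy := max_one_ne_zero' v y
  have hz := max_one_ne_zero' v z
  have h1 : max 1 (v x) * v (y - z) ≤
      max (v (x - y) * max 1 (v z)) (v (x - z) * max 1 (v y)) := by
    have e1 : v (y - z) ≤ max (v (x - y) * max 1 (v z)) (v (x - z) * max 1 (v y)) := by
      have e : y - z = (x - z) - (x - y) := by ring
      rw [e]
      refine (v.map_sub _ _).trans (max_le (le_max_of_le_right ?_) (le_max_of_le_left ?_))
      · calc v (x - z) = v (x - z) * 1 := (mul_one _).symm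
          _ ≤ _ := mul_le_mul_right (le_max_left _ _) _
      · calc v (x - y) = v (x - y) * 1 := (mul_one _).symm
          _ ≤ _ := mul_le_mul_right (le_max_left _ _) _
    have e2 : v x * v (y - z) ≤ max (v (x - y) * max 1 (v z)) (v (x - z) * max 1 (v y)) := by
      rw [← map_mul]
      have e : x * (y - z) = (x - z) * y - (x - y) * z := by ring
      rw [e]
      refine (v.map_sub _ _).trans (max_le (le_max_of_le_right ?_) (le_max_of_le_left ?_))
      · rw [map_mul]
        exact mul_le_mul_right (le_max_right _ _) _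
      · rw [map_mul]
        exact mul_le_mul_right (le_max_right _ _) _
    rcases le_total 1 (v x) with hc | hc
    · rw [max_eq_right hc]
      exact e2
    · rw [max_eq_left hc, one_mul]
      exact e1
  have hl : log (max 1 (v x) * v (y - z)) = log (max 1 (v x)) + log (v (y - z)) :=
    log_mul hx (val_sub_ne_zero v hyz)
  have h2 : log (v (x - y) * max 1 (v z)) = log (v (x - y)) + log (max 1 (v z)) :=
    log_mul (val_sub_ne_zero v hxy) hz
  have h3 : log (v (x - z) * max 1 (v y)) = log (v (x - z)) + log (max 1 (v y)) :=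
    log_mul (val_sub_ne_zero v hxz) hy
  have n1 : max 1 (v x) * v (y - z) ≠ 0 := mul_ne_zero hx (val_sub_ne_zero v hyz)
  rcases le_max_iff.1 h1 with h4 | h4
  · have h5 := (log_le_log n1 (mul_ne_zero (val_sub_ne_zero v hxy) hz)).2 h4
    rw [hl, h2] at h5
    refine min_le_iff.2 (Or.inl ?_)
    unfold ct
    linarith
  · have h5 := (log_le_log n1 (mul_ne_zero (val_sub_ne_zero v hxz) hy)).2 h4
    rw [hl, h3] at h5
    refine min_le_iff.2 (Or.inr ?_)
    unfold ct
    linarith

/-- the difference of the inverses of the distances -/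
theorem inv_sub_inv_eq {x b c : L} (hb : x ≠ b) (hc : x ≠ c) :
    (b - x)⁻¹ - (c - x)⁻¹ = (c - b) / ((b - x) * (c - x)) := by
  have h1 : b - x ≠ 0 := sub_ne_zero.2 hb.symm
  have h2 : c - x ≠ 0 := sub_ne_zero.2 hc.symm
  field_simp
  ring

theorem inv_sub_inv_ne_zero {x b c : L} (hb : x ≠ b) (hc : x ≠ c) (hbc : b ≠ c) :
    (b - x)⁻¹ - (c - x)⁻¹ ≠ 0 := by
  rw [inv_sub_inv_eq hb hc]
  exact div_ne_zero (sub_ne_zero.2 hbc.symm)
    (mul_ne_zero (sub_ne_zero.2 hb.symm) (sub_ne_zero.2 hc.symm))

/-- the local size of the difference of the inverses of the distances -/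
theorem log_hd {x b c : L} (hb : x ≠ b) (hc : x ≠ c) (hbc : b ≠ c) :
    log (v ((b - x)⁻¹ - (c - x)⁻¹)) =
      ct v x b + ct v x c - ct v b c - 2 * log (max 1 (v x)) := by
  have h1 : v (c - b) ≠ 0 := val_sub_ne_zero v hbc.symm
  have h2 : v (b - x) ≠ 0 := val_sub_ne_zero v hb.symm
  have h3 : v (c - x) ≠ 0 := val_sub_ne_zero v hc.symm
  rw [inv_sub_inv_eq hb hc, map_div₀, map_mul, log_div h1 (mul_ne_zero h2 h3), log_mul h2 h3,
    val_sub_comm v c b, val_sub_comm v b x, val_sub_comm v c x]
  unfold ct
  ring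

end Local

section Global

variable {κ L : Type*} [Field κ] [IsAlgClosed κ] [CharZero κ] [Field L] [Algebra κ L]

theorem ct_support (h : IsFF κ L) {x y : L} (hxy : x ≠ y) :
    (Function.support fun w : Place κ L => ct w.1 x y).Finite := by
  refine (((log_max_support h x).union (log_max_support h y)).union
    (h.place_support (sub_ne_zero.2 hxy))).subset fun w hw => ?_
  by_contra hc
  rw [Set.mem_union, Set.mem_union, not_or, not_or] at hc
  obtain ⟨⟨h3, h4⟩, h5⟩ := hc
  rw [Function.notMem_support] at h3 h4 h5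
  apply hw
  simp only at h3 h4 h5 ⊢
  unfold ct
  rw [h3, h4, h5]
  ring

/-- the first main theorem -/
theorem ct_total (h : IsFF κ L) {x y : L} (hxy : x ≠ y) :
    ∑ᶠ w : Place κ L, ct w.1 x y = height κ ![1, x] + height κ ![1, y] := by
  have h1 := log_max_support h x
  have h2 := log_max_support h y
  have h3 := h.place_support (sub_ne_zero.2 hxy)
  have h4 : (Function.support fun w : Place κ L =>
      log (max 1 (w.1 x)) + log (max 1 (w.1 y))).Finite :=
    (h1.union h2).subset (Function.support_add _ _)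
  unfold ct
  rw [finsum_sub_distrib h4 h3, finsum_add_distrib h1 h2, h.product_formula (sub_ne_zero.2 hxy),
    sub_zero, height_one, height_one]

theorem height_one_nonneg (h : IsFF κ L) (x : L) : 0 ≤ height κ ![1, x] :=
  h.height_nonneg fun h0 => by
    have := congrFun h0 0
    simp at this

end Global

end Pool.Agent.Lib.MP_44a246_ntMY
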