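import Mathlib
import Pool.Agent.Lib.MP_44a246_ntMY.A6a

/-!
A6b: the height inequality: the height of the vector of the differences
`h_uv = 1 / (b_u - x) - 1 / (b_v - x)` is at least `(q - 2) h(x) - C ∑ h(b_v)`, and the number of
the places where two of the `b_v` meet is at most `C ∑ h(b_v)`.
-/

namespace Pool.Agent.Lib.MP_44a246_ntMY

open Pool.Agent.Lib.MP_44a246_nt
open Pool.Agent.Lib.MP_44a246_ntL
open Pool.Agent.Lib.MP_44a246_ntY
open WithZero

section Local

variable {L : Type*} [Field L] (v : Valuation L ℤᵐ⁰) {ι : Type*} [Fintype ι] [DecidableEq ι]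

theorem hd_local {b : ι → L} (hb : Function.Injective b) {x : L} (hx : ∀ r, x ≠ b r)
    (hcard : 2 ≤ Fintype.card ι) :
    ∑ r, ct v x (b r) - ∑ p ∈ (Finset.univ : Finset ι).offDiag, ct v (b p.1) (b p.2) -
        2 * log (max 1 (v x)) ≤
      log (vmax v fun p : ι × ι => (b p.1 - x)⁻¹ - (b p.2 - x)⁻¹) := by
  classical
  have hne : Nonempty ι := Fintype.card_pos_iff.1 (by omega)
  obtain ⟨u, -, hu⟩ := Finset.exists_max_image (Finset.univ : Finset ι)
    (fun r => ct v x (b r)) Finset.univ_nonempty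
  have hnt : Nontrivial ι := Fintype.one_lt_card_iff_nontrivial.1 (by omega)
  obtain ⟨s, hs⟩ := exists_ne u
  have h1 : ∀ r, r ≠ u → ct v x (b r) ≤ ct v (b u) (b r) := by
    intro r hr
    have h2 := ct_ultra v (hx u) (hx r) (fun h3 => hr (hb h3).symm)
    rwa [min_eq_right (hu r (Finset.mem_univ r))] at h2
  have hoff : ∑ r ∈ (Finset.univ : Finset ι).erase u, ct v (b u) (b r) ≤
      ∑ p ∈ (Finset.univ : Finset ι).offDiag, ct v (b p.1) (b p.2) := by
    have e := Finset.sum_map ((Finset.univ : Finset ι).erase u)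
      (⟨fun r => (u, r), fun r r' hr => by simpa using hr⟩ : ι ↪ ι × ι)
      (fun p => ct v (b p.1) (b p.2))
    refine le_trans (le_of_eq e.symm) ?_
    refine Finset.sum_le_sum_of_subset_of_nonneg ?_ fun p hp _ => ?_
    · intro p hp
      obtain ⟨r, hr, rfl⟩ := Finset.mem_map.1 hp
      rw [Finset.mem_offDiag]
      exact ⟨Finset.mem_univ _, Finset.mem_univ _, (Finset.ne_of_mem_erase hr).symm⟩
    · rw [Finset.mem_offDiag] at hp
      exact ct_nonneg v fun h3 => hp.2.2 (hb h3)
  have hsum : ∑ r, ct v x (b r) = ct v x (b u) + (ct v x (b s) +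
      ∑ r ∈ ((Finset.univ : Finset ι).erase u).erase s, ct v x (b r)) := by
    rw [Finset.add_sum_erase _ (fun r => ct v x (b r))
      (Finset.mem_erase.2 ⟨hs, Finset.mem_univ s⟩),
      Finset.add_sum_erase _ (fun r => ct v x (b r)) (Finset.mem_univ u)]
  have hsum2 : ∑ r ∈ (Finset.univ : Finset ι).erase u, ct v (b u) (b r) = ct v (b u) (b s) +
      ∑ r ∈ ((Finset.univ : Finset ι).erase u).erase s, ct v (b u) (b r) := by
    rw [Finset.add_sum_erase _ (fun r => ct v (b u) (b r))
      (Finset.mem_erase.2 ⟨hs, Finset.mem_univ s⟩)]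
  have h3 : ∑ r ∈ ((Finset.univ : Finset ι).erase u).erase s, ct v x (b r) ≤
      ∑ r ∈ ((Finset.univ : Finset ι).erase u).erase s, ct v (b u) (b r) :=
    Finset.sum_le_sum fun r hr =>
      h1 r (Finset.ne_of_mem_erase (Finset.mem_of_mem_erase hr))
  have hus : b u ≠ b s := fun h4 => hs (hb h4).symm
  have h4 := log_hd v (hx u) (hx s) hus
  have h5 : log (v ((b u - x)⁻¹ - (b s - x)⁻¹)) ≤
      log (vmax v fun p : ι × ι => (b p.1 - x)⁻¹ - (b p.2 - x)⁻¹) := by
    have h6 : v ((b u - x)⁻¹ - (b s - x)⁻¹) ≠ 0 :=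
      (v.ne_zero_iff).2 (inv_sub_inv_ne_zero (hx u) (hx s) hus)
    have h7 : v ((b u - x)⁻¹ - (b s - x)⁻¹) ≤
        vmax v fun p : ι × ι => (b p.1 - x)⁻¹ - (b p.2 - x)⁻¹ :=
      le_vmax v (fun p : ι × ι => (b p.1 - x)⁻¹ - (b p.2 - x)⁻¹) (u, s)
    have h8 : (vmax v fun p : ι × ι => (b p.1 - x)⁻¹ - (b p.2 - x)⁻¹) ≠ 0 := by
      intro h9
      rw [h9] at h7
      exact h6 (le_antisymm h7 zero_le)
    exact (log_le_log h6 h8).2 h7
  linarith

end Local

section Global

variable {κ L : Type*} [Field κ] [IsAlgClosed κ] [CharZero κ] [Field L] [Algebra κ L]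
  {ι : Type*} [Fintype ι]

/-- the height inequality -/
theorem height_hd (h : IsFF κ L) {b : ι → L} (hb : Function.Injective b) {x : L}
    (hx : ∀ r, x ≠ b r) (hcard : 2 ≤ Fintype.card ι) :
    ((Fintype.card ι : ℤ) - 2) * height κ ![1, x] ≤
      height κ (fun p : ι × ι => (b p.1 - x)⁻¹ - (b p.2 - x)⁻¹) +
        2 * Fintype.card ι * ∑ r, height κ ![1, b r] := by
  classical
  have hnt : Nontrivial ι := Fintype.one_lt_card_iff_nontrivial.1 (by omega)
  obtain ⟨u, s, hus⟩ := exists_pair_ne ι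
  have hne : (fun p : ι × ι => (b p.1 - x)⁻¹ - (b p.2 - x)⁻¹) ≠ 0 := by
    intro h0
    exact inv_sub_inv_ne_zero (hx u) (hx s) (fun h4 => hus (hb h4)) (congrFun h0 (u, s))
  have s1 : ∀ r ∈ (Finset.univ : Finset ι),
      (Function.support fun w : Place κ L => ct w.1 x (b r)).Finite :=
    fun r _ => ct_support h (hx r)
  have s2 : ∀ p ∈ (Finset.univ : Finset ι).offDiag,
      (Function.support fun w : Place κ L => ct w.1 (b p.1) (b p.2)).Finite := by
    intro p hp
    rw [Finset.mem_offDiag] at hp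
    exact ct_support h fun h3 => hp.2.2 (hb h3)
  have s3 : (Function.support fun w : Place κ L => 2 * log (max 1 (w.1 x))).Finite := by
    refine (log_max_support h x).subset fun w hw h0 => hw ?_
    simp only at h0 ⊢
    rw [h0, mul_zero]
  have s1' : (Function.support fun w : Place κ L => ∑ r, ct w.1 x (b r)).Finite := by
    refine (Set.Finite.biUnion (Finset.univ : Finset ι).finite_toSet s1).subset ?_
    intro w hw
    rw [Function.mem_support] at hw
    obtain ⟨r, hr, hr0⟩ := Finset.exists_ne_zero_of_sum_ne_zero hw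
    exact Set.mem_biUnion (Finset.mem_coe.2 hr) hr0
  have s2' : (Function.support fun w : Place κ L =>
      ∑ p ∈ (Finset.univ : Finset ι).offDiag, ct w.1 (b p.1) (b p.2)).Finite := by
    refine (Set.Finite.biUnion ((Finset.univ : Finset ι).offDiag).finite_toSet s2).subset ?_
    intro w hw
    rw [Function.mem_support] at hw
    obtain ⟨r, hr, hr0⟩ := Finset.exists_ne_zero_of_sum_ne_zero hw
    exact Set.mem_biUnion (Finset.mem_coe.2 hr) hr0
  have s12 : (Function.support fun w : Place κ L => ∑ r, ct w.1 x (b r) -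
      ∑ p ∈ (Finset.univ : Finset ι).offDiag, ct w.1 (b p.1) (b p.2)).Finite :=
    (s1'.union s2').subset (Function.support_sub _ _)
  have h1 := finsum_mono ((s12.union s3).subset (Function.support_sub _ _))
    (h.vmax_support hne) fun w => hd_local w.1 hb hx hcard
  rw [finsum_sub_distrib s12 s3, finsum_sub_distrib s1' s2', finsum_sum_comm _ _ s1,
    finsum_sum_comm _ _ s2, ← mul_finsum, ← height_one] at h1
  have h2 : ∑ r, ∑ᶠ w : Place κ L, ct w.1 x (b r) =
      Fintype.card ι * height κ ![1, x] + ∑ r, height κ ![1, b r] := by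
    rw [Finset.sum_congr rfl fun r _ => ct_total h (hx r), Finset.sum_add_distrib,
      Finset.sum_const, Finset.card_univ, nsmul_eq_mul]
  have hpos : ∀ r, 0 ≤ height κ ![1, b r] := fun r => height_one_nonneg h (b r)
  have h3 : ∑ p ∈ (Finset.univ : Finset ι).offDiag, ∑ᶠ w : Place κ L, ct w.1 (b p.1) (b p.2) ≤
      2 * Fintype.card ι * ∑ r, height κ ![1, b r] := by
    calc ∑ p ∈ (Finset.univ : Finset ι).offDiag, ∑ᶠ w : Place κ L, ct w.1 (b p.1) (b p.2)
        = ∑ p ∈ (Finset.univ : Finset ι).offDiag,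
            (height κ ![1, b p.1] + height κ ![1, b p.2]) := by
          refine Finset.sum_congr rfl fun p hp => ?_
          rw [Finset.mem_offDiag] at hp
          exact ct_total h fun h3 => hp.2.2 (hb h3)
      _ ≤ ∑ p ∈ (Finset.univ : Finset ι) ×ˢ (Finset.univ : Finset ι),
            (height κ ![1, b p.1] + height κ ![1, b p.2]) := by
          refine Finset.sum_le_sum_of_subset_of_nonneg
            (fun p _ => Finset.mem_product.2 ⟨Finset.mem_univ _, Finset.mem_univ _⟩)
            fun p _ _ => add_nonneg (hpos _) (hpos _)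
      _ = 2 * Fintype.card ι * ∑ r, height κ ![1, b r] := by
          rw [Finset.sum_product]
          simp only [Finset.sum_add_distrib, Finset.sum_const, Finset.card_univ, nsmul_eq_mul]
          rw [← Finset.mul_sum]
          ring
  have h4 : 0 ≤ ∑ r, height κ ![1, b r] := Finset.sum_nonneg fun r _ => hpos r
  unfold height at h1 h2 h3 h4 ⊢
  linarith

/-- the number of the places where two of the elements meet -/
theorem card_meet_le (h : IsFF κ L) {b : ι → L} (hb : Function.Injective b) :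
    {w : Place κ L | ∃ r s, r ≠ s ∧ w.1 (b r - b s) < max 1 (w.1 (b r)) * max 1 (w.1 (b s))}.Finite ∧
    (({w : Place κ L | ∃ r s, r ≠ s ∧
        w.1 (b r - b s) < max 1 (w.1 (b r)) * max 1 (w.1 (b s))}.ncard : ℕ) : ℤ) ≤
      2 * Fintype.card ι * ∑ r, height κ ![1, b r] := by
  classical
  have s2 : ∀ p ∈ (Finset.univ : Finset ι).offDiag,
      (Function.support fun w : Place κ L => ct w.1 (b p.1) (b p.2)).Finite := by
    intro p hp
    rw [Finset.mem_offDiag] at hp
    exact ct_support h fun h3 => hp.2.2 (hb h3)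
  have s2' : (Function.support fun w : Place κ L =>
      ∑ p ∈ (Finset.univ : Finset ι).offDiag, ct w.1 (b p.1) (b p.2)).Finite := by
    refine (Set.Finite.biUnion ((Finset.univ : Finset ι).offDiag).finite_toSet s2).subset ?_
    intro w hw
    rw [Function.mem_support] at hw
    obtain ⟨r, hr, hr0⟩ := Finset.exists_ne_zero_of_sum_ne_zero hw
    exact Set.mem_biUnion (Finset.mem_coe.2 hr) hr0
  have hnn : ∀ w : Place κ L, ∀ p ∈ (Finset.univ : Finset ι).offDiag,
      0 ≤ ct w.1 (b p.1) (b p.2) := by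
    intro w p hp
    rw [Finset.mem_offDiag] at hp
    exact ct_nonneg w.1 fun h3 => hp.2.2 (hb h3)
  have key : ∀ w ∈ {w : Place κ L | ∃ r s, r ≠ s ∧
      w.1 (b r - b s) < max 1 (w.1 (b r)) * max 1 (w.1 (b s))},
      1 ≤ ∑ p ∈ (Finset.univ : Finset ι).offDiag, ct w.1 (b p.1) (b p.2) := by
    rintro w ⟨r, s, hrs, hw⟩
    have h1 : 0 < ct w.1 (b r) (b s) := (ct_pos_iff w.1 fun h3 => hrs (hb h3)).2 hw
    have h2 : ct w.1 (b r) (b s) ≤
        ∑ p ∈ (Finset.univ : Finset ι).offDiag, ct w.1 (b p.1) (b p.2) :=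
      Finset.single_le_sum (f := fun p : ι × ι => ct w.1 (b p.1) (b p.2)) (hnn w)
        (show (r, s) ∈ (Finset.univ : Finset ι).offDiag from
          Finset.mem_offDiag.2 ⟨Finset.mem_univ r, Finset.mem_univ s, hrs⟩)
    linarith
  have hfin : {w : Place κ L | ∃ r s, r ≠ s ∧
      w.1 (b r - b s) < max 1 (w.1 (b r)) * max 1 (w.1 (b s))}.Finite := by
    refine s2'.subset fun w hw => ?_
    have := key w hw
    rw [Function.mem_support]
    omega
  refine ⟨hfin, ?_⟩
  have hpos : ∀ r, 0 ≤ height κ ![1, b r] := fun r => height_one_nonneg h (b r)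
  have h3 : ∑ p ∈ (Finset.univ : Finset ι).offDiag, ∑ᶠ w : Place κ L, ct w.1 (b p.1) (b p.2) ≤
      2 * Fintype.card ι * ∑ r, height κ ![1, b r] := by
    calc ∑ p ∈ (Finset.univ : Finset ι).offDiag, ∑ᶠ w : Place κ L, ct w.1 (b p.1) (b p.2)
        = ∑ p ∈ (Finset.univ : Finset ι).offDiag,
            (height κ ![1, b p.1] + height κ ![1, b p.2]) := by
          refine Finset.sum_congr rfl fun p hp => ?_
          rw [Finset.mem_offDiag] at hp
          exact ct_total h fun h3 => hp.2.2 (hb h3)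
      _ ≤ ∑ p ∈ (Finset.univ : Finset ι) ×ˢ (Finset.univ : Finset ι),
            (height κ ![1, b p.1] + height κ ![1, b p.2]) := by
          refine Finset.sum_le_sum_of_subset_of_nonneg
            (fun p _ => Finset.mem_product.2 ⟨Finset.mem_univ _, Finset.mem_univ _⟩)
            fun p _ _ => add_nonneg (hpos _) (hpos _)
      _ = 2 * Fintype.card ι * ∑ r, height κ ![1, b r] := by
          rw [Finset.sum_product]
          simp only [Finset.sum_add_distrib, Finset.sum_const, Finset.card_univ, nsmul_eq_mul]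
          rw [← Finset.mul_sum]
          ring
  refine le_trans ?_ h3
  rw [← finsum_sum_comm _ _ s2]
  rw [finsum_eq_sum_of_support_subset (s := hfin.toFinset ∪ s2'.toFinset) _ (by
    intro w hw
    rw [Finset.coe_union, Set.Finite.coe_toFinset, Set.Finite.coe_toFinset]
    exact Or.inr hw)]
  rw [Set.ncard_eq_toFinset_card _ hfin]
  calc ((hfin.toFinset.card : ℕ) : ℤ) = ∑ w ∈ hfin.toFinset, (1 : ℤ) := by
        rw [Finset.sum_const, nsmul_eq_mul, mul_one]
    _ ≤ ∑ w ∈ hfin.toFinset, ∑ p ∈ (Finset.univ : Finset ι).offDiag,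
          ct w.1 (b p.1) (b p.2) :=
        Finset.sum_le_sum fun w hw => key w (hfin.mem_toFinset.1 hw)
    _ ≤ _ := Finset.sum_le_sum_of_subset_of_nonneg Finset.subset_union_left
        fun w _ _ => Finset.sum_nonneg (hnn w)

end Global

end Pool.Agent.Lib.MP_44a246_ntMY
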