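import Pool.Agent.Lib.MP_44a246_ntMY.MY14

/-!
# (A1) The pointwise inequality
-/

namespace Pool.Agent.Lib.MP_44a246_ntMY

open Real

theorem Al_nonneg {q : ℕ} (η η' : Fin q → ℂ) (f : Fin 4 ↪ Fin q) : 0 ≤ Al η η' f :=
  div_nonneg (Complex.normSq_nonneg _) (sq_nonneg _)

/-- the second case for an arbitrary triangle -/
theorem second_case' {q : ℕ} {k ε δ : ℝ} (hk0 : 0 < k) (hk1 : k ≤ 1) (hε0 : 0 < ε) (hε1 : ε ≤ 1 / 8)
    (hδ0 : 0 < δ) (hδ1 : δ ≤ 1) {η η' : Fin q → ℂ} (hη : ∀ u v, u ≠ v → η u ≠ η v)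
    {T : Fin 3 ↪ Fin q} (hdom : ∀ S : Fin 3 ↪ Fin q, EE k ε δ η η' S ≤ EE k ε δ η η' T)
    (hbig : 2 * ((q : ℝ) + 1) ^ 2 * exp (5 / ε) * QQ (cT T) η < QQ (c1 q) η) :
    ∃ f : Fin 4 ↪ Fin q, EE k ε δ η η' T ≤ 12 / δ * (3 + 2 / k) ^ 2 * Al η η' f := by
  have h01 : T 0 ≠ T 1 := fun h => by simpa using T.injective h
  have h12 : T 1 ≠ T 2 := fun h => by simpa using T.injective h
  have h02 : T 0 ≠ T 2 := fun h => by simpa using T.injective h
  have key : ∀ (i j l : Fin q) (h1 : i ≠ j) (h2 : j ≠ l) (h3 : i ≠ l),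
      Complex.normSq (η j - η l) ≤ Complex.normSq (η i - η j) →
      Complex.normSq (η l - η i) ≤ Complex.normSq (η i - η j) →
      QQ (cT (tri i j l h1 h2 h3)) η = QQ (cT T) η →
      JJ η (tri i j l h1 h2 h3) = JJ η T →
      WW η η' (tri i j l h1 h2 h3) = WW η η' T →
      ∃ f : Fin 4 ↪ Fin q, EE k ε δ η η' T ≤ 12 / δ * (3 + 2 / k) ^ 2 * Al η η' f := by
    intro i j l h1 h2 h3 hA hB hQ hJ hW
    have hE : EE k ε δ η η' (tri i j l h1 h2 h3) = EE k ε δ η η' T := by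
      rw [EE, EE, RR_eq, RR_eq, hQ, hJ, hW]
    rw [← hE]
    refine second_case hk0 hk1 hε0 hε1 hδ0 hδ1 hη h1 h2 h3 hA hB ?_ ?_
    · intro S
      rw [hE]
      exact hdom S
    · rw [hQ]
      exact hbig
  rcases le_total (Complex.normSq (η (T 1) - η (T 2))) (Complex.normSq (η (T 0) - η (T 1))) with
    ha | ha
  · rcases le_total (Complex.normSq (η (T 2) - η (T 0))) (Complex.normSq (η (T 0) - η (T 1))) with
      hb | hb
    · refine key (T 0) (T 1) (T 2) h01 h12 h02 ha hb ?_ rfl rfl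
      rw [QQ_cT, QQ_cT]
      rfl
    · -- the longest edge is `(2, 0)`
      refine key (T 2) (T 0) (T 1) (Ne.symm h02) h01 (Ne.symm h12) hb (ha.trans hb) ?_ ?_ ?_
      · rw [QQ_cT, QQ_cT]
        show 2 * (Complex.normSq (η (T 2) - η (T 0)) + Complex.normSq (η (T 0) - η (T 1)) +
          Complex.normSq (η (T 1) - η (T 2))) = _
        ring
      · show Complex.normSq (η (T 2) - η (T 0)) * Complex.normSq (η (T 0) - η (T 1)) *
          Complex.normSq (η (T 1) - η (T 2)) = _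
        unfold JJ
        ring
      · rw [WW_tri]
        unfold WW
        ring
  · rcases le_total (Complex.normSq (η (T 2) - η (T 0))) (Complex.normSq (η (T 1) - η (T 2))) with
      hb | hb
    · -- the longest edge is `(1, 2)`
      refine key (T 1) (T 2) (T 0) h12 (Ne.symm h02) (Ne.symm h01) hb ha ?_ ?_ ?_
      · rw [QQ_cT, QQ_cT]
        show 2 * (Complex.normSq (η (T 1) - η (T 2)) + Complex.normSq (η (T 2) - η (T 0)) +
          Complex.normSq (η (T 0) - η (T 1))) = _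
        ring
      · show Complex.normSq (η (T 1) - η (T 2)) * Complex.normSq (η (T 2) - η (T 0)) *
          Complex.normSq (η (T 0) - η (T 1)) = _
        unfold JJ
        ring
      · rw [WW_tri]
        unfold WW
        ring
    · -- the longest edge is `(2, 0)`
      refine key (T 2) (T 0) (T 1) (Ne.symm h02) h01 (Ne.symm h12) (ha.trans hb) hb ?_ ?_ ?_
      · rw [QQ_cT, QQ_cT]
        show 2 * (Complex.normSq (η (T 2) - η (T 0)) + Complex.normSq (η (T 0) - η (T 1)) +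
          Complex.normSq (η (T 1) - η (T 2))) = _
        ring
      · show Complex.normSq (η (T 2) - η (T 0)) * Complex.normSq (η (T 0) - η (T 1)) *
          Complex.normSq (η (T 1) - η (T 2)) = _
        unfold JJ
        ring
      · rw [WW_tri]
        unfold WW
        ring

/-- **The pointwise inequality** (A1) of paper 705. -/
theorem pointwise (q : ℕ) {ε : ℝ} (hε0 : 0 < ε) (hε1 : ε ≤ 1 / 8) :
    ∃ k δ C : ℝ, 0 < k ∧ k ≤ ε / 2 ∧ 0 < δ ∧ δ ≤ 1 ∧ 0 ≤ C ∧ ∀ (η η' : Fin q → ℂ) (T : Fin 3 ↪ Fin q),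
      (∀ u v, u ≠ v → η u ≠ η v) → WW η η' T ≠ 0 →
      (∀ S : Fin 3 ↪ Fin q, EE k ε δ η η' S ≤ EE k ε δ η η' T) →
      (1 - 4 * ε) * VV (c1 q) η η' - C * ∑ f : Fin 4 ↪ Fin q, Al η η' f ≤ LR k ε δ η η' T := by
  obtain ⟨Γ, hΓ⟩ : ∃ Γ, Γ = 2 * ((q : ℝ) + 1) ^ 2 * exp (5 / ε) := ⟨_, rfl⟩
  have hq0 : (0 : ℝ) ≤ q := Nat.cast_nonneg q
  have hΓ1 : 1 ≤ Γ := by
    have g1 : (1 : ℝ) ≤ ((q : ℝ) + 1) ^ 2 := by nlinarith
    have g2 : 1 ≤ exp (5 / ε) := one_le_exp (by positivity)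
    rw [hΓ]
    nlinarith
  have hΓ0 : 0 < Γ := by linarith
  obtain ⟨δ, hδ⟩ : ∃ δ, δ = ε / (3 * Γ ^ 2) := ⟨_, rfl⟩
  have hδ0 : 0 < δ := by rw [hδ]; positivity
  have hδΓ : 3 * δ * Γ ^ 2 = ε := by
    rw [hδ]
    field_simp
  have hδ1 : δ ≤ 1 := by
    have g1 : 1 ≤ Γ ^ 2 := one_le_pow₀ hΓ1
    nlinarith
  obtain ⟨k, hk⟩ : ∃ k, k = ε / 2 := ⟨_, rfl⟩
  have hk0 : 0 < k := by rw [hk]; positivity
  have hk1 : k ≤ 1 / 16 := by rw [hk]; linarith
  refine ⟨k, δ, 960 * (q : ℝ) ^ 4 * (3 + 2 / k) ^ 2 / δ ^ 3, hk0, hk.le, hδ0, hδ1, by positivity, ?_⟩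
  intro η η' T hη hW hdom
  obtain ⟨N, hN⟩ : ∃ N, N = QQ (c1 q) η := ⟨_, rfl⟩
  obtain ⟨E, hE⟩ : ∃ E, E = EE k ε δ η η' T := ⟨_, rfl⟩
  have hE0 : 0 ≤ E := by
    rw [hE]
    exact mul_nonneg (Complex.normSq_nonneg _) (exp_pos _).le
  -- positivity
  have hpos : ∀ S : Fin 3 ↪ Fin q, 0 < JJ η S ∧ 0 < QQ (cT S) η ∧ JJ η S ≤ QQ (cT S) η ^ 3 ∧
      QQ (cT S) η ≤ N := by
    intro S
    have h01 : S 0 ≠ S 1 := fun h => by simpa using S.injective h
    have h12 : S 1 ≠ S 2 := fun h => by simpa using S.injective h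
    have h20 : S 2 ≠ S 0 := fun h => by simpa using S.injective h
    have a1 := normSq_pos' hη h01
    have a2 := normSq_pos' hη h12
    have a3 := normSq_pos' hη h20
    have hP := QQ_cT S η
    have hP0 : 0 < QQ (cT S) η := by rw [hP]; positivity
    refine ⟨by unfold JJ; positivity, hP0, ?_, ?_⟩
    · unfold JJ
      have b1 : Complex.normSq (η (S 0) - η (S 1)) ≤ QQ (cT S) η := by rw [hP]; linarith
      have b2 : Complex.normSq (η (S 1) - η (S 2)) ≤ QQ (cT S) η := by rw [hP]; linarith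
      have b3 : Complex.normSq (η (S 2) - η (S 0)) ≤ QQ (cT S) η := by rw [hP]; linarith
      calc _ ≤ QQ (cT S) η * QQ (cT S) η * QQ (cT S) η :=
            mul_le_mul (mul_le_mul b1 b2 a2.le hP0.le) b3 a3.le (by positivity)
        _ = _ := by ring
    · rw [hN]
      exact QQ_mono (fun u v => cT_le _ u v) η
  have hN0 : 0 < N := lt_of_lt_of_le (hpos T).2.1 (hpos T).2.2.2
  -- the bound of the Wronskians
  have hWb : ∀ S : Fin 3 ↪ Fin q, Complex.normSq (WW η η' S) ≤ 2 * N ^ 2 * E := by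
    intro S
    obtain ⟨hJ, hP, hJP, hPN⟩ := hpos S
    have g1 := hdom S
    rw [← hE, EE, RR_eq, ← hN] at g1
    have g2 := rr_ge (k := k) (ε := ε) hk0.le (by linarith) hε0.le (by linarith) hJ hP hN0 hJP hPN
      (D := δ * N + QQ (cT S) η) (by positivity) (by
        have h' := mul_le_mul_of_nonneg_right hδ1 hN0.le
        linarith)
    have g3 : exp (- log 2 - 2 * log N) = (2 * N ^ 2)⁻¹ := by
      rw [sub_eq_add_neg, exp_add, exp_neg, exp_neg, exp_log (by norm_num : (0 : ℝ) < 2),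
        two_mul, exp_add, exp_log hN0, mul_inv]
      ring_nf
    have g4 := exp_le_exp.2 g2
    rw [g3] at g4
    have g5 : Complex.normSq (WW η η' S) * (2 * N ^ 2)⁻¹ ≤ E :=
      (mul_le_mul_of_nonneg_left g4 (Complex.normSq_nonneg _)).trans g1
    rw [← div_eq_mul_inv, div_le_iff₀ (by positivity)] at g5
    linarith
  have hm : ∀ S : Fin 3 ↪ Fin q, ‖WW η η' S‖ ≤ Real.sqrt (2 * N ^ 2 * E) := by
    intro S
    refine Real.le_sqrt_of_sq_le ?_
    rw [← Complex.normSq_eq_norm_sq]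
    exact hWb S
  have hww : ∀ a b, Complex.normSq (ww η η' a b) ≤ 32 * N ^ 2 * E := by
    intro a b
    have g1 := norm_ww_le hη (Real.sqrt_nonneg _) hm a b
    have g2 := pow_le_pow_left₀ (norm_nonneg _) g1 2
    rw [mul_pow, Real.sq_sqrt (by positivity), ← Complex.normSq_eq_norm_sq] at g2
    linarith
  have hLL := LL_c1_le hww
  obtain ⟨Θ, hΘ⟩ : ∃ Θ, Θ = VV (c1 q) η η' := ⟨_, rfl⟩
  have hΘe : Θ = LL (c1 q) η η' / (2 * N ^ 2) := by
    rw [hΘ, VV_eq _ _ _ (by rw [← hN]; exact hN0.ne'), hN]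
  have hLL0 : 0 ≤ LL (c1 q) η η' := LL_nonneg c1_nonneg η η'
  have hΘ0 : 0 ≤ Θ := by rw [hΘe]; positivity
  have hΘE : Θ ≤ 16 * (q : ℝ) ^ 4 * E := by
    rw [hΘe, div_le_iff₀ (by positivity)]
    linarith
  have hLLΘ : LL (c1 q) η η' = 2 * N ^ 2 * Θ := by
    rw [hΘe]
    field_simp
  obtain ⟨hJ, hP, hJP, hPN⟩ := hpos T
  obtain ⟨P, hP'⟩ : ∃ P, P = QQ (cT T) η := ⟨_, rfl⟩
  rw [← hP'] at hP hPN
  have hD : QQ (cD δ T) η = δ * N + P := by rw [QQ_cD, hN, hP']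
  have hD0 : 0 < δ * N + P := by positivity
  obtain ⟨ω, hω⟩ : ∃ ω, ω = VV (cT T) η η' := ⟨_, rfl⟩
  have hωe : ω = LL (cT T) η η' / (2 * P ^ 2) := by
    rw [hω, VV_eq _ _ _ (by rw [← hP']; exact hP.ne'), hP']
  have hLT0 : 0 ≤ LL (cT T) η η' := LL_nonneg (cT_nonneg T) η η'
  have hω0 : 0 ≤ ω := by rw [hωe]; positivity
  obtain ⟨Ψ, hΨ⟩ : ∃ Ψ, Ψ = VV (cD δ T) η η' := ⟨_, rfl⟩
  have hΨe : Ψ = LL (cD δ T) η η' / (2 * (δ * N + P) ^ 2) := by
    rw [hΨ, VV_eq _ _ _ (by rw [hD]; exact hD0.ne'), hD]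
  have hAls : 0 ≤ ∑ f : Fin 4 ↪ Fin q, Al η η' f :=
    Finset.sum_nonneg fun f _ => Al_nonneg η η' f
  have hLR : LR k ε δ η η' T = (1 - k - ε) * Θ + (1 - 2 * k) * ω - (1 - ε) * Ψ := by
    rw [LR, ← hΘ, ← hω, ← hΨ]
  rw [hLR, ← hΘ]
  by_cases hcase : N ≤ Γ * P
  · -- the first case
    have g1 : Ψ ≤ ω + ε * Θ := by
      have e1 := LL_cD_le hδ0.le hδ1 T η η'
      have e2 : Ψ ≤ (LL (cT T) η η' + 3 * δ * LL (c1 q) η η') / (2 * P ^ 2) := by
        rw [hΨe]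
        refine div_le_div₀ (by positivity) e1 (by positivity) ?_
        have h0 : 0 < δ * N := by positivity
        have : P ^ 2 ≤ (δ * N + P) ^ 2 := pow_le_pow_left₀ hP.le (by linarith) 2
        linarith
      refine e2.trans ?_
      rw [add_div, ← hωe]
      have e3 : 3 * δ * LL (c1 q) η η' / (2 * P ^ 2) ≤ ε * Θ := by
        rw [hLLΘ, div_le_iff₀ (by positivity)]
        have e4 : N ^ 2 ≤ Γ ^ 2 * P ^ 2 := by
          rw [← mul_pow]
          exact pow_le_pow_left₀ hN0.le hcase 2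
        have e5 : 3 * δ * (2 * N ^ 2 * Θ) ≤ 3 * δ * (2 * (Γ ^ 2 * P ^ 2) * Θ) := by
          have h' : 0 ≤ 3 * δ * 2 * Θ := by positivity
          have h'' := mul_le_mul_of_nonneg_left e4 h'
          linarith
        refine e5.trans (le_of_eq ?_)
        calc 3 * δ * (2 * (Γ ^ 2 * P ^ 2) * Θ) = (3 * δ * Γ ^ 2) * Θ * (2 * P ^ 2) := by ring
          _ = _ := by rw [hδΓ]
      linarith
    have hC : 0 ≤ 960 * (q : ℝ) ^ 4 * (3 + 2 / k) ^ 2 / δ ^ 3 * ∑ f : Fin 4 ↪ Fin q, Al η η' f := by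
      positivity
    have g2 := mul_le_mul_of_nonneg_left g1 (show (0 : ℝ) ≤ 1 - ε by linarith)
    have g3 : 0 ≤ (ε - 2 * k) * ω := mul_nonneg (by rw [hk]; linarith) hω0
    have g4 : 0 ≤ ε * ε * Θ := by positivity
    have g5 : 0 ≤ (ε - k) * Θ := mul_nonneg (by rw [hk]; linarith) hΘ0
    have g6 : 0 ≤ ε * Θ := by positivity
    linarith
  · -- the second case
    push Not at hcase
    obtain ⟨f, hf⟩ := second_case' hk0 (by linarith) hε0 hε1 hδ0 hδ1 hη hdom (by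
      rw [← hΓ, ← hP', ← hN]
      exact hcase)
    rw [← hE] at hf
    have g1 : Ψ ≤ 4 / δ ^ 2 * Θ := by
      have e1 := LL_cD_le' hδ0.le hδ1 T η η'
      rw [hΨe]
      have e2 : LL (cD δ T) η η' / (2 * (δ * N + P) ^ 2) ≤
          (4 * LL (c1 q) η η') / (2 * (δ * N) ^ 2) := by
        refine div_le_div₀ (by positivity) e1 (by positivity) ?_
        have : (δ * N) ^ 2 ≤ (δ * N + P) ^ 2 := pow_le_pow_left₀ (by positivity) (by linarith) 2
        linarith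
      refine e2.trans (le_of_eq ?_)
      rw [hLLΘ]
      field_simp
    have g2 : 1 ≤ 1 / δ ^ 2 := by
      rw [le_div_iff₀ (by positivity), one_mul]
      exact pow_le_one₀ hδ0.le hδ1
    have g3 : Θ + Ψ ≤ 5 / δ ^ 2 * Θ := by
      have : 5 / δ ^ 2 * Θ = 1 / δ ^ 2 * Θ + 4 / δ ^ 2 * Θ := by ring
      have h' : Θ ≤ 1 / δ ^ 2 * Θ := by
        have h'' := mul_le_mul_of_nonneg_right g2 hΘ0
        linarith
      linarith
    have g4 : 5 / δ ^ 2 * Θ ≤ 5 / δ ^ 2 * (16 * (q : ℝ) ^ 4 *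
        (12 / δ * (3 + 2 / k) ^ 2 * Al η η' f)) := by
      refine mul_le_mul_of_nonneg_left (hΘE.trans ?_) (by positivity)
      exact mul_le_mul_of_nonneg_left hf (by positivity)
    have g5 : 5 / δ ^ 2 * (16 * (q : ℝ) ^ 4 * (12 / δ * (3 + 2 / k) ^ 2 * Al η η' f)) =
        960 * (q : ℝ) ^ 4 * (3 + 2 / k) ^ 2 / δ ^ 3 * Al η η' f := by
      field_simp
      ring
    have g6 : Al η η' f ≤ ∑ f : Fin 4 ↪ Fin q, Al η η' f :=
      Finset.single_le_sum (fun f _ => Al_nonneg η η' f) (Finset.mem_univ f)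
    have g7 : 960 * (q : ℝ) ^ 4 * (3 + 2 / k) ^ 2 / δ ^ 3 * Al η η' f ≤
        960 * (q : ℝ) ^ 4 * (3 + 2 / k) ^ 2 / δ ^ 3 * ∑ f : Fin 4 ↪ Fin q, Al η η' f :=
      mul_le_mul_of_nonneg_left g6 (by positivity)
    have hΨ0 : 0 ≤ Ψ := by
      rw [hΨe]
      have : 0 ≤ LL (cD δ T) η η' := LL_nonneg (fun u v => by
        unfold cD
        have := cT_nonneg T u v
        linarith) η η'
      positivity
    have g8 : (1 - 4 * ε) * Θ ≤ Θ := by
      have h' := mul_nonneg hε0.le hΘ0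
      linarith
    have g9 : (1 - ε) * Ψ ≤ Ψ := by
      have h' := mul_nonneg hε0.le hΨ0
      linarith
    have g10 : 0 ≤ (1 - k - ε) * Θ := mul_nonneg (by linarith) hΘ0
    have g11 : 0 ≤ (1 - 2 * k) * ω := mul_nonneg (by linarith) hω0
    linarith

end Pool.Agent.Lib.MP_44a246_ntMY
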