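import Pool.Agent.Lib.MP_44a246_ntMY.MY00

/-!
# (A1) The pointwise inequality: algebra
-/

namespace Pool.Agent.Lib.MP_44a246_ntMY

open WithZero Module Polynomial Filter Topology Asymptotics
open scoped ComplexConjugate

/-- the identity of Lagrange -/
theorem lagrange {I : Type*} [Fintype I] (c : I → ℝ) (f g : I → ℂ) :
    ∑ a, ∑ b, c a * c b * Complex.normSq (g a * f b - f a * g b) =
      2 * ((∑ a, c a * Complex.normSq (g a)) * (∑ a, c a * Complex.normSq (f a)) -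
        Complex.normSq (∑ a, (c a : ℂ) * (conj (f a) * g a))) := by
  have h1 : Complex.normSq (∑ a, (c a : ℂ) * (conj (f a) * g a)) =
      ∑ a, ∑ b, c a * c b * ((conj (f a) * g a) * conj (conj (f b) * g b)).re := by
    have h2 : ((Complex.normSq (∑ a, (c a : ℂ) * (conj (f a) * g a)) : ℝ) : ℂ) =
        (∑ a, (c a : ℂ) * (conj (f a) * g a)) * ∑ b, conj ((c b : ℂ) * (conj (f b) * g b)) := by
      rw [← map_sum, Complex.mul_conj]
    have h3 := congrArg Complex.re h2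
    rw [Complex.ofReal_re, Finset.sum_mul_sum, Complex.re_sum] at h3
    rw [h3]
    refine Finset.sum_congr rfl fun a _ => ?_
    rw [Complex.re_sum]
    refine Finset.sum_congr rfl fun b _ => ?_
    rw [map_mul, Complex.conj_ofReal]
    have h4 : (c a : ℂ) * (conj (f a) * g a) * ((c b : ℂ) * conj (conj (f b) * g b)) =
        ((c a * c b : ℝ) : ℂ) * ((conj (f a) * g a) * conj (conj (f b) * g b)) := by
      push_cast
      ring
    rw [h4, Complex.re_ofReal_mul]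
  rw [h1, Finset.sum_mul_sum, mul_sub, Finset.mul_sum, Finset.mul_sum]
  have h5 : ∑ a, 2 * ∑ b, c a * Complex.normSq (g a) * (c b * Complex.normSq (f b)) =
      ∑ a, ∑ b, (c a * c b * (Complex.normSq (g a) * Complex.normSq (f b)) +
        c a * c b * (Complex.normSq (f a) * Complex.normSq (g b))) := by
    have h6 : ∑ a, ∑ b, c a * c b * (Complex.normSq (f a) * Complex.normSq (g b)) =
        ∑ a, ∑ b, c a * c b * (Complex.normSq (g a) * Complex.normSq (f b)) := by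
      rw [Finset.sum_comm]
      refine Finset.sum_congr rfl fun a _ => Finset.sum_congr rfl fun b _ => ?_
      ring
    simp only [Finset.sum_add_distrib]
    rw [h6, ← Finset.mul_sum, two_mul]
    congr 1 <;>
    · refine Finset.sum_congr rfl fun a _ => Finset.sum_congr rfl fun b _ => ?_
      ring
  rw [h5, ← Finset.sum_sub_distrib]
  refine Finset.sum_congr rfl fun a _ => ?_
  rw [Finset.mul_sum, ← Finset.sum_sub_distrib]
  refine Finset.sum_congr rfl fun b _ => ?_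
  rw [Complex.normSq_sub, Complex.normSq_mul, Complex.normSq_mul]
  have h7 : g a * f b * conj (f a * g b) = (conj (f a) * g a) * conj (conj (f b) * g b) := by
    simp only [map_mul, Complex.conj_conj]
    ring
  rw [h7]
  ring

/-- the Wronskian of two edges -/
def ww {q : ℕ} (η η' : Fin q → ℂ) (a b : Fin q × Fin q) : ℂ :=
  (η' a.1 - η' a.2) * (η b.1 - η b.2) - (η a.1 - η a.2) * (η' b.1 - η' b.2)

/-- the double sum -/
noncomputable def LL {q : ℕ} (c : Fin q → Fin q → ℝ) (η η' : Fin q → ℂ) : ℝ :=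
  ∑ a : Fin q × Fin q, ∑ b : Fin q × Fin q,
    c a.1 a.2 * c b.1 b.2 * Complex.normSq (ww η η' a b)

theorem VV_eq {q : ℕ} (c : Fin q → Fin q → ℝ) (η η' : Fin q → ℂ) (h0 : QQ c η ≠ 0) :
    VV c η η' = LL c η η' / (2 * QQ c η ^ 2) := by
  have h1 := lagrange (fun a : Fin q × Fin q => c a.1 a.2) (fun a => η a.1 - η a.2)
    (fun a => η' a.1 - η' a.2)
  have h2 : ∀ ξ : Fin q → ℂ, ∑ a : Fin q × Fin q, c a.1 a.2 * Complex.normSq (ξ a.1 - ξ a.2) =
      QQ c ξ := fun ξ => by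
    rw [QQ, Fintype.sum_prod_type]
  have h3 : ∑ a : Fin q × Fin q, (c a.1 a.2 : ℂ) * (conj (η a.1 - η a.2) * (η' a.1 - η' a.2)) =
      ∑ u, ∑ v, (c u v : ℂ) * (conj (η u - η v) * (η' u - η' v)) := by
    rw [Fintype.sum_prod_type]
  rw [h2, h2, h3] at h1
  rw [LL]
  unfold ww
  rw [h1, VV]
  field_simp

theorem QQ_nonneg {q : ℕ} {c : Fin q → Fin q → ℝ} (hc : ∀ u v, 0 ≤ c u v) (η : Fin q → ℂ) :
    0 ≤ QQ c η :=
  Finset.sum_nonneg fun u _ => Finset.sum_nonneg fun v _ =>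
    mul_nonneg (hc u v) (Complex.normSq_nonneg _)

theorem QQ_mono {q : ℕ} {c c' : Fin q → Fin q → ℝ} (hc : ∀ u v, c u v ≤ c' u v) (η : Fin q → ℂ) :
    QQ c η ≤ QQ c' η :=
  Finset.sum_le_sum fun u _ => Finset.sum_le_sum fun v _ =>
    mul_le_mul_of_nonneg_right (hc u v) (Complex.normSq_nonneg _)

theorem LL_nonneg {q : ℕ} {c : Fin q → Fin q → ℝ} (hc : ∀ u v, 0 ≤ c u v) (η η' : Fin q → ℂ) :
    0 ≤ LL c η η' :=
  Finset.sum_nonneg fun a _ => Finset.sum_nonneg fun b _ =>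
    mul_nonneg (mul_nonneg (hc _ _) (hc _ _)) (Complex.normSq_nonneg _)

theorem VV_nonneg {q : ℕ} {c : Fin q → Fin q → ℝ} (hc : ∀ u v, 0 ≤ c u v) (η η' : Fin q → ℂ)
    (h0 : QQ c η ≠ 0) : 0 ≤ VV c η η' := by
  rw [VV_eq c η η' h0]
  exact div_nonneg (LL_nonneg hc η η') (by positivity)

theorem c1_nonneg {q : ℕ} (u v : Fin q) : 0 ≤ c1 q u v := zero_le_one

theorem cT_nonneg {q : ℕ} (S : Fin 3 ↪ Fin q) (u v : Fin q) : 0 ≤ cT S u v := by
  unfold cT
  split_ifs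
  · exact zero_le_one
  · exact le_rfl

theorem cT_le {q : ℕ} (S : Fin 3 ↪ Fin q) (u v : Fin q) : cT S u v ≤ 1 := by
  unfold cT
  split_ifs
  · exact le_rfl
  · exact zero_le_one

theorem QQ_cD {q : ℕ} (δ : ℝ) (S : Fin 3 ↪ Fin q) (η : Fin q → ℂ) :
    QQ (cD δ S) η = δ * QQ (c1 q) η + QQ (cT S) η := by
  unfold QQ cD c1
  rw [Finset.mul_sum, ← Finset.sum_add_distrib]
  refine Finset.sum_congr rfl fun u _ => ?_
  rw [Finset.mul_sum, ← Finset.sum_add_distrib]
  refine Finset.sum_congr rfl fun v _ => ?_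
  ring

theorem LL_cD_le {q : ℕ} {δ : ℝ} (hδ0 : 0 ≤ δ) (hδ1 : δ ≤ 1) (S : Fin 3 ↪ Fin q)
    (η η' : Fin q → ℂ) : LL (cD δ S) η η' ≤ LL (cT S) η η' + 3 * δ * LL (c1 q) η η' := by
  unfold LL
  rw [Finset.mul_sum, ← Finset.sum_add_distrib]
  refine Finset.sum_le_sum fun a _ => ?_
  rw [Finset.mul_sum, ← Finset.sum_add_distrib]
  refine Finset.sum_le_sum fun b _ => ?_
  have h1 := cT_nonneg S a.1 a.2
  have h2 := cT_nonneg S b.1 b.2
  have h3 := cT_le S a.1 a.2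
  have h4 := cT_le S b.1 b.2
  have h5 : cD δ S a.1 a.2 * cD δ S b.1 b.2 ≤ cT S a.1 a.2 * cT S b.1 b.2 + 3 * δ := by
    unfold cD
    nlinarith
  have h6 := mul_le_mul_of_nonneg_right h5 (Complex.normSq_nonneg (ww η η' a b))
  refine h6.trans (le_of_eq ?_)
  unfold c1
  ring

theorem LL_cD_le' {q : ℕ} {δ : ℝ} (hδ0 : 0 ≤ δ) (hδ1 : δ ≤ 1) (S : Fin 3 ↪ Fin q)
    (η η' : Fin q → ℂ) : LL (cD δ S) η η' ≤ 4 * LL (c1 q) η η' := by
  unfold LL
  rw [Finset.mul_sum]
  refine Finset.sum_le_sum fun a _ => ?_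
  rw [Finset.mul_sum]
  refine Finset.sum_le_sum fun b _ => ?_
  have h1 := cT_nonneg S a.1 a.2
  have h2 := cT_nonneg S b.1 b.2
  have h3 := cT_le S a.1 a.2
  have h4 := cT_le S b.1 b.2
  have h5 : cD δ S a.1 a.2 * cD δ S b.1 b.2 ≤ 4 := by
    unfold cD
    nlinarith
  have h6 := mul_le_mul_of_nonneg_right h5 (Complex.normSq_nonneg (ww η η' a b))
  refine h6.trans (le_of_eq ?_)
  unfold c1
  ring

theorem LL_c1_le {q : ℕ} {η η' : Fin q → ℂ} {M : ℝ}
    (hM : ∀ a b, Complex.normSq (ww η η' a b) ≤ M) : LL (c1 q) η η' ≤ (q : ℝ) ^ 4 * M := by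
  unfold LL
  have h1 : ∀ a ∈ (Finset.univ : Finset (Fin q × Fin q)), (∑ b : Fin q × Fin q,
      c1 q a.1 a.2 * c1 q b.1 b.2 * Complex.normSq (ww η η' a b)) ≤ (q : ℝ) ^ 2 * M := by
    intro a _
    have h2 : ∀ b ∈ (Finset.univ : Finset (Fin q × Fin q)),
        c1 q a.1 a.2 * c1 q b.1 b.2 * Complex.normSq (ww η η' a b) ≤ M := by
      intro b _
      unfold c1
      rw [one_mul, one_mul]
      exact hM a b
    refine (Finset.sum_le_card_nsmul _ _ _ h2).trans (le_of_eq ?_)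
    rw [Finset.card_univ, Fintype.card_prod, Fintype.card_fin, nsmul_eq_mul]
    push_cast
    ring
  refine (Finset.sum_le_card_nsmul _ _ _ h1).trans (le_of_eq ?_)
  rw [Finset.card_univ, Fintype.card_prod, Fintype.card_fin, nsmul_eq_mul]
  push_cast
  ring

end Pool.Agent.Lib.MP_44a246_ntMY
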