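import Pool.Agent.Lib.MP_44a246_ntMY.MY11

/-!
# (A1) The pointwise inequality: triangles
-/

namespace Pool.Agent.Lib.MP_44a246_ntMY

open WithZero Module Polynomial Filter Topology Asymptotics
open scoped ComplexConjugate

/-- a triangle -/
def tri {q : ℕ} (i j l : Fin q) (h1 : i ≠ j) (h2 : j ≠ l) (h3 : i ≠ l) : Fin 3 ↪ Fin q :=
  ⟨![i, j, l], by
    intro a b hab
    fin_cases a <;> fin_cases b <;> simp_all [Ne.symm h1, Ne.symm h2, Ne.symm h3]⟩

/-- four vertices -/
def quad {q : ℕ} (i j l v : Fin q) (h1 : i ≠ j) (h2 : j ≠ l) (h3 : i ≠ l) (h4 : i ≠ v)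
    (h5 : j ≠ v) (h6 : l ≠ v) : Fin 4 ↪ Fin q :=
  ⟨![i, j, l, v], by
    intro a b hab
    fin_cases a <;> fin_cases b <;>
      simp_all [Ne.symm h1, Ne.symm h2, Ne.symm h3, Ne.symm h4, Ne.symm h5, Ne.symm h6]⟩

theorem WW_tri {q : ℕ} (η η' : Fin q → ℂ) {i j l : Fin q} (h1 : i ≠ j) (h2 : j ≠ l)
    (h3 : i ≠ l) : WW η η' (tri i j l h1 h2 h3) =
      (η' i - η' j) * (η j - η l) - (η i - η j) * (η' j - η' l) := rfl

/-- the Wronskian of two edges is bounded by the Wronskians of the triangles -/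
theorem norm_ww_le {q : ℕ} {η η' : Fin q → ℂ} (hη : ∀ u v, u ≠ v → η u ≠ η v) {m : ℝ}
    (hm0 : 0 ≤ m) (hm : ∀ S : Fin 3 ↪ Fin q, ‖WW η η' S‖ ≤ m) (a b : Fin q × Fin q) :
    ‖ww η η' a b‖ ≤ 4 * m := by
  have hm4 : m ≤ 4 * m := by linarith
  -- adjacent edges
  have adj : ∀ i j l : Fin q, i ≠ j → j ≠ l → ‖ww η η' (i, j) (j, l)‖ ≤ m := by
    intro i j l h1 h2
    by_cases h3 : i = l
    · subst h3
      have : ww η η' (i, j) (j, i) = 0 := by
        unfold ww
        ring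
      rw [this, norm_zero]
      exact hm0
    · have h4 := hm (tri i j l h1 h2 h3)
      rw [WW_tri] at h4
      exact h4
  have sw1 : ∀ (i j : Fin q) (b : Fin q × Fin q), ‖ww η η' (i, j) b‖ = ‖ww η η' (j, i) b‖ := by
    intro i j b
    rw [← norm_neg (ww η η' (j, i) b)]
    congr 1
    unfold ww
    ring
  have sw2 : ∀ (a : Fin q × Fin q) (i j : Fin q), ‖ww η η' a (i, j)‖ = ‖ww η η' a (j, i)‖ := by
    intro a i j
    rw [← norm_neg (ww η η' a (j, i))]
    congr 1
    unfold ww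
    ring
  have sw : ∀ a b : Fin q × Fin q, ‖ww η η' a b‖ = ‖ww η η' b a‖ := by
    intro a b
    rw [← norm_neg (ww η η' b a)]
    congr 1
    unfold ww
    ring
  obtain ⟨i, j⟩ := a
  obtain ⟨k, l⟩ := b
  by_cases hij : i = j
  · subst hij
    have : ww η η' (i, i) (k, l) = 0 := by
      unfold ww
      ring
    rw [this, norm_zero]
    linarith
  by_cases hkl : k = l
  · subst hkl
    have : ww η η' (i, j) (k, k) = 0 := by
      unfold ww
      ring
    rw [this, norm_zero]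
    linarith
  by_cases hjk : j = k
  · subst hjk
    exact (adj i j l hij hkl).trans hm4
  by_cases hjl : j = l
  · subst hjl
    rw [sw2]
    exact (adj i j k hij (Ne.symm hkl)).trans hm4
  by_cases hik : i = k
  · subst hik
    rw [sw1]
    exact (adj j i l (Ne.symm hij) hkl).trans hm4
  by_cases hil : i = l
  · subst hil
    rw [sw1, sw2]
    exact (adj j i k (Ne.symm hij) (Ne.symm hkl)).trans hm4
  -- disjoint edges
  have dis : ∀ i j k l : Fin q, i ≠ j → k ≠ l → j ≠ k → j ≠ l → i ≠ k → i ≠ l →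
      ‖η k - η l‖ ≤ ‖η i - η j‖ → ‖ww η η' (i, j) (k, l)‖ ≤ 4 * m := by
    intro i j k l hij hkl hjk hjl hik hil hle
    have key : ∀ x y : Fin q, x ≠ y → (x = i ∧ y = j ∨ x = j ∧ y = i) → x ≠ k → x ≠ l →
        ‖η i - η j‖ ≤ 2 * ‖η x - η k‖ → ‖ww η η' (i, j) (k, l)‖ ≤ 4 * m := by
      intro x y hxy hxy' hxk hxl h1
      have h2 : ‖η x - η k‖ ≠ 0 := by
        rw [norm_ne_zero_iff, sub_ne_zero]
        exact hη x k hxk
      have h3 : (η x - η k) * ww η η' (x, y) (k, l) = (η k - η l) * ww η η' (x, y) (x, k) +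
          (η x - η y) * ww η η' (x, k) (k, l) := by
        unfold ww
        ring
      have h4 : ‖ww η η' (x, y) (k, l)‖ = ‖ww η η' (i, j) (k, l)‖ := by
        rcases hxy' with ⟨rfl, rfl⟩ | ⟨rfl, rfl⟩
        · rfl
        · exact sw1 _ _ _
      have h5 : ‖η x - η y‖ = ‖η i - η j‖ := by
        rcases hxy' with ⟨rfl, rfl⟩ | ⟨rfl, rfl⟩
        · rfl
        · exact norm_sub_rev _ _
      have h6 : ‖ww η η' (x, y) (x, k)‖ ≤ m := by
        rw [sw1]
        exact adj y x k (Ne.symm hxy) hxk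
      have h7 : ‖ww η η' (x, k) (k, l)‖ ≤ m := adj x k l hxk hkl
      have h8 : ‖η x - η k‖ * ‖ww η η' (i, j) (k, l)‖ ≤ ‖η x - η k‖ * (4 * m) := by
        rw [← h4, ← norm_mul, h3]
        refine (norm_add_le _ _).trans ?_
        rw [norm_mul, norm_mul, h5]
        have h9 : ‖η k - η l‖ * ‖ww η η' (x, y) (x, k)‖ ≤ (2 * ‖η x - η k‖) * m :=
          mul_le_mul (hle.trans h1) h6 (norm_nonneg _) (by positivity)
        have h10 : ‖η i - η j‖ * ‖ww η η' (x, k) (k, l)‖ ≤ (2 * ‖η x - η k‖) * m :=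
          mul_le_mul h1 h7 (norm_nonneg _) (by positivity)
        linarith
      exact le_of_mul_le_mul_left h8 (lt_of_le_of_ne (norm_nonneg _) (Ne.symm h2))
    have htri : ‖η i - η j‖ ≤ ‖η i - η k‖ + ‖η j - η k‖ := by
      have : η i - η j = (η i - η k) - (η j - η k) := by ring
      rw [this]
      exact norm_sub_le _ _
    rcases le_total ‖η j - η k‖ ‖η i - η k‖ with h | h
    · exact key i j hij (Or.inl ⟨rfl, rfl⟩) hik hil (by linarith)
    · exact key j i (Ne.symm hij) (Or.inr ⟨rfl, rfl⟩) hjk hjl (by linarith)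
  rcases le_total ‖η k - η l‖ ‖η i - η j‖ with h | h
  · exact dis i j k l hij hkl hjk hjl hik hil h
  · rw [sw]
    exact dis k l i j hkl hij (Ne.symm hil) (Ne.symm hjl) (Ne.symm hik) (Ne.symm hjk) h

theorem QQ_cT {q : ℕ} (S : Fin 3 ↪ Fin q) (η : Fin q → ℂ) :
    QQ (cT S) η = 2 * (Complex.normSq (η (S 0) - η (S 1)) + Complex.normSq (η (S 1) - η (S 2)) +
      Complex.normSq (η (S 2) - η (S 0))) := by
  have h1 : QQ (cT S) η = ∑ i : Fin 3, ∑ j : Fin 3, Complex.normSq (η (S i) - η (S j)) := by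
    unfold QQ
    refine (Fintype.sum_of_injective S S.injective _ _ ?_ ?_).symm
    · intro u hu
      refine Finset.sum_eq_zero fun v _ => ?_
      unfold cT
      rw [if_neg (fun h => hu h.1), zero_mul]
    · intro i
      refine Fintype.sum_of_injective S S.injective _ _ ?_ ?_
      · intro v hv
        unfold cT
        rw [if_neg (fun h => hv h.2), zero_mul]
      · intro j
        unfold cT
        rw [if_pos ⟨⟨i, rfl⟩, ⟨j, rfl⟩⟩, one_mul]
  have h2 : ∀ z w : ℂ, Complex.normSq (z - w) = Complex.normSq (w - z) := fun z w => by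
    rw [← Complex.normSq_neg, neg_sub]
  rw [h1]
  simp only [Fin.sum_univ_three, sub_self, Complex.normSq_zero]
  rw [h2 (η (S 1)) (η (S 0)), h2 (η (S 2)) (η (S 1)), h2 (η (S 0)) (η (S 2))]
  ring

/-- a far vertex -/
theorem exists_far {q : ℕ} (η : Fin q → ℂ) (i : Fin q) :
    ∃ v, QQ (c1 q) η ≤ 4 * (q : ℝ) ^ 2 * Complex.normSq (η v - η i) := by
  obtain ⟨v, -, hv⟩ := Finset.exists_max_image Finset.univ
    (fun v => Complex.normSq (η v - η i)) ⟨i, Finset.mem_univ i⟩
  refine ⟨v, ?_⟩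
  have h1 : ∀ u w : Fin q, c1 q u w * Complex.normSq (η u - η w) ≤
      4 * Complex.normSq (η v - η i) := by
    intro u w
    unfold c1
    have h2 : Complex.normSq (η u - η w) ≤ 2 * (Complex.normSq (η u - η i) +
        Complex.normSq (η w - η i)) := by
      simp only [Complex.normSq_apply, Complex.sub_re, Complex.sub_im]
      nlinarith [sq_nonneg ((η u).re - (η i).re + ((η w).re - (η i).re)),
        sq_nonneg ((η u).im - (η i).im + ((η w).im - (η i).im))]
    have h3 := hv u (Finset.mem_univ u)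
    have h4 := hv w (Finset.mem_univ w)
    linarith
  unfold QQ
  refine (Finset.sum_le_card_nsmul _ _ ((q : ℝ) * (4 * Complex.normSq (η v - η i)))
    fun u _ => ?_).trans (le_of_eq ?_)
  · refine (Finset.sum_le_card_nsmul _ _ _ fun w _ => h1 u w).trans (le_of_eq ?_)
    rw [Finset.card_univ, Fintype.card_fin, nsmul_eq_mul]
  · rw [Finset.card_univ, Fintype.card_fin, nsmul_eq_mul]
    ring

end Pool.Agent.Lib.MP_44a246_ntMY
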