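import Pool.Agent.Lib.MP_44a246_ntMY.MY12

/-!
# (A1) The pointwise inequality: real inequalities
-/

namespace Pool.Agent.Lib.MP_44a246_ntMY

open Real

/-- the exponent in terms of the real numbers: `J` product of the squares of the edges, `N` the sum of
all squares, `P` the sum of the squares of the edges of the triangle, `D = δ N + P` -/
noncomputable def rr (k ε J N P D : ℝ) : ℝ :=
  - (1 - k) * log J + (1 - k - ε) * log N + (1 - 2 * k) * log P - (1 - ε) * log D

/-- `exp (- R) ≤ 2 N²` -/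
theorem rr_ge {k ε J N P D : ℝ} (hk0 : 0 ≤ k) (hk1 : k ≤ 1 / 2) (hε0 : 0 ≤ ε) (hε1 : ε ≤ 1)
    (hJ : 0 < J) (hP : 0 < P) (hN : 0 < N) (hJP : J ≤ P ^ 3) (hPN : P ≤ N) (hD : 0 < D)
    (hDN : D ≤ 2 * N) : - log 2 - 2 * log N ≤ rr k ε J N P D := by
  have h1 : log J ≤ 3 * log P := by
    rw [← log_rpow hP]
    refine log_le_log hJ ?_
    exact_mod_cast hJP
  have h2 : log P ≤ log N := log_le_log hP hPN
  have h3 : log D ≤ log 2 + log N := by
    rw [← log_mul (by norm_num) hN.ne']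
    exact log_le_log hD hDN
  have h4 : 0 < log 2 := log_pos (by norm_num)
  unfold rr
  have h5 : (1 - k) * log J ≤ (1 - k) * (3 * log P) := mul_le_mul_of_nonneg_left h1 (by linarith)
  have h6 : (1 - ε) * log D ≤ (1 - ε) * (log 2 + log N) :=
    mul_le_mul_of_nonneg_left h3 (by linarith)
  have h7 : (2 - k) * log P ≤ (2 - k) * log N := mul_le_mul_of_nonneg_left h2 (by linarith)
  have h8 : 0 ≤ ε * log 2 := mul_nonneg hε0 h4.le
  nlinarith

/-- the comparison of the two triangles with a common short edge -/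
theorem rr_compare {k ε δ N m A B V G : ℝ} (hk0 : 0 ≤ k) (hk1 : k ≤ 1) (hε0 : 0 < ε)
    (hε1 : ε ≤ 1) (hδ : 0 < δ) (hN : 0 < N) (hm : 0 < m) (hA : 0 < A) (hB : 0 < B)
    (hV : 0 < V) (hmV : 100 * m ≤ V) (hG1 : 81 / 100 * V ≤ G) (hG2 : G ≤ 121 / 100 * V)
    (hAm : A ≤ m) (hBm : B ≤ m)
    (hbig : exp (5 / ε) * (2 * (m + A + B)) ≤ 2 * (m + G + V)) :
    rr k ε (m * A * B) N (2 * (m + A + B)) (δ * N + 2 * (m + A + B)) + log (m * A * B) -
      (rr k ε (m * G * V) N (2 * (m + G + V)) (δ * N + 2 * (m + G + V)) + log (m * G * V)) ≤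
      - log 16 := by
  have hG : 0 < G := by linarith
  have hPT : 0 < 2 * (m + A + B) := by positivity
  have hPS : 0 < 2 * (m + G + V) := by positivity
  have hDT : 0 < δ * N + 2 * (m + A + B) := by positivity
  have hDS : 0 < δ * N + 2 * (m + G + V) := by positivity
  have hle : 2 * (m + A + B) ≤ 2 * (m + G + V) := by linarith
  -- `D_S / D_T ≤ P_S / P_T`
  have h1 : log (δ * N + 2 * (m + G + V)) - log (δ * N + 2 * (m + A + B)) ≤
      log (2 * (m + G + V)) - log (2 * (m + A + B)) := by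
    rw [← log_div hDS.ne' hDT.ne', ← log_div hPS.ne' hPT.ne']
    refine log_le_log (div_pos hDS hDT) ?_
    rw [div_le_div_iff₀ hDT hPT]
    have h2 : δ * N * (2 * (m + A + B)) ≤ δ * N * (2 * (m + G + V)) :=
      mul_le_mul_of_nonneg_left hle (by positivity)
    nlinarith
  have h3 : 5 / ε ≤ log (2 * (m + G + V)) - log (2 * (m + A + B)) := by
    have h4 := log_le_log (by positivity) hbig
    rw [log_mul (exp_pos _).ne' hPT.ne', log_exp] at h4
    linarith
  have h5 : 5 ≤ ε * (log (2 * (m + G + V)) - log (2 * (m + A + B))) := by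
    have h6 := mul_le_mul_of_nonneg_left h3 hε0.le
    rwa [mul_div_cancel₀ _ hε0.ne'] at h6
  -- the ratio of `J / P²`
  have h7 : (log (m * A * B) - 2 * log (2 * (m + A + B))) -
      (log (m * G * V) - 2 * log (2 * (m + G + V))) ≤ log 2 := by
    have h8 : log (m * A * B) + 2 * log (2 * (m + G + V)) ≤
        log 2 + (log (m * G * V) + 2 * log (2 * (m + A + B))) := by
      have e1 : 2 * log (2 * (m + G + V)) = log ((2 * (m + G + V)) ^ 2) := by
        rw [log_pow]
        norm_num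
      have e2 : 2 * log (2 * (m + A + B)) = log ((2 * (m + A + B)) ^ 2) := by
        rw [log_pow]
        norm_num
      rw [e1, e2, ← log_mul (by positivity) (by positivity), ← log_mul (by positivity)
        (by positivity), ← log_mul (by norm_num) (by positivity)]
      refine log_le_log (by positivity) ?_
      have h9 : A * B * (m + G + V) ^ 2 ≤ 2 * (G * V * (m + A + B) ^ 2) := by
        have g1 : 4 * (A * B) ≤ (m + A + B) ^ 2 := by nlinarith [sq_nonneg (A - B)]
        have g2 : (m + G + V) ^ 2 ≤ (222 / 100 * V) ^ 2 := by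
          refine pow_le_pow_left₀ (by positivity) ?_ 2
          linarith
        have g3 : (222 / 100 * V) ^ 2 ≤ 8 * (G * V) := by nlinarith
        have g4 : (m + G + V) ^ 2 ≤ 8 * (G * V) := g2.trans g3
        have g5 : A * B * (m + G + V) ^ 2 ≤ A * B * (8 * (G * V)) :=
          mul_le_mul_of_nonneg_left g4 (by positivity)
        have g6 : 4 * (A * B) * (2 * (G * V)) ≤ (m + A + B) ^ 2 * (2 * (G * V)) :=
          mul_le_mul_of_nonneg_right g1 (by positivity)
        nlinarith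
      nlinarith [mul_le_mul_of_nonneg_left h9 hm.le]
    linarith
  have h10 : log 16 = 4 * log 2 := by
    rw [show (16 : ℝ) = 2 ^ 4 by norm_num, log_pow]
    norm_num
  have h11 : log 2 < 1 := by
    have := log_two_lt_d9
    linarith
  have h12 : 0 < log 2 := log_pos (by norm_num)
  have h13 := mul_le_mul_of_nonneg_left h7 hk0
  have h14 := mul_le_mul_of_nonneg_left h1 (show (0 : ℝ) ≤ 1 - ε by linarith)
  have h15 : k * log 2 ≤ log 2 := by nlinarith
  unfold rr
  nlinarith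

/-- the bound of the maximum in the second case -/
theorem rr_mul_le {k ε δ J N P : ℝ} (hε1 : ε ≤ 1) (hδ0 : 0 < δ) (hδ1 : δ ≤ 1) (hJ : 0 < J)
    (hN : 0 < N) (hP : 0 < P) (hε0 : 0 ≤ ε) :
    rr k ε J N P (δ * N + P) + log J ≤ - log δ + log P + k * log (J / (P ^ 2 * N)) := by
  have h1 : log δ + log N ≤ log (δ * N + P) := by
    rw [← log_mul hδ0.ne' hN.ne']
    exact log_le_log (by positivity) (by linarith)
  have h2 : log (J / (P ^ 2 * N)) = log J - 2 * log P - log N := by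
    rw [log_div hJ.ne' (by positivity), log_mul (by positivity) hN.ne', log_pow]
    push_cast
    ring
  have h3 := mul_le_mul_of_nonneg_left h1 (show (0 : ℝ) ≤ 1 - ε by linarith)
  have h4 : log δ ≤ 0 := log_nonpos hδ0.le hδ1
  have h5 : 0 ≤ ε * (- log δ) := mul_nonneg hε0 (by linarith)
  rw [h2]
  unfold rr
  nlinarith

theorem uu_le {y ρ : ℝ} (hy : 0 < y) (hρ : 0 < ρ) (h1 : ρ ≤ y) (h2 : ρ ≤ y⁻¹) :
    uu y ≤ 2 * log 2 - log ρ := by
  unfold uu
  rw [← log_mul (by positivity) (by positivity)]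
  have h3 : 2 * log 2 - log ρ = log (4 / ρ) := by
    rw [log_div (by norm_num) hρ.ne', show (4 : ℝ) = 2 ^ 2 by norm_num, log_pow]
    norm_num
  rw [h3]
  refine log_le_log (by positivity) ?_
  have h4 : (1 + y) * (1 + y⁻¹) = 2 + y + y⁻¹ := by
    field_simp
    ring
  rw [h4]
  have hρ1 : ρ ≤ 1 := by
    rcases le_total y 1 with h | h
    · exact h1.trans h
    · exact h2.trans (inv_le_one_of_one_le₀ h)
  have h5 : y ≤ ρ⁻¹ := by
    rw [le_inv_comm₀ hy hρ]
    exact h2
  have h6 : y⁻¹ ≤ ρ⁻¹ := inv_anti₀ hρ h1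
  have h7 : 1 ≤ ρ⁻¹ := (one_le_inv₀ hρ).2 hρ1
  rw [div_eq_mul_inv]
  linarith

theorem uu_nonneg {y : ℝ} (hy : 0 < y) : 0 ≤ uu y := by
  unfold uu
  have h1 : 0 ≤ log (1 + y) := log_nonneg (by linarith)
  have h2 : 0 ≤ log (1 + y⁻¹) := log_nonneg (by linarith [inv_pos.2 hy])
  linarith

/-- the factor `ρ^k` is small compared with the logarithm -/
theorem exp_mul_le {k y ρ : ℝ} (hk0 : 0 < k) (hy : 0 < y) (hρ : 0 < ρ) (h1 : ρ ≤ y)
    (h2 : ρ ≤ y⁻¹) : exp (k * log ρ) * (1 + uu y) ^ 2 ≤ (3 + 2 / k) ^ 2 := by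
  have h3 := uu_le hy hρ h1 h2
  have h4 := uu_nonneg hy
  have h5 : log 2 < 1 := by
    have := log_two_lt_d9
    linarith
  have hρ1 : ρ ≤ 1 := by
    rcases le_total y 1 with h | h
    · exact h1.trans h
    · exact h2.trans (inv_le_one_of_one_le₀ h)
  obtain ⟨s, hs⟩ : ∃ s, s = - log ρ := ⟨_, rfl⟩
  have hs0 : 0 ≤ s := by
    have := log_nonpos hρ.le hρ1
    linarith
  have h6 : 1 + uu y ≤ 3 + s := by
    have h7 : uu y ≤ 2 * log 2 + s := by linarith
    linarith
  have h6' : 1 + uu y ≤ (3 + 2 / k) * exp (k * s / 2) := by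
    have h8 : 1 + k * s / 2 ≤ exp (k * s / 2) := by
      have := add_one_le_exp (k * s / 2)
      linarith
    have h9 : (3 + 2 / k) * (1 + k * s / 2) ≤ (3 + 2 / k) * exp (k * s / 2) :=
      mul_le_mul_of_nonneg_left h8 (by positivity)
    have h10 : (3 + 2 / k) * (1 + k * s / 2) = 3 + 2 / k + 3 * k * s / 2 + s := by
      field_simp
      ring
    have h11 : 0 ≤ 2 / k := by positivity
    have h12 : 0 ≤ 3 * k * s / 2 := by positivity
    have h13 : (3 : ℝ) ≤ 4 := by norm_num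
    nlinarith
  have h14 : (1 + uu y) ^ 2 ≤ ((3 + 2 / k) * exp (k * s / 2)) ^ 2 :=
    pow_le_pow_left₀ (by linarith) h6' 2
  have h15 : exp (k * log ρ) * ((3 + 2 / k) * exp (k * s / 2)) ^ 2 = (3 + 2 / k) ^ 2 := by
    rw [mul_pow, ← exp_nat_mul, mul_left_comm, ← exp_add, hs]
    have : k * log ρ + ((2 : ℕ) : ℝ) * (k * - log ρ / 2) = 0 := by
      push_cast
      ring
    rw [this, exp_zero, mul_one]
  calc exp (k * log ρ) * (1 + uu y) ^ 2 ≤ exp (k * log ρ) * ((3 + 2 / k) * exp (k * s / 2)) ^ 2 :=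
        mul_le_mul_of_nonneg_left h14 (exp_pos _).le
    _ = _ := h15

end Pool.Agent.Lib.MP_44a246_ntMY
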