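import Pool.Agent.Lib.MP_44a246_ntMY.MY13

/-!
# (A1) The pointwise inequality: the second case
-/

namespace Pool.Agent.Lib.MP_44a246_ntMY

open Real

theorem RR_eq {q : ℕ} (k ε δ : ℝ) (η : Fin q → ℂ) (S : Fin 3 ↪ Fin q) :
    RR k ε δ η S = rr k ε (JJ η S) (QQ (c1 q) η) (QQ (cT S) η)
      (δ * QQ (c1 q) η + QQ (cT S) η) := by
  unfold RR rr
  rw [QQ_cD]

theorem normSq_pos' {q : ℕ} {η : Fin q → ℂ} (hη : ∀ u v, u ≠ v → η u ≠ η v) {u v : Fin q}
    (h : u ≠ v) : 0 < Complex.normSq (η u - η v) := by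
  rw [Complex.normSq_pos, sub_ne_zero]
  exact hη u v h

/-- the identity for the logarithmic derivative of the cross ratio -/
theorem dchi_eq {q : ℕ} {η η' : Fin q → ℂ} (hη : ∀ u v, u ≠ v → η u ≠ η v) {i j l v : Fin q}
    (h1 : i ≠ j) (h2 : j ≠ l) (h3 : i ≠ l) (h4 : i ≠ v) (h5 : j ≠ v) (h6 : l ≠ v) :
    dchi η η' (quad i j l v h1 h2 h3 h4 h5 h6) = (η i - η j) *
      (WW η η' (tri i j l h1 h2 h3) / ((η i - η j) * (η j - η l) * (η l - η i)) -
        WW η η' (tri i j v h1 h5 h4) / ((η i - η j) * (η j - η v) * (η v - η i))) := by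
  have e0 : dchi η η' (quad i j l v h1 h2 h3 h4 h5 h6) =
      (η' j - η' l) / (η j - η l) + (η' v - η' i) / (η v - η i) -
      (η' l - η' i) / (η l - η i) - (η' j - η' v) / (η j - η v) := rfl
  rw [e0, WW_tri, WW_tri]
  have g1 : η i - η j ≠ 0 := sub_ne_zero.2 (hη _ _ h1)
  have g2 : η j - η l ≠ 0 := sub_ne_zero.2 (hη _ _ h2)
  have g3 : η l - η i ≠ 0 := sub_ne_zero.2 (hη _ _ (Ne.symm h3))
  have g4 : η v - η i ≠ 0 := sub_ne_zero.2 (hη _ _ (Ne.symm h4))
  have g5 : η j - η v ≠ 0 := sub_ne_zero.2 (hη _ _ h5)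
  field_simp
  ring

/-- the second case: the edge `(i, j)` is the longest edge of the triangle, and the triangle is
small -/
theorem second_case {q : ℕ} {k ε δ : ℝ} (hk0 : 0 < k) (hk1 : k ≤ 1) (hε0 : 0 < ε) (hε1 : ε ≤ 1 / 8)
    (hδ0 : 0 < δ) (hδ1 : δ ≤ 1) {η η' : Fin q → ℂ} (hη : ∀ u v, u ≠ v → η u ≠ η v)
    {i j l : Fin q} (h1 : i ≠ j) (h2 : j ≠ l) (h3 : i ≠ l)
    (hA : Complex.normSq (η j - η l) ≤ Complex.normSq (η i - η j))
    (hB : Complex.normSq (η l - η i) ≤ Complex.normSq (η i - η j))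
    (hdom : ∀ S : Fin 3 ↪ Fin q, EE k ε δ η η' S ≤ EE k ε δ η η' (tri i j l h1 h2 h3))
    (hbig : 2 * ((q : ℝ) + 1) ^ 2 * exp (5 / ε) * QQ (cT (tri i j l h1 h2 h3)) η <
      QQ (c1 q) η) :
    ∃ f : Fin 4 ↪ Fin q, EE k ε δ η η' (tri i j l h1 h2 h3) ≤
      12 / δ * (3 + 2 / k) ^ 2 * Al η η' f := by
  obtain ⟨N, hN⟩ : ∃ N, N = QQ (c1 q) η := ⟨_, rfl⟩
  obtain ⟨v, hv⟩ := exists_far η i
  obtain ⟨m, hm⟩ : ∃ m, m = Complex.normSq (η i - η j) := ⟨_, rfl⟩
  obtain ⟨A, hA'⟩ : ∃ A, A = Complex.normSq (η j - η l) := ⟨_, rfl⟩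
  obtain ⟨B, hB'⟩ : ∃ B, B = Complex.normSq (η l - η i) := ⟨_, rfl⟩
  obtain ⟨V, hV'⟩ : ∃ V, V = Complex.normSq (η v - η i) := ⟨_, rfl⟩
  obtain ⟨G, hG'⟩ : ∃ G, G = Complex.normSq (η j - η v) := ⟨_, rfl⟩
  have hm0 : 0 < m := by rw [hm]; exact normSq_pos' hη h1
  have hA0 : 0 < A := by rw [hA']; exact normSq_pos' hη h2
  have hB0 : 0 < B := by rw [hB']; exact normSq_pos' hη (Ne.symm h3)
  have hAm : A ≤ m := by rw [hA', hm]; exact hA
  have hBm : B ≤ m := by rw [hB', hm]; exact hB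
  have hP : QQ (cT (tri i j l h1 h2 h3)) η = 2 * (m + A + B) := by
    rw [QQ_cT, hm, hA', hB']
    rfl
  have hJ : JJ η (tri i j l h1 h2 h3) = m * A * B := by
    rw [hm, hA', hB']
    rfl
  have hPN : 2 * (m + A + B) ≤ N := by
    rw [← hP, hN]
    exact QQ_mono (fun u v => cT_le _ u v) η
  have hN0 : 0 < N := by linarith
  rw [hP, ← hN] at hbig
  rw [← hN, ← hV'] at hv
  have hexp : 100 ≤ exp (5 / ε) := by
    have g1 : 5 / ε ≥ 40 := by
      rw [ge_iff_le, le_div_iff₀ hε0]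
      linarith
    have g2 := add_one_le_exp (5 / ε / 2)
    have g3 : exp (5 / ε) = exp (5 / ε / 2) * exp (5 / ε / 2) := by
      rw [← exp_add]
      congr 1
      ring
    have g4 : (21 : ℝ) ≤ exp (5 / ε / 2) := by linarith
    rw [g3]
    calc (100 : ℝ) ≤ 21 * 21 := by norm_num
      _ ≤ _ := mul_le_mul g4 g4 (by norm_num) (exp_pos _).le
  have hq0 : (0 : ℝ) ≤ q := Nat.cast_nonneg q
  have hq1 : (1 : ℝ) ≤ ((q : ℝ) + 1) ^ 2 := one_le_pow₀ (by linarith)
  -- `N < exp .. ` : the comparison of `P` and `V`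
  have hc1 : exp (5 / ε) * (2 * (m + A + B)) < 2 * V := by
    have g1 : 4 * (q : ℝ) ^ 2 * V ≤ 4 * ((q : ℝ) + 1) ^ 2 * V := by
      have hV0 : 0 ≤ V := by rw [hV']; exact Complex.normSq_nonneg _
      have h' : (q : ℝ) ^ 2 ≤ ((q : ℝ) + 1) ^ 2 := pow_le_pow_left₀ hq0 (by linarith) 2
      have h'' := mul_le_mul_of_nonneg_right h' hV0
      linarith
    have g2 : ((q : ℝ) + 1) ^ 2 * (exp (5 / ε) * (2 * (m + A + B))) <
        ((q : ℝ) + 1) ^ 2 * (2 * V) := by linarith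
    exact lt_of_mul_lt_mul_left g2 (by positivity)
  have hPpos : 0 < 2 * (m + A + B) := by positivity
  have hmV : 100 * m ≤ V := by
    have h' := mul_le_mul hexp (show 2 * m ≤ 2 * (m + A + B) by linarith) (by positivity)
      (exp_pos (5 / ε)).le
    linarith
  have hV0 : 0 < V := by linarith
  have h4 : i ≠ v := by
    intro h
    rw [← h, sub_self, Complex.normSq_zero] at hV'
    linarith
  have h5 : j ≠ v := by
    intro h
    rw [← h, ← neg_sub, Complex.normSq_neg, ← hm] at hV'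
    linarith
  have h6 : l ≠ v := by
    intro h
    rw [← h, ← hB'] at hV'
    linarith
  -- the bounds for `G`
  have hnm : Real.sqrt m = ‖η i - η j‖ := by
    rw [hm, Complex.normSq_eq_norm_sq, Real.sqrt_sq (norm_nonneg _)]
  have hmn : m = ‖η i - η j‖ ^ 2 := by rw [hm, Complex.normSq_eq_norm_sq]
  have hVn : V = ‖η v - η i‖ ^ 2 := by rw [hV', Complex.normSq_eq_norm_sq]
  have hGn : G = ‖η j - η v‖ ^ 2 := by rw [hG', Complex.normSq_eq_norm_sq]
  have hsm : 10 * ‖η i - η j‖ ≤ ‖η v - η i‖ := by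
    refine le_of_sq_le_sq ?_ (norm_nonneg _)
    rw [mul_pow, ← hmn, ← hVn]
    linarith
  have hlow : 9 / 10 * ‖η v - η i‖ ≤ ‖η j - η v‖ := by
    have g1 : ‖η v - η i‖ ≤ ‖η j - η v‖ + ‖η i - η j‖ := by
      have : η v - η i = -((η j - η v) + (η i - η j)) := by ring
      rw [this, norm_neg]
      exact norm_add_le _ _
    linarith
  have hup : ‖η j - η v‖ ≤ 11 / 10 * ‖η v - η i‖ := by
    have g1 : ‖η j - η v‖ ≤ ‖η v - η i‖ + ‖η i - η j‖ := by
      have : η j - η v = -((η v - η i) + (η i - η j)) := by ring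
      rw [this, norm_neg]
      exact norm_add_le _ _
    linarith
  have hG1 : 81 / 100 * V ≤ G := by
    rw [hVn, hGn]
    have := pow_le_pow_left₀ (by positivity) hlow 2
    rw [mul_pow] at this
    linarith
  have hG2 : G ≤ 121 / 100 * V := by
    rw [hVn, hGn]
    have := pow_le_pow_left₀ (norm_nonneg _) hup 2
    rw [mul_pow] at this
    linarith
  have hG0 : 0 < G := by linarith
  -- the second triangle
  have hPS : QQ (cT (tri i j v h1 h5 h4)) η = 2 * (m + G + V) := by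
    rw [QQ_cT, hm, hG', hV']
    rfl
  have hJS : JJ η (tri i j v h1 h5 h4) = m * G * V := by
    rw [hm, hG', hV']
    rfl
  have hcmp := rr_compare (N := N) hk0.le hk1 hε0 (by linarith) hδ0 hN0 hm0 hA0 hB0 hV0 hmV hG1 hG2
    hAm hBm (by linarith)
  have hRT : RR k ε δ η (tri i j l h1 h2 h3) =
      rr k ε (m * A * B) N (2 * (m + A + B)) (δ * N + 2 * (m + A + B)) := by
    rw [RR_eq, hJ, hP, hN]
  have hRS : RR k ε δ η (tri i j v h1 h5 h4) =
      rr k ε (m * G * V) N (2 * (m + G + V)) (δ * N + 2 * (m + G + V)) := by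
    rw [RR_eq, hJS, hPS, hN]
  rw [← hRT, ← hRS] at hcmp
  -- the quotients
  obtain ⟨UT, hUT⟩ : ∃ U, U = WW η η' (tri i j l h1 h2 h3) /
      ((η i - η j) * (η j - η l) * (η l - η i)) := ⟨_, rfl⟩
  obtain ⟨US, hUS⟩ : ∃ U, U = WW η η' (tri i j v h1 h5 h4) /
      ((η i - η j) * (η j - η v) * (η v - η i)) := ⟨_, rfl⟩
  have hJT0 : 0 < m * A * B := by positivity
  have hJS0 : 0 < m * G * V := by positivity
  have hWT : Complex.normSq (WW η η' (tri i j l h1 h2 h3)) = Complex.normSq UT * (m * A * B) := by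
    rw [hUT, Complex.normSq_div, Complex.normSq_mul, Complex.normSq_mul, ← hm, ← hA', ← hB',
      div_mul_cancel₀ _ hJT0.ne']
  have hWS : Complex.normSq (WW η η' (tri i j v h1 h5 h4)) = Complex.normSq US * (m * G * V) := by
    rw [hUS, Complex.normSq_div, Complex.normSq_mul, Complex.normSq_mul, ← hm, ← hG', ← hV',
      div_mul_cancel₀ _ hJS0.ne']
  have hET : EE k ε δ η η' (tri i j l h1 h2 h3) =
      Complex.normSq UT * exp (RR k ε δ η (tri i j l h1 h2 h3) + log (m * A * B)) := by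
    rw [EE, hWT, exp_add, exp_log hJT0]
    ring
  have hES : EE k ε δ η η' (tri i j v h1 h5 h4) =
      Complex.normSq US * exp (RR k ε δ η (tri i j v h1 h5 h4) + log (m * G * V)) := by
    rw [EE, hWS, exp_add, exp_log hJS0]
    ring
  have hU : Complex.normSq US ≤ Complex.normSq UT / 16 := by
    have g1 := hdom (tri i j v h1 h5 h4)
    rw [hET, hES] at g1
    have g2 : exp (RR k ε δ η (tri i j l h1 h2 h3) + log (m * A * B)) ≤
        exp (RR k ε δ η (tri i j v h1 h5 h4) + log (m * G * V)) / 16 := by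
      have g3 : exp (RR k ε δ η (tri i j v h1 h5 h4) + log (m * G * V)) / 16 =
          exp (RR k ε δ η (tri i j v h1 h5 h4) + log (m * G * V) - log 16) := by
        rw [exp_sub, exp_log (by norm_num : (0 : ℝ) < 16)]
      rw [g3, exp_le_exp]
      linarith
    have g4 := mul_le_mul_of_nonneg_left g2 (Complex.normSq_nonneg UT)
    have g5 : Complex.normSq US * exp (RR k ε δ η (tri i j v h1 h5 h4) + log (m * G * V)) ≤
        Complex.normSq UT / 16 *
          exp (RR k ε δ η (tri i j v h1 h5 h4) + log (m * G * V)) := by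
      refine g1.trans (g4.trans (le_of_eq ?_))
      ring
    exact le_of_mul_le_mul_right g5 (exp_pos _)
  have hU2 : Complex.normSq UT ≤ 2 * Complex.normSq (UT - US) := by
    have g1 : ‖US‖ ≤ ‖UT‖ / 4 := by
      refine le_of_sq_le_sq ?_ (by positivity)
      rw [div_pow, ← Complex.normSq_eq_norm_sq, ← Complex.normSq_eq_norm_sq]
      linarith
    have g2 : ‖UT‖ ≤ ‖UT - US‖ + ‖US‖ := by
      have : UT = (UT - US) + US := by ring
      calc ‖UT‖ = ‖(UT - US) + US‖ := by rw [← this]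
        _ ≤ _ := norm_add_le _ _
    have g3 : ‖UT‖ ≤ 4 / 3 * ‖UT - US‖ := by linarith
    have g4 := pow_le_pow_left₀ (norm_nonneg _) g3 2
    rw [mul_pow, ← Complex.normSq_eq_norm_sq, ← Complex.normSq_eq_norm_sq] at g4
    have g5 := Complex.normSq_nonneg (UT - US)
    linarith
  refine ⟨quad i j l v h1 h2 h3 h4 h5 h6, ?_⟩
  have hd : Complex.normSq (dchi η η' (quad i j l v h1 h2 h3 h4 h5 h6)) =
      m * Complex.normSq (UT - US) := by
    rw [dchi_eq hη, Complex.normSq_mul, ← hm, hUT, hUS]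
  obtain ⟨y, hy⟩ : ∃ y, y = Complex.normSq (chi η (quad i j l v h1 h2 h3 h4 h5 h6)) := ⟨_, rfl⟩
  have hy' : y = A * V / (B * G) := by
    rw [hy, hA', hV', hB', hG', ← Complex.normSq_mul, ← Complex.normSq_mul, ← Complex.normSq_div]
    rfl
  have hy0 : 0 < y := by rw [hy']; positivity
  obtain ⟨ρ, hρ⟩ : ∃ ρ, ρ = m * A * B / ((2 * (m + A + B)) ^ 2 * N) := ⟨_, rfl⟩
  have hρ0 : 0 < ρ := by rw [hρ]; positivity
  have hden : 8 * m ^ 3 ≤ (2 * (m + A + B)) ^ 2 * N := by
    have g1 : (2 * m) ^ 2 ≤ (2 * (m + A + B)) ^ 2 :=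
      pow_le_pow_left₀ (by positivity) (by linarith) 2
    have g2 : 2 * m ≤ N := by linarith
    have g3 : (2 * m) ^ 2 * (2 * m) ≤ (2 * (m + A + B)) ^ 2 * N :=
      mul_le_mul g1 g2 (by positivity) (by positivity)
    linarith
  have hρ1 : ρ ≤ y := by
    rw [hρ, hy', div_le_div_iff₀ (by positivity) (by positivity)]
    have g1 : m * A * B * (B * G) ≤ A * V * (8 * m ^ 3) := by
      have g2 : B * B ≤ m * m := mul_le_mul hBm hBm hB0.le hm0.le
      have g3 : m * A * (B * B) * G ≤ m * A * (m * m) * (121 / 100 * V) :=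
        mul_le_mul (mul_le_mul_of_nonneg_left g2 (by positivity)) hG2 hG0.le (by positivity)
      have g4 : 0 ≤ m * A * (m * m) * V := by positivity
      linarith
    exact g1.trans (mul_le_mul_of_nonneg_left hden (by positivity))
  have hρ2 : ρ ≤ y⁻¹ := by
    rw [hρ, hy', inv_div, div_le_div_iff₀ (by positivity) (by positivity)]
    have g1 : m * A * B * (A * V) ≤ B * G * (8 * m ^ 3) := by
      have g2 : A * A ≤ m * m := mul_le_mul hAm hAm hA0.le hm0.le
      have g3 : m * B * V * (A * A) ≤ m * B * V * (m * m) :=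
        mul_le_mul_of_nonneg_left g2 (by positivity)
      have g4 : B * m ^ 3 * (81 / 100 * V) ≤ B * m ^ 3 * G :=
        mul_le_mul_of_nonneg_left hG1 (by positivity)
      have g5 : 0 ≤ B * m ^ 3 * V := by positivity
      linarith
    exact g1.trans (mul_le_mul_of_nonneg_left hden (by positivity))
  have hkey := exp_mul_le hk0 hy0 hρ0 hρ1 hρ2
  have huu : 0 < (1 + uu y) ^ 2 := by
    have := uu_nonneg hy0
    positivity
  have hbd := rr_mul_le (k := k) (ε := ε) (δ := δ) (J := m * A * B) (N := N)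
    (P := 2 * (m + A + B)) (by linarith) hδ0 hδ1 hJT0 hN0 hPpos hε0.le
  rw [← hRT, ← hρ] at hbd
  have hE1 : exp (RR k ε δ η (tri i j l h1 h2 h3) + log (m * A * B)) ≤
      6 * m / δ * exp (k * log ρ) := by
    refine (exp_le_exp.2 hbd).trans ?_
    rw [exp_add, exp_add, exp_neg, exp_log hδ0, exp_log hPpos]
    have g1 : δ⁻¹ * (2 * (m + A + B)) ≤ 6 * m / δ := by
      rw [div_eq_mul_inv, mul_comm δ⁻¹]
      refine mul_le_mul_of_nonneg_right (by linarith) (by positivity)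
    exact mul_le_mul_of_nonneg_right g1 (exp_pos _).le
  rw [hET]
  have hAl : Al η η' (quad i j l v h1 h2 h3 h4 h5 h6) =
      m * Complex.normSq (UT - US) / (1 + uu y) ^ 2 := by
    rw [Al, hd, hy]
  rw [hAl]
  have hE2 : exp (k * log ρ) ≤ (3 + 2 / k) ^ 2 / (1 + uu y) ^ 2 := by
    rw [le_div_iff₀ huu]
    exact hkey
  have hUTn := Complex.normSq_nonneg UT
  have hUn := Complex.normSq_nonneg (UT - US)
  calc Complex.normSq UT * exp (RR k ε δ η (tri i j l h1 h2 h3) + log (m * A * B))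
      ≤ (2 * Complex.normSq (UT - US)) * (6 * m / δ * ((3 + 2 / k) ^ 2 / (1 + uu y) ^ 2)) := by
        refine mul_le_mul hU2 (hE1.trans ?_) (exp_pos _).le (by positivity)
        exact mul_le_mul_of_nonneg_left hE2 (by positivity)
    _ = 12 / δ * (3 + 2 / k) ^ 2 * (m * Complex.normSq (UT - US) / (1 + uu y) ^ 2) := by
        field_simp
        ring

end Pool.Agent.Lib.MP_44a246_ntMY
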