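import Mathlib

/-!
# Second order jets of functions of a complex parameter

`JetR l f f0 A B c`: along the filter `l ≤ 𝓝 0` of parameters `s` the real function `f` has the
expansion `f s = f0 + 2 Re (A s) + Re (B s^2) + c |s|^2 + O(|s|^3)`. So `c` is a quarter of the
Laplacian. `JetC l f f0 f1 f2`: the complex function `f` has the expansion
`f s = f0 + f1 s + f2 s^2 + O(|s|^3)`.
-/

set_option autoImplicit false

open Filter Topology Asymptotics Complex ComplexConjugate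

namespace Pool.Agent.Lib.MP_44a246_ntMY

/-- second order jets of real functions -/
def JetR (l : Filter ℂ) (f : ℂ → ℝ) (f0 : ℝ) (A B : ℂ) (c : ℝ) : Prop :=
  (fun s => f s - (f0 + 2 * (A * s).re + (B * s ^ 2).re + c * ‖s‖ ^ 2)) =O[l] (fun s => ‖s‖ ^ 3)

/-- second order jets of complex functions -/
def JetC (l : Filter ℂ) (f : ℂ → ℂ) (f0 f1 f2 : ℂ) : Prop :=
  (fun s => f s - (f0 + f1 * s + f2 * s ^ 2)) =O[l] (fun s => ‖s‖ ^ 3)

section aux

variable {l : Filter ℂ}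

lemma id_isBigO (l : Filter ℂ) : (fun s : ℂ => s) =O[l] (fun s => ‖s‖) :=
  (isBigO_refl _ _).norm_right

lemma pow_isBigO_one (hl : l ≤ 𝓝 0) (k : ℕ) : (fun s : ℂ => ‖s‖ ^ k) =O[l] (fun _ => (1 : ℝ)) := by
  have h : Tendsto (fun s : ℂ => ‖s‖ ^ k) l (𝓝 (‖(0 : ℂ)‖ ^ k)) :=
    (((continuous_norm.pow k).tendsto 0).mono_left hl)
  exact h.isBigO_one ℝ

lemma pow_isBigO_pow (hl : l ≤ 𝓝 0) {j k : ℕ} (h : j ≤ k) :
    (fun s : ℂ => ‖s‖ ^ k) =O[l] (fun s => ‖s‖ ^ j) := by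
  obtain ⟨m, rfl⟩ := Nat.exists_eq_add_of_le h
  have h1 := (isBigO_refl (fun s : ℂ => ‖s‖ ^ j) l).mul (pow_isBigO_one hl m)
  simpa [pow_add] using h1

lemma norm_re_le (z : ℂ) : ‖z.re‖ ≤ ‖z‖ := by
  rw [Real.norm_eq_abs]; exact Complex.abs_re_le_norm z

lemma IsBigO.re' {f : ℂ → ℂ} {g : ℂ → ℝ} (h : f =O[l] g) : (fun s => (f s).re) =O[l] g :=
  (IsBigO.of_norm_le (fun s => norm_re_le (f s))).trans h.norm_left

end aux

section JetR

variable {l : Filter ℂ} {f g : ℂ → ℝ} {f0 g0 : ℝ} {A B A' B' : ℂ} {c c' : ℝ}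

lemma JetR.congr {f0' c0' : ℝ} {A0' B0' : ℂ} (h : JetR l f f0 A B c) (h1 : f0 = f0') (h2 : A = A0')
    (h3 : B = B0') (h4 : c = c0') : JetR l f f0' A0' B0' c0' := by
  subst h1 h2 h3 h4
  exact h

lemma JetR.congr_fun (h : JetR l f f0 A B c) (hg : f =ᶠ[l] g) : JetR l g f0 A B c := by
  refine IsBigO.congr' h ?_ (EventuallyEq.refl _ _)
  filter_upwards [hg] with s hs
  rw [hs]

lemma JetR.mono {l' : Filter ℂ} (h : JetR l f f0 A B c) (hl : l' ≤ l) : JetR l' f f0 A B c :=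
  IsBigO.mono h hl

lemma jetR_const (l : Filter ℂ) (r : ℝ) : JetR l (fun _ => r) r 0 0 0 := by
  unfold JetR
  simp only [zero_mul, Complex.zero_re, mul_zero, add_zero, sub_self]
  exact isBigO_zero _ _

lemma JetR.add (hf : JetR l f f0 A B c) (hg : JetR l g g0 A' B' c') :
    JetR l (fun s => f s + g s) (f0 + g0) (A + A') (B + B') (c + c') := by
  unfold JetR at *
  refine (IsBigO.add hf hg).congr_left (fun s => ?_)
  simp only [add_mul, Complex.add_re]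
  ring

lemma JetR.const_mul (r : ℝ) (hf : JetR l f f0 A B c) :
    JetR l (fun s => r * f s) (r * f0) (r * A) (r * B) (r * c) := by
  unfold JetR at *
  refine (hf.const_mul_left r).congr_left (fun s => ?_)
  simp only [mul_assoc, Complex.re_ofReal_mul]
  ring

lemma JetR.neg (hf : JetR l f f0 A B c) : JetR l (fun s => - f s) (-f0) (-A) (-B) (-c) := by
  have h := hf.const_mul (-1)
  simpa using h

lemma JetR.sub (hf : JetR l f f0 A B c) (hg : JetR l g g0 A' B' c') :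
    JetR l (fun s => f s - g s) (f0 - g0) (A - A') (B - B') (c - c') := by
  have h := hf.add hg.neg
  simpa [sub_eq_add_neg] using h

lemma JetR.sum {ι : Type*} (S : Finset ι) (f : ι → ℂ → ℝ) (f0 : ι → ℝ) (A B : ι → ℂ) (c : ι → ℝ)
    (h : ∀ i ∈ S, JetR l (f i) (f0 i) (A i) (B i) (c i)) :
    JetR l (fun s => ∑ i ∈ S, f i s) (∑ i ∈ S, f0 i) (∑ i ∈ S, A i) (∑ i ∈ S, B i)
      (∑ i ∈ S, c i) := by
  classical
  induction S using Finset.induction_on with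
  | empty => simpa using jetR_const l 0
  | insert a S ha ih =>
    have h1 := (h a (Finset.mem_insert_self a S)).add
      (ih (fun i hi => h i (Finset.mem_insert_of_mem hi)))
    simpa [Finset.sum_insert ha] using h1

/-- the first order part -/
lemma JetR.sub_const_isBigO (hl : l ≤ 𝓝 0) (hf : JetR l f f0 A B c) :
    (fun s => f s - f0) =O[l] (fun s => ‖s‖) := by
  have h1 : (fun s : ℂ => ‖s‖ ^ 3) =O[l] (fun s => ‖s‖ ^ 1) := pow_isBigO_pow hl (by norm_num)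
  have h2 : (fun s : ℂ => ‖s‖ ^ 2) =O[l] (fun s => ‖s‖ ^ 1) := pow_isBigO_pow hl (by norm_num)
  have h3 : (fun s : ℂ => 2 * (A * s).re) =O[l] (fun s => ‖s‖) :=
    (IsBigO.re' ((id_isBigO l).const_mul_left A)).const_mul_left 2
  have h4 : (fun s : ℂ => (B * s ^ 2).re) =O[l] (fun s => ‖s‖) := by
    have h5 : (fun s : ℂ => s ^ 2) =O[l] (fun s => ‖s‖ ^ 1) := by
      refine (IsBigO.of_norm_le (fun s => ?_)).trans h2
      rw [norm_pow]
    have h6 := IsBigO.re' (h5.const_mul_left B)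
    simpa using h6
  have h7 : (fun s : ℂ => c * ‖s‖ ^ 2) =O[l] (fun s => ‖s‖) := by
    have := h2.const_mul_left c
    simpa using this
  have h8 : (fun s => f s - (f0 + 2 * (A * s).re + (B * s ^ 2).re + c * ‖s‖ ^ 2)) =O[l]
      (fun s => ‖s‖) := by
    have := IsBigO.trans hf h1
    simpa using this
  refine (((h8.add h3).add h4).add h7).congr_left (fun s => ?_)
  ring

lemma JetR.tendsto (hl : l ≤ 𝓝 0) (hf : JetR l f f0 A B c) : Tendsto f l (𝓝 f0) := by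
  have h1 : Tendsto (fun s : ℂ => ‖s‖) l (𝓝 0) := by
    have h := (continuous_norm.tendsto (0 : ℂ)).mono_left hl
    simpa using h
  have h2 := (hf.sub_const_isBigO hl).trans_tendsto h1
  have h3 := h2.add_const f0
  simpa using h3

/-- the chain rule: `φ` has a second order Taylor expansion at `f0` -/
lemma JetR.comp (hl : l ≤ 𝓝 0) (hf : JetR l f f0 A B c) {φ : ℝ → ℝ} {φ0 φ1 φ2 : ℝ}
    (hφ : (fun x => φ x - (φ0 + φ1 * (x - f0) + φ2 * (x - f0) ^ 2)) =O[𝓝 f0]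
      (fun x => (x - f0) ^ 3)) :
    JetR l (fun s => φ (f s)) φ0 (φ1 * A) (φ1 * B + 2 * φ2 * A ^ 2)
      (φ1 * c + 2 * φ2 * ‖A‖ ^ 2) := by
  have h0 := hf.sub_const_isBigO hl
  -- remainder of `φ`
  have h1 : (fun s => φ (f s) - (φ0 + φ1 * (f s - f0) + φ2 * (f s - f0) ^ 2)) =O[l]
      (fun s => ‖s‖ ^ 3) :=
    (IsBigO.comp_tendsto hφ (hf.tendsto hl)).trans (h0.pow 3)
  -- linear term
  have h2 : (fun s => φ1 * (f s - (f0 + 2 * (A * s).re + (B * s ^ 2).re + c * ‖s‖ ^ 2))) =O[l]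
      (fun s => ‖s‖ ^ 3) := IsBigO.const_mul_left hf φ1
  -- quadratic term
  have hA : (fun s : ℂ => 2 * (A * s).re) =O[l] (fun s => ‖s‖) :=
    (IsBigO.re' ((id_isBigO l).const_mul_left A)).const_mul_left 2
  have h3 : (fun s => (f s - f0) - 2 * (A * s).re) =O[l] (fun s => ‖s‖ ^ 2) := by
    have h4 : (fun s : ℂ => (B * s ^ 2).re) =O[l] (fun s => ‖s‖ ^ 2) := by
      have h5 : (fun s : ℂ => s ^ 2) =O[l] (fun s => ‖s‖ ^ 2) :=
        IsBigO.of_norm_le (fun s => by rw [norm_pow])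
      exact IsBigO.re' (h5.const_mul_left B)
    have h7 : (fun s : ℂ => c * ‖s‖ ^ 2) =O[l] (fun s => ‖s‖ ^ 2) :=
      (isBigO_refl _ _).const_mul_left c
    have h8 : (fun s => f s - (f0 + 2 * (A * s).re + (B * s ^ 2).re + c * ‖s‖ ^ 2)) =O[l]
        (fun s => ‖s‖ ^ 2) := IsBigO.trans hf (pow_isBigO_pow hl (by norm_num))
    refine ((h8.add h4).add h7).congr_left (fun s => ?_)
    ring
  have h4 : (fun s => (f s - f0) ^ 2 - (2 * (A * s).re) ^ 2) =O[l] (fun s => ‖s‖ ^ 3) := by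
    have h5 : (fun s => (f s - f0) + 2 * (A * s).re) =O[l] (fun s => ‖s‖) := h0.add hA
    refine ((h3.mul h5).congr_left (fun s => ?_)).congr_right (fun s => ?_)
    · ring
    · ring
  have h5 : (fun s => φ2 * ((f s - f0) ^ 2 - (2 * (A * s).re) ^ 2)) =O[l] (fun s => ‖s‖ ^ 3) :=
    h4.const_mul_left φ2
  unfold JetR
  refine ((h1.add h2).add h5).congr_left (fun s => ?_)
  have e1 : (2 * (A * s).re) ^ 2 = 2 * (A ^ 2 * s ^ 2).re + 2 * (‖A‖ ^ 2 * ‖s‖ ^ 2) := by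
    have h6 : ‖A‖ ^ 2 * ‖s‖ ^ 2 = ‖A * s‖ ^ 2 := by rw [norm_mul, mul_pow]
    rw [h6, ← mul_pow]
    generalize A * s = z
    rw [Complex.sq_norm, Complex.normSq_apply, pow_two z, Complex.mul_re]
    ring
  have e2 : ((φ1 : ℂ) * A * s).re = φ1 * (A * s).re := by
    rw [mul_assoc, Complex.re_ofReal_mul]
  have e3 : (((φ1 : ℂ) * B + 2 * (φ2 : ℂ) * A ^ 2) * s ^ 2).re =
      φ1 * (B * s ^ 2).re + 2 * φ2 * (A ^ 2 * s ^ 2).re := by
    have h7 : ((φ1 : ℂ) * B + 2 * (φ2 : ℂ) * A ^ 2) * s ^ 2 =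
        (φ1 : ℂ) * (B * s ^ 2) + ((2 * φ2 : ℝ) : ℂ) * (A ^ 2 * s ^ 2) := by
      push_cast
      ring
    rw [h7, Complex.add_re, Complex.re_ofReal_mul, Complex.re_ofReal_mul]
  rw [e1, e2, e3]
  ring

/-- second order test -/
lemma JetR.nonpos_of_le (hf : JetR (𝓝[≠] 0) f f0 A B c) (h : ∀ᶠ s in 𝓝[≠] (0 : ℂ), f s ≤ f0) :
    c ≤ 0 := by
  by_contra hc
  rw [not_le] at hc
  obtain ⟨C, hC⟩ := hf.bound
  have h1 := h.and hC
  rw [eventually_nhdsWithin_iff, Metric.eventually_nhds_iff] at h1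
  obtain ⟨ε, hε, h1⟩ := h1
  -- a small real number
  have hC' : 0 < |C| + 1 := by positivity
  set x : ℝ := min (ε / 2) (c / (2 * (|C| + 1))) with hx
  have hx0 : 0 < x := lt_min (by positivity) (by positivity)
  have hxε : x < ε := lt_of_le_of_lt (min_le_left _ _) (by linarith)
  have hxc : x ≤ c / (2 * (|C| + 1)) := min_le_right _ _
  have key : ∀ u : ℂ, ‖u‖ = 1 → f0 + 2 * (A * (x * u)).re + (B * (x * u) ^ 2).re + c * x ^ 2 -
      C * x ^ 3 ≤ f0 := by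
    intro u hu
    have hn : ‖(x : ℂ) * u‖ = x := by
      rw [norm_mul, hu, mul_one, Complex.norm_real, Real.norm_eq_abs, abs_of_pos hx0]
    have hne : (x : ℂ) * u ≠ 0 := by
      intro h0
      rw [h0, norm_zero] at hn
      linarith
    obtain ⟨h2, h3⟩ := h1 (y := (x : ℂ) * u) (by rw [dist_zero_right, hn]; exact hxε) hne
    rw [hn, Real.norm_eq_abs, Real.norm_eq_abs, abs_of_pos (pow_pos hx0 3)] at h3
    have h4 := (abs_le.1 h3).1
    linarith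
  have k1 := key 1 (by simp)
  have k2 := key (-1) (by simp)
  have k3 := key I (by simp)
  have k4 := key (-I) (by simp)
  have e1 : (A * (x * 1)).re + (A * (x * (-1))).re = 0 := by
    rw [← Complex.add_re]
    have : A * (x * 1) + A * (x * (-1)) = 0 := by ring
    rw [this, Complex.zero_re]
  have e2 : (A * (x * I)).re + (A * (x * (-I))).re = 0 := by
    rw [← Complex.add_re]
    have : A * (x * I) + A * (x * (-I)) = 0 := by ring
    rw [this, Complex.zero_re]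
  have e3 : (B * (x * 1) ^ 2).re + (B * (x * I) ^ 2).re = 0 := by
    rw [← Complex.add_re]
    have : B * (x * 1) ^ 2 + B * (x * I) ^ 2 = 0 := by
      rw [mul_pow, mul_pow, Complex.I_sq]; ring
    rw [this, Complex.zero_re]
  have e4 : (B * (x * (-1)) ^ 2).re + (B * (x * (-I)) ^ 2).re = 0 := by
    rw [← Complex.add_re]
    have : B * (x * (-1)) ^ 2 + B * (x * (-I)) ^ 2 = 0 := by
      have h5 : (-I) ^ 2 = -1 := by rw [neg_sq, Complex.I_sq]
      rw [mul_pow, mul_pow, h5]; ring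
    rw [this, Complex.zero_re]
  have h5 : c * x ^ 2 ≤ C * x ^ 3 := by linarith
  have h6 : C * x ≤ c / 2 := by
    have h7 : C * x ≤ (|C| + 1) * x :=
      mul_le_mul_of_nonneg_right (by linarith [le_abs_self C]) hx0.le
    have h8 : (|C| + 1) * x ≤ (|C| + 1) * (c / (2 * (|C| + 1))) :=
      mul_le_mul_of_nonneg_left hxc hC'.le
    have h9 : (|C| + 1) * (c / (2 * (|C| + 1))) = c / 2 := by
      field_simp
    linarith
  have h7 : C * x ^ 3 = (C * x) * x ^ 2 := by ring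
  have h8 : (C * x) * x ^ 2 ≤ c / 2 * x ^ 2 := mul_le_mul_of_nonneg_right h6 (by positivity)
  have h9 : 0 < c * x ^ 2 := by positivity
  linarith

end JetR

section log

variable {l : Filter ℂ} {f : ℂ → ℝ} {f0 : ℝ} {A B : ℂ} {c : ℝ}

/-- Taylor expansion of the logarithm -/
lemma log_taylor {x : ℝ} (hx : 0 < x) :
    (fun y => Real.log y - (Real.log x + x⁻¹ * (y - x) + (-(x⁻¹ ^ 2 / 2)) * (y - x) ^ 2))
      =O[𝓝 x] (fun y => (y - x) ^ 3) := by
  refine IsBigO.of_bound (2 * x⁻¹ ^ 3) ?_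
  have h1 : ∀ᶠ y in 𝓝 x, |y - x| < x / 2 := by
    have := Metric.ball_mem_nhds x (half_pos hx)
    filter_upwards [this] with y hy
    simpa [Metric.mem_ball, Real.dist_eq] using hy
  filter_upwards [h1] with y hy
  have hy0 : 0 < y := by
    have := (abs_lt.1 hy).1
    linarith
  set z : ℝ := -((y - x) * x⁻¹) with hz
  have hzabs : |z| ≤ 1 / 2 := by
    rw [hz, abs_neg, abs_mul, abs_inv, abs_of_pos hx]
    calc |y - x| * x⁻¹ ≤ (x / 2) * x⁻¹ := mul_le_mul_of_nonneg_right hy.le (by positivity)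
      _ = 1 / 2 := by field_simp
  have hz1 : 1 - z = y * x⁻¹ := by
    rw [hz]; field_simp; ring
  have hlog : Real.log (1 - z) = Real.log y - Real.log x := by
    rw [hz1, Real.log_mul hy0.ne' (by positivity), Real.log_inv]; ring
  have h2 := Real.abs_log_sub_add_sum_range_le (x := z) (by linarith) 2
  rw [hlog, Finset.sum_range_succ, Finset.sum_range_one] at h2
  have h3 : |z| ^ (2 + 1) / (1 - |z|) ≤ 2 * |z| ^ 3 := by
    rw [div_le_iff₀ (by linarith)]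
    have h30 : 0 ≤ |z| ^ 3 * (1 - 2 * |z|) := mul_nonneg (by positivity) (by linarith)
    have h31 : |z| ^ (2 + 1) = |z| ^ 3 := rfl
    rw [h31]
    linarith
  have h4 : Real.log y - (Real.log x + x⁻¹ * (y - x) + (-(x⁻¹ ^ 2 / 2)) * (y - x) ^ 2) =
      z ^ (0 + 1) / ((0 : ℕ) + 1) + z ^ (1 + 1) / ((1 : ℕ) + 1) +
        (Real.log y - Real.log x) := by
    rw [hz]; push_cast; ring
  rw [Real.norm_eq_abs, Real.norm_eq_abs, h4]
  have h5 : |z| ^ 3 = x⁻¹ ^ 3 * |(y - x) ^ 3| := by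
    rw [hz, abs_neg, abs_mul, mul_pow, abs_pow, abs_inv, abs_of_pos hx]; ring
  calc |z ^ (0 + 1) / ((0 : ℕ) + 1) + z ^ (1 + 1) / ((1 : ℕ) + 1) +
        (Real.log y - Real.log x)| ≤ |z| ^ (2 + 1) / (1 - |z|) := by
          convert h2 using 2
      _ ≤ 2 * |z| ^ 3 := h3
      _ = 2 * x⁻¹ ^ 3 * |(y - x) ^ 3| := by rw [h5]; ring

lemma JetR.log (hl : l ≤ 𝓝 0) (hf : JetR l f f0 A B c) (h0 : 0 < f0) :
    JetR l (fun s => Real.log (f s)) (Real.log f0) (A / f0) (B / f0 - (A / f0) ^ 2)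
      (c / f0 - ‖A‖ ^ 2 / f0 ^ 2) := by
  refine (hf.comp hl (log_taylor h0)).congr rfl ?_ ?_ ?_
  · push_cast
    rw [inv_mul_eq_div]
  · push_cast
    ring
  · ring

end log

section normSq

variable {l : Filter ℂ} {f : ℂ → ℂ} {f0 f1 f2 : ℂ}

lemma JetC.sub_const_isBigO (hl : l ≤ 𝓝 0) (hf : JetC l f f0 f1 f2) :
    (fun s => f s - f0) =O[l] (fun s => ‖s‖) := by
  have h1 : (fun s : ℂ => ‖s‖ ^ 3) =O[l] (fun s => ‖s‖ ^ 1) := pow_isBigO_pow hl (by norm_num)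
  have h2 : (fun s : ℂ => ‖s‖ ^ 2) =O[l] (fun s => ‖s‖ ^ 1) := pow_isBigO_pow hl (by norm_num)
  have h3 : (fun s : ℂ => f1 * s) =O[l] (fun s => ‖s‖) := (id_isBigO l).const_mul_left f1
  have h4 : (fun s : ℂ => f2 * s ^ 2) =O[l] (fun s => ‖s‖) := by
    have h5 : (fun s : ℂ => s ^ 2) =O[l] (fun s => ‖s‖ ^ 1) := by
      refine (IsBigO.of_norm_le (fun s => ?_)).trans h2
      rw [norm_pow]
    have h6 := h5.const_mul_left f2
    simpa using h6
  have h8 : (fun s => f s - (f0 + f1 * s + f2 * s ^ 2)) =O[l] (fun s => ‖s‖) := by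
    have := IsBigO.trans hf h1
    simpa using this
  refine ((h8.add h3).add h4).congr_left (fun s => ?_)
  ring

lemma JetC.tendsto (hl : l ≤ 𝓝 0) (hf : JetC l f f0 f1 f2) : Tendsto f l (𝓝 f0) := by
  have h1 : Tendsto (fun s : ℂ => ‖s‖) l (𝓝 0) := by
    have h := (continuous_norm.tendsto (0 : ℂ)).mono_left hl
    simpa using h
  have h2 := (hf.sub_const_isBigO hl).trans_tendsto h1
  have h3 := h2.add_const f0
  simpa using h3

/-- the square of the absolute value -/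
lemma JetC.normSq (hl : l ≤ 𝓝 0) (hf : JetC l f f0 f1 f2) :
    JetR l (fun s => ‖f s‖ ^ 2) (‖f0‖ ^ 2) (conj f0 * f1) (2 * (conj f0 * f2)) (‖f1‖ ^ 2) := by
  -- `f = P + R`, `P = f0 + f1 s + f2 s^2`
  have hP : (fun s : ℂ => f0 + f1 * s + f2 * s ^ 2) =O[l] (fun _ => (1 : ℝ)) := by
    have h : Tendsto (fun s : ℂ => f0 + f1 * s + f2 * s ^ 2) l
        (𝓝 (f0 + f1 * 0 + f2 * 0 ^ 2)) := by
      have hc : Continuous (fun s : ℂ => f0 + f1 * s + f2 * s ^ 2) := by fun_prop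
      exact (hc.tendsto 0).mono_left hl
    exact h.isBigO_one ℝ
  have hR : (fun s => f s - (f0 + f1 * s + f2 * s ^ 2)) =O[l] (fun s => ‖s‖ ^ 3) := hf
  have hf1 : (fun s => f s) =O[l] (fun _ => (1 : ℝ)) := (hf.tendsto hl).isBigO_one ℝ
  -- first difference
  have h1 : (fun s => ‖f s‖ ^ 2 - ‖f0 + f1 * s + f2 * s ^ 2‖ ^ 2) =O[l] (fun s => ‖s‖ ^ 3) := by
    have h2 : (fun s => ‖f s‖ - ‖f0 + f1 * s + f2 * s ^ 2‖) =O[l] (fun s => ‖s‖ ^ 3) := by
      refine (IsBigO.of_norm_le (fun s => ?_)).trans hR.norm_left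
      rw [Real.norm_eq_abs]
      exact abs_norm_sub_norm_le _ _
    have h3 : (fun s => ‖f s‖ + ‖f0 + f1 * s + f2 * s ^ 2‖) =O[l] (fun _ => (1 : ℝ)) :=
      hf1.norm_left.add hP.norm_left
    refine ((h2.mul h3).congr_left (fun s => ?_)).congr_right (fun s => ?_)
    · ring
    · ring
  -- the polynomial part: cross terms of order at least three
  have h4 : (fun s : ℂ => ‖f0 + f1 * s + f2 * s ^ 2‖ ^ 2 - (‖f0‖ ^ 2 + 2 * (conj f0 * f1 * s).re +
      (2 * (conj f0 * f2) * s ^ 2).re + ‖f1‖ ^ 2 * ‖s‖ ^ 2)) =O[l] (fun s => ‖s‖ ^ 3) := by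
    have e : ∀ s : ℂ, ‖f0 + f1 * s + f2 * s ^ 2‖ ^ 2 - (‖f0‖ ^ 2 + 2 * (conj f0 * f1 * s).re +
      (2 * (conj f0 * f2) * s ^ 2).re + ‖f1‖ ^ 2 * ‖s‖ ^ 2) =
        2 * (conj (f1 * s) * (f2 * s ^ 2)).re + ‖f2 * s ^ 2‖ ^ 2 := by
      intro s
      have e1 : ‖f1‖ ^ 2 * ‖s‖ ^ 2 = ‖f1 * s‖ ^ 2 := by rw [norm_mul, mul_pow]
      have e2 : conj f0 * f1 * s = conj f0 * (f1 * s) := by ring
      have e3 : 2 * (conj f0 * f2) * s ^ 2 = ((2 : ℝ) : ℂ) * (conj f0 * (f2 * s ^ 2)) := by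
        push_cast; ring
      rw [e1, e2, e3, Complex.re_ofReal_mul]
      generalize f1 * s = a
      generalize f2 * s ^ 2 = b
      simp only [Complex.sq_norm, Complex.normSq_apply, Complex.add_re, Complex.add_im,
        Complex.mul_re, Complex.conj_re, Complex.conj_im]
      ring
    refine IsBigO.congr_left ?_ (fun s => (e s).symm)
    have h5 : (fun s : ℂ => conj (f1 * s) * (f2 * s ^ 2)) =O[l] (fun s => ‖s‖ ^ 3) := by
      refine IsBigO.of_bound (‖f1‖ * ‖f2‖) (Eventually.of_forall (fun s => ?_))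
      rw [norm_mul, Complex.norm_conj, norm_mul, norm_mul, norm_pow, norm_pow, norm_norm]
      exact le_of_eq (by ring)
    have h6 : (fun s : ℂ => ‖f2 * s ^ 2‖ ^ 2) =O[l] (fun s => ‖s‖ ^ 3) := by
      have h7 : (fun s : ℂ => ‖s‖ ^ 4) =O[l] (fun s => ‖s‖ ^ 3) :=
        pow_isBigO_pow hl (by norm_num)
      refine (h7.const_mul_left (‖f2‖ ^ 2)).congr_left (fun s => ?_)
      rw [norm_mul, norm_pow]; ring
    exact (IsBigO.const_mul_left (IsBigO.re' h5) 2).add h6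
  unfold JetR
  refine (h1.add h4).congr_left (fun s => ?_)
  ring

/-- the logarithm of the square of the absolute value is harmonic -/
lemma JetC.log_normSq (hl : l ≤ 𝓝 0) (hf : JetC l f f0 f1 f2) (h0 : f0 ≠ 0) :
    ∃ B, JetR l (fun s => Real.log (‖f s‖ ^ 2)) (Real.log (‖f0‖ ^ 2)) (f1 / f0) B 0 := by
  have hpos : 0 < ‖f0‖ := norm_pos_iff.2 h0
  refine ⟨_, ((hf.normSq hl).log hl (by positivity)).congr rfl ?_ rfl ?_⟩
  · have h1 : ((‖f0‖ ^ 2 : ℝ) : ℂ) = conj f0 * f0 := by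
      rw [Complex.conj_mul']; push_cast; rfl
    rw [h1]
    have h2 : conj f0 ≠ 0 := by simpa using h0
    field_simp
  · rw [norm_mul, Complex.norm_conj]
    field_simp
    ring

end normSq

section sums

variable {l : Filter ℂ} {ι : Type*}

/-- the quarter of the Laplacian of `log ∑ w |h|^2`, expressed by the Wronskians -/
noncomputable def VW (S : Finset ι) (w : ι → ℝ) (h h' : ι → ℂ) : ℝ :=
  (∑ a ∈ S, ∑ b ∈ S, w a * w b * ‖h' a * h b - h a * h' b‖ ^ 2) /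
    (2 * (∑ a ∈ S, w a * ‖h a‖ ^ 2) ^ 2)

lemma lagrange21 (S : Finset ι) (w : ι → ℝ) (h h' : ι → ℂ) :
    ∑ a ∈ S, ∑ b ∈ S, w a * w b * ‖h' a * h b - h a * h' b‖ ^ 2 =
      2 * ((∑ a ∈ S, w a * ‖h' a‖ ^ 2) * (∑ a ∈ S, w a * ‖h a‖ ^ 2) -
        ‖∑ a ∈ S, (w a : ℂ) * (conj (h a) * h' a)‖ ^ 2) := by
  have e1 : ∀ a b, w a * w b * ‖h' a * h b - h a * h' b‖ ^ 2 =
      (w a * ‖h' a‖ ^ 2) * (w b * ‖h b‖ ^ 2) + (w a * ‖h a‖ ^ 2) * (w b * ‖h' b‖ ^ 2) -
        2 * (((w a : ℂ) * (conj (h a) * h' a)) * conj ((w b : ℂ) * (conj (h b) * h' b))).re := by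
    intro a b
    simp only [Complex.sq_norm, Complex.normSq_apply, Complex.sub_re, Complex.sub_im,
      Complex.mul_re, Complex.mul_im, map_mul, Complex.conj_re, Complex.conj_im,
      Complex.conj_ofReal, Complex.ofReal_re, Complex.ofReal_im]
    ring
  have e2 : ‖∑ a ∈ S, (w a : ℂ) * (conj (h a) * h' a)‖ ^ 2 =
      ∑ a ∈ S, ∑ b ∈ S,
        (((w a : ℂ) * (conj (h a) * h' a)) * conj ((w b : ℂ) * (conj (h b) * h' b))).re := by
    rw [Complex.sq_norm]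
    have : ((Complex.normSq (∑ a ∈ S, (w a : ℂ) * (conj (h a) * h' a)) : ℝ) : ℂ) =
        ∑ a ∈ S, ∑ b ∈ S,
        (((w a : ℂ) * (conj (h a) * h' a)) * conj ((w b : ℂ) * (conj (h b) * h' b))) := by
      rw [← Complex.mul_conj, map_sum, Finset.sum_mul_sum]
    have h3 := congrArg Complex.re this
    rw [Complex.ofReal_re] at h3
    rw [h3, Complex.re_sum]
    refine Finset.sum_congr rfl (fun a _ => ?_)
    rw [Complex.re_sum]
  rw [e2]
  simp_rw [e1]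
  simp only [Finset.sum_sub_distrib, Finset.sum_add_distrib, ← Finset.mul_sum, ← Finset.sum_mul]
  ring

/-- the jet of `log ∑ w |h|^2` -/
lemma jetR_log_sum (hl : l ≤ 𝓝 0) (S : Finset ι) (w : ι → ℝ) (h : ι → ℂ → ℂ)
    (h0 h1 h2 : ι → ℂ) (hh : ∀ a ∈ S, JetC l (h a) (h0 a) (h1 a) (h2 a))
    (hpos : 0 < ∑ a ∈ S, w a * ‖h0 a‖ ^ 2) :
    ∃ A B, JetR l (fun s => Real.log (∑ a ∈ S, w a * ‖h a s‖ ^ 2))
      (Real.log (∑ a ∈ S, w a * ‖h0 a‖ ^ 2)) A B (VW S w h0 h1) := by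
  have hs := JetR.sum S (fun a s => w a * ‖h a s‖ ^ 2) _ _ _ _
    (fun a ha => JetR.const_mul (w a) ((hh a ha).normSq hl))
  refine ⟨_, _, (hs.log hl hpos).congr rfl rfl rfl ?_⟩
  unfold VW
  rw [lagrange21]
  have hne := hpos.ne'
  field_simp

end sums

section more

variable {l : Filter ℂ}

lemma JetC.congr {f : ℂ → ℂ} {f0 f1 f2 f0' f1' f2' : ℂ} (h : JetC l f f0 f1 f2) (h0 : f0 = f0')
    (h1 : f1 = f1') (h2 : f2 = f2') : JetC l f f0' f1' f2' := by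
  subst h0 h1 h2
  exact h

lemma JetC.sub {f g : ℂ → ℂ} {f0 f1 f2 g0 g1 g2 : ℂ} (h : JetC l f f0 f1 f2)
    (h' : JetC l g g0 g1 g2) : JetC l (fun s => f s - g s) (f0 - g0) (f1 - g1) (f2 - g2) := by
  unfold JetC at *
  refine (IsBigO.sub h h').congr_left (fun s => ?_)
  ring

lemma quad_isBigO_one (hl : l ≤ 𝓝 0) (g0 g1 g2 : ℂ) :
    (fun s : ℂ => g0 + g1 * s + g2 * s ^ 2) =O[l] (fun _ => (1 : ℝ)) := by
  have h : Tendsto (fun s : ℂ => g0 + g1 * s + g2 * s ^ 2) l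
      (𝓝 (g0 + g1 * 0 + g2 * 0 ^ 2)) := by
    have hc : Continuous (fun s : ℂ => g0 + g1 * s + g2 * s ^ 2) := by fun_prop
    exact (hc.tendsto 0).mono_left hl
  exact h.isBigO_one ℝ

lemma cubic_isBigO (hl : l ≤ 𝓝 0) (a b : ℂ) :
    (fun s : ℂ => a * s ^ 3 + b * s ^ 4) =O[l] (fun s => ‖s‖ ^ 3) := by
  have h3 : (fun s : ℂ => s ^ 3) =O[l] (fun s => ‖s‖ ^ 3) :=
    IsBigO.of_norm_le (fun s => by rw [norm_pow])
  have h4 : (fun s : ℂ => s ^ 4) =O[l] (fun s => ‖s‖ ^ 3) :=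
    (IsBigO.of_norm_le (fun s => by rw [norm_pow])).trans
      (pow_isBigO_pow hl (j := 3) (k := 4) (by norm_num))
  exact (h3.const_mul_left a).add (h4.const_mul_left b)

lemma JetC.mul (hl : l ≤ 𝓝 0) {f g : ℂ → ℂ} {f0 f1 f2 g0 g1 g2 : ℂ} (h : JetC l f f0 f1 f2)
    (h' : JetC l g g0 g1 g2) :
    JetC l (fun s => f s * g s) (f0 * g0) (f0 * g1 + f1 * g0) (f0 * g2 + f1 * g1 + f2 * g0) := by
  have hg : (fun s => g s) =O[l] (fun _ => (1 : ℝ)) := (h'.tendsto hl).isBigO_one ℝ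
  have h1 : (fun s => (f s - (f0 + f1 * s + f2 * s ^ 2)) * g s) =O[l] (fun s => ‖s‖ ^ 3) := by
    have := IsBigO.mul h hg
    simpa using this
  have h2 : (fun s => (f0 + f1 * s + f2 * s ^ 2) * (g s - (g0 + g1 * s + g2 * s ^ 2))) =O[l]
      (fun s => ‖s‖ ^ 3) := by
    have := IsBigO.mul (quad_isBigO_one hl f0 f1 f2) h'
    simpa using this
  have h3 := cubic_isBigO hl (f1 * g2 + f2 * g1) (f2 * g2)
  unfold JetC
  refine ((h1.add h2).add h3).congr_left (fun s => ?_)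
  ring

lemma JetC.inv (hl : l ≤ 𝓝 0) {f : ℂ → ℂ} {f0 f1 f2 : ℂ} (h : JetC l f f0 f1 f2) (h0 : f0 ≠ 0) :
    JetC l (fun s => (f s)⁻¹) f0⁻¹ (-(f1 / f0 ^ 2)) (f1 ^ 2 / f0 ^ 3 - f2 / f0 ^ 2) := by
  have hi : (fun s => (f s)⁻¹) =O[l] (fun _ => (1 : ℝ)) := ((h.tendsto hl).inv₀ h0).isBigO_one ℝ
  have hne : ∀ᶠ s in l, f s ≠ 0 := (h.tendsto hl).eventually_ne h0
  set g1 : ℂ := -(f1 / f0 ^ 2) with hg1
  set g2 : ℂ := f1 ^ 2 / f0 ^ 3 - f2 / f0 ^ 2 with hg2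
  have h1 : (fun s => (f s - (f0 + f1 * s + f2 * s ^ 2)) * (f0⁻¹ + g1 * s + g2 * s ^ 2)) =O[l]
      (fun s => ‖s‖ ^ 3) := by
    have := IsBigO.mul h (quad_isBigO_one hl f0⁻¹ g1 g2)
    simpa using this
  have h2 := cubic_isBigO hl (f1 * g2 + f2 * g1) (f2 * g2)
  have h3 : (fun s => f s * (f0⁻¹ + g1 * s + g2 * s ^ 2) - 1) =O[l] (fun s => ‖s‖ ^ 3) := by
    refine (h1.add h2).congr_left (fun s => ?_)
    have e0 : f0 * f0⁻¹ = 1 := mul_inv_cancel₀ h0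
    have e1 : f0 * g1 + f1 * f0⁻¹ = 0 := by rw [hg1]; field_simp; ring
    have e2 : f0 * g2 + f1 * g1 + f2 * f0⁻¹ = 0 := by rw [hg1, hg2]; field_simp; ring
    linear_combination -e0 - e1 * s - e2 * s ^ 2
  have h4 : (fun s => -((f s)⁻¹ * (f s * (f0⁻¹ + g1 * s + g2 * s ^ 2) - 1))) =O[l]
      (fun s => ‖s‖ ^ 3) := by
    have := (IsBigO.mul hi h3).neg_left
    simpa using this
  unfold JetC
  refine h4.congr' ?_ (EventuallyEq.refl _ _)
  filter_upwards [hne] with s hs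
  field_simp
  ring

end more

end Pool.Agent.Lib.MP_44a246_ntMY
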