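import Pool.Agent.Lib.MP_44a246_ntMY.MY00
import Pool.Agent.Lib.MP_44a246_ntMY.MY21

/-!
# (A2) Second order jets

`HasJ φ φ₀ A B c`: `φ s = φ₀ + 2 Re (A s) + Re (B s²) + c |s|² + O (|s|³)`; the number `c` is
`1/4` of the Laplacian.  The rules for sums, multiples, `|f|²`, the logarithm, and the final
statement for the total exponent `RT`.
-/

namespace Pool.Agent.Lib.MP_44a246_ntMY

open WithZero Module Polynomial Filter Topology Asymptotics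
open scoped ComplexConjugate

lemma nw_le : 𝓝[≠] (0 : ℂ) ≤ 𝓝 0 := nhdsWithin_le_nhds

lemma hasJ_iff {φ : ℂ → ℝ} {φ₀ : ℝ} {A B : ℂ} {c : ℝ} :
    HasJ φ φ₀ A B c ↔ JetR (𝓝[≠] 0) φ φ₀ A B c := by
  unfold HasJ JetR
  simp only [Complex.normSq_eq_norm_sq]

lemma hasH_iff {f : ℂ → ℂ} {f₀ f₁ f₂ : ℂ} : HasH f f₀ f₁ f₂ ↔ JetC (𝓝[≠] 0) f f₀ f₁ f₂ := Iff.rfl

namespace HasJ

variable {φ ψ : ℂ → ℝ} {φ₀ ψ₀ : ℝ} {A B A' B' : ℂ} {c c' : ℝ}

theorem const (a : ℝ) : HasJ (fun _ => a) a 0 0 0 := hasJ_iff.2 (jetR_const _ a)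

theorem add (h : HasJ φ φ₀ A B c) (h' : HasJ ψ ψ₀ A' B' c') :
    HasJ (fun s => φ s + ψ s) (φ₀ + ψ₀) (A + A') (B + B') (c + c') :=
  hasJ_iff.2 ((hasJ_iff.1 h).add (hasJ_iff.1 h'))

theorem smul (a : ℝ) (h : HasJ φ φ₀ A B c) :
    HasJ (fun s => a * φ s) (a * φ₀) (a * A) (a * B) (a * c) :=
  hasJ_iff.2 ((hasJ_iff.1 h).const_mul a)

theorem sub (h : HasJ φ φ₀ A B c) (h' : HasJ ψ ψ₀ A' B' c') :
    HasJ (fun s => φ s - ψ s) (φ₀ - ψ₀) (A - A') (B - B') (c - c') :=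
  hasJ_iff.2 ((hasJ_iff.1 h).sub (hasJ_iff.1 h'))

theorem sum {ι : Type*} (T : Finset ι) (f : ι → ℂ → ℝ) (f0 : ι → ℝ) (A B : ι → ℂ) (c : ι → ℝ)
    (h : ∀ i ∈ T, HasJ (f i) (f0 i) (A i) (B i) (c i)) :
    HasJ (fun s => ∑ i ∈ T, f i s) (∑ i ∈ T, f0 i) (∑ i ∈ T, A i) (∑ i ∈ T, B i)
      (∑ i ∈ T, c i) :=
  hasJ_iff.2 (JetR.sum T f f0 A B c (fun i hi => hasJ_iff.1 (h i hi)))

theorem congr' (h : HasJ φ φ₀ A B c) (h' : φ =ᶠ[𝓝[≠] 0] ψ) : HasJ ψ φ₀ A B c :=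
  hasJ_iff.2 ((hasJ_iff.1 h).congr_fun h')

theorem tendsto (h : HasJ φ φ₀ A B c) : Tendsto φ (𝓝[≠] 0) (𝓝 φ₀) :=
  (hasJ_iff.1 h).tendsto nw_le

theorem log (h : HasJ φ φ₀ A B c) (h0 : 0 < φ₀) :
    HasJ (fun s => Real.log (φ s)) (Real.log φ₀) (A / φ₀) (B / φ₀ - A ^ 2 / φ₀ ^ 2)
      (c / φ₀ - Complex.normSq A / φ₀ ^ 2) := by
  refine hasJ_iff.2 (((hasJ_iff.1 h).log nw_le h0).congr rfl rfl ?_ ?_)
  · rw [div_pow]
  · rw [Complex.normSq_eq_norm_sq]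

/-- **The second order test.** -/
theorem le_zero (h : HasJ φ φ₀ A B c) (hle : ∀ᶠ s in 𝓝[≠] (0 : ℂ), φ s ≤ φ₀) : c ≤ 0 :=
  (hasJ_iff.1 h).nonpos_of_le hle

end HasJ

theorem HasH.sub {f g : ℂ → ℂ} {f₀ f₁ f₂ g₀ g₁ g₂ : ℂ} (h : HasH f f₀ f₁ f₂)
    (h' : HasH g g₀ g₁ g₂) : HasH (fun s => f s - g s) (f₀ - g₀) (f₁ - g₁) (f₂ - g₂) :=
  JetC.sub h h'

theorem HasH.mul {f g : ℂ → ℂ} {f₀ f₁ f₂ g₀ g₁ g₂ : ℂ} (h : HasH f f₀ f₁ f₂)
    (h' : HasH g g₀ g₁ g₂) :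
    HasH (fun s => f s * g s) (f₀ * g₀) (f₀ * g₁ + f₁ * g₀) (f₀ * g₂ + f₁ * g₁ + f₂ * g₀) :=
  JetC.mul nw_le h h'

theorem HasH.inv {f : ℂ → ℂ} {f₀ f₁ f₂ : ℂ} (h : HasH f f₀ f₁ f₂) (h0 : f₀ ≠ 0) :
    HasH (fun s => (f s)⁻¹) f₀⁻¹ (-(f₁ / f₀ ^ 2)) (f₁ ^ 2 / f₀ ^ 3 - f₂ / f₀ ^ 2) :=
  JetC.inv nw_le h h0

theorem HasH.tendsto {f : ℂ → ℂ} {f₀ f₁ f₂ : ℂ} (h : HasH f f₀ f₁ f₂) :
    Tendsto f (𝓝[≠] 0) (𝓝 f₀) := JetC.tendsto nw_le h

theorem HasH.normSq {f : ℂ → ℂ} {f₀ f₁ f₂ : ℂ} (h : HasH f f₀ f₁ f₂) :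
    HasJ (fun s => Complex.normSq (f s)) (Complex.normSq f₀) (conj f₀ * f₁) (2 * (conj f₀ * f₂))
      (Complex.normSq f₁) := by
  rw [hasJ_iff]
  simp only [Complex.normSq_eq_norm_sq]
  exact JetC.normSq nw_le h

/-- the logarithm of the absolute value of a holomorphic function is harmonic -/
theorem HasH.log_normSq' {f : ℂ → ℂ} {f₀ f₁ f₂ : ℂ} (h : HasH f f₀ f₁ f₂) (h0 : f₀ ≠ 0) :
    ∃ B, HasJ (fun s => Real.log (Complex.normSq (f s))) (Real.log (Complex.normSq f₀))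
      (f₁ / f₀) B 0 := by
  obtain ⟨B, hB⟩ := JetC.log_normSq nw_le h h0
  refine ⟨B, ?_⟩
  rw [hasJ_iff]
  simp only [Complex.normSq_eq_norm_sq]
  exact hB

/-- the logarithm of the absolute value of a holomorphic function is harmonic -/
theorem HasH.log_normSq {f : ℂ → ℂ} {f₀ f₁ f₂ : ℂ} (h : HasH f f₀ f₁ f₂) (h0 : f₀ ≠ 0) :
    ∃ A B, HasJ (fun s => Real.log (Complex.normSq (f s))) (Real.log (Complex.normSq f₀)) A B 0 :=
  ⟨_, h.log_normSq' h0⟩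

/-- the Laplacian of `log (QQ c η)` -/
theorem hasJ_log_QQ {q : ℕ} (c : Fin q → Fin q → ℝ) {ηs : ℂ → Fin q → ℂ} {η η' η'' : Fin q → ℂ}
    (h : ∀ u, HasH (fun s => ηs s u) (η u) (η' u) (η'' u)) (h0 : 0 < QQ c η) :
    ∃ A B, HasJ (fun s => Real.log (QQ c (ηs s))) (Real.log (QQ c η)) A B (VV c η η') := by
  have hs := HasJ.sum Finset.univ (fun u s => ∑ v, c u v * Complex.normSq (ηs s u - ηs s v)) _ _ _ _
    (fun u _ => HasJ.sum Finset.univ (fun v s => c u v * Complex.normSq (ηs s u - ηs s v)) _ _ _ _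
      (fun v _ => HasJ.smul (c u v) ((h u).sub (h v)).normSq))
  have h1 := hs.log h0
  exact ⟨_, _, h1⟩

/-- the Laplacian of the potential: at least the density -/
theorem hasJ_Pot {χ : ℂ → ℂ} {χ₀ χ₁ χ₂ : ℂ} (h : HasH χ χ₀ χ₁ χ₂) (h0 : χ₀ ≠ 0) :
    ∃ (A B : ℂ) (c : ℝ), HasJ (fun s => Pot (Complex.normSq (χ s))) (Pot (Complex.normSq χ₀)) A B c ∧
      Complex.normSq (χ₁ / χ₀) / (1 + uu (Complex.normSq χ₀)) ^ 2 ≤ c := by
  -- `uu y = 2 log (1 + y) - log y`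
  have huu : ∀ y : ℝ, 0 ≤ y → uu y = 2 * Real.log (1 + y) - Real.log y := by
    intro y hy
    unfold uu
    rcases hy.eq_or_lt with h1 | h1
    · rw [← h1]; simp
    · have : 1 + y⁻¹ = (1 + y) / y := by field_simp; ring
      rw [this, Real.log_div (by positivity) (by positivity)]
      ring
  set y : ℝ := Complex.normSq χ₀ with hy
  have hy0 : 0 < y := Complex.normSq_pos.2 h0
  set w : ℂ := χ₁ / χ₀ with hw
  have hχ₁ : χ₁ = χ₀ * w := by rw [hw]; field_simp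
  -- jet of `log (1 + y)`
  have j1 := ((HasJ.const 1).add h.normSq).log (by rw [← hy]; positivity)
  -- jet of `log y`
  obtain ⟨B2, j2⟩ := h.log_normSq' h0
  rw [← hy, ← hw] at j2
  rw [← hy] at j1
  have hconj : conj χ₀ * χ₁ = (y : ℂ) * w := by
    rw [hχ₁, ← mul_assoc, hy, Complex.normSq_eq_conj_mul_self]
  have hn1 : Complex.normSq χ₁ = y * Complex.normSq w := by rw [hχ₁, Complex.normSq_mul]
  -- jet of `u`
  have j3 := (j1.smul 2).sub j2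
  have hupos : 0 ≤ uu y := by
    unfold uu
    have h1 : 0 ≤ Real.log (1 + y) := Real.log_nonneg (by linarith)
    have h2 : 0 ≤ Real.log (1 + y⁻¹) := Real.log_nonneg (by have := inv_pos.2 hy0; linarith)
    linarith
  rw [← huu y hy0.le] at j3
  have j4 := ((HasJ.const 1).add j3).log (by linarith)
  have j5 := (j4.smul (-1)).add (j1.smul 6)
  have e1 : (-1) * Real.log (1 + uu y) + 6 * Real.log (1 + y) = Pot y := by unfold Pot; ring
  rw [e1] at j5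
  refine ⟨_, _, _, j5.congr' (Eventually.of_forall (fun s => ?_)), ?_⟩
  · simp only [Pot]
    rw [huu _ (Complex.normSq_nonneg _)]
    ring
  · set n : ℝ := Complex.normSq w with hn
    have hn0 : 0 ≤ n := Complex.normSq_nonneg w
    have hc1 : (0 + Complex.normSq χ₁) / (1 + y) - Complex.normSq (0 + conj χ₀ * χ₁) / (1 + y) ^ 2 =
        y * n / (1 + y) ^ 2 := by
      rw [zero_add, zero_add, hconj, Complex.normSq_mul, Complex.normSq_ofReal, hn1, ← hn]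
      field_simp
      ring
    have hA3 : Complex.normSq (0 + ((2 : ℝ) * ((0 + conj χ₀ * χ₁) / ((1 + y : ℝ) : ℂ)) - w)) =
        n - 4 * (y * n / (1 + y) ^ 2) := by
      have h1 : (0 : ℂ) + ((2 : ℝ) * ((0 + conj χ₀ * χ₁) / ((1 + y : ℝ) : ℂ)) - w) =
          (((y - 1) / (1 + y) : ℝ) : ℂ) * w := by
        rw [hconj]
        have h2 : ((1 + y : ℝ) : ℂ) ≠ 0 := by
          rw [Complex.ofReal_ne_zero]; positivity
        push_cast at h2 ⊢
        field_simp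
        ring
      rw [h1, Complex.normSq_mul, Complex.normSq_ofReal, ← hn]
      field_simp
      ring
    rw [hc1, hA3]
    set c1 : ℝ := y * n / (1 + y) ^ 2 with hc1'
    have hc10 : 0 ≤ c1 := by positivity
    have hv : 1 ≤ 1 + uu y := by linarith
    have h2 : 0 ≤ c1 * (6 - 2 / (1 + uu y) - 4 / (1 + uu y) ^ 2) := by
      refine mul_nonneg hc10 ?_
      have h3 : 2 / (1 + uu y) ≤ 2 := by
        rw [div_le_iff₀ (by linarith)]; linarith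
      have h4 : 4 / (1 + uu y) ^ 2 ≤ 4 := by
        rw [div_le_iff₀ (by positivity)]
        nlinarith
      linarith
    have h5 : -1 * ((0 + (2 * c1 - 0)) / (1 + uu y) - (n - 4 * c1) / (1 + uu y) ^ 2) + 6 * c1 =
        n / (1 + uu y) ^ 2 + c1 * (6 - 2 / (1 + uu y) - 4 / (1 + uu y) ^ 2) := by
      field_simp
      ring
    rw [h5]
    linarith

/-- the cross ratio and its logarithmic derivative -/
theorem hasH_chi {q : ℕ} {ηs : ℂ → Fin q → ℂ} {η η' η'' : Fin q → ℂ}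
    (h : ∀ u, HasH (fun s => ηs s u) (η u) (η' u) (η'' u)) (hη : ∀ u v, u ≠ v → η u ≠ η v)
    (f : Fin 4 ↪ Fin q) :
    ∃ χ₁ χ₂ : ℂ, HasH (fun s => chi (ηs s) f) (chi η f) χ₁ χ₂ ∧ χ₁ / chi η f = dchi η η' f := by
  have hf : ∀ i j : Fin 4, i ≠ j → η (f i) - η (f j) ≠ 0 := fun i j hij =>
    sub_ne_zero.2 (hη _ _ (fun h => hij (f.injective h)))
  have h12 := hf 1 2 (by decide)
  have h30 := hf 3 0 (by decide)
  have h20 := hf 2 0 (by decide)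
  have h13 := hf 1 3 (by decide)
  have hn := ((h (f 1)).sub (h (f 2))).mul ((h (f 3)).sub (h (f 0)))
  have hd := (((h (f 2)).sub (h (f 0))).mul ((h (f 1)).sub (h (f 3)))).inv (mul_ne_zero h20 h13)
  have hq := hn.mul hd
  have e1 : ∀ θ : Fin q → ℂ, chi θ f = (θ (f 1) - θ (f 2)) * (θ (f 3) - θ (f 0)) *
      ((θ (f 2) - θ (f 0)) * (θ (f 1) - θ (f 3)))⁻¹ := fun θ => div_eq_mul_inv _ _
  rw [← e1 η] at hq
  simp only [← e1] at hq
  refine ⟨_, _, hq, ?_⟩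
  unfold chi dchi
  field_simp
  ring

/-- **The Laplacian of the total exponent.** -/
theorem hasJ_RT {q : ℕ} {k ε δ C : ℝ} (hδ : 0 < δ) (hC : 0 ≤ C) {a0 a1 : Fin q} (ha : a0 ≠ a1)
    {ηs : ℂ → Fin q → ℂ} {η η' η'' : Fin q → ℂ} (τ : ℂ) (S : Fin 3 ↪ Fin q)
    (h : ∀ u, HasH (fun s => ηs s u) (η u) (η' u) (η'' u)) (hη : ∀ u v, u ≠ v → η u ≠ η v) :
    ∃ (A B : ℂ) (c : ℝ), HasJ (fun s => RT k ε δ C a0 a1 (ηs s) (τ + s) S)
        (RT k ε δ C a0 a1 η τ S) A B c ∧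
      LR k ε δ η η' S + C * ∑ f : Fin 4 ↪ Fin q, Al η η' f + 1 / (1 + Complex.normSq τ) ^ 2 -
        (1 - 4 * ε) * VV (c1 q) η η' ≤ c := by
  have hpos : ∀ u v, u ≠ v → 0 < Complex.normSq (η u - η v) := fun u v huv =>
    Complex.normSq_pos.2 (sub_ne_zero.2 (hη u v huv))
  -- positivity of the sums
  have hQ : ∀ c : Fin q → Fin q → ℝ, (∀ u v, 0 ≤ c u v) → ∀ u v, u ≠ v → 0 < c u v → 0 < QQ c η := by
    intro c hc u v huv hcuv
    unfold QQ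
    have h0 : ∀ u v, 0 ≤ c u v * Complex.normSq (η u - η v) := fun u v =>
      mul_nonneg (hc u v) (Complex.normSq_nonneg _)
    refine Finset.sum_pos' (fun u _ => Finset.sum_nonneg (fun v _ => h0 u v))
      ⟨u, Finset.mem_univ _, Finset.sum_pos' (fun v _ => h0 u v) ⟨v, Finset.mem_univ _, ?_⟩⟩
    exact mul_pos hcuv (hpos u v huv)
  have hcT0 : ∀ u v, 0 ≤ cT S u v := by
    intro u v; unfold cT; split_ifs <;> norm_num
  have h01 : S 0 ≠ S 1 := fun h => absurd (S.injective h) (by decide)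
  have h12 : S 1 ≠ S 2 := fun h => absurd (S.injective h) (by decide)
  have h20 : S 2 ≠ S 0 := fun h => absurd (S.injective h) (by decide)
  have hQ1 : 0 < QQ (c1 q) η := hQ _ (fun _ _ => zero_le_one) a0 a1 ha zero_lt_one
  have hQT : 0 < QQ (cT S) η := hQ _ hcT0 (S 0) (S 1) h01 (by
    have : cT S (S 0) (S 1) = 1 := if_pos ⟨⟨0, rfl⟩, ⟨1, rfl⟩⟩
    rw [this]; exact zero_lt_one)
  have hQD : 0 < QQ (cD δ S) η := hQ _ (fun u v => by unfold cD; have := hcT0 u v; linarith) a0 a1 ha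
    (by unfold cD; have := hcT0 a0 a1; linarith)
  obtain ⟨A1, B1, j1⟩ := hasJ_log_QQ (c1 q) h hQ1
  obtain ⟨A2, B2, j2⟩ := hasJ_log_QQ (cT S) h hQT
  obtain ⟨A3, B3, j3⟩ := hasJ_log_QQ (cD δ S) h hQD
  -- the edges
  have jE : ∀ u v, u ≠ v → ∃ A B, HasJ (fun s => Real.log (Complex.normSq (ηs s u - ηs s v)))
      (Real.log (Complex.normSq (η u - η v))) A B 0 := fun u v huv =>
    ((h u).sub (h v)).log_normSq (sub_ne_zero.2 (hη u v huv))
  have hEne : ∀ u v, u ≠ v → ∀ᶠ s in 𝓝[≠] (0 : ℂ), Complex.normSq (ηs s u - ηs s v) ≠ 0 := by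
    intro u v huv
    have h1 := (((h u).sub (h v)).tendsto).eventually_ne (sub_ne_zero.2 (hη u v huv))
    filter_upwards [h1] with s hs
    exact fun h2 => hs (Complex.normSq_eq_zero.1 h2)
  obtain ⟨a1', b1', e1⟩ := jE _ _ h01
  obtain ⟨a2', b2', e2⟩ := jE _ _ h12
  obtain ⟨a3', b3', e3⟩ := jE _ _ h20
  obtain ⟨a4', b4', e4⟩ := jE _ _ ha
  have jJ : HasJ (fun s => Real.log (JJ (ηs s) S)) (Real.log (JJ η S)) (a1' + a2' + a3')
      (b1' + b2' + b3') 0 := by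
    have e5 := (e1.add e2).add e3
    have hv : Real.log (Complex.normSq (η (S 0) - η (S 1))) +
        Real.log (Complex.normSq (η (S 1) - η (S 2))) +
        Real.log (Complex.normSq (η (S 2) - η (S 0))) = Real.log (JJ η S) := by
      unfold JJ
      rw [Real.log_mul (mul_pos (hpos _ _ h01) (hpos _ _ h12)).ne' (hpos _ _ h20).ne',
        Real.log_mul (hpos _ _ h01).ne' (hpos _ _ h12).ne']
    rw [hv, add_zero, add_zero] at e5
    refine e5.congr' ?_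
    filter_upwards [hEne _ _ h01, hEne _ _ h12, hEne _ _ h20] with s h1 h2 h3
    unfold JJ
    rw [Real.log_mul (mul_ne_zero h1 h2) h3, Real.log_mul h1 h2]
  -- the potentials
  have jP : ∀ f : Fin 4 ↪ Fin q, ∃ (A B : ℂ) (c : ℝ),
      HasJ (fun s => Pot (Complex.normSq (chi (ηs s) f))) (Pot (Complex.normSq (chi η f))) A B c ∧
        Al η η' f ≤ c := by
    intro f
    obtain ⟨χ₁, χ₂, hχ, hd⟩ := hasH_chi h hη f
    have hne : chi η f ≠ 0 := by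
      have hf : ∀ i j : Fin 4, i ≠ j → η (f i) - η (f j) ≠ 0 := fun i j hij =>
        sub_ne_zero.2 (hη _ _ (fun h => hij (f.injective h)))
      exact div_ne_zero (mul_ne_zero (hf 1 2 (by decide)) (hf 3 0 (by decide)))
        (mul_ne_zero (hf 2 0 (by decide)) (hf 1 3 (by decide)))
    obtain ⟨A, B, c, hc, hle⟩ := hasJ_Pot hχ hne
    refine ⟨A, B, c, hc, ?_⟩
    rw [hd] at hle
    exact hle
  choose PA PB Pc hP hPle using jP
  have jS := HasJ.sum Finset.univ (fun (f : Fin 4 ↪ Fin q) s => Pot (Complex.normSq (chi (ηs s) f)))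
    _ _ _ _ (fun f _ => hP f)
  -- the term of `t`
  have ht : HasH (fun s => τ + s) τ 1 0 := by
    unfold HasH
    refine (isBigO_zero _ _).congr_left (fun s => ?_)
    ring
  have jt := ((HasJ.const 1).add ht.normSq).log (by
    have := Complex.normSq_nonneg τ; linarith)
  -- everything together
  have jR := ((((jJ.smul (-(1 - k))).add (j1.smul (1 - k - ε))).add (j2.smul (1 - 2 * k))).sub
    (j3.smul (1 - ε)))
  have jT := ((jR.add (jS.smul C)).add jt).sub ((j1.sub e4).smul (1 - 4 * ε))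
  refine ⟨_, _, _, jT, ?_⟩
  have hsum : C * ∑ f : Fin 4 ↪ Fin q, Al η η' f ≤ C * ∑ f : Fin 4 ↪ Fin q, Pc f :=
    mul_le_mul_of_nonneg_left (Finset.sum_le_sum (fun f _ => hPle f)) hC
  have ht1 : (0 + Complex.normSq 1) / (1 + Complex.normSq τ) -
      Complex.normSq (0 + conj τ * 1) / (1 + Complex.normSq τ) ^ 2 =
        1 / (1 + Complex.normSq τ) ^ 2 := by
    have h1 : 0 < 1 + Complex.normSq τ := by have := Complex.normSq_nonneg τ; linarith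
    rw [zero_add, zero_add, mul_one, Complex.normSq_conj, Complex.normSq_one]
    field_simp
    ring
  rw [ht1]
  unfold LR
  linarith

end Pool.Agent.Lib.MP_44a246_ntMY
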