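import Pool.Agent.Lib.MP_44a246_ntMY.MY00
import Pool.Agent.Lib.MP_44a246_ntSM.SM04
import Pool.Agent.Lib.MP_44a246_ntO.OG0

/-!
# (A3) The values at the places, limits of places
-/

namespace Pool.Agent.Lib.MP_44a246_ntMY

open Pool.Agent.Lib.MP_44a246_nt
open Pool.Agent.Lib.MP_44a246_ntL
open Pool.Agent.Lib.MP_44a246_ntR
open WithZero Module Polynomial Filter Topology

variable {L : Type*} [Field L] [Algebra ℂ L]

section Val

theorem place_const_le (p : Place ℂ L) (c : ℂ) : p.1 (algebraMap ℂ L c) ≤ 1 := by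
  by_cases hc : c = 0
  · rw [hc, map_zero, map_zero]
    exact zero_le_one
  · exact (p.2.2 c hc).le

theorem place_const_lt (p : Place ℂ L) {c : ℂ} (h : p.1 (algebraMap ℂ L c) < 1) : c = 0 := by
  by_contra hc
  rw [p.2.2 c hc] at h
  exact lt_irrefl _ h

theorem val_unique {p : Place ℂ L} {f : L} {c : ℂ} (h : p.1 (f - algebraMap ℂ L c) < 1) :
    val p f = c := by
  have h1 : ∃ c : ℂ, p.1 (f - algebraMap ℂ L c) < 1 := ⟨c, h⟩
  unfold val
  rw [dif_pos h1]
  have h2 := h1.choose_spec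
  have h3 : algebraMap ℂ L (h1.choose - c) =
      (f - algebraMap ℂ L c) - (f - algebraMap ℂ L h1.choose) := by
    rw [map_sub]
    ring
  have h4 : p.1 (algebraMap ℂ L (h1.choose - c)) < 1 := by
    rw [h3]
    exact p.1.map_sub_lt h h2
  exact sub_eq_zero.1 (place_const_lt p h4)

theorem val_algebraMap (p : Place ℂ L) (c : ℂ) : val p (algebraMap ℂ L c) = c := by
  apply val_unique
  rw [sub_self, map_zero]
  exact zero_lt_one

theorem val_zero (p : Place ℂ L) : val p (0 : L) = 0 := by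
  have := val_algebraMap p (0 : ℂ)
  rwa [map_zero] at this

theorem val_one (p : Place ℂ L) : val p (1 : L) = 1 := by
  have := val_algebraMap p (1 : ℂ)
  rwa [map_one] at this

theorem val_of_lt {p : Place ℂ L} {f : L} (h : p.1 f < 1) : val p f = 0 := by
  apply val_unique
  rw [map_zero, sub_zero]
  exact h

variable (hL : IsFF ℂ L)

include hL

theorem val_spec {p : Place ℂ L} {f : L} (hf : p.1 f ≤ 1) :
    p.1 (f - algebraMap ℂ L (val p f)) < 1 := by
  have h1 : ∃ c : ℂ, p.1 (f - algebraMap ℂ L c) < 1 := hL.place_residue p hf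
  unfold val
  rw [dif_pos h1]
  exact h1.choose_spec

theorem val_eq_zero_iff {p : Place ℂ L} {f : L} (hf : p.1 f ≤ 1) : val p f = 0 ↔ p.1 f < 1 := by
  constructor
  · intro h
    have h1 := val_spec hL hf
    rwa [h, map_zero, sub_zero] at h1
  · exact val_of_lt

theorem val_add {p : Place ℂ L} {f g : L} (hf : p.1 f ≤ 1) (hg : p.1 g ≤ 1) :
    val p (f + g) = val p f + val p g := by
  apply val_unique
  have h1 := val_spec hL hf
  have h2 := val_spec hL hg
  have h3 : f + g - algebraMap ℂ L (val p f + val p g) =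
      (f - algebraMap ℂ L (val p f)) + (g - algebraMap ℂ L (val p g)) := by
    rw [map_add]
    ring
  rw [h3]
  exact p.1.map_add_lt h1 h2

theorem val_neg {p : Place ℂ L} {f : L} (hf : p.1 f ≤ 1) : val p (-f) = - val p f := by
  apply val_unique
  have h3 : -f - algebraMap ℂ L (- val p f) = -(f - algebraMap ℂ L (val p f)) := by
    rw [map_neg]
    ring
  rw [h3, Valuation.map_neg]
  exact val_spec hL hf

theorem val_sub {p : Place ℂ L} {f g : L} (hf : p.1 f ≤ 1) (hg : p.1 g ≤ 1) :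
    val p (f - g) = val p f - val p g := by
  have hg' : p.1 (-g) ≤ 1 := by rwa [Valuation.map_neg]
  rw [sub_eq_add_neg, val_add hL hf hg', val_neg hL hg, sub_eq_add_neg]

theorem val_mul {p : Place ℂ L} {f g : L} (hf : p.1 f ≤ 1) (hg : p.1 g ≤ 1) :
    val p (f * g) = val p f * val p g := by
  apply val_unique
  have h1 := val_spec hL hf
  have h2 := val_spec hL hg
  have h3 : f * g - algebraMap ℂ L (val p f * val p g) =
      f * (g - algebraMap ℂ L (val p g)) +
        (f - algebraMap ℂ L (val p f)) * algebraMap ℂ L (val p g) := by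
    rw [map_mul]
    ring
  rw [h3]
  refine p.1.map_add_lt ?_ ?_
  · rw [map_mul]
    calc p.1 f * p.1 (g - algebraMap ℂ L (val p g)) ≤ 1 * p.1 (g - algebraMap ℂ L (val p g)) := by
          gcongr
      _ < 1 := by
          rw [one_mul]
          exact h2
  · rw [map_mul]
    calc p.1 (f - algebraMap ℂ L (val p f)) * p.1 (algebraMap ℂ L (val p g)) ≤
          p.1 (f - algebraMap ℂ L (val p f)) * 1 := by
          gcongr
          exact place_const_le p _
      _ < 1 := by
          rw [mul_one]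
          exact h1

theorem val_pow {p : Place ℂ L} {f : L} (hf : p.1 f ≤ 1) (n : ℕ) :
    val p (f ^ n) = val p f ^ n := by
  induction n with
  | zero => rw [pow_zero, pow_zero, val_one]
  | succ n ih =>
    have h1 : p.1 (f ^ n) ≤ 1 := by
      rw [map_pow]
      exact pow_le_one₀ zero_le hf
    rw [pow_succ, val_mul hL h1 hf, ih, pow_succ]

omit hL in
theorem place_inv_le {p : Place ℂ L} {f : L} (h : 1 ≤ p.1 f) : p.1 f⁻¹ ≤ 1 := by
  rw [map_inv₀]
  exact inv_le_one_of_one_le₀ h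

omit hL in
/-- a function with nonzero value is a unit -/
theorem place_eq_one {p : Place ℂ L} {f : L} (hf : p.1 f ≤ 1) (h : val p f ≠ 0) : p.1 f = 1 := by
  refine le_antisymm hf ?_
  by_contra hcon
  push Not at hcon
  exact h (val_of_lt hcon)

theorem val_inv' {p : Place ℂ L} {f : L} (hf : p.1 f ≤ 1) (h : val p f ≠ 0) :
    val p f⁻¹ = (val p f)⁻¹ := by
  have h1 : p.1 f = 1 := place_eq_one hf h
  have h2 : p.1 f⁻¹ ≤ 1 := place_inv_le h1.ge
  have h0 : f ≠ 0 := by
    rintro rfl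
    rw [map_zero] at h1
    exact zero_ne_one h1
  have h3 := val_mul hL hf h2
  rw [mul_inv_cancel₀ h0, val_one] at h3
  exact (inv_eq_of_mul_eq_one_right h3.symm).symm

theorem val_ne_zero {p : Place ℂ L} {f : L} (hf : p.1 f = 1) : val p f ≠ 0 := by
  intro h
  rw [val_eq_zero_iff hL hf.le, hf] at h
  exact lt_irrefl _ h

theorem val_inv {p : Place ℂ L} {f : L} (hf : p.1 f = 1) : val p f⁻¹ = (val p f)⁻¹ :=
  val_inv' hL hf.le (val_ne_zero hL hf)

theorem val_div {p : Place ℂ L} {f g : L} (hf : p.1 f ≤ 1) (hg : p.1 g ≤ 1) (h : val p g ≠ 0) :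
    val p (f / g) = val p f / val p g := by
  have h1 : p.1 g = 1 := place_eq_one hg h
  rw [div_eq_mul_inv, val_mul hL hf (place_inv_le h1.ge), val_inv' hL hg h, div_eq_mul_inv]

theorem val_sum {p : Place ℂ L} {σ : Type*} {s : Finset σ} {f : σ → L}
    (hf : ∀ i ∈ s, p.1 (f i) ≤ 1) : val p (∑ i ∈ s, f i) = ∑ i ∈ s, val p (f i) := by
  classical
  induction s using Finset.induction_on with
  | empty => rw [Finset.sum_empty, Finset.sum_empty, val_zero]
  | insert a s ha ih =>
    rw [Finset.sum_insert ha, Finset.sum_insert ha]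
    have h1 : p.1 (∑ i ∈ s, f i) ≤ 1 :=
      p.1.map_sum_le fun i hi => hf i (Finset.mem_insert_of_mem hi)
    rw [val_add hL (hf a (Finset.mem_insert_self _ _)) h1,
      ih fun i hi => hf i (Finset.mem_insert_of_mem hi)]

theorem val_prod {p : Place ℂ L} {σ : Type*} {s : Finset σ} {f : σ → L}
    (hf : ∀ i ∈ s, p.1 (f i) ≤ 1) : val p (∏ i ∈ s, f i) = ∏ i ∈ s, val p (f i) := by
  classical
  induction s using Finset.induction_on with
  | empty => rw [Finset.prod_empty, Finset.prod_empty, val_one]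
  | insert a s ha ih =>
    rw [Finset.prod_insert ha, Finset.prod_insert ha]
    have h1 : p.1 (∏ i ∈ s, f i) ≤ 1 := by
      rw [map_prod]
      exact Finset.prod_le_one (fun i _ => zero_le) fun i hi => hf i (Finset.mem_insert_of_mem hi)
    rw [val_mul hL (hf a (Finset.mem_insert_self _ _)) h1,
      ih fun i hi => hf i (Finset.mem_insert_of_mem hi)]

end Val

section Limit

variable (hL : IsFF ℂ L)

/-- the ring of the functions which are bounded along the ultrafilter -/
noncomputable def limRing (hL : IsFF ℂ L) (U : Ultrafilter (Place ℂ L)) : ValuationSubring L where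
  carrier := {f | ∃ M : ℝ, ∀ᶠ p in (U : Filter (Place ℂ L)), p.1 f ≤ 1 ∧ ‖val p f‖ ≤ M}
  mul_mem' := by
    rintro f g ⟨M, hM⟩ ⟨N, hN⟩
    refine ⟨M * N, (hM.and hN).mono fun p hp => ?_⟩
    obtain ⟨⟨h1, h2⟩, h3, h4⟩ := hp
    refine ⟨?_, ?_⟩
    · rw [map_mul]
      exact mul_le_one₀ h1 zero_le h3
    · rw [val_mul hL h1 h3, norm_mul]
      exact mul_le_mul h2 h4 (norm_nonneg _) ((norm_nonneg _).trans h2)
  one_mem' := ⟨1, Eventually.of_forall fun p => ⟨by rw [map_one], by rw [val_one, norm_one]⟩⟩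
  add_mem' := by
    rintro f g ⟨M, hM⟩ ⟨N, hN⟩
    refine ⟨M + N, (hM.and hN).mono fun p hp => ?_⟩
    obtain ⟨⟨h1, h2⟩, h3, h4⟩ := hp
    refine ⟨?_, ?_⟩
    · exact (p.1.map_add _ _).trans (max_le h1 h3)
    · rw [val_add hL h1 h3]
      exact (norm_add_le _ _).trans (add_le_add h2 h4)
  zero_mem' := ⟨0, Eventually.of_forall fun p => ⟨by rw [map_zero]; exact zero_le_one,
    by rw [val_zero, norm_zero]⟩⟩
  neg_mem' := by
    rintro f ⟨M, hM⟩
    refine ⟨M, hM.mono fun p hp => ?_⟩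
    obtain ⟨h1, h2⟩ := hp
    refine ⟨?_, ?_⟩
    · rw [Valuation.map_neg]
      exact h1
    · rw [val_neg hL h1, norm_neg]
      exact h2
  mem_or_inv_mem' := by
    intro f
    by_cases h : ∃ M : ℝ, ∀ᶠ p in (U : Filter (Place ℂ L)), p.1 f ≤ 1 ∧ ‖val p f‖ ≤ M
    · exact Or.inl h
    · right
      refine ⟨1, ?_⟩
      have h1 : ¬ ∀ᶠ p in (U : Filter (Place ℂ L)), p.1 f ≤ 1 ∧ ‖val p f‖ ≤ 1 :=
        fun h2 => h ⟨1, h2⟩
      have h2 := (Ultrafilter.eventually_not (f := U)).2 h1
      refine h2.mono fun p hp => ?_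
      by_cases h3 : p.1 f ≤ 1
      · have h4 : 1 < ‖val p f‖ := by
          by_contra hcon
          push Not at hcon
          exact hp ⟨h3, hcon⟩
        have h5 : val p f ≠ 0 := by
          intro h0
          rw [h0, norm_zero] at h4
          linarith
        have h6 := place_eq_one h3 h5
        refine ⟨place_inv_le h6.ge, ?_⟩
        rw [val_inv' hL h3 h5, norm_inv]
        exact inv_le_one_of_one_le₀ h4.le
      · push Not at h3
        have h4 : p.1 f⁻¹ < 1 := by
          rw [map_inv₀]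
          exact inv_lt_one_of_one_lt₀ h3
        refine ⟨h4.le, ?_⟩
        rw [val_of_lt h4, norm_zero]
        exact zero_le_one

include hL

theorem mem_limRing {U : Ultrafilter (Place ℂ L)} {f : L} :
    f ∈ limRing hL U ↔
      ∃ M : ℝ, ∀ᶠ p in (U : Filter (Place ℂ L)), p.1 f ≤ 1 ∧ ‖val p f‖ ≤ M := Iff.rfl

/-- if `f` is not bounded along the ultrafilter, its inverse tends to zero -/
theorem tendsto_inv_of_not_mem {U : Ultrafilter (Place ℂ L)} {f : L}
    (hf : f ∉ limRing hL U) :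
    (∀ᶠ p in (U : Filter (Place ℂ L)), p.1 f⁻¹ ≤ 1) ∧
      Tendsto (fun p : Place ℂ L => val p f⁻¹) U (𝓝 0) := by
  have key : ∀ M : ℝ, 0 < M → ∀ᶠ p in (U : Filter (Place ℂ L)), p.1 f⁻¹ ≤ 1 ∧
      ‖val p f⁻¹‖ ≤ M⁻¹ := by
    intro M hM
    have h1 : ¬ ∀ᶠ p in (U : Filter (Place ℂ L)), p.1 f ≤ 1 ∧ ‖val p f‖ ≤ M :=
      fun h2 => hf ⟨M, h2⟩
    have h2 := (Ultrafilter.eventually_not (f := U)).2 h1
    refine h2.mono fun p hp => ?_
    by_cases h3 : p.1 f ≤ 1
    · have h4 : M < ‖val p f‖ := by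
        by_contra hcon
        push Not at hcon
        exact hp ⟨h3, hcon⟩
      have h5 : val p f ≠ 0 := by
        intro h0
        rw [h0, norm_zero] at h4
        linarith
      have h6 := place_eq_one h3 h5
      refine ⟨place_inv_le h6.ge, ?_⟩
      rw [val_inv' hL h3 h5, norm_inv]
      exact inv_anti₀ hM h4.le
    · push Not at h3
      have h4 : p.1 f⁻¹ < 1 := by
        rw [map_inv₀]
        exact inv_lt_one_of_one_lt₀ h3
      refine ⟨h4.le, ?_⟩
      rw [val_of_lt h4, norm_zero]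
      exact (inv_pos.2 hM).le
  refine ⟨(key 1 one_pos).mono fun p hp => hp.1, ?_⟩
  rw [Metric.tendsto_nhds]
  intro ε hε
  refine (key (2 / ε) (by positivity)).mono fun p hp => ?_
  rw [dist_zero_right]
  have h1 := hp.2
  rw [inv_div] at h1
  linarith

/-- **The places of a function field over the complex numbers are compact**: every ultrafilter of
places has a limit. -/
theorem exists_limit_place (U : Ultrafilter (Place ℂ L)) : ∃ w : Place ℂ L, ∀ f : L, w.1 f ≤ 1 →
    (∀ᶠ p in (U : Filter (Place ℂ L)), p.1 f ≤ 1) ∧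
      Tendsto (fun p : Place ℂ L => val p f) U (𝓝 (val w f)) := by
  -- bounded functions have a limit
  have hlim : ∀ f ∈ limRing hL U, ∃ c : ℂ, Tendsto (fun p : Place ℂ L => val p f) U (𝓝 c) := by
    rintro f ⟨M, hM⟩
    have h1 : ∀ᶠ z in ((U.map fun p => val p f : Ultrafilter ℂ) : Filter ℂ),
        z ∈ Metric.closedBall (0 : ℂ) M := by
      rw [Ultrafilter.coe_map, eventually_map]
      refine hM.mono fun p hp => ?_
      rw [Metric.mem_closedBall, dist_zero_right]
      exact hp.2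
    obtain ⟨c, -, hc⟩ := (isCompact_closedBall (0 : ℂ) M).ultrafilter_le_nhds' _ h1
    exact ⟨c, hc⟩
  -- the limit ring is not everything
  have hne : ∃ u : L, u ∉ limRing hL U := by
    obtain ⟨t, ht, -⟩ := id hL
    by_cases h1 : t ∈ limRing hL U
    · obtain ⟨c, hc⟩ := hlim t h1
      obtain ⟨M, hM⟩ := h1
      refine ⟨(t - algebraMap ℂ L c)⁻¹, ?_⟩
      rintro ⟨N, hN⟩
      have h2 : ∀ᶠ p in (U : Filter (Place ℂ L)), ‖val p t - c‖ * N < 1 := by
        have h3 : Tendsto (fun p : Place ℂ L => ‖val p t - c‖ * N) U (𝓝 (‖c - c‖ * N)) :=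
          ((hc.sub_const c).norm).mul_const N
        rw [sub_self, norm_zero, zero_mul] at h3
        exact h3.eventually (eventually_lt_nhds one_pos)
      obtain ⟨p, ⟨h3, h4⟩, ⟨h5, h6⟩, h7⟩ := (hN.and (hM.and h2)).exists
      have h8 : p.1 (t - algebraMap ℂ L c) ≤ 1 :=
        (p.1.map_sub _ _).trans (max_le h5 (place_const_le p c))
      have h0 : t - algebraMap ℂ L c ≠ 0 := by
        intro h0
        apply ht
        rw [sub_eq_zero] at h0
        rw [h0]
        exact isAlgebraic_algebraMap c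
      have h9 := val_mul hL h8 h3
      rw [mul_inv_cancel₀ h0, val_one, val_sub hL h5 (place_const_le p c), val_algebraMap] at h9
      have h10 : (1 : ℝ) = ‖val p t - c‖ * ‖val p (t - algebraMap ℂ L c)⁻¹‖ := by
        rw [← norm_mul, ← h9, norm_one]
      have h11 : ‖val p t - c‖ * ‖val p (t - algebraMap ℂ L c)⁻¹‖ ≤ ‖val p t - c‖ * N :=
        mul_le_mul_of_nonneg_left h4 (norm_nonneg _)
      linarith
    · exact ⟨t, h1⟩
  have hconst : ∀ c : ℂ, algebraMap ℂ L c ∈ limRing hL U := by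
    intro c
    refine ⟨‖c‖, Eventually.of_forall fun p => ⟨place_const_le p c, ?_⟩⟩
    rw [val_algebraMap]
  obtain ⟨w, hw⟩ := Pool.Agent.Lib.MP_44a246_ntSM.exists_place_of_subring hL (limRing hL U)
    hconst hne
  refine ⟨w, fun f hf => ?_⟩
  have hfm := (hw f).2 hf
  have hb : ∀ᶠ p in (U : Filter (Place ℂ L)), p.1 f ≤ 1 := by
    obtain ⟨M, hM⟩ := hfm
    exact hM.mono fun p hp => hp.1
  refine ⟨hb, ?_⟩
  obtain ⟨g, hg⟩ : ∃ g : L, g = f - algebraMap ℂ L (val w f) := ⟨_, rfl⟩
  have h1 : w.1 g < 1 := by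
    rw [hg]
    exact val_spec hL hf
  have h3 : Tendsto (fun p : Place ℂ L => val p g) U (𝓝 0) := by
    by_cases h0 : g = 0
    · rw [h0]
      have h4 : (fun p : Place ℂ L => val p (0 : L)) = fun _ => 0 := by
        funext p
        exact val_zero p
      rw [h4]
      exact tendsto_const_nhds
    · have h2 : g⁻¹ ∉ limRing hL U := by
        rw [hw]
        push Not
        rw [map_inv₀]
        exact (one_lt_inv₀ (zero_lt_iff.2 ((w.1.ne_zero_iff).2 h0))).2 h1
      have h4 := (tendsto_inv_of_not_mem hL h2).2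
      rwa [inv_inv] at h4
  have h4 : Tendsto (fun p : Place ℂ L => val p g + val w f) U (𝓝 (val w f)) := by
    have h5 := h3.add_const (val w f)
    rwa [zero_add] at h5
  refine h4.congr' ?_
  refine hb.mono fun p hp => ?_
  show val p g + val w f = val p f
  rw [hg, val_sub hL hp (place_const_le p _), val_algebraMap]
  ring

/-- **The limit place** of an ultrafilter of places. -/
theorem exists_limit (𝒰 : Ultrafilter (Place ℂ L)) :
    ∃ w : Place ℂ L, TendsP (𝒰 : Filter (Place ℂ L)) w :=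
  exists_limit_place hL 𝒰

/-- the limit of a family of places along an ultrafilter -/
theorem exists_limit_fam {ι : Type*} (U : Ultrafilter ι) (q : ι → Place ℂ L) :
    ∃ w : Place ℂ L, ∀ f : L, w.1 f ≤ 1 →
      (∀ᶠ i in (U : Filter ι), (q i).1 f ≤ 1) ∧
        Tendsto (fun i => val (q i) f) U (𝓝 (val w f)) := by
  obtain ⟨w, hw⟩ := exists_limit_place hL (U.map q)
  refine ⟨w, fun f hf => ?_⟩
  obtain ⟨h1, h2⟩ := hw f hf
  rw [Ultrafilter.coe_map] at h1 h2
  exact ⟨h1, tendsto_map'_iff.1 h2⟩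

/-- a function with a pole at the limit is not bounded -/
theorem unbounded_of_pole {ι : Type*} {U : Ultrafilter ι} {q : ι → Place ℂ L} {w : Place ℂ L}
    (hw : ∀ f : L, w.1 f ≤ 1 → (∀ᶠ i in (U : Filter ι), (q i).1 f ≤ 1) ∧
      Tendsto (fun i => val (q i) f) U (𝓝 (val w f))) {f : L} (hf : 1 < w.1 f) (M : ℝ) :
    ∀ᶠ i in (U : Filter ι), (q i).1 f ≤ 1 → M < ‖val (q i) f‖ := by
  have h0 : f ≠ 0 := by
    rintro rfl
    rw [map_zero] at hf
    exact absurd hf (not_lt.2 zero_le_one)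
  have h1 : w.1 f⁻¹ < 1 := by
    rw [map_inv₀]
    exact inv_lt_one_of_one_lt₀ hf
  obtain ⟨h2, h3⟩ := hw _ h1.le
  rw [val_of_lt h1] at h3
  have h4 : ∀ᶠ i in (U : Filter ι), ‖val (q i) f⁻¹‖ * (|M| + 1) < 1 := by
    have h5 : Tendsto (fun i => ‖val (q i) f⁻¹‖ * (|M| + 1)) U (𝓝 (‖(0 : ℂ)‖ * (|M| + 1))) :=
      h3.norm.mul_const _
    rw [norm_zero, zero_mul] at h5
    exact h5.eventually (eventually_lt_nhds one_pos)
  refine (h2.and h4).mono fun i hi h5 => ?_
  obtain ⟨h6, h7⟩ := hi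
  have h8 := val_mul hL h5 h6
  rw [mul_inv_cancel₀ h0, val_one] at h8
  by_contra hcon
  push Not at hcon
  have h9 : (1 : ℝ) = ‖val (q i) f‖ * ‖val (q i) f⁻¹‖ := by rw [← norm_mul, ← h8, norm_one]
  have h10 : ‖val (q i) f‖ * ‖val (q i) f⁻¹‖ ≤ (|M| + 1) * ‖val (q i) f⁻¹‖ := by
    refine mul_le_mul_of_nonneg_right ?_ (norm_nonneg _)
    have := le_abs_self M
    linarith
  rw [mul_comm] at h7
  linarith

/-- if all finite sets are null sets of the ultrafilter then the absolute value of a function at the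
places of the ultrafilter is, up to a bounded factor, a power of the one of a uniformiser: `ℓ` is
`- log |z|²`, it tends to infinity -/
theorem exists_ell (𝒰 : Ultrafilter (Place ℂ L)) (w : Place ℂ L)
    (h𝒰 : TendsP (𝒰 : Filter (Place ℂ L)) w) (hfin : ∀ S : Set (Place ℂ L), S.Finite → Sᶜ ∈ 𝒰) :
    ∃ ℓ : Place ℂ L → ℝ, Tendsto ℓ 𝒰 atTop ∧
      ∀ f : L, f ≠ 0 → (∀ᶠ p in (𝒰 : Filter (Place ℂ L)), p.1 f = 1) ∧
        ∃ c : ℝ, ∀ᶠ p in (𝒰 : Filter (Place ℂ L)),
          |Real.log (Complex.normSq (val p f)) - ((log (w.1 f) : ℤ) : ℝ) * ℓ p| ≤ c := by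
  have hone : ∀ f : L, f ≠ 0 → ∀ᶠ p in (𝒰 : Filter (Place ℂ L)), p.1 f = 1 := by
    intro f hf
    have h1 := hfin _ (hL.place_finite hf)
    refine mem_of_superset h1 ?_
    intro p hp
    rw [Set.mem_compl_iff, Set.mem_ofPred_eq, not_not] at hp
    exact hp
  obtain ⟨z, hz⟩ := w.2.1 (exp (-1 : ℤ))
  have hz0 : z ≠ 0 := by
    rintro rfl
    rw [map_zero] at hz
    exact exp_ne_zero hz.symm
  have hzlt : w.1 z < 1 := by
    rw [hz, ← exp_zero, exp_lt_exp]
    norm_num
  -- the logarithm of a unit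
  have hunit : ∀ u : L, w.1 u = 1 → ∃ c : ℝ, ∀ᶠ p in (𝒰 : Filter (Place ℂ L)),
      |Real.log (Complex.normSq (val p u))| ≤ c := by
    intro u hu
    obtain ⟨h1, h2⟩ := h𝒰 u hu.le
    have h3 := val_ne_zero hL hu
    have h4 : Tendsto (fun p : Place ℂ L => Complex.normSq (val p u)) 𝒰
        (𝓝 (Complex.normSq (val w u))) := (Complex.continuous_normSq.tendsto _).comp h2
    have h5 : Tendsto (fun p : Place ℂ L => |Real.log (Complex.normSq (val p u))|) 𝒰
        (𝓝 |Real.log (Complex.normSq (val w u))|) :=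
      (h4.log ((Complex.normSq_pos.2 h3).ne')).abs
    refine ⟨|Real.log (Complex.normSq (val w u))| + 1, ?_⟩
    exact (h5.eventually (eventually_lt_nhds (lt_add_one _))).mono fun p hp => hp.le
  refine ⟨fun p => - Real.log (Complex.normSq (val p z)), ?_, ?_⟩
  · obtain ⟨h1, h2⟩ := h𝒰 z hzlt.le
    rw [val_of_lt hzlt] at h2
    have h3 : Tendsto (fun p : Place ℂ L => Complex.normSq (val p z)) 𝒰 (𝓝 0) := by
      have h4 := (Complex.continuous_normSq.tendsto (0 : ℂ)).comp h2
      rw [map_zero] at h4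
      exact h4
    have h5 : Tendsto (fun p : Place ℂ L => Complex.normSq (val p z)) 𝒰 (𝓝[>] 0) := by
      refine tendsto_nhdsWithin_iff.2 ⟨h3, ?_⟩
      refine (hone z hz0).mono fun p hp => ?_
      rw [Set.mem_Ioi]
      exact Complex.normSq_pos.2 (val_ne_zero hL hp)
    exact tendsto_neg_atBot_atTop.comp (Real.tendsto_log_nhdsGT_zero.comp h5)
  · intro f hf
    refine ⟨hone f hf, ?_⟩
    obtain ⟨m, hm⟩ : ∃ m : ℤ, m = log (w.1 f) := ⟨_, rfl⟩
    have hwf : w.1 f ≠ 0 := (w.1.ne_zero_iff).2 hf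
    obtain ⟨u, hu⟩ : ∃ u : L, u = f * z ^ m := ⟨_, rfl⟩
    have hu1 : w.1 u = 1 := by
      rw [hu, map_mul, map_zpow₀, hz, ← exp_zsmul, ← exp_log hwf, ← hm, ← exp_add]
      rw [smul_eq_mul, mul_neg, mul_one, add_neg_cancel, exp_zero]
    obtain ⟨c, hc⟩ := hunit u hu1
    refine ⟨c, ?_⟩
    have hu0 : u ≠ 0 := by
      rintro rfl
      rw [map_zero] at hu1
      exact zero_ne_one hu1
    refine (((hone f hf).and (hone z hz0)).and (hc.and (hone u hu0))).mono fun p hp => ?_
    obtain ⟨⟨h1, h2⟩, h3, h4⟩ := hp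
    have h5 : val p u = val p f * val p z ^ m := by
      rcases Int.eq_nat_or_neg m with ⟨k, hk | hk⟩
      · rw [hu, hk, zpow_natCast, zpow_natCast, val_mul hL h1.le (by rw [map_pow, h2, one_pow]),
          val_pow hL h2.le]
      · have h6 : p.1 (z ^ k) = 1 := by rw [map_pow, h2, one_pow]
        rw [hu, hk, zpow_neg, zpow_neg, zpow_natCast, zpow_natCast, val_mul hL h1.le
          (by rw [map_inv₀, h6, inv_one]), val_inv hL h6, val_pow hL h2.le]
    have hf0 : Complex.normSq (val p f) ≠ 0 :=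
      (Complex.normSq_pos.2 (val_ne_zero hL h1)).ne'
    have hz0' : Complex.normSq (val p z) ≠ 0 :=
      (Complex.normSq_pos.2 (val_ne_zero hL h2)).ne'
    have h6 : Real.log (Complex.normSq (val p u)) =
        Real.log (Complex.normSq (val p f)) + m * Real.log (Complex.normSq (val p z)) := by
      rw [h5, map_mul, map_zpow₀, Real.log_mul hf0 (zpow_ne_zero _ hz0'), Real.log_zpow]
    rw [← hm]
    have h7 : Real.log (Complex.normSq (val p f)) -
        (m : ℝ) * (- Real.log (Complex.normSq (val p z))) =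
        Real.log (Complex.normSq (val p u)) := by
      rw [h6]
      ring
    rw [h7]
    exact h3

end Limit

end Pool.Agent.Lib.MP_44a246_ntMY
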