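import Pool.Agent.Lib.MP_44a246_ntMY.MY30
import Pool.Agent.Lib.MP_44a246_ntE.E10
import Pool.Agent.Lib.MP_44a246_ntSH.PJ08

/-!
# (A4) Nearby places: algebra
-/

namespace Pool.Agent.Lib.MP_44a246_ntMY

open Pool.Agent.Lib.MP_44a246_nt
open Pool.Agent.Lib.MP_44a246_ntL
open Pool.Agent.Lib.MP_44a246_ntR
open Pool.Agent.Lib.MP_44a246_ntSH
open WithZero Module Polynomial Filter Topology

/-- the value of a polynomial in two variables at `(t, f)` -/
noncomputable def ev2 {κ L : Type*} [Field κ] [Field L] [Algebra κ L] (t f : L) : κ[X][X] →+* L :=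
  eval₂RingHom (aeval t : κ[X] →ₐ[κ] L).toRingHom f

section Alg

variable {κ L : Type*} [Field κ] [Field L] [Algebra κ L]

theorem ev2_apply (t f : L) (G : κ[X][X]) :
    ev2 t f G = G.eval₂ (aeval t : κ[X] →ₐ[κ] L).toRingHom f := rfl

theorem ev2_C (t f : L) (a : κ[X]) : ev2 t f (C a) = aeval t a := by
  rw [ev2_apply, eval₂_C]
  rfl

theorem ev2_X (t f : L) : ev2 t f (X : κ[X][X]) = f := by
  rw [ev2_apply, eval₂_X]

variable [IsAlgClosed κ] [CharZero κ]

/-- a function with a pole at one place only -/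
theorem exists_pole (h : IsFF κ L) (P : Place κ L) :
    ∃ f : L, 1 < P.1 f ∧ ∀ v : Place κ L, v ≠ P → v.1 f ≤ 1 := by
  classical
  have h0 := finrank_rr_single h P (j := 2 * genus κ L) (by omega)
  have h1 := finrank_rr_single h P (j := 2 * genus κ L + 1) (by omega)
  have := finite_rr h (Finsupp.single P ((2 * genus κ L : ℕ) : ℤ))
  have hlt : ¬ rr (κ := κ) (Finsupp.single P ((2 * genus κ L + 1 : ℕ) : ℤ)) ≤
      rr (Finsupp.single P ((2 * genus κ L : ℕ) : ℤ)) := by
    intro hle
    have h2 := Submodule.finrank_mono hle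
    omega
  obtain ⟨f, hf, hf'⟩ := SetLike.not_le_iff_exists.mp hlt
  have hreg : ∀ v : Place κ L, v ≠ P → v.1 f ≤ 1 := by
    intro v hv
    have := hf v
    rwa [Finsupp.single_apply, if_neg (Ne.symm hv), exp_zero] at this
  have hP : ¬ P.1 f ≤ exp ((2 * genus κ L : ℕ) : ℤ) := by
    intro hle
    refine hf' fun v => ?_
    by_cases hv : v = P
    · rw [hv, Finsupp.single_eq_same]
      exact hle
    · rw [Finsupp.single_apply, if_neg (Ne.symm hv), exp_zero]
      exact hreg v hv
  refine ⟨f, ?_, hreg⟩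
  push Not at hP
  refine lt_of_le_of_lt ?_ hP
  rw [← exp_zero, exp_le_exp]
  exact Int.natCast_nonneg _

/-- the equation of `f` over `κ[t]`: its coefficients do not vanish simultaneously at `c` -/
theorem exists_eq (h : IsFF κ L) {t : L} (ht : Transcendental κ t) (f : L) (c : κ) :
    ∃ A : κ[X][X], A ≠ 0 ∧ ev2 t f A = 0 ∧ (∃ i, (A.coeff i).eval c ≠ 0) ∧
      ∀ G : κ[X][X], ev2 t f G = 0 → G.natDegree < A.natDegree → G = 0 := by
  classical
  have hex : ∃ A : κ[X][X], A ≠ 0 ∧ ev2 t f A = 0 := by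
    refine Pool.Agent.Lib.MP_44a246_ntE.with_sep h ht ?_
    intro i1 i2 i3 i4 i5 i6 i7 hX
    have h1 : IsAlgebraic (RatFunc κ) f := Algebra.IsAlgebraic.isAlgebraic f
    have h2 : IsAlgebraic κ[X] f := (IsFractionRing.isAlgebraic_iff κ[X] (RatFunc κ) L).2 h1
    obtain ⟨A, hA0, hA⟩ := h2
    refine ⟨A, hA0, ?_⟩
    rw [ev2_apply]
    have h3 : (aeval t : κ[X] →ₐ[κ] L).toRingHom = algebraMap κ[X] L := by
      refine Polynomial.ringHom_ext (fun a => ?_) ?_
      · show aeval t (C a) = algebraMap κ[X] L (C a)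
        rw [aeval_C, IsScalarTower.algebraMap_apply κ κ[X] L]
        rfl
      · show aeval t X = algebraMap κ[X] L X
        rw [aeval_X, hX]
    rw [h3]
    exact hA
  -- the smallest degree
  have hN : ∃ N : ℕ, ∃ A : κ[X][X], A ≠ 0 ∧ ev2 t f A = 0 ∧ A.natDegree = N := by
    obtain ⟨A, hA0, hA⟩ := hex
    exact ⟨A.natDegree, A, hA0, hA, rfl⟩
  obtain ⟨A₀, hA₀0, hA₀, hA₀N⟩ := Nat.find_spec hN
  have hmin : ∀ G : κ[X][X], ev2 t f G = 0 → G.natDegree < Nat.find hN → G = 0 := by
    intro G hG hlt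
    by_contra hG0
    exact Nat.find_min hN hlt ⟨G, hG0, hG, rfl⟩
  have hM : ∃ M : ℕ, ∃ A : κ[X][X], A ≠ 0 ∧ ev2 t f A = 0 ∧ A.natDegree = Nat.find hN ∧
      A.leadingCoeff.natDegree = M := ⟨_, A₀, hA₀0, hA₀, hA₀N, rfl⟩
  obtain ⟨A, hA0, hA, hAN, hAM⟩ := Nat.find_spec hM
  refine ⟨A, hA0, hA, ?_, fun G hG hlt => hmin G hG (by rw [← hAN]; exact hlt)⟩
  by_contra hcon
  push Not at hcon
  -- all the coefficients are divisible by `X - c`
  have h1 : ∀ i, (X - C c) ∣ A.coeff i := fun i => dvd_iff_isRoot.2 (hcon i)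
  have h2 : C (X - C c) ∣ A := (C_dvd_iff_dvd_coeff _ _).2 h1
  obtain ⟨B, hB⟩ := h2
  have hXc : (X - C c : κ[X]) ≠ 0 := X_sub_C_ne_zero c
  have hB0 : B ≠ 0 := by
    rintro rfl
    rw [mul_zero] at hB
    exact hA0 hB
  have hBd : B.natDegree = A.natDegree := by
    rw [hB, natDegree_C_mul hXc]
  have hBl : A.leadingCoeff = (X - C c) * B.leadingCoeff := by
    rw [hB, leadingCoeff_mul, leadingCoeff_C]
  have hB1 : ev2 t f B = 0 := by
    have h3 : ev2 t f A = (t - algebraMap κ L c) * ev2 t f B := by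
      rw [hB, map_mul, ev2_C, map_sub, aeval_X, aeval_C]
    rw [hA] at h3
    rcases mul_eq_zero.1 h3.symm with h4 | h4
    · exfalso
      apply ht
      rw [sub_eq_zero] at h4
      rw [h4]
      exact isAlgebraic_algebraMap c
    · exact h4
  have h5 : B.leadingCoeff.natDegree < Nat.find hM := by
    rw [← hAM, hBl, natDegree_mul hXc (leadingCoeff_ne_zero.2 hB0), natDegree_X_sub_C]
    omega
  exact Nat.find_min hM h5 ⟨B, hB0, hB1, hBd.trans hAN, rfl⟩

/-- a place over a point of the curve -/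
theorem exists_place_root (h : IsFF κ L) {t : L} (ht : Transcendental κ t) {f : L} {A : κ[X][X]}
    (hA : ev2 t f A = 0) (hmin : ∀ G : κ[X][X], ev2 t f G = 0 → G.natDegree < A.natDegree → G = 0)
    {z y : κ} (hz : A.leadingCoeff.eval z ≠ 0) (hy : (A.map (evalRingHom z)).eval y = 0) :
    ∃ q : Place κ L, q.1 (t - algebraMap κ L z) < 1 ∧ q.1 (f - algebraMap κ L y) < 1 := by
  classical
  have hA0 : A ≠ 0 := by
    rintro rfl
    rw [leadingCoeff_zero, eval_zero] at hz
    exact hz rfl
  -- the evaluation at `(z, y)`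
  obtain ⟨ψ, hψ⟩ : ∃ ψ : κ[X][X] →+* κ, ψ = eval₂RingHom (evalRingHom z) y := ⟨_, rfl⟩
  have hψC : ∀ a : κ[X], ψ (C a) = a.eval z := by
    intro a
    rw [hψ, coe_eval₂RingHom, eval₂_C]
    rfl
  have hψX : ψ X = y := by
    rw [hψ, coe_eval₂RingHom, eval₂_X]
  have hψA : ψ A = 0 := by
    rw [hψ, coe_eval₂RingHom, ← eval_map]
    exact hy
  have hker : ∀ (m : ℕ) (G : κ[X][X]), G.natDegree ≤ m → ev2 t f G = 0 → ψ G = 0 := by
    intro m
    induction m with
    | zero =>
      intro G hG hG0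
      by_cases h1 : G.natDegree < A.natDegree
      · rw [hmin G hG0 h1, map_zero]
      · -- `A` is a constant
        exfalso
        have h2 : A.natDegree = 0 := by omega
        have h3 := eq_C_of_natDegree_eq_zero h2
        rw [h3, ev2_C] at hA
        apply ht
        exact ⟨A.coeff 0, fun h4 => hA0 (by rw [h3, h4, C_0]), hA⟩
    | succ m ih =>
      intro G hG hG0
      by_cases h1 : G.natDegree < A.natDegree
      · rw [hmin G hG0 h1, map_zero]
      push Not at h1
      by_cases hA1 : A.natDegree = 0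
      · exfalso
        have h3 := eq_C_of_natDegree_eq_zero hA1
        rw [h3, ev2_C] at hA
        apply ht
        exact ⟨A.coeff 0, fun h4 => hA0 (by rw [h3, h4, C_0]), hA⟩
      obtain ⟨G', hG'⟩ : ∃ G' : κ[X][X], G' = C A.leadingCoeff * G -
        C (G.coeff G.natDegree) * X ^ (G.natDegree - A.natDegree) * A := ⟨_, rfl⟩
      have h4 : ev2 t f G' = 0 := by
        rw [hG', map_sub, map_mul, map_mul, hG0, hA, mul_zero, mul_zero, sub_zero]
      have h5 : G'.natDegree ≤ m := by
        have hle : G'.natDegree ≤ G.natDegree := by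
          rw [hG']
          refine (natDegree_sub_le _ _).trans (max_le (natDegree_C_mul_le _ _) ?_)
          refine natDegree_mul_le.trans ?_
          have h6 : (C (G.coeff G.natDegree) * X ^ (G.natDegree - A.natDegree) :
              κ[X][X]).natDegree ≤ G.natDegree - A.natDegree := natDegree_C_mul_X_pow_le _ _
          omega
        by_contra hcon
        have h7 : G'.natDegree = G.natDegree := by omega
        have h8 : G'.coeff G.natDegree = 0 := by
          rw [hG', coeff_sub, coeff_C_mul, mul_assoc, coeff_C_mul]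
          have h9 : (X ^ (G.natDegree - A.natDegree) * A).coeff G.natDegree = A.leadingCoeff := by
            have h10 : G.natDegree = A.natDegree + (G.natDegree - A.natDegree) := by omega
            rw [mul_comm]
            conv_lhs => rw [h10]
            rw [show A.natDegree + (G.natDegree - A.natDegree) - A.natDegree =
              G.natDegree - A.natDegree by omega, coeff_mul_X_pow]
            rfl
          rw [h9]
          ring
        have h9 : G' = 0 := by
          rw [← leadingCoeff_eq_zero, leadingCoeff, h7]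
          exact h8
        rw [h9, natDegree_zero] at h7
        omega
      have h6 := ih G' h5 h4
      rw [hG', map_sub, map_mul, map_mul, hψA, mul_zero, sub_zero, hψC] at h6
      exact (mul_eq_zero.1 h6).resolve_left hz
  -- the ideal of the point
  obtain ⟨R, hR⟩ : ∃ R : Subring L, R = (ev2 (κ := κ) t f).range := ⟨_, rfl⟩
  have hmem : ∀ G : κ[X][X], ev2 t f G ∈ R := by
    intro G
    rw [hR]
    exact ⟨G, rfl⟩
  have hRm : ∀ a ∈ R, ∃ H : κ[X][X], ev2 t f H = a := by
    intro a ha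
    rw [hR] at ha
    exact ha
  let I : Ideal R :=
    { carrier := {r | ∃ G : κ[X][X], ev2 t f G = r ∧ ψ G = 0}
      add_mem' := by
        rintro a b ⟨G, h1, h2⟩ ⟨H, h3, h4⟩
        exact ⟨G + H, by rw [map_add, h1, h3]; rfl, by rw [map_add, h2, h4, add_zero]⟩
      zero_mem' := ⟨0, by rw [map_zero]; rfl, by rw [map_zero]⟩
      smul_mem' := by
        rintro a b ⟨G, h1, h2⟩
        obtain ⟨H, hH⟩ : ∃ H : κ[X][X], ev2 t f H = a := hRm a.1 a.2
        refine ⟨H * G, ?_, ?_⟩
        · rw [map_mul, hH, h1]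
          rfl
        · rw [map_mul, h2, mul_zero] }
  have hI : I ≠ ⊤ := by
    intro hI
    have h1 : (1 : R) ∈ I := by rw [hI]; trivial
    obtain ⟨G, h2, h3⟩ := h1
    have h4 : ev2 t f (1 - G) = 0 := by
      rw [map_sub, map_one, h2]
      exact sub_self _
    have h5 := hker _ (1 - G) le_rfl h4
    rw [map_sub, map_one, h3, sub_zero] at h5
    exact one_ne_zero h5
  obtain ⟨B, hB1, hB2⟩ := Ideal.image_subset_nonunits_valuationSubring I hI
  have hconst : ∀ c : κ, algebraMap κ L c ∈ B := by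
    intro c
    apply hB1
    have h1 := hmem (C (C c))
    rwa [ev2_C, aeval_C] at h1
  have hnon : ∀ G : κ[X][X], ψ G = 0 → ev2 t f G ∈ B.nonunits := by
    intro G hG
    exact hB2 ⟨⟨ev2 t f G, hmem G⟩, ⟨G, rfl, hG⟩, rfl⟩
  have hnu : ∀ u : L, u ∈ B.nonunits → u ≠ 0 → u⁻¹ ∉ B := by
    intro u hu hu0 h1
    rw [ValuationSubring.mem_nonunits_iff] at hu
    have h2 : B.valuation u⁻¹ ≤ 1 := (ValuationSubring.valuation_le_one_iff B _).2 h1
    rw [map_inv₀] at h2
    have h3 : B.valuation u ≠ 0 := (Valuation.ne_zero_iff _).2 hu0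
    have h4 : 1 < (B.valuation u)⁻¹ := (one_lt_inv₀ (zero_lt_iff.2 h3)).2 hu
    exact absurd h2 (not_le.2 h4)
  have ht0 : ∀ c : κ, t - algebraMap κ L c ≠ 0 := by
    intro c h1
    apply ht
    rw [sub_eq_zero] at h1
    rw [h1]
    exact isAlgebraic_algebraMap c
  have e1 : ev2 t f (C (X - C z)) = t - algebraMap κ L z := by
    rw [ev2_C, map_sub, aeval_X, aeval_C]
  have e2 : ev2 t f (X - C (C y)) = f - algebraMap κ L y := by
    rw [map_sub, ev2_X, ev2_C, aeval_C]
  have n1 : t - algebraMap κ L z ∈ B.nonunits := by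
    rw [← e1]
    apply hnon
    rw [hψC, eval_sub, eval_X, eval_C, sub_self]
  have n2 : f - algebraMap κ L y ∈ B.nonunits := by
    rw [← e2]
    apply hnon
    rw [map_sub, hψX, hψC, eval_C, sub_self]
  obtain ⟨q, hq⟩ := Pool.Agent.Lib.MP_44a246_ntSM.exists_place_of_subring h B hconst
    ⟨_, hnu _ n1 (ht0 z)⟩
  have key : ∀ u : L, u ∈ B.nonunits → q.1 u < 1 := by
    intro u hu
    by_cases hu0 : u = 0
    · rw [hu0, map_zero]
      exact zero_lt_one
    · have h1 := hnu u hu hu0
      rw [hq] at h1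
      push Not at h1
      rw [map_inv₀] at h1
      exact (one_lt_inv₀ (zero_lt_iff.2 ((q.1.ne_zero_iff).2 hu0))).1 h1
  exact ⟨q, key _ n1, key _ n2⟩

end Alg

end Pool.Agent.Lib.MP_44a246_ntMY
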