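import Pool.Agent.Lib.MP_44a246_ntMY.MY30
import Pool.Agent.Lib.MP_44a246_ntMY.MY41

/-!
# (A4) Nearby places, the expansion of Taylor
-/

namespace Pool.Agent.Lib.MP_44a246_ntMY

open Pool.Agent.Lib.MP_44a246_nt
open Pool.Agent.Lib.MP_44a246_ntL
open Pool.Agent.Lib.MP_44a246_ntR
open WithZero Module Polynomial Filter Topology

/-- if the leading coefficient vanishes at `c` and another one does not, there is a root which tends
to infinity -/
theorem exists_large_root {A : ℂ[X][X]} {c : ℂ} (hA0 : A ≠ 0) (hlead : A.leadingCoeff.eval c = 0)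
    (hi : ∃ i, (A.coeff i).eval c ≠ 0) :
    ∃ y : ℂ → ℂ, (∀ᶠ z in 𝓝[≠] c, A.leadingCoeff.eval z ≠ 0 ∧
      (A.map (evalRingHom z)).eval (y z) = 0) ∧ ∀ M : ℝ, ∀ᶠ z in 𝓝[≠] c, M < ‖y z‖ := by
  classical
  obtain ⟨i, hi⟩ := hi
  have hN : A.natDegree ≠ 0 := by
    intro h0
    have h1 : i ≤ A.natDegree := le_natDegree_of_ne_zero fun h2 => hi (by rw [h2, eval_zero])
    have h2 : i = A.natDegree := by omega
    rw [h2] at hi
    exact hi hlead
  have hex : ∀ z : ℂ, ∃ y : ℂ, A.leadingCoeff.eval z ≠ 0 →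
      (A.map (evalRingHom z)).eval y = 0 ∧
      ∀ y' : ℂ, (A.map (evalRingHom z)).eval y' = 0 → ‖y'‖ ≤ ‖y‖ := by
    intro z
    by_cases hz : A.leadingCoeff.eval z ≠ 0
    · have hd : (A.map (evalRingHom z)).natDegree = A.natDegree :=
        natDegree_map_of_leadingCoeff_ne_zero _ hz
      have h0 : A.map (evalRingHom z) ≠ 0 := by
        intro h0
        rw [h0, natDegree_zero] at hd
        exact hN hd.symm
      obtain ⟨y₀, hy₀⟩ := IsAlgClosed.exists_root (A.map (evalRingHom z)) (by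
        intro h1
        have h2 := natDegree_eq_of_degree_eq_some h1
        rw [hd] at h2
        exact hN h2)
      obtain ⟨y, hy, hmax⟩ := Finset.exists_max_image (A.map (evalRingHom z)).roots.toFinset
        (fun y => ‖y‖) ⟨y₀, by rw [Multiset.mem_toFinset, mem_roots h0]; exact hy₀⟩
      refine ⟨y, fun _ => ⟨?_, fun y' hy' => hmax y' ?_⟩⟩
      · rw [Multiset.mem_toFinset, mem_roots h0] at hy
        exact hy
      · rw [Multiset.mem_toFinset, mem_roots h0]
        exact hy'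
    · exact ⟨0, fun h => absurd h hz⟩
  choose y hy using hex
  have hl0 : A.leadingCoeff ≠ 0 := leadingCoeff_ne_zero.2 hA0
  have hne : ∀ᶠ z in 𝓝[≠] c, A.leadingCoeff.eval z ≠ 0 := by
    have hfin : {z | A.leadingCoeff.IsRoot z}.Finite := finite_setOf_isRoot hl0
    have h1 : ({z | A.leadingCoeff.IsRoot z} \ {c})ᶜ ∈ 𝓝 c :=
      (hfin.subset Set.diff_subset).isClosed.isOpen_compl.mem_nhds (by
        rintro ⟨-, h2⟩
        exact h2 rfl)
    rw [eventually_nhdsWithin_iff]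
    refine mem_of_superset h1 ?_
    intro z hz hzc h3
    exact hz ⟨h3, hzc⟩
  refine ⟨y, hne.mono fun z hz => ⟨hz, (hy z hz).1⟩, fun M => ?_⟩
  obtain ⟨B, hB⟩ : ∃ B : ℝ, B = max M 1 ^ A.natDegree * A.natDegree.choose (A.natDegree / 2) :=
    ⟨_, rfl⟩
  have h1 : ∀ᶠ z in 𝓝[≠] c, B * ‖A.leadingCoeff.eval z‖ < ‖(A.coeff i).eval z‖ := by
    have h2 : Tendsto (fun z => ‖(A.coeff i).eval z‖ - B * ‖A.leadingCoeff.eval z‖) (𝓝 c)
        (𝓝 (‖(A.coeff i).eval c‖ - B * ‖A.leadingCoeff.eval c‖)) := by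
      refine ((A.coeff i).continuous.norm.tendsto c).sub ?_
      exact (A.leadingCoeff.continuous.norm.tendsto c).const_mul B
    rw [hlead, norm_zero, mul_zero, sub_zero] at h2
    have h3 := h2.eventually (eventually_gt_nhds (norm_pos_iff.2 hi))
    refine (h3.filter_mono nhdsWithin_le_nhds).mono fun z hz => ?_
    linarith
  refine (h1.and hne).mono fun z hz => ?_
  obtain ⟨h2, h3⟩ := hz
  by_contra hcon
  push Not at hcon
  have hd : (A.map (evalRingHom z)).natDegree = A.natDegree :=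
    natDegree_map_of_leadingCoeff_ne_zero _ h3
  have hlc : (A.map (evalRingHom z)).leadingCoeff = A.leadingCoeff.eval z :=
    leadingCoeff_map_of_leadingCoeff_ne_zero _ h3
  obtain ⟨P, hP⟩ : ∃ P : ℂ[X], P = C (A.leadingCoeff.eval z)⁻¹ * A.map (evalRingHom z) := ⟨_, rfl⟩
  have hPm : P.Monic := by
    rw [Monic, hP, leadingCoeff_mul, leadingCoeff_C, hlc]
    exact inv_mul_cancel₀ h3
  have hPd : P.natDegree ≤ A.natDegree := by
    rw [hP]
    refine (natDegree_C_mul_le _ _).trans hd.le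
  have hroots : ∀ w ∈ (P.map (RingHom.id ℂ)).roots, ‖w‖ ≤ M := by
    intro w hw
    rw [Polynomial.map_id, mem_roots hPm.ne_zero, IsRoot, hP, eval_mul, eval_C] at hw
    have h4 := (mul_eq_zero.1 hw).resolve_left (inv_ne_zero h3)
    exact ((hy z h3).2 w h4).trans hcon
  have h5 := coeff_bdd_of_roots_le (RingHom.id ℂ) hPm (IsAlgClosed.splits _) hPd hroots i
  rw [Polynomial.map_id, hP, coeff_C_mul, coeff_map, coe_evalRingHom, norm_mul, norm_inv, ← hB] at h5
  have h6 : 0 < ‖A.leadingCoeff.eval z‖ := norm_pos_iff.2 h3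
  rw [inv_mul_le_iff₀ h6] at h5
  linarith

variable {L : Type*} [Field L] [Algebra ℂ L]

/-- **The nearby places.** `t - c` is a uniformiser of the place `p`: there are places `Q s` at which
`t` has the value `c + s`, and which tend to `p` for `s → 0`. -/
theorem exists_near (hL : IsFF ℂ L) {t : L} {c : ℂ} {p : Place ℂ L}
    (hp : p.1 (t - algebraMap ℂ L c) = exp (-1 : ℤ)) :
    ∃ Q : ℂ → Place ℂ L, (∀ᶠ s in 𝓝[≠] (0 : ℂ), val (Q s) t = c + s ∧ (Q s).1 t ≤ 1) ∧
      TendsP (map Q (𝓝[≠] (0 : ℂ))) p := by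
  classical
  have hplt : p.1 (t - algebraMap ℂ L c) < 1 := by
    rw [hp, ← exp_zero, exp_lt_exp]
    norm_num
  have hpt : p.1 t ≤ 1 := by
    have h1 : t = (t - algebraMap ℂ L c) + algebraMap ℂ L c := by ring
    rw [h1]
    exact (p.1.map_add _ _).trans (max_le hplt.le (place_const_le p c))
  have ht : Transcendental ℂ t := by
    intro h1
    have h2 : IsAlgebraic ℂ (t - algebraMap ℂ L c) := h1.sub (isAlgebraic_algebraMap c)
    obtain ⟨a, ha⟩ : ∃ a : ℂ, algebraMap ℂ L a = t - algebraMap ℂ L c := by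
      exact minpoly.mem_range_of_degree_eq_one ℂ _
        (IsAlgClosed.degree_eq_one_of_irreducible ℂ (minpoly.irreducible h2.isIntegral))
    rw [← ha] at hp
    by_cases h0 : a = 0
    · rw [h0, map_zero, map_zero] at hp
      exact exp_ne_zero hp.symm
    · rw [p.2.2 a h0] at hp
      have h4 : (exp (-1 : ℤ) : ℤᵐ⁰) < 1 := by
        rw [← exp_zero, exp_lt_exp]
        norm_num
      rw [← hp] at h4
      exact lt_irrefl _ h4
  obtain ⟨f, hfp, hfo⟩ := exists_pole hL p
  obtain ⟨A, hA0, hA, hi, hmin⟩ := exists_eq hL ht f c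
  -- the values of polynomials in `t`
  have haev : ∀ a : ℂ[X], p.1 (aeval t a) ≤ 1 ∧ val p (aeval t a) = a.eval c := by
    intro a
    induction a using Polynomial.induction_on' with
    | add a b ha hb =>
      rw [map_add, eval_add]
      refine ⟨(p.1.map_add _ _).trans (max_le ha.1 hb.1), ?_⟩
      rw [val_add hL ha.1 hb.1, ha.2, hb.2]
    | monomial n a =>
      have h1 : p.1 (t ^ n) ≤ 1 := by
        rw [map_pow]
        exact pow_le_one₀ zero_le hpt
      rw [aeval_monomial, eval_monomial]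
      refine ⟨?_, ?_⟩
      · rw [map_mul]
        calc p.1 (algebraMap ℂ L a) * p.1 (t ^ n) ≤ 1 * 1 := by
              gcongr
              exact place_const_le p a
          _ = 1 := one_mul 1
      · rw [val_mul hL (place_const_le p a) h1, val_algebraMap, val_pow hL hpt, val_unique hplt]
  -- the leading coefficient vanishes at `c`
  have hlead : A.leadingCoeff.eval c = 0 := by
    by_contra hcon
    have h1 : p.1 (aeval t A.leadingCoeff) = 1 := by
      refine place_eq_one (haev _).1 ?_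
      rw [(haev _).2]
      exact hcon
    have h2 : aeval t A.leadingCoeff * f ^ A.natDegree =
        - ∑ i ∈ Finset.range A.natDegree, aeval t (A.coeff i) * f ^ i := by
      have h3 := hA
      rw [ev2_apply, eval₂_eq_sum_range, Finset.sum_range_succ] at h3
      have h4 : ∀ i, (aeval t : ℂ[X] →ₐ[ℂ] L).toRingHom (A.coeff i) = aeval t (A.coeff i) :=
        fun i => rfl
      simp only [h4] at h3
      have h5 : A.coeff A.natDegree = A.leadingCoeff := rfl
      rw [h5] at h3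
      exact (neg_eq_of_add_eq_zero_right h3).symm
    have h3 : p.1 f ^ A.natDegree = p.1 (∑ i ∈ Finset.range A.natDegree,
        aeval t (A.coeff i) * f ^ i) := by
      have h4 := congrArg p.1 h2
      rw [map_mul, h1, one_mul, map_pow, Valuation.map_neg] at h4
      exact h4
    have h4 : p.1 (∑ i ∈ Finset.range A.natDegree, aeval t (A.coeff i) * f ^ i) <
        p.1 f ^ A.natDegree := by
      refine p.1.map_sum_lt (pow_ne_zero _ (ne_of_gt (zero_lt_one.trans hfp))) fun i hi => ?_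
      rw [map_mul, map_pow]
      calc p.1 (aeval t (A.coeff i)) * p.1 f ^ i ≤ 1 * p.1 f ^ i := by
            gcongr
            exact (haev _).1
        _ = p.1 f ^ i := one_mul _
        _ < p.1 f ^ A.natDegree := pow_lt_pow_right₀ hfp (Finset.mem_range.1 hi)
    rw [← h3] at h4
    exact lt_irrefl _ h4
  obtain ⟨y, hy, hyM⟩ := exists_large_root hA0 hlead hi
  -- the places
  have hex : ∀ s : ℂ, ∃ q : Place ℂ L, (A.leadingCoeff.eval (c + s) ≠ 0 ∧
      (A.map (evalRingHom (c + s))).eval (y (c + s)) = 0) →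
      q.1 (t - algebraMap ℂ L (c + s)) < 1 ∧ q.1 (f - algebraMap ℂ L (y (c + s))) < 1 := by
    intro s
    by_cases h : A.leadingCoeff.eval (c + s) ≠ 0 ∧
      (A.map (evalRingHom (c + s))).eval (y (c + s)) = 0
    · obtain ⟨q, hq⟩ := exists_place_root hL ht hA hmin h.1 h.2
      exact ⟨q, fun _ => hq⟩
    · exact ⟨p, fun h' => absurd h' h⟩
  choose Q hQ using hex
  have hmap : Tendsto (fun s : ℂ => c + s) (𝓝[≠] 0) (𝓝[≠] c) := by
    refine tendsto_nhdsWithin_iff.2 ⟨?_, ?_⟩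
    · have h1 : Tendsto (fun s : ℂ => c + s) (𝓝 0) (𝓝 (c + 0)) :=
        (continuous_const.add continuous_id).tendsto 0
      rw [add_zero] at h1
      exact h1.mono_left nhdsWithin_le_nhds
    · refine eventually_nhdsWithin_of_forall fun s hs => ?_
      intro h1
      apply hs
      have h2 : c + s = c := h1
      exact Set.mem_singleton_iff.2 (by linear_combination h2)
  have hgood : ∀ᶠ s in 𝓝[≠] (0 : ℂ), (Q s).1 (t - algebraMap ℂ L (c + s)) < 1 ∧
      (Q s).1 (f - algebraMap ℂ L (y (c + s))) < 1 :=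
    (hmap.eventually hy).mono fun s hs => hQ s hs
  have hle : ∀ (s : ℂ) (g : L) (a : ℂ), (Q s).1 (g - algebraMap ℂ L a) < 1 → (Q s).1 g ≤ 1 := by
    intro s g a h
    have h1 : g = (g - algebraMap ℂ L a) + algebraMap ℂ L a := by ring
    rw [h1]
    exact ((Q s).1.map_add _ _).trans (max_le h.le (place_const_le _ a))
  have hQt : ∀ᶠ s in 𝓝[≠] (0 : ℂ), val (Q s) t = c + s ∧ (Q s).1 t ≤ 1 :=
    hgood.mono fun s hs => ⟨val_unique hs.1, hle s _ _ hs.1⟩
  have hQf : ∀ M : ℝ, ∀ᶠ s in 𝓝[≠] (0 : ℂ), (Q s).1 f ≤ 1 ∧ M < ‖val (Q s) f‖ := by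
    intro M
    refine (hgood.and (hmap.eventually (hyM M))).mono fun s hs => ?_
    obtain ⟨⟨h1, h2⟩, h3⟩ := hs
    exact ⟨hle s _ _ h2, by rw [val_unique h2]; exact h3⟩
  refine ⟨Q, hQt, ?_⟩
  -- the limits along ultrafilters
  have hult : ∀ U : Ultrafilter ℂ, (U : Filter ℂ) ≤ 𝓝[≠] (0 : ℂ) → ∀ g : L, p.1 g ≤ 1 →
      (∀ᶠ s in (U : Filter ℂ), (Q s).1 g ≤ 1) ∧
        Tendsto (fun s => val (Q s) g) U (𝓝 (val p g)) := by
    intro U hU
    obtain ⟨w, hw⟩ := exists_limit_fam hL U Q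
    suffices hwp : w = p by
      rw [← hwp]
      exact hw
    by_contra hne
    obtain ⟨h1, h2⟩ := hw f (hfo w hne)
    have h3 : ∀ᶠ s in (U : Filter ℂ), ‖val (Q s) f‖ < ‖val w f‖ + 1 :=
      (h2.norm).eventually (eventually_lt_nhds (lt_add_one _))
    obtain ⟨s, h4, h5⟩ := (h3.and (hU (hQf (‖val w f‖ + 1)))).exists
    exact absurd h4 (not_lt.2 h5.2.le)
  intro g hg
  constructor
  · rw [eventually_map]
    have h1 : {s | (Q s).1 g ≤ 1} ∈ 𝓝[≠] (0 : ℂ) := by
      rw [mem_iff_ultrafilter]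
      intro U hU
      exact (hult U hU g hg).1
    exact h1
  · rw [tendsto_map'_iff, tendsto_iff_ultrafilter]
    intro U hU
    exact (hult U hU g hg).2

/-- **The expansion of Taylor.** -/
theorem hasH_val (hL : IsFF ℂ L) {t : L} {c : ℂ} {p : Place ℂ L}
    (hp : p.1 (t - algebraMap ℂ L c) = exp (-1 : ℤ)) {Q : ℂ → Place ℂ L}
    (hQ : ∀ᶠ s in 𝓝[≠] (0 : ℂ), val (Q s) t = c + s ∧ (Q s).1 t ≤ 1)
    (hQ' : TendsP (map Q (𝓝[≠] (0 : ℂ))) p) {D : Derivation ℂ L L} (hD : D t = 1)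
    (hDp : ∀ f, p.1 f ≤ 1 → p.1 (D f) ≤ 1) {f : L} (hf : p.1 f ≤ 1) :
    HasH (fun s => val (Q s) f) (val p f) (val p (D f)) (val p (D (D f)) / 2) := by
  obtain ⟨π, hπ⟩ : ∃ π : L, π = t - algebraMap ℂ L c := ⟨_, rfl⟩
  rw [← hπ] at hp
  have hπ0 : π ≠ 0 := by
    rintro h0
    rw [h0, map_zero] at hp
    exact exp_ne_zero hp.symm
  have hπlt : p.1 π < 1 := by
    rw [hp, ← exp_zero, exp_lt_exp]
    norm_num
  have hDπ : D π = 1 := by
    rw [hπ, map_sub, hD, D.map_algebraMap, sub_zero]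
  -- division by the uniformiser
  have hdiv : ∀ g : L, p.1 g ≤ 1 → ∃ g' : L, p.1 g' ≤ 1 ∧
      g = algebraMap ℂ L (val p g) + π * g' := by
    intro g hg
    have h1 := val_spec hL hg
    refine ⟨(g - algebraMap ℂ L (val p g)) / π, ?_, ?_⟩
    · rw [map_div₀]
      by_cases h0 : p.1 (g - algebraMap ℂ L (val p g)) = 0
      · rw [h0, zero_div]
        exact zero_le_one
      · have h2 : log (p.1 (g - algebraMap ℂ L (val p g))) < 0 := by
          have h4 := (log_lt_log h0 one_ne_zero).2 h1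
          rwa [log_one] at h4
        have h3 : p.1 (g - algebraMap ℂ L (val p g)) ≤ p.1 π := by
          rw [hp, ← exp_log h0, exp_le_exp]
          omega
        exact div_le_one_of_le₀ h3 zero_le
    · rw [mul_div_cancel₀ _ hπ0]
      ring
  obtain ⟨f1, hf1, e1⟩ := hdiv f hf
  obtain ⟨f2, hf2, e2⟩ := hdiv f1 hf1
  obtain ⟨f3, hf3, e3⟩ := hdiv f2 hf2
  obtain ⟨a0, ha0⟩ : ∃ a : ℂ, a = val p f := ⟨_, rfl⟩
  obtain ⟨a1, ha1⟩ : ∃ a : ℂ, a = val p f1 := ⟨_, rfl⟩
  obtain ⟨a2, ha2⟩ : ∃ a : ℂ, a = val p f2 := ⟨_, rfl⟩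
  rw [← ha0] at e1
  rw [← ha1] at e2
  rw [← ha2] at e3
  -- the derivatives
  have d1 : D f = f1 + π * D f1 := by
    conv_lhs => rw [e1]
    rw [map_add, D.map_algebraMap, zero_add, Derivation.leibniz, hDπ, smul_eq_mul, smul_eq_mul]
    ring
  have d2 : D f1 = f2 + π * D f2 := by
    conv_lhs => rw [e2]
    rw [map_add, D.map_algebraMap, zero_add, Derivation.leibniz, hDπ, smul_eq_mul, smul_eq_mul]
    ring
  have hDf1 := hDp f1 hf1
  have hDf2 := hDp f2 hf2
  have hval_π : ∀ g : L, p.1 g ≤ 1 → p.1 (π * g) ≤ 1 ∧ val p (π * g) = 0 := by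
    intro g hg
    have h1 : p.1 (π * g) < 1 := by
      rw [map_mul]
      calc p.1 π * p.1 g ≤ p.1 π * 1 := by gcongr
        _ < 1 := by rw [mul_one]; exact hπlt
    exact ⟨h1.le, val_of_lt h1⟩
  have v1 : val p (D f) = a1 := by
    rw [d1, val_add hL hf1 (hval_π _ hDf1).1, (hval_π _ hDf1).2, add_zero, ha1]
  have v2 : val p (D (D f)) = 2 * a2 := by
    have h1 : D (D f) = 2 * D f1 + π * D (D f1) := by
      conv_lhs => rw [d1]
      rw [map_add, Derivation.leibniz, hDπ, smul_eq_mul, smul_eq_mul]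
      ring
    have h2 : p.1 (2 * D f1) ≤ 1 := by
      have h3 : (2 : L) = algebraMap ℂ L 2 := by rw [map_ofNat]
      rw [h3, map_mul]
      calc p.1 (algebraMap ℂ L 2) * p.1 (D f1) ≤ 1 * 1 := by
            gcongr
            exact place_const_le p 2
        _ = 1 := one_mul 1
    have h4 : val p (2 * D f1) = 2 * val p (D f1) := by
      have h3 : (2 : L) = algebraMap ℂ L 2 := by rw [map_ofNat]
      rw [h3, val_mul hL (place_const_le p 2) hDf1, val_algebraMap]
    have h5 : val p (D f1) = a2 := by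
      rw [d2, val_add hL hf2 (hval_π _ hDf2).1, (hval_π _ hDf2).2, add_zero, ha2]
    have h6 := hval_π _ (hDp _ hDf1)
    rw [h1, val_add hL h2 h6.1, h6.2, add_zero, h4, h5]
  -- the expansion
  obtain ⟨h1, h2⟩ := hQ' f3 hf3
  rw [eventually_map] at h1
  rw [tendsto_map'_iff] at h2
  have hexp : ∀ᶠ s in 𝓝[≠] (0 : ℂ), val (Q s) f - (a0 + a1 * s + a2 * s ^ 2) =
      s ^ 3 * val (Q s) f3 := by
    refine (hQ.and h1).mono fun s hs => ?_
    obtain ⟨⟨h3, h4⟩, h5⟩ := hs
    have h6 : (Q s).1 π ≤ 1 := by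
      rw [hπ]
      exact ((Q s).1.map_sub _ _).trans (max_le h4 (place_const_le _ c))
    have h7 : val (Q s) π = s := by
      rw [hπ, val_sub hL h4 (place_const_le _ c), h3, val_algebraMap]
      ring
    have hmul : ∀ (a : ℂ) (g : L), (Q s).1 g ≤ 1 →
        (Q s).1 (algebraMap ℂ L a + π * g) ≤ 1 ∧
        val (Q s) (algebraMap ℂ L a + π * g) = a + s * val (Q s) g := by
      intro a g hg
      have h8 : (Q s).1 (π * g) ≤ 1 := by
        rw [map_mul]
        calc (Q s).1 π * (Q s).1 g ≤ 1 * 1 := by gcongr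
          _ = 1 := one_mul 1
      refine ⟨((Q s).1.map_add _ _).trans (max_le (place_const_le _ a) h8), ?_⟩
      rw [val_add hL (place_const_le _ a) h8, val_algebraMap, val_mul hL h6 hg, h7]
    have r3 := hmul a2 f3 h5
    rw [← e3] at r3
    have r2 := hmul a1 f2 r3.1
    rw [← e2] at r2
    have r1 := hmul a0 f1 r2.1
    rw [← e1] at r1
    rw [r1.2, r2.2, r3.2]
    ring
  unfold HasH
  rw [v1, v2, ← ha0, mul_div_cancel_left₀ _ (two_ne_zero' ℂ)]
  have hO : (fun s => s ^ 3 * val (Q s) f3) =O[𝓝[≠] (0 : ℂ)] fun s => ‖s‖ ^ 3 := by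
    have h3 : (fun s => val (Q s) f3) =O[𝓝[≠] (0 : ℂ)] fun _ => (1 : ℝ) := h2.isBigO_one ℝ
    have h4 : (fun s : ℂ => s ^ 3) =O[𝓝[≠] (0 : ℂ)] fun s => ‖s‖ ^ 3 := by
      refine Asymptotics.isBigO_of_le _ fun s => ?_
      rw [norm_pow, norm_pow, norm_norm]
    have h5 := h4.mul h3
    simpa using h5
  exact hO.congr' (hexp.mono fun s hs => hs.symm) (Eventually.of_forall fun s => rfl)

end Pool.Agent.Lib.MP_44a246_ntMY
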