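import Pool.Agent.Lib.MP_44a246_ntMY.MY00
import Pool.Agent.Lib.MP_44a246_ntE.E01
import Pool.Agent.Lib.MP_44a246_ntS.SP1b
import Pool.Agent.Lib.MP_44a246_ntR.GR5

/-!
# (A5) The singular places: the derivation and the ramification
-/

namespace Pool.Agent.Lib.MP_44a246_ntMY

open Pool.Agent.Lib.MP_e52354_nt
open Pool.Agent.Lib.MP_44a246_nt
open Pool.Agent.Lib.MP_44a246_ntL
open Pool.Agent.Lib.MP_44a246_ntR
open Pool.Agent.Lib.MP_44a246_ntS
open Pool.Agent.Lib.MP_44a246_ntE
open WithZero Module Polynomial Filter Topology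

variable {L : Type*} [Field L] [Algebra ℂ L]

/-- the auxiliary algebra structures -/
private theorem my50_ind [Algebra (RatFunc ℂ) L] [IsScalarTower ℂ (RatFunc ℂ) L]
    [FiniteDimensional (RatFunc ℂ) L] {P : Prop}
    (h : ∀ (_ : Algebra ℂ[X] L) (_ : IsScalarTower ℂ ℂ[X] L)
      (_ : IsScalarTower ℂ[X] (RatFunc ℂ) L)
      (_ : Algebra (Rinf ℂ) L) (_ : IsScalarTower (Rinf ℂ) (RatFunc ℂ) L), P) : P := by
  let iX : Algebra ℂ[X] L :=
    ((algebraMap (RatFunc ℂ) L).comp (algebraMap ℂ[X] (RatFunc ℂ))).toAlgebra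
  let iR : Algebra (Rinf ℂ) L :=
    ((algebraMap (RatFunc ℂ) L).comp (algebraMap (Rinf ℂ) (RatFunc ℂ))).toAlgebra
  have t1 : IsScalarTower ℂ[X] (RatFunc ℂ) L := IsScalarTower.of_algebraMap_eq' rfl
  have t2 : IsScalarTower (Rinf ℂ) (RatFunc ℂ) L := IsScalarTower.of_algebraMap_eq' rfl
  have t3 : IsScalarTower ℂ ℂ[X] L := IsScalarTower.of_algebraMap_eq fun u => by
    rw [IsScalarTower.algebraMap_apply ℂ (RatFunc ℂ) L, IsScalarTower.algebraMap_apply ℂ[X]
      (RatFunc ℂ) L, ← IsScalarTower.algebraMap_apply ℂ ℂ[X] (RatFunc ℂ)]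
  exact h iX t3 t1 iR t2

private theorem my50_ramIdx (w : Place ℂ L) [Algebra (RatFunc ℂ) L]
    [FiniteDimensional (RatFunc ℂ) L] :
    ((ramIdx (RatFunc ℂ) w.1 - 1 : ℕ) : ℤ) = (ramIdx (RatFunc ℂ) w.1 : ℤ) - 1 := by
  have := one_le_ramIdx (K := RatFunc ℂ) w.1 w.2.1
  omega

/-- the derivation over the integers -/
private def my50_D (D : Derivation ℂ L L) : Derivation ℤ L L :=
  Derivation.mk' (D.toLinearMap.restrictScalars ℤ) (fun a b => Derivation.leibniz D a b)

/-- the derivation `d / dt` and the ramification: a regular function has a derivative with a pole of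
order at most `e - 1` -/
theorem der_le [Algebra (RatFunc ℂ) L] [IsScalarTower ℂ (RatFunc ℂ) L]
    [FiniteDimensional (RatFunc ℂ) L] {D : Derivation ℂ L L}
    (hD : D (algebraMap (RatFunc ℂ) L RatFunc.X) = 1) (w : Place ℂ L) {f : L} (hf : w.1 f ≤ 1) :
    w.1 (D f) ≤ exp ((ramIdx (RatFunc ℂ) w.1 : ℤ) - 1) := by
  refine my50_ind (L := L) ?_
  intro iX t3 t1 iR t2
  have hX : algebraMap ℂ[X] L X = algebraMap (RatFunc ℂ) L RatFunc.X := by
    rw [IsScalarTower.algebraMap_apply ℂ[X] (RatFunc ℂ) L, RatFunc.algebraMap_X]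
  have h := der_place w (my50_D D) (fun u => ⟨0, by
    rw [map_zero]
    exact D.map_algebraMap u⟩) ⟨1, by
    rw [map_one, hX]
    exact hD⟩ hf
  rw [my50_ramIdx] at h
  exact h

theorem logder_le [Algebra (RatFunc ℂ) L] [IsScalarTower ℂ (RatFunc ℂ) L]
    [FiniteDimensional (RatFunc ℂ) L] {D : Derivation ℂ L L}
    (hD : D (algebraMap (RatFunc ℂ) L RatFunc.X) = 1) (w : Place ℂ L) (f : L) :
    w.1 (D f) ≤ w.1 f * exp (ramIdx (RatFunc ℂ) w.1 : ℤ) := by
  rcases eq_or_ne f 0 with rfl | hf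
  · rw [map_zero, map_zero, zero_mul]
  obtain ⟨π, hπ⟩ := w.2.1 (exp (-1 : ℤ))
  have hπ0 : π ≠ 0 := by
    rintro rfl
    rw [map_zero] at hπ
    exact exp_ne_zero hπ.symm
  have hvf : w.1 f ≠ 0 := (w.1.ne_zero_iff).mpr hf
  have hpow : ∀ k : ℤ, w.1 (π ^ k) = exp (-k) := by
    intro k
    rw [map_zpow₀, hπ, ← exp_zsmul, smul_eq_mul]
    congr 1
    ring
  -- `f = π ^ k * u`
  set k : ℤ := - log (w.1 f) with hk
  set u : L := f / π ^ k with hu
  have hpk : π ^ k ≠ 0 := zpow_ne_zero k hπ0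
  have hvk : w.1 (π ^ k) = w.1 f := by
    rw [hpow, hk, neg_neg, exp_log hvf]
  have hfu : f = π ^ k * u := by
    rw [hu]
    field_simp
  have hu1 : w.1 u = 1 := by
    rw [hu, map_div₀, hvk, div_self hvf]
  have hDu := der_le hD w hu1.le
  have hDπ := der_le hD w (f := π) (by
    rw [hπ, ← exp_zero, exp_le_exp]
    omega)
  have hderk : ∀ n : ℕ, D (π ^ n) = π ^ n * ((n : L) * π⁻¹ * D π) := by
    intro n
    rw [Derivation.leibniz_pow]
    rcases Nat.eq_zero_or_pos n with rfl | hn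
    · simp
    · obtain ⟨m, rfl⟩ : ∃ m, n = m + 1 := ⟨n - 1, by omega⟩
      rw [Nat.add_sub_cancel, smul_eq_mul, nsmul_eq_mul, pow_succ]
      field_simp
  have hderz : D (π ^ k) = π ^ k * ((k : L) * π⁻¹ * D π) := by
    obtain ⟨n, h | h⟩ := k.eq_nat_or_neg
    · rw [h, zpow_natCast, hderk]
      push_cast
      rfl
    · rw [h, zpow_neg, zpow_natCast, Derivation.leibniz_inv, hderk, smul_eq_mul]
      push_cast
      field_simp
  have h1 : D f = f * ((k : L) * π⁻¹ * D π) + π ^ k * D u := by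
    have e : D f = D (π ^ k * u) := by rw [← hfu]
    rw [e, Derivation.leibniz, hderz, smul_eq_mul, smul_eq_mul]
    conv_rhs => rw [hfu]
    ring
  have hkL : w.1 (k : L) ≤ 1 := by
    have e : (k : L) = algebraMap ℂ L (k : ℂ) := by rw [map_intCast]
    rw [e]
    by_cases h0 : (k : ℂ) = 0
    · rw [h0, map_zero, map_zero]
      exact zero_le_one
    · exact (w.2.2 _ h0).le
  rw [h1]
  refine (w.1.map_add _ _).trans (max_le ?_ ?_)
  · rw [map_mul]
    refine mul_le_mul' le_rfl ?_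
    rw [map_mul, map_mul, map_inv₀, hπ, ← exp_neg, neg_neg]
    calc w.1 (k : L) * exp 1 * w.1 (D π)
        ≤ 1 * exp 1 * exp ((ramIdx (RatFunc ℂ) w.1 : ℤ) - 1) :=
          mul_le_mul' (mul_le_mul' hkL le_rfl) hDπ
      _ = exp (ramIdx (RatFunc ℂ) w.1 : ℤ) := by
          rw [one_mul, ← exp_add]
          congr 1
          ring
  · rw [map_mul, hvk]
    refine mul_le_mul' le_rfl (hDu.trans ?_)
    rw [exp_le_exp]
    omega

/-- the derivation exists, and its constants are the elements of `ℂ` -/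
theorem exists_der [Algebra (RatFunc ℂ) L] [IsScalarTower ℂ (RatFunc ℂ) L]
    [FiniteDimensional (RatFunc ℂ) L] :
    ∃ D : Derivation ℂ L L, D (algebraMap (RatFunc ℂ) L RatFunc.X) = 1 ∧
      ∀ f, D f = 0 → ∃ c, algebraMap ℂ L c = f := by
  set t : L := algebraMap (RatFunc ℂ) L RatFunc.X with ht
  have hL : IsFF ℂ L := isFF_of_ratFunc ℂ L
  have htr : Transcendental ℂ t := transcendental_tL (κ := ℂ) (L := L)
  have hind : AlgebraicIndependent ℂ (fun _ : Unit => t) :=
    algebraicIndependent_unique_type_iff.mpr htr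
  have halg := alg_over_adjoin hL htr
  have halg2 : Algebra.IsAlgebraic (Algebra.adjoin ℂ (Set.range fun _ : Unit => t)) L := by
    rw [Set.range_const]
    exact ⟨fun y => IntermediateField.isAlgebraic_adjoin_iff.mp (halg.isAlgebraic y)⟩
  obtain ⟨D, hD⟩ := exists_derivation hind (fun _ => (1 : L))
  refine ⟨D, hD (), fun f hf => ?_⟩
  have hfa : IsAlgebraic ℂ f := by
    by_contra hf2
    have h1 := alg_over_adjoin hL (f := f) hf2
    have h2 : D t = 0 := by
      refine der_eq_zero D {f} ?_ (h1.isAlgebraic t)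
      intro s hs
      rw [Set.mem_singleton_iff.mp hs]
      exact hf
    rw [hD ()] at h2
    exact one_ne_zero h2
  have hdeg : (minpoly ℂ f).degree = 1 :=
    IsAlgClosed.degree_eq_one_of_irreducible ℂ (minpoly.irreducible hfa.isIntegral)
  exact minpoly.mem_range_of_degree_eq_one ℂ f hdeg

/-- the values of the rational functions at a place which is not a pole of `t` -/
private theorem my50_poly (w : Place ℂ L) {t : L} {c : ℂ} (hc : w.1 (t - algebraMap ℂ L c) < 1)
    {p : ℂ[X]} (hp : p ≠ 0) :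
    ∃ n : ℕ, w.1 (aeval t p) = w.1 (t - algebraMap ℂ L c) ^ n := by
  obtain ⟨r, hr, hr2⟩ := exists_eq_pow_rootMultiplicity_mul_and_not_dvd p hp c
  refine ⟨p.rootMultiplicity c, ?_⟩
  have h1 : r.eval c ≠ 0 := by
    intro h
    exact hr2 (dvd_iff_isRoot.mpr h)
  -- `r = C (r c) + (X - C c) * r₁`
  obtain ⟨r₁, hr₁⟩ : (X - C c) ∣ r - C (r.eval c) := by
    apply dvd_iff_isRoot.mpr
    simp
  have ht : w.1 t ≤ 1 := by
    have e : t = (t - algebraMap ℂ L c) + algebraMap ℂ L c := by ring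
    rw [e]
    refine (w.1.map_add _ _).trans (max_le hc.le ?_)
    by_cases h0 : c = 0
    · rw [h0, map_zero, map_zero]; exact zero_le_one
    · exact (w.2.2 _ h0).le
  have hint : ∀ s : ℂ[X], w.1 (aeval t s) ≤ 1 := by
    intro s
    induction s using Polynomial.induction_on' with
    | add a b ha hb =>
      rw [map_add]
      exact (w.1.map_add _ _).trans (max_le ha hb)
    | monomial n a =>
      rw [aeval_monomial, map_mul, map_pow]
      refine mul_le_one' ?_ (pow_le_one' ht n)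
      by_cases h0 : a = 0
      · rw [h0, map_zero, map_zero]; exact zero_le_one
      · exact (w.2.2 _ h0).le
  have h2 : w.1 (aeval t r) = 1 := by
    have e : aeval t r = (t - algebraMap ℂ L c) * aeval t r₁ + algebraMap ℂ L (r.eval c) := by
      have := congrArg (aeval t) hr₁
      rw [map_sub, map_mul, map_sub, aeval_X, aeval_C, aeval_C] at this
      rw [← this]
      ring
    rw [e, Valuation.map_add_eq_of_lt_right w.1, w.2.2 _ h1]
    rw [w.2.2 _ h1, map_mul]
    calc w.1 (t - algebraMap ℂ L c) * w.1 (aeval t r₁) ≤ w.1 (t - algebraMap ℂ L c) * 1 :=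
          mul_le_mul' le_rfl (hint _)
      _ < 1 := by rwa [mul_one]
  conv_lhs => rw [hr]
  rw [map_mul, map_pow, map_sub, aeval_X, aeval_C, map_mul, map_pow, h2, mul_one]

/-- at an unramified place which is not a pole of `t`, the function `t - t (w)` is a uniformiser -/
theorem unif_of_unram [Algebra (RatFunc ℂ) L] [IsScalarTower ℂ (RatFunc ℂ) L]
    [FiniteDimensional (RatFunc ℂ) L] (w : Place ℂ L) (h : ramIdx (RatFunc ℂ) w.1 = 1)
    (ht : w.1 (algebraMap (RatFunc ℂ) L RatFunc.X) ≤ 1) :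
    w.1 (algebraMap (RatFunc ℂ) L RatFunc.X -
      algebraMap ℂ L (val w (algebraMap (RatFunc ℂ) L RatFunc.X))) = exp (-1 : ℤ) := by
  set t : L := algebraMap (RatFunc ℂ) L RatFunc.X with htdef
  have hL : IsFF ℂ L := isFF_of_ratFunc ℂ L
  have hex : ∃ c : ℂ, w.1 (t - algebraMap ℂ L c) < 1 := hL.place_residue w ht
  have hc : w.1 (t - algebraMap ℂ L (val w t)) < 1 := by
    unfold val
    rw [dif_pos hex]
    exact hex.choose_spec
  set c := val w t with hcdef
  obtain ⟨s, hs⟩ := exists_ramIdx (K := RatFunc ℂ) w.1 w.2.1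
  rw [h] at hs
  have hs0 : s ≠ 0 := by
    rintro rfl
    rw [map_zero, map_zero] at hs
    exact exp_ne_zero hs.symm
  have hpoly : ∀ p : ℂ[X], algebraMap (RatFunc ℂ) L (algebraMap ℂ[X] (RatFunc ℂ) p) =
      aeval t p := by
    intro p
    rw [htdef, aeval_algebraMap_apply]
    congr 1
    have h := aeval_algebraMap_apply (A := ℂ[X]) (RatFunc ℂ) (X : ℂ[X]) p
    rw [RatFunc.algebraMap_X, aeval_X_left_apply] at h
    exact h.symm
  obtain ⟨n, hn⟩ := my50_poly w hc (RatFunc.num_ne_zero hs0)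
  obtain ⟨m, hm⟩ := my50_poly w hc (RatFunc.denom_ne_zero s)
  have h1 : w.1 (algebraMap (RatFunc ℂ) L s) =
      w.1 (t - algebraMap ℂ L c) ^ n / w.1 (t - algebraMap ℂ L c) ^ m := by
    conv_lhs => rw [← RatFunc.num_div_denom s]
    rw [map_div₀, map_div₀, hpoly, hpoly, hn, hm]
  have h0 : w.1 (t - algebraMap ℂ L c) ≠ 0 := by
    intro h0
    rw [h0] at h1
    rw [h1] at hs
    rcases Nat.eq_zero_or_pos m with rfl | hm0
    · rcases Nat.eq_zero_or_pos n with rfl | hn0
      · rw [pow_zero, div_one] at hs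
        have := congrArg log hs
        rw [log_one, log_exp] at this
        omega
      · rw [zero_pow hn0.ne', zero_div] at hs
        exact exp_ne_zero hs.symm
    · rw [zero_pow hm0.ne', div_zero] at hs
      exact exp_ne_zero hs.symm
  have h2 := congrArg log (h1.symm.trans hs)
  rw [log_exp, log_div (pow_ne_zero _ h0) (pow_ne_zero _ h0), log_pow, log_pow, nsmul_eq_mul,
    nsmul_eq_mul] at h2
  have h3 : log (w.1 (t - algebraMap ℂ L c)) < log 1 := (log_lt_log h0 one_ne_zero).mpr hc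
  rw [log_one] at h3
  set l := log (w.1 (t - algebraMap ℂ L c)) with hl
  have h4 : l ∣ 1 := ⟨(m : ℤ) - n, by push_cast at h2; linarith⟩
  have h5 : l = -1 := by
    rcases Int.isUnit_iff.mp (isUnit_of_dvd_one h4) with h | h
    · omega
    · exact h
  rw [← exp_log h0, ← hl, h5]

end Pool.Agent.Lib.MP_44a246_ntMY
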