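import Pool.Agent.Lib.MP_44a246_ntMY.MY00
import Pool.Agent.Lib.MP_44a246_nt.LocalIneq

/-!
# (A5) The exponent at a place
-/

namespace Pool.Agent.Lib.MP_44a246_ntMY

open Pool.Agent.Lib.MP_44a246_nt
open Pool.Agent.Lib.MP_44a246_ntL
open Pool.Agent.Lib.MP_44a246_ntR
open WithZero Module Polynomial Filter Topology

/-- if `x` does not meet `b` then the distance is the maximal possible one -/
theorem not_meets_eq {κ L : Type*} [Field κ] [Field L] [Algebra κ L] {w : Place κ L} {x b : L}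
    (h : ¬ Meets w x b) : w.1 (x - b) = max 1 (w.1 x) * max 1 (w.1 b) := by
  refine le_antisymm ?_ (not_lt.1 h)
  refine (w.1.map_sub x b).trans (max_le ?_ ?_)
  · calc w.1 x ≤ max 1 (w.1 x) := le_max_right _ _
      _ = max 1 (w.1 x) * 1 := (mul_one _).symm
      _ ≤ _ := mul_le_mul_right (le_max_left _ _) _
  · calc w.1 b ≤ max 1 (w.1 b) := le_max_right _ _
      _ = 1 * max 1 (w.1 b) := (one_mul _).symm
      _ ≤ _ := mul_le_mul_left (le_max_left _ _) _

/-- if nothing meets at `w` then all edges have the same absolute value -/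
theorem edge_eq {κ L : Type*} [Field κ] [Field L] [Algebra κ L] {w : Place κ L} {q : ℕ} {x : L}
    {b : Fin q → L} (hx : ∀ v, b v ≠ x) (h1 : ∀ v, ¬ Meets w x (b v))
    (h2 : ∀ u v, u ≠ v → ¬ Meets w (b u) (b v)) {u v : Fin q} (huv : u ≠ v) :
    w.1 (eta x b u - eta x b v) = ((max 1 (w.1 x)) ^ 2)⁻¹ := by
  have e1 : eta x b u - eta x b v = -((b u - b v) / ((x - b u) * (x - b v))) := by
    have h3 : b u - x ≠ 0 := sub_ne_zero.2 (hx u)
    have h4 : b v - x ≠ 0 := sub_ne_zero.2 (hx v)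
    have h5 : x - b u ≠ 0 := sub_ne_zero.2 (hx u).symm
    have h6 : x - b v ≠ 0 := sub_ne_zero.2 (hx v).symm
    unfold eta
    field_simp
    ring
  have p1 : ∀ y : L, max 1 (w.1 y) ≠ 0 := fun y =>
    (lt_of_lt_of_le zero_lt_one (le_max_left _ _)).ne'
  rw [e1, Valuation.map_neg, map_div₀, map_mul, not_meets_eq (h1 u), not_meets_eq (h1 v),
    not_meets_eq (h2 u v huv)]
  have q1 := p1 x
  have q2 := p1 (b u)
  have q3 := p1 (b v)
  field_simp

section

variable {L : Type*} [Field L] [Algebra ℂ L]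

theorem wr_le (D : Derivation ℂ L L) {w : Place ℂ L} {e : ℤ}
    (h2 : ∀ f, w.1 (D f) ≤ w.1 f * exp e) (f g : L) :
    w.1 (D f * g - f * D g) ≤ w.1 f * w.1 g * exp e := by
  refine (w.1.map_sub _ _).trans (max_le ?_ ?_)
  · rw [map_mul, mul_right_comm]
    exact mul_le_mul_left (h2 f) _
  · rw [map_mul, mul_assoc]
    exact mul_le_mul_right (h2 g) _

theorem wr_le_unit (D : Derivation ℂ L L) {w : Place ℂ L} {e : ℤ}
    (h1 : ∀ f, w.1 f ≤ 1 → w.1 (D f) ≤ exp (e - 1)) {f g : L} (hg : g ≠ 0)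
    (h : w.1 f = w.1 g) :
    w.1 (D f * g - f * D g) ≤ w.1 g * w.1 g * exp (e - 1) := by
  have hv : w.1 g ≠ 0 := (w.1.ne_zero_iff).2 hg
  have e1 : D f * g - f * D g = g * g * D (f / g) := by
    rw [Derivation.leibniz_div]
    simp only [smul_eq_mul]
    field_simp
  rw [e1, map_mul, map_mul]
  refine mul_le_mul_right (h1 _ ?_) _
  rw [map_div₀, h, div_self hv]

/-- **The exponent at a place.** -/
theorem exponent_le {q : ℕ} {k : ℝ} (hk0 : 0 ≤ k) (_hk1 : k ≤ 1 / 2) (D : Derivation ℂ L L)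
    {w : Place ℂ L} {e : ℤ} (h1 : ∀ f, w.1 f ≤ 1 → w.1 (D f) ≤ exp (e - 1))
    (h2 : ∀ f, w.1 (D f) ≤ w.1 f * exp e) {x : L} {b : Fin q → L} (hx : ∀ v, b v ≠ x)
    (hb : Function.Injective b) (S : Fin 3 ↪ Fin q)
    (hW : WW (eta x b) (fun u => D (eta x b u)) S ≠ 0) [Decidable ((∃ v, Meets w x (b v)) ∨
      ∃ u v, u ≠ v ∧ Meets w (b u) (b v))] :
    ((log (w.1 (WW (eta x b) (fun u => D (eta x b u)) S)) : ℤ) : ℝ) + rhoR k w (eta x b) S ≤
      e - 1 + if (∃ v, Meets w x (b v)) ∨ ∃ u v, u ≠ v ∧ Meets w (b u) (b v) then 1 else 0 := by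
  have hinj : Function.Injective (eta x b) := by
    intro u v huv
    unfold eta at huv
    exact hb (sub_left_inj.1 (inv_injective huv))
  have s01 : S 0 ≠ S 1 := fun h => by simpa using S.injective h
  have s12 : S 1 ≠ S 2 := fun h => by simpa using S.injective h
  have s20 : S 2 ≠ S 0 := fun h => by simpa using S.injective h
  obtain ⟨f, hf⟩ : ∃ f, f = eta x b (S 0) - eta x b (S 1) := ⟨_, rfl⟩
  obtain ⟨g, hg⟩ : ∃ g, g = eta x b (S 1) - eta x b (S 2) := ⟨_, rfl⟩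
  obtain ⟨h, hh⟩ : ∃ h, h = eta x b (S 2) - eta x b (S 0) := ⟨_, rfl⟩
  have f0 : f ≠ 0 := by rw [hf]; exact sub_ne_zero.2 (hinj.ne s01)
  have g0 : g ≠ 0 := by rw [hg]; exact sub_ne_zero.2 (hinj.ne s12)
  have h0 : h ≠ 0 := by rw [hh]; exact sub_ne_zero.2 (hinj.ne s20)
  have hsum : h = -f - g := by rw [hf, hg, hh]; ring
  have eW : WW (eta x b) (fun u => D (eta x b u)) S = D f * g - f * D g := by
    unfold WW
    rw [hf, hg, map_sub, map_sub]
  have eW2 : WW (eta x b) (fun u => D (eta x b u)) S = D g * h - g * D h := by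
    rw [eW, hsum, map_sub, map_neg]
    ring
  have eW3 : WW (eta x b) (fun u => D (eta x b u)) S = D h * f - h * D f := by
    rw [eW, hsum, map_sub, map_neg]
    ring
  have eT : edgesT (eta x b) S = ![f, g, h] := by
    unfold edgesT
    rw [hf, hg, hh]
  have vf : w.1 f ≠ 0 := (w.1.ne_zero_iff).2 f0
  have vg : w.1 g ≠ 0 := (w.1.ne_zero_iff).2 g0
  have vh : w.1 h ≠ 0 := (w.1.ne_zero_iff).2 h0
  have vW : w.1 (WW (eta x b) (fun u => D (eta x b u)) S) ≠ 0 := (w.1.ne_zero_iff).2 hW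
  have key : ∀ {y z : L}, w.1 y ≠ 0 → w.1 z ≠ 0 →
      WW (eta x b) (fun u => D (eta x b u)) S = D y * z - y * D z →
      log (w.1 (WW (eta x b) (fun u => D (eta x b u)) S)) ≤ log (w.1 y) + log (w.1 z) + e := by
    intro y z hy hz hyz
    have k1 := wr_le D h2 y z
    rw [← hyz] at k1
    have k2 := (log_le_log vW (mul_ne_zero (mul_ne_zero hy hz) exp_ne_zero)).2 k1
    rwa [log_mul (mul_ne_zero hy hz) exp_ne_zero, log_mul hy hz, log_exp] at k2
  have kA := key vf vg eW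
  have kB := key vg vh eW2
  have kC := key vh vf eW3
  -- the maxima
  have nz : (![f, g, h] : Fin 3 → L) ≠ 0 := fun hz => f0 (by simpa using congrFun hz 0)
  have vP : vmax w.1 ![f, g, h] ≠ 0 := by rw [Ne, vmax_eq_zero_iff]; exact nz
  have nz2 : edges (eta x b) ≠ 0 := fun hz => f0 (by
    have := congrFun hz (S 0, S 1)
    rw [hf]; exact this)
  have vN : vmax w.1 (edges (eta x b)) ≠ 0 := by rw [Ne, vmax_eq_zero_iff]; exact nz2
  obtain ⟨P, hP⟩ : ∃ P, P = log (vmax w.1 ![f, g, h]) := ⟨_, rfl⟩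
  obtain ⟨n, hn⟩ : ∃ n, n = log (vmax w.1 (edges (eta x b))) := ⟨_, rfl⟩
  have pA : log (w.1 f) ≤ P := by
    rw [hP]; exact (log_le_log vf vP).2 (le_vmax w.1 ![f, g, h] 0)
  have pB : log (w.1 g) ≤ P := by
    rw [hP]; exact (log_le_log vg vP).2 (le_vmax w.1 ![f, g, h] 1)
  have pC : log (w.1 h) ≤ P := by
    rw [hP]; exact (log_le_log vh vP).2 (le_vmax w.1 ![f, g, h] 2)
  have pN : P ≤ n := by
    rw [hP, hn]
    refine (log_le_log vP vN).2 (vmax_le _ fun i => ?_)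
    fin_cases i
    · have := le_vmax w.1 (edges (eta x b)) (S 0, S 1)
      rw [show edges (eta x b) (S 0, S 1) = f from hf.symm] at this
      exact this
    · have := le_vmax w.1 (edges (eta x b)) (S 1, S 2)
      rw [show edges (eta x b) (S 1, S 2) = g from hg.symm] at this
      exact this
    · have := le_vmax w.1 (edges (eta x b)) (S 2, S 0)
      rw [show edges (eta x b) (S 2, S 0) = h from hh.symm] at this
      exact this
  have pE : P = log (w.1 f) ∨ P = log (w.1 g) ∨ P = log (w.1 h) := by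
    obtain ⟨l, -, hl, -⟩ := exists_vmax w.1 nz
    rw [hP]
    fin_cases l
    · left; exact congrArg _ hl
    · right; left; exact congrArg _ hl
    · right; right; exact congrArg _ hl
  have hrho : rhoR k w (eta x b) S = - (1 - k) * ((log (w.1 f) + log (w.1 g) + log (w.1 h) : ℤ) : ℝ)
      - k * (n : ℝ) + (1 - 2 * k) * (P : ℝ) := by
    unfold rhoR
    rw [eT, ← hn, ← hP]
    rfl
  obtain ⟨A, hA⟩ : ∃ A, A = log (w.1 f) := ⟨_, rfl⟩
  obtain ⟨B, hB⟩ : ∃ B, B = log (w.1 g) := ⟨_, rfl⟩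
  obtain ⟨C, hC⟩ : ∃ C, C = log (w.1 h) := ⟨_, rfl⟩
  obtain ⟨Wl, hWl⟩ : ∃ Wl, Wl = log (w.1 (WW (eta x b) (fun u => D (eta x b u)) S)) := ⟨_, rfl⟩
  rw [hrho, ← hWl, ← hA, ← hB, ← hC]
  rw [← hA, ← hB, ← hC] at pE
  rw [← hWl] at kA kB kC
  rw [← hA, ← hB] at kA
  rw [← hB, ← hC] at kB
  rw [← hC, ← hA] at kC
  rw [← hA] at pA
  rw [← hB] at pB
  rw [← hC] at pC
  have pNr : (P : ℝ) ≤ n := by exact_mod_cast pN
  split_ifs with hm
  · have c1 : Wl ≤ A + B + C - P + e := by omega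
    have c2 : A + B + C ≤ 2 * P + n := by omega
    have c1r : (Wl : ℝ) ≤ A + B + C - P + e := by exact_mod_cast c1
    have c2r : (A : ℝ) + B + C ≤ 2 * P + n := by exact_mod_cast c2
    push_cast
    nlinarith
  · have m1 : ∀ v, ¬ Meets w x (b v) := fun v hv => hm (Or.inl ⟨v, hv⟩)
    have m2 : ∀ u v, u ≠ v → ¬ Meets w (b u) (b v) := fun u v huv hv => hm (Or.inr ⟨u, v, huv, hv⟩)
    have e1 := edge_eq hx m1 m2 s01
    have e2 := edge_eq hx m1 m2 s12
    have e3 := edge_eq hx m1 m2 s20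
    rw [← hf] at e1
    rw [← hg] at e2
    rw [← hh] at e3
    have hfg : w.1 f = w.1 g := e1.trans e2.symm
    have hgh : w.1 g = w.1 h := e2.trans e3.symm
    have k1 := wr_le_unit D h1 g0 hfg
    rw [← eW] at k1
    have k2 := (log_le_log vW (mul_ne_zero (mul_ne_zero vg vg) exp_ne_zero)).2 k1
    rw [log_mul (mul_ne_zero vg vg) exp_ne_zero, log_mul vg vg, log_exp, ← hWl, ← hB] at k2
    have hAB : A = B := by rw [hA, hB, hfg]
    have hBC : B = C := by rw [hB, hC, hgh]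
    have c1 : Wl ≤ 2 * P + e - 1 := by omega
    have c2 : A + B + C = 3 * P := by omega
    have c1r : (Wl : ℝ) ≤ 2 * P + e - 1 := by exact_mod_cast c1
    rw [c2]
    push_cast
    nlinarith

end

end Pool.Agent.Lib.MP_44a246_ntMY
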