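import Pool.Agent.Lib.MP_44a246_ntMY.MY30

/-!
# (A5) The growth of `RT` at a place
-/

namespace Pool.Agent.Lib.MP_44a246_ntMY

open Pool.Agent.Lib.MP_44a246_nt
open Pool.Agent.Lib.MP_44a246_ntL
open Pool.Agent.Lib.MP_44a246_ntR
open WithZero Module Polynomial Filter Topology

section Growth

variable {P : Type*} {F : Filter P} {ℓ : P → ℝ}

/-- `φ = m ℓ + O(1)` -/
def Ap (F : Filter P) (ℓ φ : P → ℝ) (m : ℝ) : Prop := ∃ c, ∀ᶠ p in F, |φ p - m * ℓ p| ≤ c

/-- `φ ≤ m ℓ + O(1)` -/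
def Up (F : Filter P) (ℓ φ : P → ℝ) (m : ℝ) : Prop := ∃ c, ∀ᶠ p in F, φ p ≤ m * ℓ p + c

theorem Ap.up {φ : P → ℝ} {m : ℝ} (h : Ap F ℓ φ m) : Up F ℓ φ m := by
  obtain ⟨c, hc⟩ := h
  refine ⟨c, hc.mono fun p hp => ?_⟩
  have := (abs_le.1 hp).2
  linarith

theorem Ap.mul {φ : P → ℝ} {m : ℝ} (h : Ap F ℓ φ m) (a : ℝ) :
    Ap F ℓ (fun p => a * φ p) (a * m) := by
  obtain ⟨c, hc⟩ := h
  refine ⟨|a| * c, hc.mono fun p hp => ?_⟩
  have h1 : a * φ p - a * m * ℓ p = a * (φ p - m * ℓ p) := by ring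
  rw [h1, abs_mul]
  exact mul_le_mul_of_nonneg_left hp (abs_nonneg a)

theorem Ap.add {φ ψ : P → ℝ} {m n : ℝ} (h : Ap F ℓ φ m) (h' : Ap F ℓ ψ n) :
    Ap F ℓ (fun p => φ p + ψ p) (m + n) := by
  obtain ⟨c, hc⟩ := h
  obtain ⟨d, hd⟩ := h'
  refine ⟨c + d, (hc.and hd).mono fun p hp => ?_⟩
  have h1 : φ p + ψ p - (m + n) * ℓ p = (φ p - m * ℓ p) + (ψ p - n * ℓ p) := by ring
  rw [h1]
  exact (abs_add_le _ _).trans (add_le_add hp.1 hp.2)

theorem Ap.congr {φ ψ : P → ℝ} {m : ℝ} (h : Ap F ℓ φ m) (h' : ∀ᶠ p in F, ψ p = φ p) :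
    Ap F ℓ ψ m := by
  obtain ⟨c, hc⟩ := h
  refine ⟨c, (hc.and h').mono fun p hp => ?_⟩
  rw [hp.2]
  exact hp.1

theorem Up.add {φ ψ : P → ℝ} {m n : ℝ} (h : Up F ℓ φ m) (h' : Up F ℓ ψ n) :
    Up F ℓ (fun p => φ p + ψ p) (m + n) := by
  obtain ⟨c, hc⟩ := h
  obtain ⟨d, hd⟩ := h'
  refine ⟨c + d, (hc.and hd).mono fun p hp => ?_⟩
  have h1 := hp.1
  have h2 := hp.2
  have h3 : (m + n) * ℓ p + (c + d) = (m * ℓ p + c) + (n * ℓ p + d) := by ring
  rw [h3]
  exact add_le_add h1 h2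

theorem Up.mul {φ : P → ℝ} {m : ℝ} (h : Up F ℓ φ m) {a : ℝ} (ha : 0 ≤ a) :
    Up F ℓ (fun p => a * φ p) (a * m) := by
  obtain ⟨c, hc⟩ := h
  refine ⟨a * c, hc.mono fun p hp => ?_⟩
  have h1 := mul_le_mul_of_nonneg_left hp ha
  have h2 : a * m * ℓ p + a * c = a * (m * ℓ p + c) := by ring
  rw [h2]
  exact h1

theorem Up.mono {φ ψ : P → ℝ} {m : ℝ} (h : Up F ℓ φ m) (h' : ∀ᶠ p in F, ψ p ≤ φ p) :
    Up F ℓ ψ m := by
  obtain ⟨c, hc⟩ := h
  exact ⟨c, (hc.and h').mono fun p hp => hp.2.trans hp.1⟩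

theorem up_sum {ι : Type*} (s : Finset ι) {φ : ι → P → ℝ} {m : ι → ℝ}
    (h : ∀ i ∈ s, Up F ℓ (φ i) (m i)) : Up F ℓ (fun p => ∑ i ∈ s, φ i p) (∑ i ∈ s, m i) := by
  classical
  induction s using Finset.induction_on with
  | empty => exact ⟨0, Eventually.of_forall fun p => by simp⟩
  | insert a s ha ih =>
    have h1 := (h a (Finset.mem_insert_self a s)).add
      (ih fun i hi => h i (Finset.mem_insert_of_mem hi))
    rw [Finset.sum_insert ha]
    refine h1.mono (Eventually.of_forall fun p => ?_)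
    show ∑ i ∈ insert a s, φ i p ≤ φ a p + ∑ i ∈ s, φ i p
    rw [Finset.sum_insert ha]

/-- `log (1 + y)` for `log y = m ℓ + O(1)` -/
theorem up_log_one_add (hℓ : Tendsto ℓ F atTop) {y : P → ℝ} {m : ℝ} (hy : ∀ᶠ p in F, 0 ≤ y p)
    (h : Ap F ℓ (fun p => Real.log (y p)) m) :
    Up F ℓ (fun p => Real.log (1 + y p)) (max 0 m) := by
  obtain ⟨c, hc⟩ := h
  refine ⟨Real.log 2 + |c|, ?_⟩
  filter_upwards [hc, hy, hℓ.eventually_ge_atTop 0] with p hp hp0 hpl
  have h1 : Real.log (y p) ≤ m * ℓ p + c := by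
    have := (abs_le.1 hp).2
    linarith
  have h2 : m * ℓ p ≤ max 0 m * ℓ p := mul_le_mul_of_nonneg_right (le_max_right 0 m) hpl
  have h3 : 0 ≤ max 0 m * ℓ p := mul_nonneg (le_max_left 0 m) hpl
  have h4 : c ≤ |c| := le_abs_self c
  have hl2 : 0 ≤ Real.log 2 := Real.log_nonneg (by norm_num)
  rcases le_total (y p) 1 with hy1 | hy1
  · have h5 : Real.log (1 + y p) ≤ Real.log 2 := Real.log_le_log (by linarith) (by linarith)
    have := abs_nonneg c
    linarith
  · have h5 : Real.log (1 + y p) ≤ Real.log (2 * y p) := Real.log_le_log (by linarith) (by linarith)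
    rw [Real.log_mul (by norm_num) (by linarith)] at h5
    linarith

/-- the logarithm of a sum of functions of power growth -/
theorem ap_log_sum {ι : Type*} [Fintype ι] (hℓ : Tendsto ℓ F atTop) {g : ι → P → ℝ} {m : ι → ℝ}
    {M : ℝ} (h : ∀ a, (∀ᶠ p in F, g a p = 0) ∨ (m a ≤ M ∧ (∀ᶠ p in F, 0 < g a p) ∧
      Ap F ℓ (fun p => Real.log (g a p)) (m a)))
    (h1 : ∃ a, m a = M ∧ (∀ᶠ p in F, 0 < g a p) ∧ Ap F ℓ (fun p => Real.log (g a p)) (m a)) :
    Ap F ℓ (fun p => Real.log (∑ a, g a p)) M ∧ ∀ᶠ p in F, 0 < ∑ a, g a p := by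
  have h2 : ∀ a, ∃ c, ∀ᶠ p in F, 0 ≤ g a p ∧ g a p ≤ Real.exp (M * ℓ p) * Real.exp c := by
    intro a
    rcases h a with h3 | ⟨h3, h4, c, h5⟩
    · refine ⟨0, h3.mono fun p hp => ?_⟩
      rw [hp]
      exact ⟨le_rfl, by positivity⟩
    · refine ⟨c, ?_⟩
      filter_upwards [h4, h5, hℓ.eventually_ge_atTop 0] with p hp1 hp2 hp3
      refine ⟨hp1.le, ?_⟩
      rw [← Real.exp_add, ← Real.log_le_iff_le_exp hp1]
      have h6 := (abs_le.1 hp2).2
      have h7 : m a * ℓ p ≤ M * ℓ p := mul_le_mul_of_nonneg_right h3 hp3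
      linarith
  choose c hc using h2
  have hc' : ∀ᶠ p in F, ∀ a, 0 ≤ g a p ∧ g a p ≤ Real.exp (M * ℓ p) * Real.exp (c a) :=
    eventually_all.2 hc
  obtain ⟨a, hm, hpos, d, hd⟩ := h1
  have hS : 0 < ∑ a, Real.exp (c a) :=
    Finset.sum_pos (fun a _ => Real.exp_pos _) ⟨a, Finset.mem_univ a⟩
  refine ⟨⟨|Real.log (∑ a, Real.exp (c a))| + |d|, ?_⟩, ?_⟩
  · filter_upwards [hc', hpos, hd] with p hp1 hp2 hp3
    have hle : g a p ≤ ∑ a, g a p :=
      Finset.single_le_sum (f := fun a => g a p) (fun i _ => (hp1 i).1) (Finset.mem_univ a)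
    have hsum : 0 < ∑ a, g a p := lt_of_lt_of_le hp2 hle
    have hup : ∑ a, g a p ≤ Real.exp (M * ℓ p) * ∑ a, Real.exp (c a) := by
      rw [Finset.mul_sum]
      exact Finset.sum_le_sum fun i _ => (hp1 i).2
    have h6 : Real.log (∑ a, g a p) ≤ M * ℓ p + Real.log (∑ a, Real.exp (c a)) := by
      have h7 := Real.log_le_log hsum hup
      rwa [Real.log_mul (Real.exp_pos _).ne' hS.ne', Real.log_exp] at h7
    have h8 : Real.log (g a p) ≤ Real.log (∑ a, g a p) := Real.log_le_log hp2 hle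
    have h9 := (abs_le.1 hp3).1
    rw [hm] at h9
    have h10 := le_abs_self (Real.log (∑ a, Real.exp (c a)))
    have h11 := le_abs_self d
    have h12 := abs_nonneg (Real.log (∑ a, Real.exp (c a)))
    have h13 := abs_nonneg d
    rw [abs_le]
    constructor <;> linarith
  · filter_upwards [hc', hpos] with p hp1 hp2
    exact lt_of_lt_of_le hp2
      (Finset.single_le_sum (f := fun a => g a p) (fun i _ => (hp1 i).1) (Finset.mem_univ a))

end Growth

theorem pot_le {y : ℝ} (hy : 0 ≤ y) : Pot y ≤ 6 * Real.log (1 + y) := by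
  unfold Pot uu
  have h1 : 0 ≤ Real.log (1 + y) := Real.log_nonneg (by linarith)
  have h2 : 0 ≤ Real.log (1 + y⁻¹) := Real.log_nonneg (by
    have := inv_nonneg.2 hy
    linarith)
  have h3 : 0 ≤ Real.log (1 + (Real.log (1 + y) + Real.log (1 + y⁻¹))) :=
    Real.log_nonneg (by linarith)
  linarith

theorem log_vmax {L : Type*} [Field L] {σ : Type*} [Fintype σ] (v : Valuation L ℤᵐ⁰) (x : σ → L) (h : ∃ a, x a ≠ 0) :
    (∀ a, x a ≠ 0 → log (v (x a)) ≤ log (vmax v x)) ∧
      ∃ a, x a ≠ 0 ∧ log (v (x a)) = log (vmax v x) := by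
  classical
  obtain ⟨a, ha⟩ := h
  have h1 : vmax v x ≠ 0 := by
    intro h0
    have h2 : v (x a) ≤ vmax v x := Finset.le_sup (f := fun j => v (x j)) (Finset.mem_univ a)
    rw [h0, le_zero_iff, map_eq_zero] at h2
    exact ha h2
  constructor
  · intro b hb
    have h2 : v (x b) ≤ vmax v x := Finset.le_sup (f := fun j => v (x j)) (Finset.mem_univ b)
    exact (log_le_log ((map_ne_zero v).2 hb) h1).2 h2
  · obtain ⟨b, _, hb⟩ := Finset.exists_mem_eq_sup Finset.univ ⟨a, Finset.mem_univ a⟩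
      (fun j => v (x j))
    refine ⟨b, ?_, ?_⟩
    · intro hb0
      apply h1
      unfold vmax
      rw [hb, hb0, map_zero]
    · unfold vmax
      rw [hb]

variable {L : Type*} [Field L] [Algebra ℂ L]

theorem qq_eq {q : ℕ} (c : Fin q → Fin q → ℝ) (η : Fin q → ℂ) :
    QQ c η = ∑ a : Fin q × Fin q, c a.1 a.2 * Complex.normSq (η a.1 - η a.2) := by
  unfold QQ
  rw [Fintype.sum_prod_type]

/-- **The growth of `RT` at a place.** -/
theorem RT_le (hL : IsFF ℂ L) {q : ℕ} {k ε δ C : ℝ} (hk0 : 0 ≤ k) (hk1 : k ≤ 1 / 2) (hε0 : 0 ≤ ε)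
    (hε1 : ε ≤ 1 / 8) (hδ : 0 < δ) (hC : 0 ≤ C) {a0 a1 : Fin q} (ha : a0 ≠ a1) {η : Fin q → L}
    (hη : Function.Injective η) {t : L} (ht : t ≠ 0) (S : Fin 3 ↪ Fin q)
    {𝒰 : Ultrafilter (Place ℂ L)} {w : Place ℂ L} {ℓ : Place ℂ L → ℝ} (hℓ : Tendsto ℓ 𝒰 atTop)
    (hval : ∀ f : L, f ≠ 0 → (∀ᶠ p in (𝒰 : Filter (Place ℂ L)), p.1 f = 1) ∧
        ∃ c : ℝ, ∀ᶠ p in (𝒰 : Filter (Place ℂ L)),
          |Real.log (Complex.normSq (val p f)) - ((log (w.1 f) : ℤ) : ℝ) * ℓ p| ≤ c)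
    (hadd : ∀ᶠ p in (𝒰 : Filter (Place ℂ L)), ∀ u v,
      val p (η u - η v) = val p (η u) - val p (η v)) :
    ∃ c : ℝ, ∀ᶠ p in (𝒰 : Filter (Place ℂ L)),
      RT k ε δ C a0 a1 (fun u => val p (η u)) (val p t) S ≤
        (rhoR k w η S + rhoC ε C a0 a1 w η t) * ℓ p + c := by
  classical
  have hne : ∀ u v, u ≠ v → η u - η v ≠ 0 := fun u v huv => sub_ne_zero.2 (hη.ne huv)
  set mm : Fin q → Fin q → ℝ := fun u v => ((log (w.1 (η u - η v)) : ℤ) : ℝ) with hmm
  have hE : ∀ u v, u ≠ v → (∀ᶠ p in (𝒰 : Filter (Place ℂ L)),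
      0 < Complex.normSq (val p (η u) - val p (η v))) ∧
      Ap (𝒰 : Filter (Place ℂ L)) ℓ
        (fun p => Real.log (Complex.normSq (val p (η u) - val p (η v)))) (mm u v) := by
    intro u v huv
    obtain ⟨h1, c, h2⟩ := hval _ (hne u v huv)
    refine ⟨?_, c, ?_⟩
    · filter_upwards [h1, hadd] with p hp1 hp2
      rw [← hp2 u v, Complex.normSq_pos]
      exact val_ne_zero hL hp1
    · filter_upwards [h2, hadd] with p hp1 hp2
      rw [← hp2 u v]
      exact hp1
  set M : ℝ := ((log (vmax w.1 (edges η)) : ℤ) : ℝ) with hM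
  set MT : ℝ := ((log (vmax w.1 (edgesT η S)) : ℤ) : ℝ) with hMT
  -- the sum over all edges
  have hQ1 : Ap (𝒰 : Filter (Place ℂ L)) ℓ
      (fun p => Real.log (QQ (c1 q) (fun u => val p (η u)))) M ∧
      ∀ᶠ p in (𝒰 : Filter (Place ℂ L)), 0 < QQ (c1 q) (fun u => val p (η u)) := by
    have hv := log_vmax w.1 (edges η) ⟨(a0, a1), hne a0 a1 ha⟩
    have h3 := ap_log_sum (F := (𝒰 : Filter (Place ℂ L))) hℓ
      (g := fun (a : Fin q × Fin q) p =>
        c1 q a.1 a.2 * Complex.normSq (val p (η a.1) - val p (η a.2)))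
      (m := fun a => mm a.1 a.2) (M := M) (fun a => by
        by_cases haa : a.1 = a.2
        · left
          refine Eventually.of_forall fun p => ?_
          rw [haa, sub_self, map_zero, mul_zero]
        · right
          refine ⟨?_, ?_, ?_⟩
          · show ((log (w.1 (η a.1 - η a.2)) : ℤ) : ℝ) ≤ ((log (vmax w.1 (edges η)) : ℤ) : ℝ)
            exact Int.cast_le.2 (hv.1 a (hne _ _ haa))
          · refine (hE _ _ haa).1.mono fun p hp => ?_
            show 0 < (1 : ℝ) * _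
            rw [one_mul]
            exact hp
          · refine (hE _ _ haa).2.congr (Eventually.of_forall fun p => ?_)
            show Real.log ((1 : ℝ) * _) = _
            rw [one_mul]) (by
        obtain ⟨a, ha1, ha2⟩ := hv.2
        have haa : a.1 ≠ a.2 := fun h => ha1 (by
          show η a.1 - η a.2 = 0
          rw [h, sub_self])
        refine ⟨a, ?_, ?_, ?_⟩
        · show ((log (w.1 (η a.1 - η a.2)) : ℤ) : ℝ) = ((log (vmax w.1 (edges η)) : ℤ) : ℝ)
          exact congrArg (Int.cast : ℤ → ℝ) ha2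
        · refine (hE _ _ haa).1.mono fun p hp => ?_
          show 0 < (1 : ℝ) * _
          rw [one_mul]
          exact hp
        · refine (hE _ _ haa).2.congr (Eventually.of_forall fun p => ?_)
          show Real.log ((1 : ℝ) * _) = _
          rw [one_mul])
    refine ⟨h3.1.congr (Eventually.of_forall fun p => by rw [qq_eq]), ?_⟩
    exact h3.2.mono fun p hp => by rw [qq_eq]; exact hp
  -- the sum over the edges of the triangle
  have hS : ∀ i j : Fin 3, i ≠ j → S i ≠ S j := fun i j hij => S.injective.ne hij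
  have hedge : ∀ i j : Fin 3, i ≠ j → ∃ l : Fin 3, edgesT η S l ≠ 0 ∧
      w.1 (η (S i) - η (S j)) = w.1 (edgesT η S l) := by
    intro i j hij
    have hs : ∀ u v, w.1 (η u - η v) = w.1 (η v - η u) := fun u v => Valuation.map_sub_swap _ _ _
    have e0 : edgesT η S 0 = η (S 0) - η (S 1) := rfl
    have e1 : edgesT η S 1 = η (S 1) - η (S 2) := rfl
    have e2 : edgesT η S 2 = η (S 2) - η (S 0) := rfl
    fin_cases i <;> fin_cases j
    · exact absurd rfl hij
    · exact ⟨0, by rw [e0]; exact hne _ _ (hS 0 1 (by decide)), by rw [e0]; rfl⟩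
    · exact ⟨2, by rw [e2]; exact hne _ _ (hS 2 0 (by decide)), by rw [e2]; exact hs _ _⟩
    · exact ⟨0, by rw [e0]; exact hne _ _ (hS 0 1 (by decide)), by rw [e0]; exact hs _ _⟩
    · exact absurd rfl hij
    · exact ⟨1, by rw [e1]; exact hne _ _ (hS 1 2 (by decide)), by rw [e1]; rfl⟩
    · exact ⟨2, by rw [e2]; exact hne _ _ (hS 2 0 (by decide)), by rw [e2]; rfl⟩
    · exact ⟨1, by rw [e1]; exact hne _ _ (hS 1 2 (by decide)), by rw [e1]; exact hs _ _⟩
    · exact absurd rfl hij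
  have hedge' : ∀ l : Fin 3, ∃ i j : Fin 3, i ≠ j ∧ edgesT η S l = η (S i) - η (S j) := by
    intro l
    fin_cases l
    · exact ⟨0, 1, by decide, rfl⟩
    · exact ⟨1, 2, by decide, rfl⟩
    · exact ⟨2, 0, by decide, rfl⟩
  have hQT : Ap (𝒰 : Filter (Place ℂ L)) ℓ
      (fun p => Real.log (QQ (cT S) (fun u => val p (η u)))) MT ∧
      ∀ᶠ p in (𝒰 : Filter (Place ℂ L)), 0 < QQ (cT S) (fun u => val p (η u)) := by
    have hv := log_vmax w.1 (edgesT η S) ⟨0, hne _ _ (hS 0 1 (by decide))⟩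
    have hone : ∀ (a : Fin q × Fin q), (a.1 ∈ Set.range S ∧ a.2 ∈ Set.range S) →
        cT S a.1 a.2 = 1 := fun a h => if_pos h
    have h3 := ap_log_sum (F := (𝒰 : Filter (Place ℂ L))) hℓ
      (g := fun (a : Fin q × Fin q) p =>
        cT S a.1 a.2 * Complex.normSq (val p (η a.1) - val p (η a.2)))
      (m := fun a => mm a.1 a.2) (M := MT) (fun a => by
        by_cases hT : a.1 ∈ Set.range S ∧ a.2 ∈ Set.range S
        · by_cases haa : a.1 = a.2
          · left
            refine Eventually.of_forall fun p => ?_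
            rw [haa, sub_self, map_zero, mul_zero]
          · right
            refine ⟨?_, ?_, ?_⟩
            · obtain ⟨⟨i, hi⟩, ⟨j, hj⟩⟩ := hT
              have hij : i ≠ j := fun h => haa (by rw [← hi, ← hj, h])
              obtain ⟨l, hl1, hl2⟩ := hedge i j hij
              have h4 := hv.1 l hl1
              rw [← hl2, hi, hj] at h4
              show ((log (w.1 (η a.1 - η a.2)) : ℤ) : ℝ) ≤
                ((log (vmax w.1 (edgesT η S)) : ℤ) : ℝ)
              exact Int.cast_le.2 h4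
            · refine (hE _ _ haa).1.mono fun p hp => ?_
              show 0 < cT S a.1 a.2 * _
              rw [hone a hT, one_mul]
              exact hp
            · refine (hE _ _ haa).2.congr (Eventually.of_forall fun p => ?_)
              show Real.log (cT S a.1 a.2 * _) = _
              rw [hone a hT, one_mul]
        · left
          refine Eventually.of_forall fun p => ?_
          have : cT S a.1 a.2 = 0 := if_neg hT
          rw [this, zero_mul]) (by
        obtain ⟨l, hl1, hl2⟩ := hv.2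
        obtain ⟨i, j, hij, hl3⟩ := hedge' l
        have haa : S i ≠ S j := hS i j hij
        have hT : (S i ∈ Set.range S ∧ S j ∈ Set.range S) := ⟨⟨i, rfl⟩, ⟨j, rfl⟩⟩
        refine ⟨(S i, S j), ?_, ?_, ?_⟩
        · rw [hl3] at hl2
          show ((log (w.1 (η (S i) - η (S j))) : ℤ) : ℝ) =
            ((log (vmax w.1 (edgesT η S)) : ℤ) : ℝ)
          exact congrArg (Int.cast : ℤ → ℝ) hl2
        · refine (hE _ _ haa).1.mono fun p hp => ?_
          show 0 < cT S (S i) (S j) * _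
          rw [hone (S i, S j) hT, one_mul]
          exact hp
        · refine (hE _ _ haa).2.congr (Eventually.of_forall fun p => ?_)
          show Real.log (cT S (S i) (S j) * _) = _
          rw [hone (S i, S j) hT, one_mul])
    refine ⟨h3.1.congr (Eventually.of_forall fun p => by rw [qq_eq]), ?_⟩
    exact h3.2.mono fun p hp => by rw [qq_eq]; exact hp
  -- the product of the edges
  have hJ : Ap (𝒰 : Filter (Place ℂ L)) ℓ (fun p => Real.log (JJ (fun u => val p (η u)) S))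
      (mm (S 0) (S 1) + mm (S 1) (S 2) + mm (S 2) (S 0)) := by
    have e01 := hE _ _ (hS 0 1 (by decide))
    have e12 := hE _ _ (hS 1 2 (by decide))
    have e20 := hE _ _ (hS 2 0 (by decide))
    refine ((e01.2.add e12.2).add e20.2).congr ?_
    filter_upwards [e01.1, e12.1, e20.1] with p h1 h2 h3
    unfold JJ
    rw [Real.log_mul (mul_pos h1 h2).ne' h3.ne', Real.log_mul h1.ne' h2.ne']
  -- the pieces
  have U1 := (hJ.mul (-(1 - k))).up
  have U2 := (hQ1.1.mul (1 - k - ε)).up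
  have U3 := (hQT.1.mul (1 - 2 * k)).up
  have U4 : Up (𝒰 : Filter (Place ℂ L)) ℓ
      (fun p => -((1 - ε) * Real.log (QQ (cD δ S) (fun u => val p (η u))))) (-(1 - ε) * M) := by
    obtain ⟨c, hc⟩ := (hQ1.1.mul (-(1 - ε))).up
    refine ⟨c + -(1 - ε) * Real.log δ, ?_⟩
    filter_upwards [hc, hQ1.2] with p hp1 hp2
    have h4 : δ * QQ (c1 q) (fun u => val p (η u)) ≤ QQ (cD δ S) (fun u => val p (η u)) := by
      rw [qq_eq, qq_eq, Finset.mul_sum]
      refine Finset.sum_le_sum fun a _ => ?_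
      have h5 : 0 ≤ cT S a.1 a.2 := by
        unfold cT
        split_ifs
        · exact zero_le_one
        · exact le_rfl
      have h6 : 0 ≤ Complex.normSq (val p (η a.1) - val p (η a.2)) := Complex.normSq_nonneg _
      show δ * (1 * _) ≤ (δ + cT S a.1 a.2) * _
      nlinarith
    have h7 := Real.log_le_log (mul_pos hδ hp2) h4
    rw [Real.log_mul hδ.ne' hp2.ne'] at h7
    have h8 : 0 ≤ 1 - ε := by linarith
    have h9 := mul_le_mul_of_nonneg_left h7 h8
    have h10 : (1 - ε) * (Real.log δ + Real.log (QQ (c1 q) fun u => val p (η u))) =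
      (1 - ε) * Real.log δ + (1 - ε) * Real.log (QQ (c1 q) fun u => val p (η u)) := by ring
    rw [h10] at h9
    linarith
  have U5 : Up (𝒰 : Filter (Place ℂ L)) ℓ
      (fun p => C * ∑ f : Fin 4 ↪ Fin q, Pot (Complex.normSq (chi (fun u => val p (η u)) f)))
      (C * ∑ f : Fin 4 ↪ Fin q, 6 * max 0 ((log (w.1 (chi η f)) : ℤ) : ℝ)) := by
    refine Up.mul (up_sum _ fun f _ => ?_) hC
    have hf : ∀ i j : Fin 4, i ≠ j → f i ≠ f j := fun i j hij => f.injective.ne hij
    have n12 := hne _ _ (hf 1 2 (by decide))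
    have n30 := hne _ _ (hf 3 0 (by decide))
    have n20 := hne _ _ (hf 2 0 (by decide))
    have n13 := hne _ _ (hf 1 3 (by decide))
    have e12 := hE _ _ (hf 1 2 (by decide))
    have e30 := hE _ _ (hf 3 0 (by decide))
    have e20 := hE _ _ (hf 2 0 (by decide))
    have e13 := hE _ _ (hf 1 3 (by decide))
    have hw : ((log (w.1 (chi η f)) : ℤ) : ℝ) =
        mm (f 1) (f 2) + mm (f 3) (f 0) + (-1) * (mm (f 2) (f 0) + mm (f 1) (f 3)) := by
      have h4 : log (w.1 (chi η f)) = log (w.1 (η (f 1) - η (f 2))) + log (w.1 (η (f 3) - η (f 0))) -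
          (log (w.1 (η (f 2) - η (f 0))) + log (w.1 (η (f 1) - η (f 3)))) := by
        unfold chi
        rw [map_div₀, map_mul, map_mul, log_div, log_mul, log_mul] <;>
          simp [n12, n30, n20, n13]
      rw [h4, hmm]
      push_cast
      ring
    have hlog : Ap (𝒰 : Filter (Place ℂ L)) ℓ
        (fun p => Real.log (Complex.normSq (chi (fun u => val p (η u)) f)))
        ((log (w.1 (chi η f)) : ℤ) : ℝ) := by
      rw [hw]
      refine ((e12.2.add e30.2).add ((e20.2.add e13.2).mul (-1))).congr ?_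
      filter_upwards [e12.1, e30.1, e20.1, e13.1] with p h1 h2 h3 h4
      unfold chi
      rw [map_div₀, map_mul, map_mul, Real.log_div (mul_pos h1 h2).ne' (mul_pos h3 h4).ne',
        Real.log_mul h1.ne' h2.ne', Real.log_mul h3.ne' h4.ne']
      ring
    have h5 := (up_log_one_add hℓ (Eventually.of_forall fun p => Complex.normSq_nonneg _) hlog).mul
      (show (0 : ℝ) ≤ 6 by norm_num)
    exact h5.mono (Eventually.of_forall fun p => pot_le (Complex.normSq_nonneg _))
  have U6 : Up (𝒰 : Filter (Place ℂ L)) ℓ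
      (fun p => Real.log (1 + Complex.normSq (val p t))) (max 0 ((log (w.1 t) : ℤ) : ℝ)) :=
    up_log_one_add hℓ (Eventually.of_forall fun p => Complex.normSq_nonneg _) (hval t ht).2
  have U7 := ((hQ1.1.add ((hE _ _ ha).2.mul (-1))).mul (-(1 - 4 * ε))).up
  obtain ⟨c, hc⟩ := (((((U1.add U2).add U3).add U4).add U5).add U6).add U7
  refine ⟨c, hc.mono fun p hp => ?_⟩
  have e1 : RT k ε δ C a0 a1 (fun u => val p (η u)) (val p t) S =
      -(1 - k) * Real.log (JJ (fun u => val p (η u)) S) +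
        (1 - k - ε) * Real.log (QQ (c1 q) fun u => val p (η u)) +
        (1 - 2 * k) * Real.log (QQ (cT S) fun u => val p (η u)) +
        -((1 - ε) * Real.log (QQ (cD δ S) fun u => val p (η u))) +
        C * ∑ f : Fin 4 ↪ Fin q, Pot (Complex.normSq (chi (fun u => val p (η u)) f)) +
        Real.log (1 + Complex.normSq (val p t)) +
        -(1 - 4 * ε) * (Real.log (QQ (c1 q) fun u => val p (η u)) +
          (-1) * Real.log (Complex.normSq (val p (η a0) - val p (η a1)))) := by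
    unfold RT RR
    ring
  have e2 : rhoR k w η S + rhoC ε C a0 a1 w η t =
      -(1 - k) * (mm (S 0) (S 1) + mm (S 1) (S 2) + mm (S 2) (S 0)) + (1 - k - ε) * M +
        (1 - 2 * k) * MT + -(1 - ε) * M +
        C * ∑ f : Fin 4 ↪ Fin q, 6 * max 0 ((log (w.1 (chi η f)) : ℤ) : ℝ) +
        max 0 ((log (w.1 t) : ℤ) : ℝ) + -(1 - 4 * ε) * (M + -1 * mm a0 a1) := by
    have e3 : ((log (w.1 (edgesT η S 0)) + log (w.1 (edgesT η S 1)) +
        log (w.1 (edgesT η S 2)) : ℤ) : ℝ) = mm (S 0) (S 1) + mm (S 1) (S 2) + mm (S 2) (S 0) := by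
      push_cast
      rfl
    unfold rhoR rhoC
    rw [e3, ← hM, ← hMT, ← Finset.mul_sum]
    ring
  rw [e1, e2]
  exact hp

end Pool.Agent.Lib.MP_44a246_ntMY
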