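import Pool.Agent.Lib.MP_44a246_ntMY.MY30
import Pool.Agent.Lib.MP_44a246_ntMY.MY50a
import Pool.Agent.Lib.MP_44a246_ntMY.MY50b
import Pool.Agent.Lib.MP_44a246_ntMY.MY51

/-!
# (A5) The singular places

The derivation and the ramification (`der_le`, `logder_le`, `exists_der`, `unif_of_unram`) are in
`MY50a`, the exponent at a place (`exponent_le`) is in `MY50b`, the growth of `RT` at a place
(`RT_le`) is in `MY51`.
-/
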