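import Pool.Agent.Lib.MP_44a246_ntMY.MY00
import Pool.Agent.Lib.MP_44a246_ntMY.A6b

/-!
# (A6) The heights
-/

namespace Pool.Agent.Lib.MP_44a246_ntMY

open Pool.Agent.Lib.MP_44a246_nt
open Pool.Agent.Lib.MP_44a246_ntL
open Pool.Agent.Lib.MP_44a246_ntR
open WithZero Module Polynomial Filter Topology

universe u w

section Aux

variable {κ : Type*} [Field κ] [IsAlgClosed κ] [CharZero κ]

theorem log_prod_max {L : Type*} [Field L] (v : Valuation L ℤᵐ⁰) {m : ℕ} (g : Fin m → L) :
    (∏ i, max 1 (v (g i))) ≠ 0 ∧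
      log (∏ i, max 1 (v (g i))) = ∑ i, log (max 1 (v (g i))) := by
  classical
  have key : ∀ s : Finset (Fin m), (∏ i ∈ s, max 1 (v (g i))) ≠ 0 ∧
      log (∏ i ∈ s, max 1 (v (g i))) = ∑ i ∈ s, log (max 1 (v (g i))) := by
    intro s
    induction s using Finset.induction_on with
    | empty => simp
    | insert a s ha ih =>
      obtain ⟨ih1, ih2⟩ := ih
      rw [Finset.prod_insert ha, Finset.sum_insert ha]
      have h1 := Pool.Agent.Lib.MP_44a246_ntY.max_one_ne_zero' v (g a)
      exact ⟨mul_ne_zero h1 ih1, by rw [log_mul h1 ih1, ih2]⟩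
  exact key Finset.univ

theorem height_le_of_local {L : Type*} [Field L] [Algebra κ L] (h : IsFF κ L) {σ : Type*}
    [Fintype σ] {y : σ → L} (hy : y ≠ 0) {m : ℕ} (g : Fin m → L)
    (hloc : ∀ w : Place κ L, vmax w.1 y ≤ ∏ i, max 1 (w.1 (g i))) :
    height κ y ≤ ∑ i, height κ ![1, g i] := by
  classical
  have s1 : ∀ i ∈ (Finset.univ : Finset (Fin m)),
      (Function.support fun w : Place κ L => log (max 1 (w.1 (g i)))).Finite :=
    fun i _ => Pool.Agent.Lib.MP_44a246_ntY.log_max_support h (g i)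
  have s1' : (Function.support fun w : Place κ L => ∑ i, log (max 1 (w.1 (g i)))).Finite := by
    refine (Set.Finite.biUnion (Finset.univ : Finset (Fin m)).finite_toSet s1).subset ?_
    intro w hw
    rw [Function.mem_support] at hw
    obtain ⟨r, hr, hr0⟩ := Finset.exists_ne_zero_of_sum_ne_zero hw
    exact Set.mem_biUnion (Finset.mem_coe.2 hr) hr0
  have h1 := finsum_mono (h.vmax_support hy) s1' fun w => by
    obtain ⟨h2, h3⟩ := log_prod_max w.1 g
    have h4 : vmax w.1 y ≠ 0 := by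
      rw [Ne, vmax_eq_zero_iff]
      exact hy
    exact ((log_le_log h4 h2).2 (hloc w)).trans (le_of_eq h3)
  rw [finsum_sum_comm _ _ s1] at h1
  refine h1.trans (le_of_eq (Finset.sum_congr rfl fun i _ => ?_))
  rw [Pool.Agent.Lib.MP_44a246_ntY.height_one]

omit [IsAlgClosed κ] [CharZero κ] in
theorem val_const_le {L : Type*} [Field L] [Algebra κ L] (w : Place κ L) (c : κ) :
    w.1 (algebraMap κ L c) ≤ 1 := by
  by_cases hc : c = 0
  · rw [hc, map_zero, map_zero]
    exact zero_le
  · exact (w.2.2 c hc).le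

theorem one_le_max_one {L : Type*} [Field L] (v : Valuation L ℤᵐ⁰) (y : L) :
    1 ≤ max 1 (v y) := le_max_left _ _

end Aux

variable (κ : Type u) [Field κ] [IsAlgClosed κ] [CharZero κ]

/-- the height of the edges -/
theorem height_edges (q : ℕ) (hq : 3 ≤ q) : ∃ C : ℕ, ∀ (L : Type w) [Field L] [Algebra κ L],
    IsFF κ L → ∀ (x : L) (b : Fin q → L), Function.Injective b → (∀ v, b v ≠ x) →
      ((q : ℤ) - 2) * height κ ![1, x] ≤
        height κ (edges (eta x b)) + C * ∑ v, height κ ![1, b v] := by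
  refine ⟨2 * q, fun L _ _ hL x b hb hx => ?_⟩
  have h1 := height_hd hL hb (fun r => (hx r).symm) (by rw [Fintype.card_fin]; omega)
  rw [Fintype.card_fin] at h1
  push_cast
  exact h1

/-- `0 ≤ height` for `![1, x]`; the case in which `x` is one of the targets -/
theorem height_le_sum {q : ℕ} {L : Type w} [Field L] [Algebra κ L] (hL : IsFF κ L)
    (b : Fin q → L) (v : Fin q) : height κ ![1, b v] ≤ ∑ v, height κ ![1, b v] :=
  Finset.single_le_sum (f := fun v => height κ ![1, b v])
    (fun r _ => height_one_nonneg hL (b r)) (Finset.mem_univ v)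

/-- the height of the cross ratios -/
theorem height_chi (q : ℕ) : ∃ C : ℕ, ∀ (L : Type w) [Field L] [Algebra κ L],
    IsFF κ L → ∀ (x : L) (b : Fin q → L), Function.Injective b → (∀ v, b v ≠ x) →
      ∀ f : Fin 4 ↪ Fin q, height κ ![1, chi (eta x b) f] ≤ C * ∑ v, height κ ![1, b v] := by
  refine ⟨4, fun L _ _ hL x b hb hx f => ?_⟩
  have hne : ∀ i j : Fin 4, i ≠ j → b (f i) - b (f j) ≠ 0 := fun i j hij =>
    sub_ne_zero.2 fun h0 => hij (f.injective (hb h0))
  have hx' : ∀ i : Fin 4, b (f i) - x ≠ 0 := fun i => sub_ne_zero.2 (hx _)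
  obtain ⟨d, hd⟩ : ∃ d, d = (b (f 0) - b (f 2)) * (b (f 3) - b (f 1)) := ⟨_, rfl⟩
  obtain ⟨e, he⟩ : ∃ e, e = (b (f 2) - b (f 1)) * (b (f 0) - b (f 3)) := ⟨_, rfl⟩
  have hd0 : d ≠ 0 := by
    rw [hd]
    exact mul_ne_zero (hne 0 2 (by decide)) (hne 3 1 (by decide))
  have hchi : chi (eta x b) f = e / d := by
    have e1 := inv_sub_inv_eq (x := x) (hx (f 1)).symm (hx (f 2)).symm
    have e2 := inv_sub_inv_eq (x := x) (hx (f 3)).symm (hx (f 0)).symm
    have e3 := inv_sub_inv_eq (x := x) (hx (f 2)).symm (hx (f 0)).symm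
    have e4 := inv_sub_inv_eq (x := x) (hx (f 1)).symm (hx (f 3)).symm
    unfold chi eta
    rw [e1, e2, e3, e4, he, hd]
    have a0 := hx' 0
    have a1 := hx' 1
    have a2 := hx' 2
    have a3 := hx' 3
    have n1 := hne 0 2 (by decide)
    have n2 := hne 3 1 (by decide)
    field_simp
  have h1 : height κ ![1, chi (eta x b) f] = height κ ![d, e] := by
    rw [← hL.height_smul (x := ![1, chi (eta x b) f]) hd0]
    congr 1
    funext i
    fin_cases i
    · simp
    · simp only [Fin.mk_one, Matrix.cons_val_one, Matrix.cons_val_fin_one, hchi]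
      field_simp
  have hne0 : (![d, e] : Fin 2 → L) ≠ 0 := by
    intro h0
    have := congrFun h0 0
    simp at this
    exact hd0 this
  have h2 : height κ ![d, e] ≤ ∑ i : Fin 4, height κ ![1, b (f i)] := by
    refine height_le_of_local hL hne0 (fun i => b (f i)) fun w => vmax_le _ fun i => ?_
    rw [Fin.prod_univ_four]
    fin_cases i
    · simp only [Fin.zero_eta, Matrix.cons_val_zero]
      rw [hd, map_mul]
      refine (mul_le_mul' (val_sub_le w.1 _ _) (val_sub_le w.1 _ _)).trans (le_of_eq ?_)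
      ac_rfl
    · simp only [Fin.mk_one, Matrix.cons_val_one, Matrix.cons_val_fin_one]
      rw [he, map_mul]
      refine (mul_le_mul' (val_sub_le w.1 _ _) (val_sub_le w.1 _ _)).trans (le_of_eq ?_)
      ac_rfl
  rw [h1]
  refine h2.trans ?_
  calc ∑ i : Fin 4, height κ ![1, b (f i)]
      ≤ ∑ i : Fin 4, ∑ v, height κ ![1, b v] :=
        Finset.sum_le_sum fun i _ => height_le_sum κ hL b (f i)
    _ = (4 : ℕ) * ∑ v, height κ ![1, b v] := by
        rw [Finset.sum_const, Finset.card_univ, Fintype.card_fin, nsmul_eq_mul]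

/-- the places at which two of the targets meet -/
theorem card_meet (q : ℕ) : ∃ C : ℕ, ∀ (L : Type w) [Field L] [Algebra κ L],
    IsFF κ L → ∀ (b : Fin q → L), Function.Injective b →
      {w : Place κ L | ∃ u v, u ≠ v ∧ Meets w (b u) (b v)}.Finite ∧
      (Set.ncard {w : Place κ L | ∃ u v, u ≠ v ∧ Meets w (b u) (b v)} : ℤ) ≤
        C * ∑ v, height κ ![1, b v] := by
  refine ⟨2 * q, fun L _ _ hL b hb => ?_⟩
  have h1 := card_meet_le hL hb
  rw [Fintype.card_fin] at h1
  push_cast
  exact h1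

/-- the places at which `x` meets a target -/
theorem finite_meet {q : ℕ} {L : Type w} [Field L] [Algebra κ L] (hL : IsFF κ L) {x : L}
    {b : Fin q → L} (hx : ∀ v, b v ≠ x) : {w : Place κ L | ∃ v, Meets w x (b v)}.Finite := by
  refine (Set.finite_iUnion fun v => ct_support hL (hx v).symm).subset ?_
  rintro w ⟨v, hv⟩
  refine Set.mem_iUnion.2 ⟨v, ?_⟩
  rw [Function.mem_support]
  exact ((ct_pos_iff w.1 (hx v).symm).2 hv).ne'

/-- the degenerate case -/
theorem height_of_WW (q : ℕ) : ∃ C : ℕ, ∀ (L : Type w) [Field L] [Algebra κ L],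
    IsFF κ L → ∀ (D : Derivation κ L L), (∀ f, D f = 0 → ∃ c, algebraMap κ L c = f) →
      ∀ (x : L) (b : Fin q → L), Function.Injective b → (∀ v, b v ≠ x) → ∀ S : Fin 3 ↪ Fin q,
      WW (eta x b) (fun u => D (eta x b u)) S = 0 →
      height κ ![1, x] ≤ C * ∑ v, height κ ![1, b v] := by
  refine ⟨3, fun L _ _ hL D hD x b hb hx S hW => ?_⟩
  have hne : ∀ i j : Fin 3, i ≠ j → b (S i) ≠ b (S j) := fun i j hij h0 =>
    hij (S.injective (hb h0))
  have h12 : eta x b (S 1) - eta x b (S 2) ≠ 0 :=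
    inv_sub_inv_ne_zero (hx _).symm (hx _).symm (hne 1 2 (by decide))
  obtain ⟨c, hc⟩ : ∃ c : κ, algebraMap κ L c =
      (eta x b (S 0) - eta x b (S 1)) / (eta x b (S 1) - eta x b (S 2)) := by
    apply hD
    rw [Derivation.leibniz_div]
    simp only [smul_eq_mul, map_sub]
    unfold WW at hW
    simp only at hW
    rw [show (eta x b (S 1) - eta x b (S 2)) * (D (eta x b (S 0)) - D (eta x b (S 1))) -
        (eta x b (S 0) - eta x b (S 1)) * (D (eta x b (S 1)) - D (eta x b (S 2))) = 0 by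
      linear_combination hW]
    simp
  obtain ⟨i, hi⟩ : ∃ i, i = b (S 0) := ⟨_, rfl⟩
  obtain ⟨j, hj⟩ : ∃ j, j = b (S 1) := ⟨_, rfl⟩
  obtain ⟨k, hk⟩ : ∃ k, k = b (S 2) := ⟨_, rfl⟩
  have hix : i - x ≠ 0 := by rw [hi]; exact sub_ne_zero.2 (hx _)
  have hjx : j - x ≠ 0 := by rw [hj]; exact sub_ne_zero.2 (hx _)
  have hkx : k - x ≠ 0 := by rw [hk]; exact sub_ne_zero.2 (hx _)
  have hji : j - i ≠ 0 := by rw [hi, hj]; exact sub_ne_zero.2 (hne 1 0 (by decide))
  have hkj : k - j ≠ 0 := by rw [hk, hj]; exact sub_ne_zero.2 (hne 2 1 (by decide))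
  have hik : i - k ≠ 0 := by rw [hi, hk]; exact sub_ne_zero.2 (hne 0 2 (by decide))
  have h3 : (j - i) * (k - x) = algebraMap κ L c * ((k - j) * (i - x)) := by
    rw [eq_div_iff h12] at hc
    have e1 : eta x b (S 0) - eta x b (S 1) = (j - i) / ((i - x) * (j - x)) := by
      rw [hi, hj]
      exact inv_sub_inv_eq (hx _).symm (hx _).symm
    have e2 : eta x b (S 1) - eta x b (S 2) = (k - j) / ((j - x) * (k - x)) := by
      rw [hk, hj]
      exact inv_sub_inv_eq (hx _).symm (hx _).symm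
    rw [e1, e2] at hc
    field_simp at hc
    linear_combination -hc
  obtain ⟨A, hA⟩ : ∃ A, A = algebraMap κ L c * (k - j) - (j - i) := ⟨_, rfl⟩
  obtain ⟨B, hB⟩ : ∃ B, B = algebraMap κ L c * (k - j) * i - (j - i) * k := ⟨_, rfl⟩
  have hAB : A * x = B := by
    rw [hA, hB]
    linear_combination h3
  have hA0 : A ≠ 0 := by
    intro h0
    have h4 : B = 0 := by rw [← hAB, h0, zero_mul]
    have h5 : (j - i) * (i - k) = 0 := by
      rw [hA] at h0
      rw [hB] at h4
      linear_combination h4 - i * h0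
    exact (mul_ne_zero hji hik) h5
  have h1 : height κ ![1, x] = height κ ![A, B] := by
    rw [← hL.height_smul (x := ![1, x]) hA0]
    congr 1
    funext l
    fin_cases l
    · simp
    · simpa using hAB
  have hne0 : (![A, B] : Fin 2 → L) ≠ 0 := by
    intro h0
    have := congrFun h0 0
    simp at this
    exact hA0 this
  have h2 : height κ ![A, B] ≤ ∑ l : Fin 3, height κ ![1, b (S l)] := by
    refine height_le_of_local hL hne0 (fun l => b (S l)) fun w => vmax_le _ fun l => ?_
    rw [Fin.prod_univ_three, ← hi, ← hj, ← hk]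
    have m1 := one_le_max_one w.1 i
    have m3 := one_le_max_one w.1 k
    have c1 := val_const_le w c
    have p1 : w.1 (algebraMap κ L c * (k - j)) ≤ max 1 (w.1 k) * max 1 (w.1 j) := by
      rw [map_mul]
      calc w.1 (algebraMap κ L c) * w.1 (k - j) ≤ 1 * w.1 (k - j) := mul_le_mul_left c1 _
        _ = w.1 (k - j) := one_mul _
        _ ≤ _ := val_sub_le w.1 k j
    have p2 := val_sub_le w.1 j i
    fin_cases l
    · simp only [Fin.zero_eta, Matrix.cons_val_zero]
      rw [hA]
      refine (w.1.map_sub _ _).trans (max_le ?_ ?_)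
      · calc _ ≤ max 1 (w.1 k) * max 1 (w.1 j) := p1
          _ = 1 * max 1 (w.1 j) * max 1 (w.1 k) := by rw [one_mul, mul_comm]
          _ ≤ _ := by gcongr
      · calc _ ≤ max 1 (w.1 j) * max 1 (w.1 i) := p2
          _ = max 1 (w.1 i) * max 1 (w.1 j) * 1 := by rw [mul_one, mul_comm]
          _ ≤ _ := by gcongr
    · simp only [Fin.mk_one, Matrix.cons_val_one, Matrix.cons_val_fin_one]
      rw [hB]
      refine (w.1.map_sub _ _).trans (max_le ?_ ?_)
      · rw [map_mul]
        calc _ ≤ (max 1 (w.1 k) * max 1 (w.1 j)) * max 1 (w.1 i) := by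
              gcongr
              exact le_max_right _ _
          _ = _ := by ac_rfl
      · rw [map_mul]
        calc _ ≤ (max 1 (w.1 j) * max 1 (w.1 i)) * max 1 (w.1 k) := by
              gcongr
              exact le_max_right _ _
          _ = _ := by ac_rfl
  rw [h1]
  refine h2.trans ?_
  calc ∑ l : Fin 3, height κ ![1, b (S l)]
      ≤ ∑ l : Fin 3, ∑ v, height κ ![1, b v] :=
        Finset.sum_le_sum fun l _ => height_le_sum κ hL b (S l)
    _ = (3 : ℕ) * ∑ v, height κ ![1, b v] := by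
        rw [Finset.sum_const, Finset.card_univ, Fintype.card_fin, nsmul_eq_mul]

end Pool.Agent.Lib.MP_44a246_ntMY
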