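import Pool.Agent.Lib.MP_44a246_ntMY.MY10
import Pool.Agent.Lib.MP_44a246_ntMY.MY20
import Pool.Agent.Lib.MP_44a246_ntMY.MY40
import Pool.Agent.Lib.MP_44a246_ntMY.MY50
import Pool.Agent.Lib.MP_44a246_ntMY.MY60

/-!
# (A7) Preparations for the maximum principle
-/

namespace Pool.Agent.Lib.MP_44a246_ntMY

open Pool.Agent.Lib.MP_44a246_nt
open Pool.Agent.Lib.MP_44a246_ntL
open Pool.Agent.Lib.MP_44a246_ntR
open WithZero Module Polynomial Filter Topology

universe w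

section Riemann

variable {L : Type w} [Field L] [Algebra ℂ L]

/-- a function which is regular outside `𝒮` and small at the places of `𝒮` -/
theorem exists_small (hL : IsFF ℂ L) (𝒮 : Finset (Place ℂ L)) (τ : Place ℂ L → ℝ)
    (hneg : ∑ w ∈ 𝒮, τ w < 0) : ∃ n : ℕ, 0 < n ∧ ∃ g : L, g ≠ 0 ∧ (∀ w ∉ 𝒮, w.1 g ≤ 1) ∧
      ∀ w ∈ 𝒮, (n : ℝ) * τ w + ((log (w.1 g) : ℤ) : ℝ) < 0 := by
  classical
  obtain ⟨G, hG⟩ := riemann hL
  obtain ⟨n, hn⟩ := exists_nat_gt (((𝒮.card : ℝ) + G) / (-∑ w ∈ 𝒮, τ w))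
  have hpos : 0 < -∑ w ∈ 𝒮, τ w := by linarith
  have hn1 : (𝒮.card : ℝ) + G < n * (-∑ w ∈ 𝒮, τ w) := by
    rwa [div_lt_iff₀ hpos] at hn
  have hn0 : 0 < n := by
    rcases Nat.eq_zero_or_pos n with h | h
    · subst h
      have h1 : (0 : ℝ) ≤ 𝒮.card := Nat.cast_nonneg _
      have h2 : (0 : ℝ) ≤ G := Nat.cast_nonneg _
      simp only [Nat.cast_zero, zero_mul] at hn1
      linarith
    · exact h
  set D : Place ℂ L →₀ ℤ := Finsupp.indicator 𝒮 (fun w _ => -(⌊(n : ℝ) * τ w⌋ + 1)) with hD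
  have hDin : ∀ w ∈ 𝒮, D w = -(⌊(n : ℝ) * τ w⌋ + 1) := fun w hw => by
    rw [hD, Finsupp.indicator_of_mem hw]
  have hDout : ∀ w ∉ 𝒮, D w = 0 := fun w hw => by
    rw [hD, Finsupp.indicator_of_notMem hw]
  have hdeg : (divDeg D : ℝ) = ∑ w ∈ 𝒮, (-((⌊(n : ℝ) * τ w⌋ : ℝ) + 1)) := by
    unfold divDeg
    rw [Finsupp.sum_of_support_subset D (s := 𝒮) ?_ (fun _ n => n) (fun _ _ => rfl)]
    · push_cast
      refine Finset.sum_congr rfl fun w hw => ?_
      rw [hDin w hw]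
      push_cast
      ring
    · intro w hw
      by_contra hcon
      exact (Finsupp.mem_support_iff.1 hw) (hDout w hcon)
  have hdeg2 : (G : ℝ) < divDeg D := by
    have h1 : ∑ w ∈ 𝒮, (-((n : ℝ) * τ w + 1)) ≤ ∑ w ∈ 𝒮, (-((⌊(n : ℝ) * τ w⌋ : ℝ) + 1)) := by
      refine Finset.sum_le_sum fun w _ => ?_
      have := Int.floor_le ((n : ℝ) * τ w)
      linarith
    have h2 : ∑ w ∈ 𝒮, (-((n : ℝ) * τ w + 1)) = n * (-∑ w ∈ 𝒮, τ w) - 𝒮.card := by
      rw [Finset.sum_neg_distrib, Finset.sum_add_distrib, ← Finset.mul_sum]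
      simp
      ring
    rw [hdeg]
    linarith
  have hdeg3 : (G : ℤ) < divDeg D := by exact_mod_cast hdeg2
  have hfin := hG D
  have hne : 0 < finrank ℂ (Pool.Agent.Lib.MP_44a246_ntR.rr D) := by
    have : (0 : ℤ) < finrank ℂ (Pool.Agent.Lib.MP_44a246_ntR.rr D) := by omega
    exact_mod_cast this
  have hnt : Nontrivial (Pool.Agent.Lib.MP_44a246_ntR.rr D) := Module.nontrivial_of_finrank_pos hne
  obtain ⟨g, hg⟩ := exists_ne (0 : Pool.Agent.Lib.MP_44a246_ntR.rr D)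
  refine ⟨n, hn0, g.1, fun h => hg (Subtype.ext h), ?_, ?_⟩
  · intro w hw
    have := g.2 w
    rwa [hDout w hw, exp_zero] at this
  · intro w hw
    have h1 := g.2 w
    rw [hDin w hw] at h1
    have hg0 : w.1 g.1 ≠ 0 := (w.1.ne_zero_iff).2 fun h => hg (Subtype.ext h)
    have h2 : log (w.1 g.1) ≤ -(⌊(n : ℝ) * τ w⌋ + 1) := (log_le_iff_le_exp hg0).2 h1
    have h3 : ((log (w.1 g.1) : ℤ) : ℝ) ≤ -((⌊(n : ℝ) * τ w⌋ : ℝ) + 1) := by exact_mod_cast h2
    have h4 := Int.lt_floor_add_one ((n : ℝ) * τ w)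
    linarith

end Riemann

section MaxFilter

/-- an ultrafilter along which a function tends to its supremum -/
theorem exists_max_ultra {X : Type*} [Nonempty X] (Φ : X → ℝ) :
    ∃ 𝒰 : Ultrafilter X, ∀ x, ∀ᶠ y in (𝒰 : Filter X), Φ x ≤ Φ y := by
  have hdir : Directed (· ≥ ·) fun x : X => 𝓟 {y | Φ x ≤ Φ y} := by
    intro x y
    rcases le_total (Φ x) (Φ y) with h | h
    · refine ⟨y, ?_, le_rfl⟩
      simp only [ge_iff_le, le_principal_iff, mem_principal, Set.ofPred_subset_ofPred]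
      intro z hz
      exact h.trans hz
    · refine ⟨x, le_rfl, ?_⟩
      simp only [ge_iff_le, le_principal_iff, mem_principal, Set.ofPred_subset_ofPred]
      intro z hz
      exact h.trans hz
  have hne : NeBot (⨅ x : X, 𝓟 {y | Φ x ≤ Φ y}) := by
    refine iInf_neBot_of_directed hdir fun x => ?_
    rw [principal_neBot_iff]
    exact ⟨x, show Φ x ≤ Φ x from le_rfl⟩
  refine ⟨Ultrafilter.of (⨅ x : X, 𝓟 {y | Φ x ≤ Φ y}), fun x => ?_⟩
  have h1 : (Ultrafilter.of (⨅ x : X, 𝓟 {y | Φ x ≤ Φ y}) : Filter X) ≤ 𝓟 {y | Φ x ≤ Φ y} :=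
    (Ultrafilter.of_le _).trans (iInf_le _ x)
  exact h1 (mem_principal_self _)

end MaxFilter

section Values

variable {L : Type*} [Field L] [Algebra ℂ L]

theorem val_WW (hL : IsFF ℂ L) {p : Place ℂ L} {q : ℕ} {η η' : Fin q → L}
    (h : ∀ u, p.1 (η u) ≤ 1) (h' : ∀ u, p.1 (η' u) ≤ 1) (S : Fin 3 ↪ Fin q) :
    p.1 (WW η η' S) ≤ 1 ∧ val p (WW η η' S) = WW (fun u => val p (η u)) (fun u => val p (η' u)) S := by
  have hs : ∀ {f g : L}, p.1 f ≤ 1 → p.1 g ≤ 1 → p.1 (f - g) ≤ 1 := fun hf hg =>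
    (p.1.map_sub _ _).trans (max_le hf hg)
  have hm : ∀ {f g : L}, p.1 f ≤ 1 → p.1 g ≤ 1 → p.1 (f * g) ≤ 1 := fun hf hg => by
    rw [map_mul]
    exact mul_le_one' hf hg
  unfold WW
  refine ⟨hs (hm (hs (h' _) (h' _)) (hs (h _) (h _))) (hm (hs (h _) (h _)) (hs (h' _) (h' _))), ?_⟩
  rw [val_sub hL (hm (hs (h' _) (h' _)) (hs (h _) (h _))) (hm (hs (h _) (h _)) (hs (h' _) (h' _))),
    val_mul hL (hs (h' _) (h' _)) (hs (h _) (h _)), val_mul hL (hs (h _) (h _)) (hs (h' _) (h' _)),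
    val_sub hL (h' _) (h' _), val_sub hL (h _) (h _), val_sub hL (h _) (h _),
    val_sub hL (h' _) (h' _)]

end Values

section Continuity

open scoped ComplexConjugate

variable {q : ℕ} {α : Type*} {l : Filter α}

theorem QQ_pos {c : Fin q → Fin q → ℝ} (hc : ∀ u v, 0 ≤ c u v) {η : Fin q → ℂ} {u v : Fin q}
    (huv : η u ≠ η v) (h : 0 < c u v) : 0 < QQ c η := by
  unfold QQ
  have h1 : ∀ u v, 0 ≤ c u v * Complex.normSq (η u - η v) := fun u v =>
    mul_nonneg (hc u v) (Complex.normSq_nonneg _)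
  have h2 : 0 < c u v * Complex.normSq (η u - η v) :=
    mul_pos h (Complex.normSq_pos.2 (sub_ne_zero.2 huv))
  calc 0 < c u v * Complex.normSq (η u - η v) := h2
    _ ≤ ∑ v, c u v * Complex.normSq (η u - η v) :=
        Finset.single_le_sum (f := fun v => c u v * Complex.normSq (η u - η v))
          (fun v _ => h1 u v) (Finset.mem_univ v)
    _ ≤ ∑ u, ∑ v, c u v * Complex.normSq (η u - η v) :=
        Finset.single_le_sum (f := fun u => ∑ v, c u v * Complex.normSq (η u - η v))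
          (fun u _ => Finset.sum_nonneg fun v _ => h1 u v) (Finset.mem_univ u)

theorem cT_nonneg71 (S : Fin 3 ↪ Fin q) (u v : Fin q) : 0 ≤ cT S u v := by
  unfold cT
  split_ifs
  · exact zero_le_one
  · exact le_rfl

theorem QQ_cT_pos {η : Fin q → ℂ} (hη : ∀ u v, u ≠ v → η u ≠ η v) (S : Fin 3 ↪ Fin q) :
    0 < QQ (cT S) η := by
  have h01 : S 0 ≠ S 1 := fun h => by simpa using S.injective h
  refine QQ_pos (cT_nonneg71 S) (hη _ _ h01) ?_
  unfold cT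
  rw [if_pos ⟨⟨0, rfl⟩, ⟨1, rfl⟩⟩]
  exact zero_lt_one

theorem QQ_c1_pos {η : Fin q → ℂ} {u v : Fin q} (h : η u ≠ η v) : 0 < QQ (c1 q) η :=
  QQ_pos (fun _ _ => zero_le_one) h zero_lt_one

theorem QQ_cD_pos {δ : ℝ} (hδ : 0 < δ) {η : Fin q → ℂ} {u v : Fin q} (h : η u ≠ η v)
    (S : Fin 3 ↪ Fin q) : 0 < QQ (cD δ S) η :=
  QQ_pos (fun u v => add_nonneg hδ.le (cT_nonneg71 S u v)) h
    (add_pos_of_pos_of_nonneg hδ (cT_nonneg71 S u v))

theorem JJ_pos {η : Fin q → ℂ} (hη : ∀ u v, u ≠ v → η u ≠ η v) (S : Fin 3 ↪ Fin q) :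
    0 < JJ η S := by
  have h01 : S 0 ≠ S 1 := fun h => by simpa using S.injective h
  have h12 : S 1 ≠ S 2 := fun h => by simpa using S.injective h
  have h20 : S 2 ≠ S 0 := fun h => by simpa using S.injective h
  unfold JJ
  exact mul_pos (mul_pos (Complex.normSq_pos.2 (sub_ne_zero.2 (hη _ _ h01)))
    (Complex.normSq_pos.2 (sub_ne_zero.2 (hη _ _ h12))))
    (Complex.normSq_pos.2 (sub_ne_zero.2 (hη _ _ h20)))

theorem tendsto_normSq {f : α → ℂ} {z : ℂ} (h : Tendsto f l (𝓝 z)) :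
    Tendsto (fun a => Complex.normSq (f a)) l (𝓝 (Complex.normSq z)) :=
  (Complex.continuous_normSq.tendsto z).comp h

theorem tendsto_QQ (c : Fin q → Fin q → ℝ) {ηs : α → Fin q → ℂ} {η : Fin q → ℂ}
    (h : ∀ u, Tendsto (fun a => ηs a u) l (𝓝 (η u))) :
    Tendsto (fun a => QQ c (ηs a)) l (𝓝 (QQ c η)) := by
  unfold QQ
  refine tendsto_finsetSum _ fun u _ => tendsto_finsetSum _ fun v _ => ?_
  exact (tendsto_normSq ((h u).sub (h v))).const_mul _

theorem tendsto_Pot {f : α → ℝ} {y : ℝ} (hy : 0 < y) (h : Tendsto f l (𝓝 y)) :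
    Tendsto (fun a => Pot (f a)) l (𝓝 (Pot y)) := by
  have hy1 : (1 : ℝ) + y ≠ 0 := by positivity
  have hy2 : (1 : ℝ) + y⁻¹ ≠ 0 := by positivity
  have huu : 0 < 1 + uu y := by
    unfold uu
    have h1 : 0 < Real.log (1 + y) := Real.log_pos (by linarith)
    have h2 : 0 < Real.log (1 + y⁻¹) := Real.log_pos (by have := inv_pos.2 hy; linarith)
    linarith
  have h1 : Tendsto (fun a => Real.log (1 + f a)) l (𝓝 (Real.log (1 + y))) :=
    (h.const_add 1).log hy1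
  have h2 : Tendsto (fun a => Real.log (1 + (f a)⁻¹)) l (𝓝 (Real.log (1 + y⁻¹))) :=
    ((h.inv₀ hy.ne').const_add 1).log hy2
  have h3 : Tendsto (fun a => 1 + uu (f a)) l (𝓝 (1 + uu y)) := (h1.add h2).const_add 1
  unfold Pot
  exact ((h3.log huu.ne').neg).add (h1.const_mul 6)

theorem chi_ne_zero {η : Fin q → ℂ} (hη : ∀ u v, u ≠ v → η u ≠ η v) (f : Fin 4 ↪ Fin q) :
    chi η f ≠ 0 := by
  have h12 : f 1 ≠ f 2 := fun h => by simpa using f.injective h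
  have h30 : f 3 ≠ f 0 := fun h => by simpa using f.injective h
  have h20 : f 2 ≠ f 0 := fun h => by simpa using f.injective h
  have h13 : f 1 ≠ f 3 := fun h => by simpa using f.injective h
  unfold chi
  exact div_ne_zero (mul_ne_zero (sub_ne_zero.2 (hη _ _ h12)) (sub_ne_zero.2 (hη _ _ h30)))
    (mul_ne_zero (sub_ne_zero.2 (hη _ _ h20)) (sub_ne_zero.2 (hη _ _ h13)))

theorem tendsto_chi {ηs : α → Fin q → ℂ} {η : Fin q → ℂ}
    (h : ∀ u, Tendsto (fun a => ηs a u) l (𝓝 (η u))) (hη : ∀ u v, u ≠ v → η u ≠ η v)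
    (f : Fin 4 ↪ Fin q) : Tendsto (fun a => chi (ηs a) f) l (𝓝 (chi η f)) := by
  have h20 : f 2 ≠ f 0 := fun h => by simpa using f.injective h
  have h13 : f 1 ≠ f 3 := fun h => by simpa using f.injective h
  unfold chi
  exact (((h _).sub (h _)).mul ((h _).sub (h _))).div (((h _).sub (h _)).mul ((h _).sub (h _)))
    (mul_ne_zero (sub_ne_zero.2 (hη _ _ h20)) (sub_ne_zero.2 (hη _ _ h13)))

/-- the exponent is continuous -/
theorem tendsto_RT {k ε δ C : ℝ} (hδ : 0 < δ) {a0 a1 : Fin q} (ha : a0 ≠ a1)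
    {ηs : α → Fin q → ℂ} {η : Fin q → ℂ} {τs : α → ℂ} {τ : ℂ}
    (h : ∀ u, Tendsto (fun a => ηs a u) l (𝓝 (η u))) (hη : ∀ u v, u ≠ v → η u ≠ η v)
    (hτ : Tendsto τs l (𝓝 τ)) (S : Fin 3 ↪ Fin q) :
    Tendsto (fun a => RT k ε δ C a0 a1 (ηs a) (τs a) S) l (𝓝 (RT k ε δ C a0 a1 η τ S)) := by
  have hJ : Tendsto (fun a => Real.log (JJ (ηs a) S)) l (𝓝 (Real.log (JJ η S))) := by
    refine Tendsto.log ?_ (JJ_pos hη S).ne'
    unfold JJ
    exact ((tendsto_normSq ((h _).sub (h _))).mul (tendsto_normSq ((h _).sub (h _)))).mul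
      (tendsto_normSq ((h _).sub (h _)))
  have h1 : Tendsto (fun a => Real.log (QQ (c1 q) (ηs a))) l (𝓝 (Real.log (QQ (c1 q) η))) :=
    (tendsto_QQ _ h).log (QQ_c1_pos (hη _ _ ha)).ne'
  have h2 : Tendsto (fun a => Real.log (QQ (cT S) (ηs a))) l (𝓝 (Real.log (QQ (cT S) η))) :=
    (tendsto_QQ _ h).log (QQ_cT_pos hη S).ne'
  have h3 : Tendsto (fun a => Real.log (QQ (cD δ S) (ηs a))) l (𝓝 (Real.log (QQ (cD δ S) η))) :=
    (tendsto_QQ _ h).log (QQ_cD_pos hδ (hη _ _ ha) S).ne'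
  have h4 : Tendsto (fun a => ∑ f : Fin 4 ↪ Fin q, Pot (Complex.normSq (chi (ηs a) f))) l
      (𝓝 (∑ f : Fin 4 ↪ Fin q, Pot (Complex.normSq (chi η f)))) :=
    tendsto_finsetSum _ fun f _ =>
      tendsto_Pot (Complex.normSq_pos.2 (chi_ne_zero hη f)) (tendsto_normSq (tendsto_chi h hη f))
  have h5 : Tendsto (fun a => Real.log (1 + Complex.normSq (τs a))) l
      (𝓝 (Real.log (1 + Complex.normSq τ))) := by
    refine ((tendsto_normSq hτ).const_add 1).log ?_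
    have := Complex.normSq_nonneg τ
    positivity
  have h6 : Tendsto (fun a => Real.log (Complex.normSq (ηs a a0 - ηs a a1))) l
      (𝓝 (Real.log (Complex.normSq (η a0 - η a1)))) :=
    (tendsto_normSq ((h a0).sub (h a1))).log
      (Complex.normSq_pos.2 (sub_ne_zero.2 (hη _ _ ha))).ne'
  unfold RT RR
  exact (((((hJ.const_mul _).add (h1.const_mul _)).add (h2.const_mul _)).sub
    (h3.const_mul _)).add (h4.const_mul _)).add h5 |>.sub ((h1.sub h6).const_mul _)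

end Continuity

end Pool.Agent.Lib.MP_44a246_ntMY
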