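import Pool.Agent.Lib.MP_44a246_ntMY.MY71

/-!
# (A7) The maximum principle
-/

namespace Pool.Agent.Lib.MP_44a246_ntMY

open Pool.Agent.Lib.MP_44a246_nt
open Pool.Agent.Lib.MP_44a246_ntL
open Pool.Agent.Lib.MP_44a246_ntR
open WithZero Module Polynomial Filter Topology

universe w

section Sec

variable {L : Type w} [Field L] [Algebra ℂ L]

/-- the function whose maximum is considered: `exp` of `log |f|² + n RT` -/
noncomputable def Phi {q : ℕ} (k ε δ C : ℝ) (a0 a1 : Fin q) (η : Fin q → L) (t : L)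
    (F : (Fin 3 ↪ Fin q) → L) (n : ℕ) (S : Fin 3 ↪ Fin q) (p : Place ℂ L) : ℝ :=
  Complex.normSq (val p (F S)) *
    Real.exp (n * RT k ε δ C a0 a1 (fun u => val p (η u)) (val p t) S)

theorem Phi_nonneg {q : ℕ} (k ε δ C : ℝ) (a0 a1 : Fin q) (η : Fin q → L) (t : L)
    (F : (Fin 3 ↪ Fin q) → L) (n : ℕ) (S : Fin 3 ↪ Fin q) (p : Place ℂ L) :
    0 ≤ Phi k ε δ C a0 a1 η t F n S p :=
  mul_nonneg (Complex.normSq_nonneg _) (Real.exp_pos _).le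

/-- continuity at a regular place -/
theorem tendsto_Phi (hL : IsFF ℂ L) {q : ℕ} {k ε δ C : ℝ} (hδ : 0 < δ) {a0 a1 : Fin q}
    (ha : a0 ≠ a1) {η : Fin q → L} {t : L} {F : (Fin 3 ↪ Fin q) → L} (n : ℕ) (S : Fin 3 ↪ Fin q)
    {𝒰 : Filter (Place ℂ L)} {w : Place ℂ L} (h : TendsP 𝒰 w) (hη : ∀ u, w.1 (η u) ≤ 1)
    (hη' : ∀ u v, u ≠ v → w.1 (η u - η v) = 1) (ht : w.1 t ≤ 1) (hF : w.1 (F S) ≤ 1) :
    Tendsto (Phi k ε δ C a0 a1 η t F n S) 𝒰 (𝓝 (Phi k ε δ C a0 a1 η t F n S w)) := by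
  have hne : ∀ u v, u ≠ v → val w (η u) ≠ val w (η v) := by
    intro u v huv heq
    have h1 := val_ne_zero hL (hη' u v huv)
    rw [val_sub hL (hη u) (hη v), heq, sub_self] at h1
    exact h1 rfl
  unfold Phi
  refine (tendsto_normSq (h _ hF).2).mul ?_
  refine (Real.continuous_exp.tendsto _).comp ?_
  exact (tendsto_RT hδ ha (fun u => (h _ (hη u)).2) hne (h _ ht).2 S).const_mul _

/-- the function tends to `0` at a singular place -/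
theorem tendsto_Phi_zero {q : ℕ} {k ε δ C : ℝ} {a0 a1 : Fin q}
    {η : Fin q → L} {t : L} {F : (Fin 3 ↪ Fin q) → L} {n : ℕ} (S : Fin 3 ↪ Fin q)
    {𝒰 : Ultrafilter (Place ℂ L)} {w : Place ℂ L} {ℓ : Place ℂ L → ℝ} (hℓ : Tendsto ℓ 𝒰 atTop)
    (hFS : F S ≠ 0)
    (hval : ∀ f : L, f ≠ 0 → (∀ᶠ p in (𝒰 : Filter (Place ℂ L)), p.1 f = 1) ∧
        ∃ c : ℝ, ∀ᶠ p in (𝒰 : Filter (Place ℂ L)),
          |Real.log (Complex.normSq (val p f)) - ((log (w.1 f) : ℤ) : ℝ) * ℓ p| ≤ c)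
    (hvne : ∀ᶠ p in (𝒰 : Filter (Place ℂ L)), val p (F S) ≠ 0) {a : ℝ}
    (hRT : ∃ c : ℝ, ∀ᶠ p in (𝒰 : Filter (Place ℂ L)),
      RT k ε δ C a0 a1 (fun u => val p (η u)) (val p t) S ≤ a * ℓ p + c)
    (hneg : ((log (w.1 (F S)) : ℤ) : ℝ) + n * a < 0) :
    Tendsto (Phi k ε δ C a0 a1 η t F n S) 𝒰 (𝓝 0) := by
  obtain ⟨c, hc⟩ := hRT
  obtain ⟨c', hc'⟩ := (hval _ hFS).2
  set b : ℝ := ((log (w.1 (F S)) : ℤ) : ℝ) + n * a with hb
  have h1 : Tendsto (fun p => Real.exp (b * ℓ p + (c' + n * c))) 𝒰 (𝓝 0) := by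
    refine Real.tendsto_exp_atBot.comp ?_
    refine tendsto_atBot_add_const_right _ _ ?_
    exact hℓ.const_mul_atTop_of_neg hneg
  refine squeeze_zero' (Eventually.of_forall fun p => Phi_nonneg k ε δ C a0 a1 η t F n S p) ?_ h1
  filter_upwards [hc, hc', hvne] with p hp hp' hne
  unfold Phi
  rw [← Real.exp_log (Complex.normSq_pos.2 hne), ← Real.exp_add]
  apply Real.exp_le_exp.2
  have h2 := (abs_le.1 hp').2
  have h3 : (n : ℝ) * RT k ε δ C a0 a1 (fun u => val p (η u)) (val p t) S ≤ n * (a * ℓ p + c) :=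
    mul_le_mul_of_nonneg_left hp (Nat.cast_nonneg _)
  rw [hb]
  nlinarith

end Sec

end Pool.Agent.Lib.MP_44a246_ntMY
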