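import Pool.Agent.Lib.MP_44a246_ntMY.MY72

/-!
# (A7) The maximum principle, the two cases
-/

namespace Pool.Agent.Lib.MP_44a246_ntMY

open Pool.Agent.Lib.MP_44a246_nt
open Pool.Agent.Lib.MP_44a246_ntL
open Pool.Agent.Lib.MP_44a246_ntR
open WithZero Module Polynomial Filter Topology

universe w

variable {L : Type w} [Field L] [Algebra ℂ L] [Algebra (RatFunc ℂ) L]
  [IsScalarTower ℂ (RatFunc ℂ) L] [FiniteDimensional (RatFunc ℂ) L]

theorem eventually_ne (z : ℂ) : ∀ᶠ s in 𝓝[≠] (0 : ℂ), s ≠ z := by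
  rcases eq_or_ne z 0 with h | h
  · subst h
    exact self_mem_nhdsWithin
  · exact eventually_nhdsWithin_of_eventually_nhds (isOpen_ne.mem_nhds h.symm)

/-- **There is no maximum at a regular place.** -/
theorem no_max (hL : IsFF ℂ L) {q : ℕ} {k ε δ C : ℝ} (hδ : 0 < δ) (hC : 0 ≤ C)
    (hpw : ∀ (η η' : Fin q → ℂ) (T : Fin 3 ↪ Fin q),
      (∀ u v, u ≠ v → η u ≠ η v) → WW η η' T ≠ 0 →
      (∀ S : Fin 3 ↪ Fin q, EE k ε δ η η' S ≤ EE k ε δ η η' T) →
      (1 - 4 * ε) * VV (c1 q) η η' - C * ∑ f : Fin 4 ↪ Fin q, Al η η' f ≤ LR k ε δ η η' T)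
    (D : Derivation ℂ L L) {t : L} (hD : D t = 1) {η : Fin q → L} {a0 a1 : Fin q} (ha : a0 ≠ a1)
    (𝒮 : Finset (Place ℂ L)) {g : L} {n : ℕ} (hn : 0 < n) (hgreg : ∀ w ∉ 𝒮, w.1 g ≤ 1)
    (hDreg : ∀ w ∉ 𝒮, ∀ f, w.1 f ≤ 1 → w.1 (D f) ≤ 1)
    (hηreg : ∀ w ∉ 𝒮, ∀ u, w.1 (η u) ≤ 1)
    (hη1 : ∀ w ∉ 𝒮, ∀ u v, u ≠ v → w.1 (η u - η v) = 1) {w : Place ℂ L} (hw : w ∉ 𝒮)
    (hp : w.1 (t - algebraMap ℂ L (val w t)) = exp (-1 : ℤ)) {T : Fin 3 ↪ Fin q}
    (hT : 0 < Phi k ε δ C a0 a1 η t (fun S => WW η (fun u => D (η u)) S ^ n * g) n T w)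
    (hmax : ∀ p ∉ 𝒮, ∀ S,
      Phi k ε δ C a0 a1 η t (fun S => WW η (fun u => D (η u)) S ^ n * g) n S p ≤
        Phi k ε δ C a0 a1 η t (fun S => WW η (fun u => D (η u)) S ^ n * g) n T w) : False := by
  classical
  have hWreg : ∀ p ∉ 𝒮, ∀ S, p.1 (WW η (fun u => D (η u)) S) ≤ 1 ∧
      val p (WW η (fun u => D (η u)) S) =
        WW (fun u => val p (η u)) (fun u => val p (D (η u))) S := fun p hp S =>
    val_WW hL (hηreg p hp) (fun u => hDreg p hp _ (hηreg p hp u)) S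
  have hpow : ∀ p ∉ 𝒮, ∀ S, p.1 (WW η (fun u => D (η u)) S ^ n) ≤ 1 := fun p hp S => by
    rw [map_pow]
    exact pow_le_one' (hWreg p hp S).1 n
  have hvalF : ∀ p ∉ 𝒮, ∀ S, val p (WW η (fun u => D (η u)) S ^ n * g) =
      val p (WW η (fun u => D (η u)) S) ^ n * val p g := fun p hp S => by
    rw [val_mul hL (hpow p hp S) (hgreg p hp), val_pow hL (hWreg p hp S).1]
  have hTne : val w (WW η (fun u => D (η u)) T ^ n * g) ≠ 0 := by
    intro h
    unfold Phi at hT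
    simp only [h, map_zero, zero_mul, lt_self_iff_false] at hT
  have hWT : val w (WW η (fun u => D (η u)) T) ≠ 0 := by
    intro h
    rw [hvalF w hw T, h, zero_pow hn.ne', zero_mul] at hTne
    exact hTne rfl
  have hgT : val w g ≠ 0 := by
    intro h
    rw [hvalF w hw T, h, mul_zero] at hTne
    exact hTne rfl
  have hne : ∀ u v, u ≠ v → val w (η u) ≠ val w (η v) := by
    intro u v huv heq
    have h1 := val_ne_zero hL (hη1 w hw u v huv)
    rw [val_sub hL (hηreg w hw u) (hηreg w hw v), heq, sub_self] at h1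
    exact h1 rfl
  -- the pointwise inequality
  have hEE : ∀ S : Fin 3 ↪ Fin q,
      EE k ε δ (fun u => val w (η u)) (fun u => val w (D (η u))) S ≤
        EE k ε δ (fun u => val w (η u)) (fun u => val w (D (η u))) T := by
    intro S
    have h1 := hmax w hw S
    set K : ℝ := C * ∑ f : Fin 4 ↪ Fin q, Pot (Complex.normSq (chi (fun u => val w (η u)) f)) +
      Real.log (1 + Complex.normSq (val w t)) -
      (1 - 4 * ε) * (Real.log (QQ (c1 q) (fun u => val w (η u))) -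
        Real.log (Complex.normSq (val w (η a0) - val w (η a1)))) with hK
    have hRT : ∀ S, RT k ε δ C a0 a1 (fun u => val w (η u)) (val w t) S =
        RR k ε δ (fun u => val w (η u)) S + K := by
      intro S
      unfold RT
      rw [hK]
      ring
    have hPhi : ∀ S, Phi k ε δ C a0 a1 η t (fun S => WW η (fun u => D (η u)) S ^ n * g) n S w =
        (EE k ε δ (fun u => val w (η u)) (fun u => val w (D (η u))) S * Real.exp K) ^ n *
          Complex.normSq (val w g) := by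
      intro S
      unfold Phi EE
      rw [hvalF w hw S, (hWreg w hw S).2, hRT S, map_mul, map_pow, mul_add, Real.exp_add,
        Real.exp_nat_mul, Real.exp_nat_mul, mul_pow, mul_pow]
      ring
    rw [hPhi S, hPhi T] at h1
    have h2 := le_of_mul_le_mul_right h1 (Complex.normSq_pos.2 hgT)
    have h3 : ∀ S, 0 ≤ EE k ε δ (fun u => val w (η u)) (fun u => val w (D (η u))) S := fun S =>
      mul_nonneg (Complex.normSq_nonneg _) (Real.exp_pos _).le
    have h4 := (pow_le_pow_iff_left₀ (mul_nonneg (h3 S) (Real.exp_pos K).le)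
      (mul_nonneg (h3 T) (Real.exp_pos K).le) hn.ne').1 h2
    exact le_of_mul_le_mul_right h4 (Real.exp_pos K)
  have hpw1 := hpw (fun u => val w (η u)) (fun u => val w (D (η u))) T hne
    (by rw [← (hWreg w hw T).2]; exact hWT) hEE
  -- nearby places
  obtain ⟨Q, hQ1, hQ2⟩ := exists_near hL hp
  have hQS : ∀ᶠ s in 𝓝[≠] (0 : ℂ), Q s ∉ 𝒮 := by
    have h1 : ∀ p ∈ 𝒮, ∀ᶠ s in 𝓝[≠] (0 : ℂ), Q s ≠ p := by
      intro p _
      filter_upwards [hQ1, eventually_ne (val p t - val w t)] with s hs hs' heq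
      apply hs'
      rw [← heq, hs.1]
      ring
    have h2 : ∀ᶠ s in 𝓝[≠] (0 : ℂ), ∀ p ∈ 𝒮, Q s ≠ p := (Finset.eventually_all 𝒮).2 h1
    filter_upwards [h2] with s hs hmem
    exact hs _ hmem rfl
  have hH : ∀ f : L, w.1 f ≤ 1 →
      HasH (fun s => val (Q s) f) (val w f) (val w (D f)) (val w (D (D f)) / 2) := fun f hf =>
    hasH_val hL hp hQ1 hQ2 hD (hDreg w hw) hf
  obtain ⟨A, B, c, hJ, hc⟩ := hasJ_RT (k := k) (ε := ε) hδ hC ha (val w t) T
    (fun u => hH _ (hηreg w hw u)) hne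
  obtain ⟨A1, B1, hJ1⟩ := HasH.log_normSq (hH _ (hWreg w hw T).1) hWT
  obtain ⟨A2, B2, hJ2⟩ := HasH.log_normSq (hH _ (hgreg w hw)) hgT
  have hJ3 := ((hJ1.smul (n : ℝ)).add hJ2).add (hJ.smul (n : ℝ))
  have hW0 : ∀ᶠ s in 𝓝[≠] (0 : ℂ), val (Q s) (WW η (fun u => D (η u)) T) ≠ 0 := by
    have h1 := (hQ2 _ (hWreg w hw T).1).2
    rw [tendsto_map'_iff] at h1
    exact h1.eventually_ne hWT
  have hg0 : ∀ᶠ s in 𝓝[≠] (0 : ℂ), val (Q s) g ≠ 0 := by
    have h1 := (hQ2 _ (hgreg w hw)).2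
    rw [tendsto_map'_iff] at h1
    exact h1.eventually_ne hgT
  have hle : (n : ℝ) * 0 + 0 + n * c ≤ 0 := by
    refine hJ3.le_zero ?_
    filter_upwards [hQ1, hQS, hW0, hg0] with s hs1 hs2 hs3 hs4
    have h1 := hmax (Q s) hs2 T
    have hkey : ∀ p ∉ 𝒮, val p (WW η (fun u => D (η u)) T) ≠ 0 → val p g ≠ 0 →
        Phi k ε δ C a0 a1 η t (fun S => WW η (fun u => D (η u)) S ^ n * g) n T p =
        Real.exp (n * Real.log (Complex.normSq (val p (WW η (fun u => D (η u)) T))) +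
          Real.log (Complex.normSq (val p g)) +
          n * RT k ε δ C a0 a1 (fun u => val p (η u)) (val p t) T) := by
      intro p hp h3 h4
      unfold Phi
      rw [hvalF p hp T, map_mul, map_pow, Real.exp_add, Real.exp_add,
        Real.exp_nat_mul (Real.log (Complex.normSq (val p (WW η (fun u => D (η u)) T)))) n,
        Real.exp_log (Complex.normSq_pos.2 h3), Real.exp_log (Complex.normSq_pos.2 h4)]
    rw [hkey _ hs2 hs3 hs4, hkey _ hw hWT hgT, Real.exp_le_exp, hs1.1] at h1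
    exact h1
  have hn' : (0 : ℝ) < n := Nat.cast_pos.2 hn
  have hc0 : c ≤ 0 := by
    have h1 : (n : ℝ) * c ≤ 0 := by linarith
    exact nonpos_of_mul_nonpos_right h1 hn'
  have hpos : 0 < 1 / (1 + Complex.normSq (val w t)) ^ 2 := by
    have := Complex.normSq_nonneg (val w t)
    positivity
  linarith

end Pool.Agent.Lib.MP_44a246_ntMY
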