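import Pool.Agent.Lib.MP_44a246_ntMY.MY73

/-!
# (A7) The maximum principle, assembly
-/

namespace Pool.Agent.Lib.MP_44a246_ntMY

open Pool.Agent.Lib.MP_44a246_nt
open Pool.Agent.Lib.MP_44a246_ntL
open Pool.Agent.Lib.MP_44a246_ntR
open WithZero Module Polynomial Filter Topology

universe w

variable {L : Type w} [Field L] [Algebra ℂ L]

/-- **A maximum exists at a regular place**: `𝒮` is finite, `f S` are nonnegative functions, not all
zero outside `𝒮`, continuous at the places outside `𝒮`, and they tend to zero at the places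
of `𝒮`. -/
theorem exists_max (hL : IsFF ℂ L) {I : Type} [Fintype I] [Nonempty I]
    (f : I → Place ℂ L → ℝ) (𝒮 : Finset (Place ℂ L)) {p1 : Place ℂ L} (hp1 : p1 ∉ 𝒮) {S1 : I}
    (hpos : 0 < f S1 p1)
    (hcont : ∀ (𝒰 : Ultrafilter (Place ℂ L)) (w : Place ℂ L), w ∉ 𝒮 → TendsP 𝒰 w → ∀ S,
      Tendsto (f S) 𝒰 (𝓝 (f S w)))
    (hzero : ∀ (𝒰 : Ultrafilter (Place ℂ L)) (w : Place ℂ L), w ∈ 𝒮 → TendsP 𝒰 w →
      (∀ S : Set (Place ℂ L), S.Finite → Sᶜ ∈ 𝒰) → (∀ᶠ p in (𝒰 : Filter (Place ℂ L)), p ∉ 𝒮) →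
      ∀ S, Tendsto (f S) 𝒰 (𝓝 0)) :
    ∃ w ∉ 𝒮, ∃ T, 0 < f T w ∧ ∀ p ∉ 𝒮, ∀ S, f S p ≤ f T w := by
  classical
  have hne : (Finset.univ : Finset I).Nonempty := Finset.univ_nonempty
  set Φ : Place ℂ L → ℝ := fun p => Finset.univ.sup' hne fun S => f S p with hΦ
  have hle : ∀ p S, f S p ≤ Φ p := fun p S =>
    Finset.le_sup' (fun S => f S p) (Finset.mem_univ S)
  have hlt : ∀ {p : Place ℂ L} {a : ℝ}, (∀ S, f S p < a) → Φ p < a := fun {p a} h => by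
    rw [hΦ]
    exact (Finset.sup'_lt_iff hne).2 fun S _ => h S
  suffices h : ∃ w ∉ 𝒮, ∀ p ∉ 𝒮, Φ p ≤ Φ w by
    obtain ⟨w, hw, hmax⟩ := h
    obtain ⟨T, -, hT⟩ := Finset.exists_mem_eq_sup' hne fun S => f S w
    have hT' : Φ w = f T w := hT
    refine ⟨w, hw, T, ?_, fun p hp S => ?_⟩
    · rw [← hT']
      exact hpos.trans_le ((hle p1 S1).trans (hmax p1 hp1))
    · rw [← hT']
      exact (hle p S).trans (hmax p hp)
  have hX : Nonempty {p : Place ℂ L // p ∉ 𝒮} := ⟨⟨p1, hp1⟩⟩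
  obtain ⟨𝒰0, h𝒰0⟩ := exists_max_ultra fun p : {p : Place ℂ L // p ∉ 𝒮} => Φ p.1
  set 𝒰 : Ultrafilter (Place ℂ L) := 𝒰0.map Subtype.val with h𝒰
  have h1 : ∀ᶠ p in (𝒰 : Filter (Place ℂ L)), p ∉ 𝒮 := by
    rw [h𝒰, Ultrafilter.coe_map, eventually_map]
    exact Eventually.of_forall fun p => p.2
  have h2 : ∀ p' ∉ 𝒮, ∀ᶠ p in (𝒰 : Filter (Place ℂ L)), Φ p' ≤ Φ p := by
    intro p' hp'
    rw [h𝒰, Ultrafilter.coe_map, eventually_map]
    exact h𝒰0 ⟨p', hp'⟩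
  by_cases hfin : ∀ S : Set (Place ℂ L), S.Finite → Sᶜ ∈ 𝒰
  · obtain ⟨w, hw⟩ := exists_limit hL 𝒰
    by_cases hws : w ∈ 𝒮
    · exfalso
      have h3 : ∀ᶠ p in (𝒰 : Filter (Place ℂ L)), ∀ S, f S p < f S1 p1 :=
        eventually_all.2 fun S => (hzero 𝒰 w hws hw hfin h1 S).eventually_lt_const hpos
      obtain ⟨p, hp3, hp2⟩ := (h3.and (h2 p1 hp1)).exists
      exact absurd (hlt hp3) (not_lt.2 ((hle p1 S1).trans hp2))
    · refine ⟨w, hws, fun p' hp' => ?_⟩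
      by_contra hcon
      push Not at hcon
      have h3 : ∀ᶠ p in (𝒰 : Filter (Place ℂ L)), ∀ S, f S p < Φ p' :=
        eventually_all.2 fun S =>
          (hcont 𝒰 w hws hw S).eventually_lt_const ((hle w S).trans_lt hcon)
      obtain ⟨p, hp3, hp2⟩ := (h3.and (h2 p' hp')).exists
      exact absurd (hlt hp3) (not_lt.2 hp2)
  · push Not at hfin
    obtain ⟨S, hS, hSU⟩ := hfin
    have hSU' : S ∈ 𝒰 := by
      rcases 𝒰.mem_or_compl_mem S with h | h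
      · exact h
      · exact absurd h hSU
    obtain ⟨w, -, hw⟩ := Ultrafilter.eq_pure_of_finite_mem hS hSU'
    rw [hw] at h1 h2
    refine ⟨w, ?_, fun p hp => ?_⟩
    · simpa using h1
    · simpa using h2 p hp

end Pool.Agent.Lib.MP_44a246_ntMY
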