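import Pool.Agent.Lib.MP_44a246_ntMY.MY74

/-!
# (A7) The maximum principle
-/

namespace Pool.Agent.Lib.MP_44a246_ntMY

open Pool.Agent.Lib.MP_44a246_nt
open Pool.Agent.Lib.MP_44a246_ntL
open Pool.Agent.Lib.MP_44a246_ntR
open WithZero Module Polynomial Filter Topology

universe w

variable {L : Type w} [Field L] [Algebra ℂ L] [Algebra (RatFunc ℂ) L]
  [IsScalarTower ℂ (RatFunc ℂ) L] [FiniteDimensional (RatFunc ℂ) L]

/-- **The maximum principle.** The total exponent is not negative. -/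
theorem max_principle {q : ℕ} {k ε δ C : ℝ} (hk0 : 0 < k) (hk1 : k ≤ 1 / 2) (hε0 : 0 < ε)
    (hε1 : ε ≤ 1 / 8) (hδ : 0 < δ) (hC : 0 ≤ C)
    (hpw : ∀ (η η' : Fin q → ℂ) (T : Fin 3 ↪ Fin q),
      (∀ u v, u ≠ v → η u ≠ η v) → WW η η' T ≠ 0 →
      (∀ S : Fin 3 ↪ Fin q, EE k ε δ η η' S ≤ EE k ε δ η η' T) →
      (1 - 4 * ε) * VV (c1 q) η η' - C * ∑ f : Fin 4 ↪ Fin q, Al η η' f ≤ LR k ε δ η η' T)
    (hq : 3 ≤ q) (D : Derivation ℂ L L) (hD : D (algebraMap (RatFunc ℂ) L RatFunc.X) = 1)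
    {x : L} {b : Fin q → L} (hb : Function.Injective b) (_hx : ∀ v, b v ≠ x)
    (hW : ∀ S : Fin 3 ↪ Fin q, WW (eta x b) (fun u => D (eta x b u)) S ≠ 0) {a0 a1 : Fin q}
    (ha : a0 ≠ a1) (𝒮 : Finset (Place ℂ L)) (τ : Place ℂ L → ℝ)
    (h𝒮 : ∀ w ∉ 𝒮, ramIdx (RatFunc ℂ) w.1 = 1 ∧ w.1 (algebraMap (RatFunc ℂ) L RatFunc.X) ≤ 1 ∧
      (∀ u, w.1 (eta x b u) ≤ 1) ∧ ∀ u v, u ≠ v → w.1 (eta x b u - eta x b v) = 1)
    (hτ : ∀ w ∈ 𝒮, ∀ S : Fin 3 ↪ Fin q,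
      ((log (w.1 (WW (eta x b) (fun u => D (eta x b u)) S)) : ℤ) : ℝ) + rhoR k w (eta x b) S +
        rhoC ε C a0 a1 w (eta x b) (algebraMap (RatFunc ℂ) L RatFunc.X) ≤ τ w) :
    0 ≤ ∑ w ∈ 𝒮, τ w := by
  classical
  by_contra hcon
  push Not at hcon
  have hL : IsFF ℂ L := isFF_of_ratFunc ℂ L
  obtain ⟨n, hn, g, hg0, hgreg, hgs⟩ := exists_small hL 𝒮 τ hcon
  set t : L := algebraMap (RatFunc ℂ) L RatFunc.X with ht
  set η : Fin q → L := eta x b with hηdef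
  have ht0 : t ≠ 0 := by
    rw [ht, Ne, map_eq_zero]
    exact RatFunc.X_ne_zero
  have hηinj : Function.Injective η := by
    intro u v huv
    rw [hηdef] at huv
    unfold eta at huv
    exact hb (sub_left_inj.1 (inv_injective huv))
  have hDreg : ∀ w ∉ 𝒮, ∀ f, w.1 f ≤ 1 → w.1 (D f) ≤ 1 := fun w hw f hf => by
    have h1 := der_le hD w hf
    rw [(h𝒮 w hw).1] at h1
    simpa using h1
  have hηreg : ∀ w ∉ 𝒮, ∀ u, w.1 (η u) ≤ 1 := fun w hw => (h𝒮 w hw).2.2.1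
  have hη1 : ∀ w ∉ 𝒮, ∀ u v, u ≠ v → w.1 (η u - η v) = 1 := fun w hw => (h𝒮 w hw).2.2.2
  have hWreg : ∀ p ∉ 𝒮, ∀ S, p.1 (WW η (fun u => D (η u)) S) ≤ 1 := fun p hp S =>
    (val_WW hL (hηreg p hp) (fun u => hDreg p hp _ (hηreg p hp u)) S).1
  have hFreg : ∀ p ∉ 𝒮, ∀ S, p.1 (WW η (fun u => D (η u)) S ^ n * g) ≤ 1 := fun p hp S => by
    rw [map_mul, map_pow]
    exact mul_le_one' (pow_le_one' (hWreg p hp S) n) (hgreg p hp)
  have hF0 : ∀ S, WW η (fun u => D (η u)) S ^ n * g ≠ 0 := fun S =>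
    mul_ne_zero (pow_ne_zero n (hW S)) hg0
  have hI : Nonempty (Fin 3 ↪ Fin q) := ⟨Fin.castLEEmb hq⟩
  obtain ⟨S1⟩ := hI
  have hI : Nonempty (Fin 3 ↪ Fin q) := ⟨S1⟩
  have hinf : Infinite (Place ℂ L) := Pool.Agent.Lib.MP_44a246_ntO.infinite_place hL
  obtain ⟨p1, hp1⟩ : ∃ p1 : Place ℂ L, p1 ∉ (↑𝒮 ∪
      {v : Place ℂ L | v.1 (WW η (fun u => D (η u)) S1 ^ n * g) ≠ 1} : Set (Place ℂ L)) :=
    (Set.Finite.union 𝒮.finite_toSet (hL.place_finite (hF0 S1))).exists_notMem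
  rw [Set.mem_union, not_or, Finset.mem_coe, Set.mem_ofPred_eq, not_not] at hp1
  obtain ⟨w, hw, T, hT, hmax⟩ := exists_max hL
    (fun S => Phi k ε δ C a0 a1 η t (fun S => WW η (fun u => D (η u)) S ^ n * g) n S) 𝒮 hp1.1
    (S1 := S1)
    (mul_pos (Complex.normSq_pos.2 (val_ne_zero hL hp1.2)) (Real.exp_pos _))
    (fun 𝒰 w hw hU S => tendsto_Phi hL hδ ha n S hU (hηreg w hw) (hη1 w hw) (h𝒮 w hw).2.1
      (hFreg w hw S))
    (fun 𝒰 w hw hU hfin hev S => by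
      obtain ⟨ℓ, hℓ, hval⟩ := exists_ell hL 𝒰 w hU hfin
      have hvne : ∀ᶠ p in (𝒰 : Filter (Place ℂ L)),
          val p (WW η (fun u => D (η u)) S ^ n * g) ≠ 0 := by
        filter_upwards [(hval _ (hF0 S)).1] with p hp
        exact val_ne_zero hL hp
      have hadd : ∀ᶠ p in (𝒰 : Filter (Place ℂ L)), ∀ u v,
          val p (η u - η v) = val p (η u) - val p (η v) := by
        filter_upwards [hev] with p hp u v
        exact val_sub hL (hηreg p hp u) (hηreg p hp v)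
      refine tendsto_Phi_zero S hℓ (hF0 S) hval hvne
        (RT_le hL hk0.le hk1 hε0.le hε1 hδ hC ha hηinj ht0 S hℓ hval hadd) ?_
      have h1 := hτ w hw S
      have h2 := hgs w hw
      have hWv : w.1 (WW η (fun u => D (η u)) S) ≠ 0 := (w.1.ne_zero_iff).2 (hW S)
      have hgv : w.1 g ≠ 0 := (w.1.ne_zero_iff).2 hg0
      rw [map_mul, map_pow, log_mul (pow_ne_zero n hWv) hgv, log_pow]
      have hn' : (0 : ℝ) < n := Nat.cast_pos.2 hn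
      have h3 := mul_le_mul_of_nonneg_left h1 hn'.le
      push_cast
      rw [nsmul_eq_mul]
      push_cast
      linarith)
  have hp : w.1 (t - algebraMap ℂ L (val w t)) = exp (-1 : ℤ) :=
    unif_of_unram w (h𝒮 w hw).1 (h𝒮 w hw).2.1
  exact no_max hL hδ hC hpw D hD ha 𝒮 hn hgreg hDreg hηreg hη1 hw hp hT hmax

end Pool.Agent.Lib.MP_44a246_ntMY
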