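import Pool.Agent.Lib.MP_44a246_ntMY.MY75

/-!
# (A7) From the maximum principle to the inequality for the edges
-/

namespace Pool.Agent.Lib.MP_44a246_ntMY

open Pool.Agent.Lib.MP_44a246_nt
open Pool.Agent.Lib.MP_44a246_ntL
open Pool.Agent.Lib.MP_44a246_ntR
open WithZero Module Polynomial Filter Topology

universe w

section Sums

variable {L : Type w} [Field L] [Algebra ℂ L]

theorem log_max_one' {y : ℤᵐ⁰} : log (max 1 y) = max 0 (log y) := by
  rcases eq_or_ne y 0 with h | h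
  · subst h
    simp
  rcases le_total 1 y with h1 | h1
  · rw [max_eq_right h1, max_eq_right]
    rwa [← log_one (M := ℤ), log_le_log one_ne_zero h]
  · rw [max_eq_left h1, log_one, max_eq_left]
    rwa [← log_one (M := ℤ), log_le_log h one_ne_zero]

/-- a partial sum of a nonnegative function -/
theorem sum_le_finsum' {f : Place ℂ L → ℤ} (hf : (Function.support f).Finite) (h0 : ∀ v, 0 ≤ f v)
    (𝒮 : Finset (Place ℂ L)) : ∑ v ∈ 𝒮, f v ≤ ∑ᶠ v, f v := by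
  classical
  have h2 : Function.support f ⊆ ↑(𝒮 ∪ hf.toFinset) := by
    intro v hv
    rw [Finset.coe_union, Set.Finite.coe_toFinset]
    exact Or.inr hv
  rw [finsum_eq_sum_of_support_subset _ h2]
  exact Finset.sum_le_sum_of_subset_of_nonneg Finset.subset_union_left fun v _ _ => h0 v

/-- the sum of the orders of the poles is at most the height -/
theorem sum_pole_le (hL : IsFF ℂ L) (y : L) (𝒮 : Finset (Place ℂ L)) :
    ∑ w ∈ 𝒮, max 0 (log (w.1 y)) ≤ height ℂ ![1, y] := by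
  have h1 : ∀ w : Place ℂ L, max 0 (log (w.1 y)) = log (max 1 (w.1 y)) := fun w =>
    log_max_one'.symm
  rw [Pool.Agent.Lib.MP_44a246_ntY.height_one, Finset.sum_congr rfl fun w _ => h1 w]
  exact sum_le_finsum' (Pool.Agent.Lib.MP_44a246_ntY.log_max_support hL y)
    (fun w => Pool.Agent.Lib.MP_44a246_ntY.log_max_nonneg w.1 y) 𝒮

theorem sum_ram_le [Algebra (RatFunc ℂ) L] [IsScalarTower ℂ (RatFunc ℂ) L]
    [FiniteDimensional (RatFunc ℂ) L] (hL : IsFF ℂ L) (𝒮 : Finset (Place ℂ L)) :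
    ∑ w ∈ 𝒮, ((ramIdx (RatFunc ℂ) w.1 : ℤ) - 1) ≤ ramDeg ℂ L (RatFunc ℂ) := by
  classical
  have hfin : (Function.support fun v : Place ℂ L => ramIdx (RatFunc ℂ) v.1 - 1).Finite := by
    refine (hL.ramIdx_finite (K := RatFunc ℂ)).subset fun v hv h => hv ?_
    simp only
    rw [h]
    rfl
  have h2 : (Function.support fun v : Place ℂ L => ramIdx (RatFunc ℂ) v.1 - 1) ⊆
      ↑(𝒮 ∪ hfin.toFinset) := by
    intro v hv
    rw [Finset.coe_union, Set.Finite.coe_toFinset]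
    exact Or.inr hv
  unfold ramDeg
  rw [finsum_eq_sum_of_support_subset _ h2]
  push_cast
  refine (Finset.sum_le_sum fun w _ => ?_).trans
    (Finset.sum_le_sum_of_subset_of_nonneg Finset.subset_union_left fun v _ _ =>
      Int.natCast_nonneg _)
  have := one_le_ramIdx (K := RatFunc ℂ) w.1 w.2.1
  push_cast [Nat.cast_sub this]
  exact le_rfl

theorem sum_ind_le {A B : Set (Place ℂ L)} (hA : A.Finite) (hB : B.Finite)
    (𝒮 : Finset (Place ℂ L)) [∀ w, Decidable (w ∈ A ∨ w ∈ B)] :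
    ∑ w ∈ 𝒮, (if w ∈ A ∨ w ∈ B then (1 : ℝ) else 0) ≤ A.ncard + B.ncard := by
  classical
  have h1 : ∑ w ∈ 𝒮, (if w ∈ A ∨ w ∈ B then (1 : ℝ) else 0) =
      ((𝒮.filter fun w => w ∈ A ∨ w ∈ B).card : ℝ) := by
    rw [Finset.sum_ite, Finset.sum_const_zero, add_zero, Finset.sum_const, nsmul_eq_mul, mul_one]
  rw [h1]
  have h2 : (𝒮.filter fun w => w ∈ A ∨ w ∈ B) ⊆ hA.toFinset ∪ hB.toFinset := by
    intro w hw
    rw [Finset.mem_filter] at hw
    rw [Finset.mem_union, Set.Finite.mem_toFinset, Set.Finite.mem_toFinset]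
    exact hw.2
  have h3 := (Finset.card_le_card h2).trans (Finset.card_union_le _ _)
  rw [Set.ncard_eq_toFinset_card A hA, Set.ncard_eq_toFinset_card B hB]
  exact_mod_cast h3

end Sums

section Main

variable {L : Type w} [Field L] [Algebra ℂ L] [Algebra (RatFunc ℂ) L]
  [IsScalarTower ℂ (RatFunc ℂ) L] [FiniteDimensional (RatFunc ℂ) L]

/-- the inequality for the height of the edges -/
theorem edges_le {q : ℕ} {k ε δ C : ℝ} (hk0 : 0 < k) (hk1 : k ≤ 1 / 2) (hε0 : 0 < ε)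
    (hε1 : ε ≤ 1 / 8) (hδ : 0 < δ) (hC : 0 ≤ C)
    (hpw : ∀ (η η' : Fin q → ℂ) (T : Fin 3 ↪ Fin q),
      (∀ u v, u ≠ v → η u ≠ η v) → WW η η' T ≠ 0 →
      (∀ S : Fin 3 ↪ Fin q, EE k ε δ η η' S ≤ EE k ε δ η η' T) →
      (1 - 4 * ε) * VV (c1 q) η η' - C * ∑ f : Fin 4 ↪ Fin q, Al η η' f ≤ LR k ε δ η η' T)
    (hq : 3 ≤ q) (D : Derivation ℂ L L) (hD : D (algebraMap (RatFunc ℂ) L RatFunc.X) = 1)
    {x : L} {b : Fin q → L} (hb : Function.Injective b) (hx : ∀ v, b v ≠ x)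
    (hW : ∀ S : Fin 3 ↪ Fin q, WW (eta x b) (fun u => D (eta x b u)) S ≠ 0)
    (hBfin : {w : Place ℂ L | ∃ u v, u ≠ v ∧ Meets w (b u) (b v)}.Finite) :
    (1 - 4 * ε) * (height ℂ (edges (eta x b)) : ℝ) ≤
      Set.ncard {w : Place ℂ L | ∃ v, Meets w x (b v)} +
      Set.ncard {w : Place ℂ L | ∃ u v, u ≠ v ∧ Meets w (b u) (b v)} +
      ramDeg ℂ L (RatFunc ℂ) + 6 * C * ∑ f : Fin 4 ↪ Fin q, (height ℂ ![1, chi (eta x b) f] : ℝ) +
      finrank (RatFunc ℂ) L := by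
  classical
  have hL : IsFF ℂ L := isFF_of_ratFunc ℂ L
  set t : L := algebraMap (RatFunc ℂ) L RatFunc.X with ht
  set η : Fin q → L := eta x b with hηdef
  have ht0 : t ≠ 0 := by
    rw [ht, Ne, map_eq_zero]
    exact RatFunc.X_ne_zero
  have hηinj : Function.Injective η := by
    intro u v huv
    rw [hηdef] at huv
    unfold eta at huv
    exact hb (sub_left_inj.1 (inv_injective huv))
  have hη0 : ∀ u, η u ≠ 0 := fun u => by
    rw [hηdef]
    unfold eta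
    exact inv_ne_zero (sub_ne_zero.2 (hx u))
  have hsub : ∀ u v, u ≠ v → η u - η v ≠ 0 := fun u v huv => sub_ne_zero.2 (hηinj.ne huv)
  -- the singular places
  have hfin : ({w : Place ℂ L | ramIdx (RatFunc ℂ) w.1 ≠ 1} ∪ {w : Place ℂ L | w.1 t ≠ 1} ∪
      (⋃ u, {w : Place ℂ L | w.1 (η u) ≠ 1}) ∪
      ⋃ u, ⋃ v, {w : Place ℂ L | u ≠ v ∧ w.1 (η u - η v) ≠ 1}).Finite := by
    refine (((hL.ramIdx_finite (K := RatFunc ℂ)).union (hL.place_finite ht0)).union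
      (Set.finite_iUnion fun u => hL.place_finite (hη0 u))).union
      (Set.finite_iUnion fun u => Set.finite_iUnion fun v => ?_)
    by_cases huv : u = v
    · refine Set.Finite.subset Set.finite_empty fun w hw => ?_
      exact absurd huv hw.1
    · exact (hL.place_finite (hsub u v huv)).subset fun w hw => hw.2
  set 𝒮 : Finset (Place ℂ L) := hfin.toFinset with h𝒮def
  have hout : ∀ w ∉ 𝒮, ramIdx (RatFunc ℂ) w.1 = 1 ∧ w.1 t = 1 ∧ (∀ u, w.1 (η u) = 1) ∧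
      ∀ u v, u ≠ v → w.1 (η u - η v) = 1 := by
    intro w hw
    rw [h𝒮def, Set.Finite.mem_toFinset] at hw
    simp only [Set.mem_union, Set.mem_iUnion, Set.mem_ofPred_eq, not_or, not_exists, not_and,
      not_not] at hw
    exact ⟨hw.1.1.1, hw.1.1.2, hw.1.2, hw.2⟩
  have h01 : (⟨0, by omega⟩ : Fin q) ≠ ⟨1, by omega⟩ := by
    intro h
    simpa using congrArg Fin.val h
  set a0 : Fin q := ⟨0, by omega⟩ with ha0
  set a1 : Fin q := ⟨1, by omega⟩ with ha1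
  set A : Set (Place ℂ L) := {w : Place ℂ L | ∃ v, Meets w x (b v)} with hA
  set B : Set (Place ℂ L) := {w : Place ℂ L | ∃ u v, u ≠ v ∧ Meets w (b u) (b v)} with hB
  have hmp := max_principle hk0 hk1 hε0 hε1 hδ hC hpw hq D hD hb hx hW (a0 := a0) (a1 := a1)
    h01 𝒮
    (fun w => ((ramIdx (RatFunc ℂ) w.1 : ℤ) - 1 : ℝ) + (if w ∈ A ∨ w ∈ B then (1 : ℝ) else 0) +
      rhoC ε C a0 a1 w (eta x b) (algebraMap (RatFunc ℂ) L RatFunc.X))
    (fun w hw => ⟨(hout w hw).1, (hout w hw).2.1.le, fun u => ((hout w hw).2.2.1 u).le,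
      (hout w hw).2.2.2⟩)
    (fun w _ S => by
      have h1 := exponent_le (k := k) hk0.le hk1 D (w := w) (e := (ramIdx (RatFunc ℂ) w.1 : ℤ))
        (fun f hf => der_le hD w hf) (fun f => logder_le hD w f) hx hb S (hW S)
      have h2 : (if (∃ v, Meets w x (b v)) ∨ ∃ u v, u ≠ v ∧ Meets w (b u) (b v) then (1 : ℝ)
          else 0) = if w ∈ A ∨ w ∈ B then (1 : ℝ) else 0 := rfl
      rw [h2] at h1
      linarith)
  -- the sums
  have hsum1 : (∑ w ∈ 𝒮, (((ramIdx (RatFunc ℂ) w.1 : ℤ) : ℝ) - 1)) ≤ ramDeg ℂ L (RatFunc ℂ) := by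
    have h1 := sum_ram_le (L := L) hL 𝒮
    have h2 : ((∑ w ∈ 𝒮, ((ramIdx (RatFunc ℂ) w.1 : ℤ) - 1) : ℤ) : ℝ) ≤
        ((ramDeg ℂ L (RatFunc ℂ) : ℤ) : ℝ) := by exact_mod_cast h1
    push_cast at h2
    push_cast
    exact h2
  have hAfin : A.Finite := finite_meet ℂ hL hx
  have hsum2 : ∑ w ∈ 𝒮, (if w ∈ A ∨ w ∈ B then (1 : ℝ) else 0) ≤ (A.ncard : ℝ) + B.ncard :=
    sum_ind_le hAfin hBfin 𝒮
  have hsum3 : ∑ w ∈ 𝒮, ∑ f : Fin 4 ↪ Fin q, max 0 ((log (w.1 (chi η f)) : ℤ) : ℝ) ≤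
      ∑ f : Fin 4 ↪ Fin q, (height ℂ ![1, chi η f] : ℝ) := by
    rw [Finset.sum_comm]
    refine Finset.sum_le_sum fun f _ => ?_
    have h1 := sum_pole_le hL (chi η f) 𝒮
    have h2 : ((∑ w ∈ 𝒮, max 0 (log (w.1 (chi η f))) : ℤ) : ℝ) ≤
        ((height ℂ ![1, chi η f] : ℤ) : ℝ) := by exact_mod_cast h1
    push_cast at h2
    exact h2
  have hsum4 : ∑ w ∈ 𝒮, max 0 ((log (w.1 t) : ℤ) : ℝ) ≤ finrank (RatFunc ℂ) L := by
    have h1 := sum_pole_le hL t 𝒮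
    have h3 : (finrank (RatFunc ℂ) L : ℤ) = height ℂ ![1, t] := finrank_eq_height ℂ L
    rw [← h3] at h1
    have h2 : ((∑ w ∈ 𝒮, max 0 (log (w.1 t)) : ℤ) : ℝ) ≤
        ((finrank (RatFunc ℂ) L : ℤ) : ℝ) := by exact_mod_cast h1
    push_cast at h2
    exact h2
  have hsum5 : ∑ w ∈ 𝒮, ((log (vmax w.1 (edges η)) : ℤ) : ℝ) = height ℂ (edges η) := by
    have h1 : height ℂ (edges η) = ∑ w ∈ 𝒮, log (vmax w.1 (edges η)) := by
      unfold height
      refine finsum_eq_sum_of_support_subset _ fun w hw => ?_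
      by_contra hcon
      apply hw
      have hcon' : w ∉ 𝒮 := hcon
      have h2 : vmax w.1 (edges η) = 1 := by
        apply le_antisymm
        · refine vmax_le _ fun a => ?_
          unfold edges
          by_cases ha : a.1 = a.2
          · rw [ha, sub_self, map_zero]
            exact zero_le
          · rw [(hout w hcon').2.2.2 _ _ ha]
        · have h3 := le_vmax w.1 (edges η) (a0, a1)
          unfold edges at h3
          rw [(hout w hcon').2.2.2 _ _ h01] at h3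
          exact h3
      show log (vmax w.1 (edges η)) = 0
      rw [h2, log_one]
    rw [h1]
    push_cast
    rfl
  have hsum6 : ∑ w ∈ 𝒮, ((log (w.1 (η a0 - η a1)) : ℤ) : ℝ) = 0 := by
    have h1 := hL.product_formula (hsub a0 a1 h01)
    rw [finsum_eq_sum_of_support_subset (s := 𝒮) _ fun w hw => ?_] at h1
    · have h2 : ((∑ w ∈ 𝒮, log (w.1 (η a0 - η a1)) : ℤ) : ℝ) = ((0 : ℤ) : ℝ) := by rw [h1]
      push_cast at h2
      exact h2
    · by_contra hcon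
      apply hw
      have hcon' : w ∉ 𝒮 := hcon
      show log (w.1 (η a0 - η a1)) = 0
      rw [(hout w hcon').2.2.2 _ _ h01, log_one]
  have hrho : ∑ w ∈ 𝒮, rhoC ε C a0 a1 w η t =
      6 * C * (∑ w ∈ 𝒮, ∑ f : Fin 4 ↪ Fin q, max 0 ((log (w.1 (chi η f)) : ℤ) : ℝ)) +
      (∑ w ∈ 𝒮, max 0 ((log (w.1 t) : ℤ) : ℝ)) -
      (1 - 4 * ε) * ((∑ w ∈ 𝒮, ((log (vmax w.1 (edges η)) : ℤ) : ℝ)) -
        ∑ w ∈ 𝒮, ((log (w.1 (η a0 - η a1)) : ℤ) : ℝ)) := by
    unfold rhoC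
    rw [Finset.sum_sub_distrib, Finset.sum_add_distrib, ← Finset.mul_sum, ← Finset.mul_sum,
      Finset.sum_sub_distrib]
  rw [Finset.sum_add_distrib, Finset.sum_add_distrib, hrho, hsum5, hsum6] at hmp
  have h7 : 6 * C * (∑ w ∈ 𝒮, ∑ f : Fin 4 ↪ Fin q, max 0 ((log (w.1 (chi η f)) : ℤ) : ℝ)) ≤
      6 * C * ∑ f : Fin 4 ↪ Fin q, (height ℂ ![1, chi η f] : ℝ) :=
    mul_le_mul_of_nonneg_left hsum3 (by positivity)
  push_cast at hsum1 hmp ⊢
  rw [sub_zero] at hmp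
  have h8 : ∑ w ∈ 𝒮, (((ramIdx (RatFunc ℂ) w.1 : ℕ) : ℝ) - 1) ≤ ramDeg ℂ L (RatFunc ℂ) := hsum1
  linarith [hmp, h7, hsum2, hsum4, h8]

end Main

end Pool.Agent.Lib.MP_44a246_ntMY
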